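import Pool.Agent.K4H70.RT.Bdy

/-!
Exactness of the complex of constant cochains with vanishing projections on the boundary.
-/

set_option autoImplicit false
set_option linter.unusedSectionVars false
set_option linter.unusedVariables false

open scoped Classical

namespace Pool.Agent.K4H70.RT

open Pool.Agent.Q134.SV
open Pool.Agent.K4H70.SV hiding Zst zig_step zig_down zig_start

variable {X V : Type} [Fintype X] [Fintype V] {G : SimpleGraph X} {n : ℕ} {ι : V → X}
  {z : (Fin (n + 1) → X) → ℝ} {Ω : Type} [Fintype Ω] {S : V → (Ω → ℝ) →ₗ[ℝ] (Ω → ℝ)}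

/-- the system extended by the identity -/
noncomputable def Sx (ι : V → X) (S : V → (Ω → ℝ) →ₗ[ℝ] (Ω → ℝ)) (x : X) :
    (Ω → ℝ) →ₗ[ℝ] (Ω → ℝ) :=
  if h : ∃ v, ι v = x then S h.choose else LinearMap.id

lemma Sx_in (hι : Function.Injective ι) (v : V) : Sx ι S (ι v) = S v := by
  unfold Sx
  have h : ∃ w, ι w = ι v := ⟨v, rfl⟩
  rw [dif_pos h]
  rw [hι h.choose_spec]

lemma Sx_out {x : X} (hx : x ∉ Set.range ι) (m : Ω → ℝ) : Sx ι S x m = m := by
  unfold Sx
  have h : ¬ ∃ v, ι v = x := hx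
  rw [dif_neg h]
  rfl

lemma Sx_com (hι : Function.Injective ι) (hS : Clf (G.comap ι) S) : Com G (Sx ι S) := by
  refine ⟨fun x m => ?_, fun x y m hxy => ?_⟩
  · by_cases hx : x ∈ Set.range ι
    · obtain ⟨v, rfl⟩ := hx
      rw [Sx_in hι, hS.sq]
    · rw [Sx_out hx, Sx_out hx]
  · by_cases hx : x ∈ Set.range ι
    · by_cases hy : y ∈ Set.range ι
      · obtain ⟨v, rfl⟩ := hx
        obtain ⟨w, rfl⟩ := hy
        rw [Sx_in hι, Sx_in hι]
        exact hS.comm v w m hxy
      · rw [Sx_out hy, Sx_out hy]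
    · rw [Sx_out hx, Sx_out hx]

lemma Sx_sym (hι : Function.Injective ι) (hs : Sym S) : Sym (Sx ι S) := by
  intro x a b
  by_cases hx : x ∈ Set.range ι
  · obtain ⟨v, rfl⟩ := hx
    rw [Sx_in hι]
    exact hs v a b
  · rw [Sx_out hx, Sx_out hx]

lemma Sx_neg (hι : Function.Injective ι) (hS : Clf (G.comap ι) S) :
    Com G (Sx ι fun v => - S v) := Sx_com hι hS.neg'

lemma pl_map (hι : Function.Injective ι) (r : ℝ) (l : List V) (m : Ω → ℝ) :
    PL (Sx ι S) r (l.map ι) m = PL S r l m := by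
  induction l with
  | nil => rfl
  | cons v l ih =>
    rw [List.map_cons, PL_cons, PL_cons, ih, Pr_apply, Pr_apply, Sx_in hι]

lemma pf_image (hι : Function.Injective ι) (hS : Clf (G.comap ι) S) (r : ℝ) {τ : Finset V}
    (hτ : Cq (G.comap ι) τ) (m : Ω → ℝ) :
    PF (Sx ι S) r (τ.image ι) m = PF S r τ m := by
  rw [PF_apply, PF_apply, ← pl_map hι]
  refine (Sx_com hι hS).PL_perm r ?_ ?_ m
  · rw [List.perm_ext_iff_of_nodup (Finset.nodup_toList _)
      ((Finset.nodup_toList _).map hι)]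
    intro x
    simp
  · refine Cq.pairwise (T := τ.image ι) ?_ (List.Perm.refl _)
    intro a ha b hb hab
    obtain ⟨a', ha', rfl⟩ := Finset.mem_image.1 ha
    obtain ⟨b', hb', rfl⟩ := Finset.mem_image.1 hb
    exact hτ a' ha' b' hb' fun e => hab (by rw [e])

lemma pf_in (hι : Function.Injective ι) (hS : Clf (G.comap ι) S) (r : ℝ) {k : ℕ} {s : Fin k → V}
    (hs : CT (G.comap ι) s) (m : Ω → ℝ) :
    PF (Sx ι S) r (Finset.univ.image (ι ∘ s)) m = PF S r (Finset.univ.image s) m := by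
  rw [← pf_image hι hS r (cq_image hs), Finset.image_image]

lemma pf_out (hι : Function.Injective ι) (hS : Clf (G.comap ι) S) {k : ℕ} {s : Fin k → X}
    (hs : CT G s) (h : ∃ i, s i ∉ Set.range ι) (m : Ω → ℝ) :
    PF (Sx ι S) (-1) (Finset.univ.image s) m = 0 := by
  obtain ⟨i, hi⟩ := h
  refine (Sx_com hι hS).PF_zero (by norm_num) (cq_image hs)
    (Finset.mem_image_of_mem s (Finset.mem_univ i)) ?_
  rw [Sx_out hi, neg_neg, one_smul]

/-- extension by zero of a cochain on the boundary -/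
noncomputable def ez (ι : V → X) {k : ℕ} {M : Type} [Zero M] (χ : (Fin k → V) → M)
    (s : Fin k → X) : M :=
  if h : ∀ i, ∃ v, ι v = s i then χ fun i => (h i).choose else 0

lemma ez_in {k : ℕ} {M : Type} [Zero M] (hι : Function.Injective ι) (χ : (Fin k → V) → M)
    (s : Fin k → V) : ez ι χ (ι ∘ s) = χ s := by
  unfold ez
  have h : ∀ i, ∃ v, ι v = (ι ∘ s) i := fun i => ⟨s i, rfl⟩
  rw [dif_pos h]
  congr 1
  funext i
  exact hι (h i).choose_spec

lemma ez_out {k : ℕ} {M : Type} [Zero M] (χ : (Fin k → V) → M)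
    {s : Fin k → X} (h : ¬ ∀ i, ∃ v, ι v = s i) : ez ι χ s = 0 := dif_neg h

lemma ez_alt {k : ℕ} {M : Type} [AddCommGroup M] [Module ℝ M] (hι : Function.Injective ι)
    {χ : (Fin k → V) → M} (hχ : Alt χ) : Alt (ez ι χ) := by
  intro s i j hij
  by_cases h : ∀ i, ∃ v, ι v = s i
  · choose t ht using h
    have e : s = ι ∘ t := (funext ht).symm
    rw [e, Function.comp_assoc, ez_in hι, ez_in hι]
    exact hχ t i j hij
  · rw [ez_out χ h, ez_out χ, neg_zero]
    intro h'
    refine h fun a => ?_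
    have := h' (Equiv.swap i j a)
    simpa using this

lemma tc_ez {k : ℕ} (hι : Function.Injective ι) (χ : (Fin k → V) → Ω → ℝ) (s : Fin (k + 1) → V) :
    tc (Io (Ω → ℝ)) (ez ι χ) (ι ∘ s) = tc (Io (Ω → ℝ)) χ s := by
  unfold tc
  refine Finset.sum_congr rfl fun i _ => ?_
  rw [Function.comp_assoc, ez_in hι]
  rfl

lemma tc_comp {k : ℕ} (χ : (Fin k → X) → Ω → ℝ) (s : Fin (k + 1) → V) :
    tc (Io (Ω → ℝ)) (fun t => χ (ι ∘ t)) s = tc (Io (Ω → ℝ)) χ (ι ∘ s) := by
  unfold tc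
  refine Finset.sum_congr rfl fun i _ => ?_
  rw [Function.comp_assoc]
  rfl

/-- exactness -/
theorem exact_all (hM : MPair n G ι z) (hS : Clf (G.comap ι) S) (hs : Sym S)
    {Bc : (Fin (n + 1) → V ⊕ V × V) → ℝ} (hB : Alt Bc)
    (hB' : ∀ v, Bc v ≠ 0 → GT (G.comap ι) v)
    (hzB : ∀ y, ∑ x, Bc (Fin.cons x y) = zh (zT ι z) y)
    (hk1 : KeyP G (Set.range ι) (Sx ι S)) (hk2 : KeyP G (Set.range ι) (fun v => - Sx ι S v)) {k : ℕ}
    {φ : (Fin (k + 2) → X) → Ω → ℝ} (hφ : Alt φ)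
    (hc : ∀ s : Fin (k + 3) → X, CT G s → tc (Io (Ω → ℝ)) φ s = 0)
    (h0 : ∀ s, CT G s → PF (Sx ι S) (-1) (Finset.univ.image s) (φ s) = 0) :
    ∃ χ : (Fin (k + 1) → X) → Ω → ℝ, Alt χ ∧
      (∀ s : Fin (k + 2) → X, CT G s → φ s = tc (Io (Ω → ℝ)) χ s) ∧
      ∀ s, CT G s → PF (Sx ι S) (-1) (Finset.univ.image s) (χ s) = 0 := by
  have hι := hM.inj
  obtain ⟨χ₀, h1, h2, _⟩ := hk1 (k + 1) φ hφ hc fun s hs' _ => h0 s hs'
  -- the restriction to the boundary
  set α : (Fin (k + 1) → V) → Ω → ℝ := fun s =>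
    if CT (G.comap ι) s then PF S (-1) (Finset.univ.image s) (χ₀ (ι ∘ s)) else 0 with hα
  have hαa : Alt α := by
    intro s i j hij
    simp only [hα]
    by_cases hs' : CT (G.comap ι) s
    · rw [if_pos ((ct_swap i j).2 hs'), if_pos hs', image_swap, ← Function.comp_assoc,
        h1 _ i j hij, map_neg]
    · rw [if_neg fun h => hs' ((ct_swap i j).1 h), if_neg hs', neg_zero]
  have hαs : Sec (G.comap ι) S α := by
    refine ⟨hαa, fun s hs' => ?_, fun s i => ?_⟩
    · by_contra h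
      exact hs' (if_neg h)
    · simp only [hα]
      split_ifs with h
      · rw [hS.S_PF (by norm_num) (cq_image h) (Finset.mem_image_of_mem s (Finset.mem_univ i)),
          neg_smul, one_smul]
      · simp
  have hαc : ∀ s : Fin (k + 2) → V, CT (G.comap ι) s → tc (Pr S (-1)) α s = 0 := by
    intro s hs'
    have e1 : tc (Pr S (-1)) α s =
        PF S (-1) (Finset.univ.image s) (tc (Io (Ω → ℝ)) (fun t => χ₀ (ι ∘ t)) s) := by
      unfold tc
      rw [map_sum]
      refine Finset.sum_congr rfl fun i _ => ?_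
      rw [map_smul]
      congr 1
      have hni : s i ∉ Finset.univ.image (s ∘ i.succAbove) := by
        intro h'
        obtain ⟨j, _, hj⟩ := Finset.mem_image.1 h'
        exact (hs' _ _ (Fin.succAbove_ne i j)).ne hj
      have e := image_succAbove s i
      rw [e, hS.PF_insert (-1) hni (by rw [← e]; exact cq_image hs')]
      congr 1
      simp only [hα]
      rw [if_pos (hs'.sub i)]
      rfl
    have hs2 : CT G (ι ∘ s) := fun i j hij => hs' i j hij
    rw [e1, tc_comp, ← h2 _ hs2, ← pf_in hι hS (-1) hs']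
    exact h0 _ hs2
  obtain ⟨χT, h3, h4, h5⟩ := tw_lift hM hS hB hB' hzB hαs hαc
  -- the difference
  have h6 : Alt (ez ι χT) := ez_alt hι h3
  obtain ⟨χ₁, h7, h8, h9⟩ := rel_exact hM.pair (Sx_com hι hS) (Sx_sym hι hs)
    (fun v hv m => Sx_out hv m) hk2 (h6.tc (Io (Ω → ℝ)))
    (fun s _ => two_tc_zero (tc_tc _ _ _ s fun i j hij m => rfl))
    (fun s hs' hsB => by
      choose t ht using hsB
      have e : s = ι ∘ t := (funext ht).symm
      rw [e, tc_ez hι]
      refine h4 t fun i j hij => ?_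
      have := hs' i j hij
      rw [e] at this
      exact this)
  refine ⟨fun s => χ₀ s - ez ι χT s + χ₁ s, fun s i j hij => ?_, fun s hs' => ?_, fun s hs' => ?_⟩
  · simp only
    rw [h1 s i j hij, h6 s i j hij, h7 s i j hij]
    abel
  · rw [tc_add (Io (Ω → ℝ)) (fun s => χ₀ s - ez ι χT s) χ₁, tc_sub, h2 s hs', ← h8 s hs']
    abel
  · rw [map_add, map_sub, h9 s hs', add_zero]
    by_cases hB : ∀ i, ∃ v, ι v = s i
    · choose t ht using hB
      have e : s = ι ∘ t := (funext ht).symm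
      have ht' : CT (G.comap ι) t := by
        intro i j hij
        have := hs' i j hij
        rw [e] at this
        exact this
      rw [e, ez_in hι, pf_in hι hS (-1) ht', pf_in hι hS (-1) ht', h5 t ht']
      simp only [hα]
      rw [if_pos ht', sub_self]
    · push Not at hB
      obtain ⟨i, hi⟩ := hB
      have h10 : ∃ i, s i ∉ Set.range ι := ⟨i, fun ⟨v, hv⟩ => hi v hv⟩
      rw [pf_out hι hS hs' h10, pf_out hι hS hs' h10, sub_self]

/-- injectivity in the bottom degree -/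
theorem inj_all (hM : MPair n G ι z) (hk1 : KeyP G (Set.range ι) (Sx ι S))
    {φ : (Fin 1 → X) → Ω → ℝ}
    (hc : ∀ s : Fin 2 → X, CT G s → tc (Io (Ω → ℝ)) φ s = 0)
    (h0 : ∀ s, CT G s → PF (Sx ι S) (-1) (Finset.univ.image s) (φ s) = 0) (s : Fin 1 → X) :
    φ s = 0 := by
  obtain ⟨ζ, _, h2, h3⟩ := hk1 0 φ
    (fun s i j hij => absurd (by rw [Fin.eq_zero i, Fin.eq_zero j]) hij) hc
    fun s hs' _ => h0 s hs'
  rw [h2 s fun i j hij => absurd (by rw [Fin.eq_zero i, Fin.eq_zero j]) hij, h3 rfl, tc_one]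
  simp

end Pool.Agent.K4H70.RT
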