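import Pool.Agent.K4H70.RT.Hom
import Pool.Agent.K4H70.SV.Sph

/-!
The vanishing of the classes of the group in the top dimension.
-/

set_option autoImplicit false
set_option linter.unusedSectionVars false
set_option linter.unusedVariables false

open scoped Classical

namespace Pool.Agent.K4H70.RT

open Pool.Agent.Q134.SV
open Pool.Agent.K4H70.SV

variable {P X : Type} [Group P] {Gc : SimpleGraph (P × X)} {K : SimpleGraph X}
  {R : ∀ k, List (P × X) → (Fin k → P × X) → ℝ}

/-- invariant cochains -/
def Inv (Φ : List (P × X) → ℝ) : Prop := ∀ (γ : P) l, Φ (l.map (sh γ)) = Φ l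

variable (R) in
/-- the extension of a cochain of the base -/
noncomputable def exto {m : ℕ} (a : (Fin m → X) → ℝ) : List (P × X) → ℝ :=
  rho R fun l => ev a (l.map Prod.snd)

section

variable (hR : RP Gc R) (hcov : ∀ y y', Gc.Adj y y' → K.Adj y.2 y'.2)

include hR

lemma exto_inv {m : ℕ} (a : (Fin m → X) → ℝ) : Inv (exto R a) := by
  intro γ l
  unfold exto
  rw [hR.rho_map]
  congr 1
  funext l'
  rw [List.map_map]
  rfl

include hcov

lemma exto_dL {m : ℕ} {a : (Fin m → X) → ℝ}
    (ha : ∀ s : Fin (m + 1) → X, CT K s → tc (fun _ => (LinearMap.id : ℝ →ₗ[ℝ] ℝ)) a s = 0)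
    {x : List (P × X)} (hx : x.length = m + 1) : dL x (exto R a) = 0 := by
  unfold exto
  rw [← hR.rho_dL, rho_eq R _ hx]
  have h1 : ∀ y : Fin (m + 1) → P × X, R (m + 1) x y *
      dL (List.ofFn y) (fun l => ev a (l.map Prod.snd)) = 0 := by
    intro y
    by_cases h0 : R (m + 1) x y = 0
    · rw [h0, zero_mul]
    · have h2 : CT K (Prod.snd ∘ y) := fun i j hij =>
        hcov _ _ (((hR.lev _).ch x hx).supp y h0 i j hij)
      rw [← dL_lmap, List.map_ofFn, dL_ofFn]
      simp only [ev_ofFn]
      rw [ha _ h2, mul_zero]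
  rw [finsum_congr h1, finsum_zero, mul_zero]

omit hcov

lemma exto_clq {m : ℕ} {a : (Fin m → X) → ℝ} (ha : Alt a) {x : List (P × X)}
    (hx : x.length = m) (hc : x.Pairwise Gc.Adj) : exto R a x = ev a (x.map Prod.snd) := by
  unfold exto
  rw [rho_eq R _ hx]
  have h1 : ∀ y : Fin m → P × X, R m x y * ev a ((List.ofFn y).map Prod.snd) =
      dtl (List.ofFn y) x * ev a ((List.ofFn y).map Prod.snd) := by
    intro y
    rw [(hR.lev m).clq x hx hc]
  rw [finsum_congr h1, dtl_sum m hx (Ψ := fun l => ev a (l.map Prod.snd))]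
  · have : (m.factorial : ℝ) ≠ 0 := by positivity
    field_simp
  · intro p b c q
    simp only [List.map_append, List.map_cons]
    exact ha.ev_swap' _ _ _ _

include hcov

/-- in the top dimension the invariant cocycles are coboundaries on the cycles -/
theorem asph [Fintype X] {n : ℕ} (htop : ∀ a : (Fin (n + 1) → X) → ℝ, LCycle K ∅ a → a = 0)
    {g : X → X → P} (hg : ∀ y y', Gc.Adj y y' → y'.1 = y.1 * g y.2 y'.2)
    (c : (List (P × X) → ℝ) →ₗ[ℝ] ℝ)
    (hloc : ∀ Ψ : List (P × X) → ℝ, (∀ l, l.length = n + 1 → Ψ l = 0) → c Ψ = 0)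
    (hc : ∀ Φ : List (P × X) → ℝ, Inv Φ → c (fun l => dL l Φ) = 0)
    {Ψ : List (P × X) → ℝ} (hΨ : Inv Ψ) (hd : ∀ l, l.length = n + 2 → dL l Ψ = 0) : c Ψ = 0 := by
  have hcongr : ∀ Ψ₁ Ψ₂ : List (P × X) → ℝ, (∀ l, l.length = n + 1 → Ψ₁ l = Ψ₂ l) → c Ψ₁ = c Ψ₂ := by
    intro Ψ₁ Ψ₂ h
    rw [← sub_eq_zero, ← map_sub]
    exact hloc _ fun l hl => by rw [Pi.sub_apply, h l hl, sub_self]
  -- truncation
  set Ψ' : List (P × X) → ℝ := fun l => if l.length = n + 1 then Ψ l else 0 with hΨ'
  have hinv : Inv Ψ' := by
    intro γ l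
    simp only [hΨ', List.length_map]
    rw [hΨ γ l]
  have hd' : (fun l => dL l Ψ') = fun _ => 0 := by
    funext l
    by_cases hl : l.length = n + 2
    · rw [dL_congr (F' := Ψ) fun l' hl' => if_pos (by omega)]
      exact hd l hl
    · exact dL_zero_of fun l' hl' => if_neg (by omega)
  have h1 : c Ψ = c Ψ' := hcongr _ _ fun l hl => by simp only [hΨ', if_pos hl]
  -- the homotopy
  have h2 : ∀ x, x.length = n + 1 → Ψ' x = rho R Ψ' x - dL x (Hm R n Ψ') := by
    intro x hx
    have := hR.hom (n + 1) Ψ' x hx
    rw [hd', hR.Hm_zero] at this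
    simp only [Nat.add_sub_cancel] at this
    linarith
  have h3 : c Ψ' = c (rho R Ψ') := by
    have e : c (fun x => rho R Ψ' x - dL x (Hm R n Ψ')) = c (rho R Ψ') -
        c (fun x => dL x (Hm R n Ψ')) := by
      rw [← map_sub]
      rfl
    rw [hcongr _ _ h2, e, hc _ fun γ l => ?_, sub_zero]
    rw [hR.Hm_map]
    congr 1
    funext l'
    exact hinv γ l'
  -- the pushforward
  set q : (Fin (n + 1) → X) → List (P × X) → ℝ := fun s x =>
    if x.length = n + 1 then ∑ᶠ y : Fin (n + 1) → P × X,
      (if Prod.snd ∘ y = s then R (n + 1) x y else 0) else 0 with hq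
  have hfin : ∀ x, x.length = n + 1 → ∀ f : (Fin (n + 1) → P × X) → ℝ,
      (∀ y, R (n + 1) x y = 0 → f y = 0) → (Function.support f).Finite := by
    intro x hx f hf
    exact ((hR.lev _).ch x hx).fin.subset fun y hy h0 => hy (hf y h0)
  have hra : Alt fun s => c (q s) := by
    intro s i j hij
    simp only
    rw [← map_neg]
    refine hcongr _ _ fun x hx => ?_
    simp only [hq, if_pos hx, Pi.neg_apply]
    rw [← finsum_neg_distrib, ← finsum_comp_equiv (Equiv.arrowCongr (Equiv.swap i j)
      (Equiv.refl (P × X)))]
    refine finsum_congr fun y => ?_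
    have e1 : (Equiv.arrowCongr (Equiv.swap i j) (Equiv.refl (P × X))) y = y ∘ Equiv.swap i j := by
      funext k
      simp [Equiv.arrowCongr]
    have e2 : Prod.snd ∘ (y ∘ Equiv.swap i j) = s ∘ Equiv.swap i j ↔ Prod.snd ∘ y = s := by
      rw [← Function.comp_assoc]
      constructor
      · intro h
        funext k
        have := congrFun h (Equiv.swap i j k)
        simpa using this
      · intro h
        rw [h]
    rw [e1]
    by_cases hs : Prod.snd ∘ y = s
    · rw [if_pos (e2.2 hs), if_pos hs]
      exact ((hR.lev _).ch x hx).alt y i j hij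
    · rw [if_neg fun h => hs (e2.1 h), if_neg hs, neg_zero]
  have hr : (fun s => c (q s)) = 0 := by
    refine htop _ ⟨⟨fun v i j hij => hra v i j hij, fun s hs => ⟨?_, fun i u hu =>
      absurd hu (Finset.notMem_empty u)⟩⟩, ?_⟩
    · by_contra hcl
      apply hs
      refine hloc _ fun x hx => ?_
      simp only [hq, if_pos hx]
      rw [finsum_eq_zero_of_forall_eq_zero]
      intro y
      by_cases hy : Prod.snd ∘ y = s
      · rw [if_pos hy]
        by_contra h0
        apply hcl
        intro i j hij
        have := hcov _ _ (((hR.lev _).ch x hx).supp y h0 i j hij)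
        rw [← hy]
        exact this
      · rw [if_neg hy]
    · refine sum_update_of_cons hra fun t => ?_
      rw [← map_sum]
      set Φ : List (P × X) → ℝ := fun x => if x.length = n then ∑ᶠ v : Fin n → P × X,
        (if Prod.snd ∘ v = t then R n x v else 0) else 0 with hΦ
      have hΦi : Inv Φ := by
        intro γ x
        simp only [hΦ, List.length_map]
        by_cases hx : x.length = n
        · rw [if_pos hx, if_pos hx,
            ← finsum_comp_equiv (Equiv.arrowCongr (Equiv.refl (Fin n)) (shE (X := X) γ))]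
          refine finsum_congr fun y => ?_
          have e : (Equiv.arrowCongr (Equiv.refl (Fin n)) (shE (X := X) γ)) y = sh γ ∘ y := rfl
          rw [e, (hR.lev _).eqv γ x hx y]
          rfl
        · rw [if_neg hx, if_neg hx]
      rw [← hc Φ hΦi]
      refine hcongr _ _ fun x hx => ?_
      rw [Finset.sum_apply]
      simp only [hq, if_pos hx]
      rw [← finsum_sum_comm _ _ fun w _ => hfin x hx _ fun y h0 => by simp [h0]]
      have h5 : ∀ y : Fin (n + 1) → P × X,
          ∑ w : X, (if Prod.snd ∘ y = Fin.cons w t then R (n + 1) x y else 0) =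
          if Prod.snd ∘ Fin.tail y = t then R (n + 1) x y else 0 := by
        intro y
        rw [Finset.sum_eq_single (y 0).2]
        · by_cases ht : Prod.snd ∘ Fin.tail y = t
          · rw [if_pos ht, if_pos]
            rw [← ht]
            funext i
            refine Fin.cases ?_ (fun i => ?_) i
            · simp
            · simp [Fin.tail]
          · rw [if_neg ht, if_neg]
            intro h
            apply ht
            funext i
            have := congrFun h i.succ
            simpa [Fin.tail] using this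
        · intro w _ hw
          rw [if_neg]
          intro h
          apply hw
          have := congrFun h 0
          simpa using this.symm
        · intro h; exact absurd (Finset.mem_univ _) h
      rw [finsum_congr h5, fs_cons (hfin x hx _ fun y h0 => by simp [h0])]
      have h6 : ∀ v : Fin n → P × X, ∑ᶠ w : P × X,
          (if Prod.snd ∘ Fin.tail (Fin.cons w v : Fin (n + 1) → P × X) = t then
            R (n + 1) x (Fin.cons w v) else 0) =
          dL x fun x' => if Prod.snd ∘ v = t then R n x' v else 0 := by
        intro v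
        simp only [Fin.tail_cons]
        by_cases hv : Prod.snd ∘ v = t
        · simp only [if_pos hv]
          exact hR.bd n x hx v
        · simp only [if_neg hv, finsum_zero, dL_zero]
      rw [finsum_congr h6, ← dL_fs]
      · refine dL_congr fun x' hx' => ?_
        simp only [hΦ]
        rw [if_pos (by omega)]
      · intro x' hx'
        refine ((hR.lev _).ch x' (by omega)).fin.subset fun y hy => ?_
        rw [Function.mem_support] at hy ⊢
        intro h0
        apply hy
        rw [h0]
        simp
  -- the conclusion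
  have h7 : ∀ x, x.length = n + 1 → rho R Ψ' x = ∑ s : Fin (n + 1) → X,
      ((1 / ((n + 1).factorial : ℝ)) * Ψ' (List.ofFn fun i =>
        (if i = 0 then (1 : P) else g (s 0) (s i), s i))) * q s x := by
    intro x hx
    rw [rho_eq R _ hx]
    simp only [hq, if_pos hx, mul_assoc]
    rw [← Finset.mul_sum]
    congr 1
    have h8 : ∀ s : Fin (n + 1) → X, Ψ' (List.ofFn fun i =>
        (if i = 0 then (1 : P) else g (s 0) (s i), s i)) *
        ∑ᶠ y : Fin (n + 1) → P × X, (if Prod.snd ∘ y = s then R (n + 1) x y else 0) =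
        ∑ᶠ y : Fin (n + 1) → P × X, (if Prod.snd ∘ y = s then R (n + 1) x y * Ψ' (List.ofFn y)
          else 0) := by
      intro s
      rw [mul_finsum]
      refine finsum_congr fun y => ?_
      by_cases hy : Prod.snd ∘ y = s
      · rw [if_pos hy, if_pos hy]
        by_cases h0 : R (n + 1) x y = 0
        · rw [h0, mul_zero, zero_mul]
        · have h9 := ((hR.lev _).ch x hx).supp y h0
          have h10 : List.ofFn y = (List.ofFn fun i =>
              (if i = 0 then (1 : P) else g (s 0) (s i), s i)).map (sh (y 0).1) := by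
            rw [List.map_ofFn]
            congr 1
            funext i
            have hs : ∀ i, s i = (y i).2 := fun i => by rw [← hy]; rfl
            simp only [Function.comp_apply, sh]
            by_cases hi : i = 0
            · subst hi
              rw [if_pos rfl, mul_one, hs]
            · rw [if_neg hi, hs, hs, ← hg _ _ (h9 0 i (Ne.symm hi))]
          rw [h10, hinv, mul_comm]
      · rw [if_neg hy, if_neg hy, mul_zero]
    rw [Finset.sum_congr rfl fun s _ => h8 s, ← finsum_sum_comm]
    · refine finsum_congr fun y => ?_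
      rw [Finset.sum_ite_eq]
      simp
    · intro s _
      exact hfin x hx _ fun y h0 => by simp [h0]
  have h11 : c (rho R Ψ') = c (∑ s : Fin (n + 1) → X,
      ((1 / ((n + 1).factorial : ℝ)) * Ψ' (List.ofFn fun i =>
        (if i = 0 then (1 : P) else g (s 0) (s i), s i))) • q s) := by
    refine hcongr _ _ fun x hx => ?_
    rw [h7 x hx, Finset.sum_apply]
    rfl
  rw [h1, h3, h11, map_sum]
  refine Finset.sum_eq_zero fun s _ => ?_
  rw [map_smul, congrFun hr s]
  simp

end

end Pool.Agent.K4H70.RT
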