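import Pool.Agent.K4H70.RT.Rel
import Pool.Agent.K4H70.SV.Euler

/-!
The boundary of a homology manifold.
-/

set_option autoImplicit false
set_option linter.unusedSectionVars false
set_option linter.unusedVariables false

open scoped Classical

namespace Pool.Agent.K4H70.RT

open Pool.Agent.Q134.SV
open Pool.Agent.K4H70.SV hiding Zst zig_step zig_down zig_start

variable {X V : Type} [Fintype X] [Fintype V] {G : SimpleGraph X} {n : ℕ} {ι : V → X}
  {z : (Fin (n + 1) → X) → ℝ}

/-- the boundary of the fundamental chain -/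
noncomputable def zT (ι : V → X) (z : (Fin (n + 1) → X) → ℝ) (s : Fin n → V) : ℝ :=
  ∑ x, z (Fin.cons x (ι ∘ s))

lemma sum_sub {M : Type} [AddCommGroup M] (hι : Function.Injective ι) (f : X → M)
    (h : ∀ x, x ∉ Set.range ι → f x = 0) : ∑ v, f (ι v) = ∑ x, f x := by
  rw [← Finset.sum_subset (Finset.subset_univ (Finset.univ.image ι)),
    Finset.sum_image fun a _ b _ hab => hι hab]
  intro x _ hx
  refine h x ?_
  rintro ⟨v, rfl⟩
  exact hx (Finset.mem_image_of_mem ι (Finset.mem_univ v))

lemma sum_sum_alt {m : ℕ} {z : (Fin (m + 2) → X) → ℝ} (hz : Alt z) (y : Fin m → X) :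
    ∑ x, ∑ w, z (Fin.cons w (Fin.cons x y : Fin (m + 1) → X)) = 0 := by
  have h : ∑ x, ∑ w, z (Fin.cons w (Fin.cons x y : Fin (m + 1) → X)) =
      - ∑ x, ∑ w, z (Fin.cons w (Fin.cons x y : Fin (m + 1) → X)) := by
    conv_rhs => rw [Finset.sum_comm]
    rw [← Finset.sum_neg_distrib]
    refine Finset.sum_congr rfl fun x _ => ?_
    rw [← Finset.sum_neg_distrib]
    refine Finset.sum_congr rfl fun w _ => ?_
    have := hz (Fin.cons x (Fin.cons w y : Fin (m + 1) → X)) 0 1 (by simp)
    rw [cons_cons_swap] at this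
    exact this
  linarith

section

variable (hM : MPair n G ι z)

include hM

lemma MPair.zT_alt : Alt (zT ι z) := by
  intro v i j hij
  unfold zT
  rw [← Finset.sum_neg_distrib]
  refine Finset.sum_congr rfl fun x _ => ?_
  exact hM.pair.alt.cons x (ι ∘ v) i j hij

lemma MPair.zT_supp : ∀ v, zT ι z v ≠ 0 → ∀ i j, i ≠ j → (G.comap ι).Adj (v i) (v j) := by
  intro v hv i j hij
  obtain ⟨x, _, hx⟩ := Finset.exists_ne_zero_of_sum_ne_zero hv
  have := hM.pair.supp _ hx i.succ j.succ fun e => hij (Fin.succ_injective _ e)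
  rw [Fin.cons_succ, Fin.cons_succ] at this
  exact this

lemma MPair.zT_cycle : LCycle (G.comap ι) ∅ (zT ι z) := by
  refine ⟨⟨fun v i j hij => hM.zT_alt v i j hij, fun v hv => ⟨hM.zT_supp v hv,
    fun i u hu => absurd hu (Finset.notMem_empty u)⟩⟩, ?_⟩
  cases n with
  | zero => intro v i; exact i.elim0
  | succ m =>
    refine sum_update_of_cons hM.zT_alt fun y => ?_
    set y' : Fin m → X := ι ∘ y with hy'
    have h1 : ∀ x : V, zT ι z (Fin.cons x y) =
        ∑ w, z (Fin.cons w (Fin.cons (ι x) y' : Fin (m + 1) → X)) := by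
      intro x
      unfold zT
      refine Finset.sum_congr rfl fun w _ => ?_
      congr 2
      funext i
      refine Fin.cases ?_ (fun i => ?_) i <;> simp [hy']
    have h2 : ∀ x : X, x ∉ Set.range ι → ∑ w, z (Fin.cons w (Fin.cons x y' : Fin (m + 1) → X)) = 0 := by
      intro x hx
      by_contra h
      have := hM.pair.boundary _ h 0
      rw [Fin.cons_zero] at this
      exact hx this
    have h3 := sum_sum_alt hM.pair.alt y'
    rw [Finset.sum_congr rfl fun x _ => h1 x, ← h3]
    exact sum_sub hM.inj (fun x : X => ∑ w, z (Fin.cons w (Fin.cons x y' : Fin (m + 1) → X))) h2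

lemma MPair.lenT {t : List V} (h : t.Pairwise (G.comap ι).Adj) : t.length ≤ n :=
  pw_card hM.dim' h

lemma MPair.cardT {τ : Finset V} (h : Cq (G.comap ι) τ) : τ.card ≤ n := by
  have := hM.lenT (h.pairwise (List.Perm.refl _))
  rwa [Finset.length_toList] at this

lemma MPair.zT_ne (hn : 1 ≤ n) {s : Fin n → V} (hs : CT (G.comap ι) s) :
    zT ι z s ≠ 0 := by
  intro h0
  set s' : Fin n → X := ι ∘ s with hs'
  have hct : CT G s' := fun i j hij => hs i j hij
  set τ : Finset X := Finset.univ.image s' with hτ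
  have hcq : Cq G τ := cq_image hct
  have hcard : τ.card = n := by
    have := (Finset.card_image_of_injective Finset.univ (ct_inj hct)).trans (Finset.card_fin n)
    rw [hτ]
    convert this
  have hne : τ.Nonempty := Finset.card_pos.1 (by omega)
  have hB : ∀ x ∈ τ, x ∈ Set.range ι := by
    intro x hx
    obtain ⟨i, _, rfl⟩ := Finset.mem_image.1 hx
    exact ⟨s i, rfl⟩
  set a : (Fin 1 → X) → ℝ := fun w => z (Fin.cons (w 0) s') with ha
  have haC : LCycle G τ a := by
    refine ⟨⟨fun v i j hij => absurd (Subsingleton.elim i j) hij, fun v hv => ?_⟩, fun v i => ?_⟩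
    · have h1 := hM.pair.supp _ hv
      refine ⟨fun i j hij => absurd (Subsingleton.elim i j) hij, fun i u hu => ?_⟩
      obtain ⟨j, _, rfl⟩ := Finset.mem_image.1 hu
      have := h1 j.succ 0 (Fin.succ_ne_zero _)
      rw [Fin.cons_succ, Fin.cons_zero] at this
      rwa [Subsingleton.elim i 0]
    · rw [Subsingleton.elim i 0]
      simp only [ha, Function.update_self]
      exact h0
  obtain ⟨b, hb, hab⟩ := hM.pair.outer τ (Cq.isClique hcq) hne hB 1 a haC
  have hb0 : ∀ v, b v = 0 := by
    intro v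
    by_contra h1
    have h2 : LT G τ v := hb.supp v h1
    have := lt_len hM.pair hcq h2
    omega
  have ha0 : ∀ v, a v = 0 := by
    intro v
    rw [hab v]
    exact Finset.sum_eq_zero fun x _ => hb0 _
  have hx0 : Nonempty X := ⟨s' ⟨0, hn⟩⟩
  obtain ⟨l, hl, hl'⟩ := hM.pair.pure hx0 1 (List.ofFn s') (by
    rw [List.pairwise_ofFn]
    exact fun i j hij => hct i j hij.ne) (by
      intro h
      have := congrArg List.length h
      rw [List.length_ofFn] at this
      simp at this
      omega) (by rw [List.length_ofFn])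
  rw [List.length_append, List.length_ofFn] at hl'
  obtain ⟨x, rfl⟩ : ∃ x, l = [x] := List.length_eq_one_iff.1 (by omega)
  have h2 : ev z (List.ofFn s' ++ x :: []) ≠ 0 := by
    obtain ⟨y, hy⟩ := list_ofFn_of_length (k := n + 1) (List.ofFn s' ++ [x]) (by
      rw [List.length_append, List.length_ofFn, List.length_singleton])
    rw [← hy, ev_ofFn]
    rw [← hy, List.pairwise_ofFn] at hl
    refine hM.pair.nonzero y fun i j hij => ?_
    rcases lt_or_gt_of_ne hij with h' | h'
    · exact hl h'
    · exact (hl h').symm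
  rw [hM.pair.alt.ev_move, List.append_nil, ← List.ofFn_cons, ev_ofFn] at h2
  exact right_ne_zero_of_smul h2 (ha0 fun _ => x)

lemma MPair.pureT : ∀ (m : ℕ) (t : List V), t.Pairwise (G.comap ι).Adj → t ≠ [] →
    t.length + m = n → ∃ l : List V, (t ++ l).Pairwise (G.comap ι).Adj ∧ (t ++ l).length = n
  | 0, t, ht, _, hm => ⟨[], by rwa [List.append_nil], by rw [List.append_nil]; omega⟩
  | m + 1, t, ht, ht0, hm => by
    have hcq : Cq (G.comap ι) t.toFinset := cq_of_pw ht
    have hcard : t.toFinset.card = t.length := List.toFinset_card_of_nodup (nodup_of_pw ht)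
    have key : ∃ x, ∀ u ∈ t, (G.comap ι).Adj u x := by
      have h1 : LCycle (G.comap ι) t.toFinset (fun _ : Fin 0 → V => (1 : ℝ)) :=
        ⟨⟨fun v i => i.elim0, fun v _ => ⟨fun i => i.elim0, fun i => i.elim0⟩⟩, fun v i => i.elim0⟩
      have h2 : ∃ b : (Fin 1 → V) → ℝ, LChain (G.comap ι) t.toFinset b ∧
          ∀ v : Fin 0 → V, (1 : ℝ) = ∑ x, b (Fin.cons x v) :=
        (hM.outer' t.toFinset (Cq.isClique hcq) (List.toFinset_nonempty_iff _ |>.2 ht0)).1 0
          (by omega) _ h1
      obtain ⟨b, hb, hb'⟩ := h2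
      have h3 : ∑ x, b (Fin.cons x Fin.elim0) ≠ 0 := by
        rw [← hb' Fin.elim0]; exact one_ne_zero
      obtain ⟨x, _, hx⟩ := Finset.exists_ne_zero_of_sum_ne_zero h3
      exact ⟨x, fun u hu => (hb.supp _ hx).2 0 u (List.mem_toFinset.2 hu)⟩
    obtain ⟨x, hx⟩ := key
    obtain ⟨l, hl, hl'⟩ := MPair.pureT m (t ++ [x]) (by
      rw [List.pairwise_append]
      exact ⟨ht, List.pairwise_singleton _ _, fun u hu w hw => by
        rw [List.mem_singleton] at hw
        rw [hw]
        exact hx u hu⟩) (by simp) (by rw [List.length_append, List.length_singleton]; omega)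
    refine ⟨x :: l, ?_, ?_⟩
    · simpa using hl
    · simpa using hl'

lemma MPair.nz_neT {k l : ℕ} (hkl : l + k = n) (hl : 1 ≤ l) {t : List V}
    (ht : t.Pairwise (G.comap ι).Adj) (htl : t.length = l) : Nz (zT ι z) k t ≠ 0 := by
  have h0 : t ≠ [] := by
    rintro rfl
    simp at htl
    omega
  obtain ⟨w, hw, hw'⟩ := hM.pureT k t ht h0 (by omega)
  rw [List.length_append] at hw'
  obtain ⟨s, rfl⟩ := list_ofFn_of_length (k := k) w (by omega)
  have h1 : ev (zT ι z) (t ++ List.ofFn s) ≠ 0 := by
    obtain ⟨y, hy⟩ := list_ofFn_of_length (k := n) (t ++ List.ofFn s) (by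
      rw [List.length_append]; omega)
    rw [← hy, ev_ofFn]
    rw [← hy, List.pairwise_ofFn] at hw
    refine hM.zT_ne (by omega) fun i j hij => ?_
    rcases lt_or_gt_of_ne hij with h' | h'
    · exact hw h'
    · exact (hw h').symm
  refine ne_of_gt ?_
  exact Finset.sum_pos' (fun _ _ => mul_self_nonneg _) ⟨s, Finset.mem_univ _,
    lt_of_le_of_ne (mul_self_nonneg _) (Ne.symm (mul_self_ne_zero.2 h1))⟩

/-- twisted cocycles of the boundary are projections of constant cocycles -/
theorem tw_lift {Ω : Type} [Fintype Ω] {S : V → (Ω → ℝ) →ₗ[ℝ] (Ω → ℝ)}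
    (hS : Clf (G.comap ι) S) {Bc : (Fin (n + 1) → V ⊕ V × V) → ℝ} (hB : Alt Bc)
    (hB' : ∀ v, Bc v ≠ 0 → GT (G.comap ι) v)
    (hzB : ∀ y, ∑ x, Bc (Fin.cons x y) = zh (zT ι z) y) {k : ℕ}
    {α : (Fin (k + 1) → V) → Ω → ℝ} (hα : Sec (G.comap ι) S α)
    (hc : ∀ s : Fin (k + 2) → V, CT (G.comap ι) s → tc (Pr S (-1)) α s = 0) :
    ∃ χ : (Fin (k + 1) → V) → Ω → ℝ, Alt χ ∧
      (∀ s : Fin (k + 2) → V, CT (G.comap ι) s → tc (Io (Ω → ℝ)) χ s = 0) ∧
      ∀ s, CT (G.comap ι) s → PF S (-1) (Finset.univ.image s) (χ s) = α s := by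
  have hlt : ∀ {m : ℕ} {τ : Finset V} (hτ : Cq (G.comap ι) τ) {s : Fin m → V}
      (h : LT (G.comap ι) τ s), τ.card + m ≤ n := by
    intro m τ hτ s h
    have h1 : (τ.toList ++ List.ofFn s).Pairwise (G.comap ι).Adj := by
      rw [List.pairwise_append]
      refine ⟨hτ.pairwise (List.Perm.refl _), ?_, ?_⟩
      · rw [List.pairwise_ofFn]
        exact fun i j hij => h.1 i j hij.ne
      · intro a ha b hb
        obtain ⟨i, rfl⟩ := List.mem_ofFn.1 hb
        exact h.2 i a (Finset.mem_toList.1 ha)
    have := hM.lenT h1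
    rw [List.length_append, Finset.length_toList, List.length_ofFn] at this
    exact this
  by_cases hkn : n ≤ k + 1
  · refine ⟨α, hα.alt, fun s hs => ?_, fun s hs => ?_⟩
    · exfalso
      have := hlt cq_empty (lt_empty hs)
      simp at this
      omega
    · refine PF_of (by norm_num) fun v hv => ?_
      obtain ⟨i, _, rfl⟩ := Finset.mem_image.1 hv
      rw [hα.neg, neg_smul, one_smul]
  · push Not at hkn
    obtain ⟨l, hl⟩ : ∃ l, l + (k + 1) = n := ⟨n - (k + 1), by omega⟩
    have hl1 : 1 ≤ l := by omega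
    have hN := dat_mm hS.com hα.alt hc
    have hzc := hM.zT_cycle
    have hst : Zst (G.comap ι) S (mm S α) l := by
      refine zig_start hS.com hM.zT_alt hM.zT_supp hN hl hl1 ?_
        (β := bch (G.comap ι) S Bc α) ?_ ?_ ?_ (fun _ => True) ?_ ?_
      · intro t ht htl
        exact hM.nz_neT (k := k) (l := l + 1) (by omega) (by omega) ht htl
      · intro p x y q
        exact hS.bch_swap hB hB' p x y q
      · intro t v hv
        exact hS.bch_pos hB' hv
      · intro t ht
        unfold bch
        refine Finset.sum_eq_zero fun μ _ => ?_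
        by_cases h0 : ev Bc (t.map Sum.inl ++ List.ofFn μ) = 0
        · rw [h0, zero_smul]
        · exact absurd (gl_of_ev hB' h0).left ht
      · intro τ hτ hcard f hf hp
        have h1 := (hM.outer' τ (fun a ha b hb hab => hτ a ha b hb hab)
          (Finset.card_pos.1 (by omega))).2
        have h2 : n - τ.card = k + 1 := by omega
        rw [h2] at h1
        have h3 := hzc.ev_cycle τ.toList (k + 1)
        rw [Finset.toList_toFinset] at h3
        refine exact_top_of h1 hf h3 ?_ (hp trivial)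
        intro h4
        refine hM.nz_neT (k := k + 1) (l := l) hl hl1 (hτ.pairwise (List.Perm.refl _))
          (by rw [Finset.length_toList, hcard]) ?_
        unfold Nz
        refine Finset.sum_eq_zero fun s _ => ?_
        have := congrFun h4 s
        simp only [Pi.zero_apply] at this
        rw [this, mul_zero]
      · intro τ hτ hcard _
        have h1 := hS.cap hM.zT_alt hM.zT_supp hB hB' hzB hα hc τ.toList
        rw [← h1]
        refine Finset.sum_congr rfl fun s _ => ?_
        unfold mm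
        rw [PF_apply]
    have h1 := zig_run hS.com hN hl1 hst fun b hb1 hb τ hτ hcard _ f hf hfc =>
      exact_of ((hM.outer' τ (fun a ha b hb hab => hτ a ha b hb hab)
          (Finset.card_pos.1 (by omega))).1 (k + 1) (by omega)) hf hfc
    exact mm_close hS.com hα.alt hc (fun s i => hα.neg s i) h1

end

end Pool.Agent.K4H70.RT
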