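import Pool.Agent.K4H70.SV.Zig

/-!
Systems of involutions which commute for adjacent vertices, and the general zigzag.
-/

set_option autoImplicit false
set_option linter.unusedSectionVars false

open scoped Classical

namespace Pool.Agent.K4H70.RT

open Pool.Agent.Q134.SV
open Pool.Agent.K4H70.SV

variable {X : Type} {M : Type} [AddCommGroup M] [Module ℝ M]

/-- a commuting system -/
structure Com (G : SimpleGraph X) (S : X → M →ₗ[ℝ] M) : Prop where
  sq : ∀ v m, S v (S v m) = m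
  comm : ∀ u v m, G.Adj u v → S u (S v m) = S v (S u m)

lemma _root_.Pool.Agent.K4H70.SV.Clf.com {G : SimpleGraph X} {S : X → M →ₗ[ℝ] M} (h : Clf G S) :
    Com G S := ⟨h.sq, h.comm⟩

variable {G : SimpleGraph X} {S : X → M →ₗ[ℝ] M}

lemma Com.neg (h : Com G S) : Com G (fun v => - S v) :=
  ⟨fun v m => by simp [h.sq], fun u v m huv => by simp [h.comm u v m huv]⟩

lemma _root_.Pool.Agent.K4H70.SV.Clf.neg' (h : Clf G S) : Clf G (fun v => - S v) :=
  ⟨fun v m => by simp [h.sq], fun u v m huv => by simp [h.comm u v m huv],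
    fun u v m h1 h2 => by simp [h.anti u v m h1 h2]⟩

lemma Com.Pr_comm (h : Com G S) {u v : X} (huv : G.Adj u v) (r r' : ℝ) (m : M) :
    Pr S r u (Pr S r' v m) = Pr S r' v (Pr S r u m) := by
  refine Pr_comm_of (fun m => ?_) m
  refine (Pr_comm_of (fun m => ?_) m).symm
  exact h.comm v u m huv.symm

lemma Com.S_Pr_comm (h : Com G S) {u v : X} (huv : G.Adj u v) (r : ℝ) (m : M) :
    S u (Pr S r v m) = Pr S r v (S u m) :=
  (Pr_comm_of (fun m => h.comm v u m huv.symm) m).symm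

lemma Com.S_Pr (h : Com G S) {r : ℝ} (hr : r * r = 1) (v : X) (m : M) :
    S v (Pr S r v m) = r • Pr S r v m := by
  rw [Pr_apply, map_smul, map_add, map_smul, h.sq, smul_comm r, smul_add r, smul_smul r r, hr,
    one_smul, add_comm]

lemma Com.PL_perm (h : Com G S) (r : ℝ) {l l' : List X} (hl : l.Perm l')
    (hp : l.Pairwise G.Adj) (m : M) : PL S r l m = PL S r l' m := by
  induction hl with
  | nil => rfl
  | cons x _ ih =>
    rw [PL_cons, PL_cons, ih (List.pairwise_cons.1 hp).2]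
  | swap x y l =>
    simp only [PL_cons]
    rw [List.pairwise_cons] at hp
    exact h.Pr_comm (hp.1 x List.mem_cons_self) _ _ _
  | trans h1 _ ih1 ih2 =>
    rw [ih1 hp, ih2 ((h1.pairwise_iff fun h => h.symm).1 hp)]

lemma Com.PF_insert (h : Com G S) (r : ℝ) {v : X} {T : Finset X} (hv : v ∉ T)
    (hT : Cq G (insert v T)) (m : M) : PF S r (insert v T) m = Pr S r v (PF S r T m) := by
  rw [PF_apply, PF_apply, ← PL_cons]
  exact h.PL_perm r (Finset.toList_insert hv) (hT.pairwise (List.Perm.refl _)) m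

lemma Com.S_PF (h : Com G S) {r : ℝ} (hr : r * r = 1) {T : Finset X} (hT : Cq G T) {v : X}
    (hv : v ∈ T) (m : M) : S v (PF S r T m) = r • PF S r T m := by
  have h1 := h.PF_insert r (Finset.notMem_erase v T) (by rwa [Finset.insert_erase hv]) m
  rw [Finset.insert_erase hv] at h1
  rw [h1, h.S_Pr hr]

/-- a projection kills -/
lemma Com.PF_zero (h : Com G S) {r : ℝ} (hr : r * r = 1) {T : Finset X} (hT : Cq G T) {v : X}
    (hv : v ∈ T) {m : M} (hm : S v m = (-r) • m) : PF S r T m = 0 := by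
  have h1 : ∀ w ∈ T, ∀ m, S w (S v m) = S v (S w m) := by
    intro w hw m
    by_cases hwv : w = v
    · rw [hwv]
    · exact h.comm w v m (hT w hw v hv hwv)
  have h2 := PF_comm_of (r := r) T h1 m
  rw [hm, map_smul, h.S_PF hr hT hv] at h2
  have h3 : (2 * r) • PF S r T m = 0 := by
    rw [two_mul, add_smul]
    nth_rewrite 1 [← h2]
    rw [neg_smul]
    exact neg_add_cancel _
  have hr0 : r ≠ 0 := by
    rintro rfl
    norm_num at hr
  exact (smul_eq_zero.1 h3).resolve_left (mul_ne_zero two_ne_zero hr0)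

/-- the image of the projection of a set consists of the invariants -/
lemma Com.PF_of' (r : ℝ) (hr : r * r = 1) {T : Finset X} {m : M}
    (h : ∀ v ∈ T, S v m = r • m) : PF S r T m = m := PF_of hr h

/-! ### The general zigzag -/

variable {Ω : Type}

/-- the data of a zigzag: functions of a tuple in the link of a simplex -/
structure Dat (G : SimpleGraph X) (S : X → (Ω → ℝ) →ₗ[ℝ] (Ω → ℝ)) {k : ℕ}
    (N : (Fin (k + 1) → X) → Finset X → Ω → ℝ) : Prop where
  alt : Alt N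
  inv : ∀ τ, Cq G τ → τ.Nonempty → ∀ s, ∀ v ∈ τ, S v (N s τ) = N s τ
  ix : ∀ τ, Cq G τ → τ.Nonempty → ∀ s : Fin (k + 2) → X, LT G τ s →
    tc (Io (Finset X → Ω → ℝ)) N s τ = tc Xo N s τ

/-- the state of the zigzag at level `b` -/
def Zst (G : SimpleGraph X) (S : X → (Ω → ℝ) →ₗ[ℝ] (Ω → ℝ)) {k : ℕ}
    (N : (Fin (k + 1) → X) → Finset X → Ω → ℝ) (b : ℕ) : Prop :=
  ∃ p q : (Fin k → X) → Finset X → Ω → ℝ, Alt p ∧ Alt q ∧
    (∀ τ, Cq G τ → τ.card = b → ∀ s, ∀ v ∈ τ, S v (p s τ) = p s τ) ∧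
    (∀ τ, Cq G τ → τ.card = b + 1 → ∀ s, ∀ v ∈ τ, S v (q s τ) = q s τ) ∧
    ∀ τ, Cq G τ → τ.card = b → ∀ s : Fin (k + 1) → X, LT G τ s →
      tc (Io (Finset X → Ω → ℝ)) p s τ = N s τ + tc Xo q s τ

lemma ct_of_lt {G : SimpleGraph X} {τ : Finset X} {m : ℕ} {s : Fin m → X} (h : LT G τ s) :
    CT G s := h.1

variable [Fintype X] {S : X → (Ω → ℝ) →ₗ[ℝ] (Ω → ℝ)} (hS : Com G S) {k : ℕ}
  {N : (Fin (k + 1) → X) → Finset X → Ω → ℝ}

include hS in
/-- one step, given the scalar exactness -/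
lemma zig_step {b : ℕ} (hb1 : 1 ≤ b) (hN : Dat G S N) {q : (Fin k → X) → Finset X → Ω → ℝ}
    (hq : Alt q)
    (hqi : ∀ τ, Cq G τ → τ.card = b + 1 → ∀ s, ∀ v ∈ τ, S v (q s τ) = q s τ)
    (hex : ∀ τ, Cq G τ → τ.card = b → ∀ ω, ∃ g : (Fin k → X) → ℝ, Alt g ∧
      ∀ s : Fin (k + 1) → X, LT G τ s → (N s τ + tc Xo q s τ) ω = cobd g s) :
    Zst G S N b := by
  have h1 : ∀ τ, Cq G τ → τ.card = b → ∃ g : (Fin k → X) → Ω → ℝ, Alt g ∧
      (∀ s, ∀ v ∈ τ, S v (g s) = g s) ∧ ∀ s : Fin (k + 1) → X, LT G τ s →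
      N s τ + tc Xo q s τ = tc (Io (Ω → ℝ)) g s := by
    intro τ hτ hb
    have hne : τ.Nonempty := Finset.card_pos.1 (by omega)
    obtain ⟨g, hg, hg'⟩ := vexact (hex τ hτ hb)
    refine ⟨fun s => PF S 1 τ (g s), hg.comp_linear _, fun s v hv => ?_, fun s hs => ?_⟩
    · rw [hS.S_PF (by norm_num) hτ hv, one_smul]
    · rw [tc_comm (Io (Ω → ℝ)) (PF S 1 τ) g s fun _ _ => rfl, ← hg' s hs]
      refine (PF_of (by norm_num) fun v hv => ?_).symm
      rw [map_add, smul_add, one_smul, one_smul, tc_X_apply, map_sum]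
      congr 1
      · exact hN.inv τ hτ hne s v hv
      · refine Finset.sum_congr rfl fun i _ => ?_
        rw [map_smul, hqi _ (hs.cq hτ i) (by
          rw [Finset.card_insert_of_notMem (hs.notMem i), hb]) _ v (Finset.mem_insert_of_mem hv)]
  choose! g hg hgi hgs using h1
  refine ⟨fun s τ => if Cq G τ ∧ τ.card = b then g τ s else 0, q, ?_, hq, ?_, hqi, ?_⟩
  · intro v i j hij
    funext τ
    simp only [Pi.neg_apply]
    split_ifs with h
    · exact hg τ h.1 h.2 v i j hij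
    · simp
  · intro τ hτ hb s v hv
    simp only [if_pos (And.intro hτ hb)]
    exact hgi τ hτ hb s v hv
  · intro τ hτ hb s hs
    rw [tc_I_apply]
    simp only [if_pos (And.intro hτ hb)]
    exact (hgs τ hτ hb s hs).symm

include hS in
/-- the zigzag descends, if the links are exact -/
lemma zig_down (hN : Dat G S N) {b : ℕ} (hb1 : 1 ≤ b)
    (hex : ∀ τ, Cq G τ → τ.card = b → (∃ m : Ω → ℝ, m ≠ 0 ∧ ∀ v ∈ τ, S v m = m) →
      ∀ f : (Fin (k + 1) → X) → ℝ, Alt f → (∀ s : Fin (k + 2) → X, LT G τ s → cobd f s = 0) →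
      ∃ g : (Fin k → X) → ℝ, Alt g ∧ ∀ s : Fin (k + 1) → X, LT G τ s → f s = cobd g s)
    (h : Zst G S N (b + 1)) : Zst G S N b := by
  obtain ⟨p, q, hp, hq, hpi, hqi, heq⟩ := h
  refine zig_step hS hb1 hN hp hpi fun τ hτ hcard ω => ?_
  have hne : τ.Nonempty := Finset.card_pos.1 (by omega)
  by_cases hm : ∃ m : Ω → ℝ, m ≠ 0 ∧ ∀ v ∈ τ, S v m = m
  · refine hex τ hτ hcard hm _ ?_ fun s hs => ?_
    · intro v i j hij
      have h2 : Alt (tc Xo p) := hp.tc _
      simp only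
      rw [hN.alt v i j hij, h2 v i j hij]
      simp only [Pi.neg_apply, Pi.add_apply]
      ring
    · have h1 : cobd (fun s : Fin (k + 1) → X => (N s τ + tc Xo p s τ) ω) s =
          (tc (Io (Finset X → Ω → ℝ)) (fun s => N s + tc Xo p s) s) τ ω := by
        unfold cobd tc
        rw [Finset.sum_apply, Finset.sum_apply]
        rfl
      rw [h1, tc_add, tc_I_X]
      have h2 : tc Xo (tc (Io (Finset X → Ω → ℝ)) p) s τ = tc Xo N s τ := by
        have h3 : tc Xo (tc (Io (Finset X → Ω → ℝ)) p) s τ =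
            tc Xo (fun s => N s + tc Xo q s) s τ := by
          rw [tc_X_apply, tc_X_apply]
          refine Finset.sum_congr rfl fun i _ => ?_
          congr 1
          exact heq _ (hs.cq hτ i) (by
            rw [Finset.card_insert_of_notMem (hs.notMem i), hcard]) _ (hs.sub i)
        rw [h3, tc_add, tc_X_X, add_zero]
      rw [Pi.add_apply, Pi.add_apply, hN.ix τ hτ hne s hs, Pi.neg_apply, Pi.neg_apply, h2]
      ring
  · push Not at hm
    have hz : ∀ m : Ω → ℝ, (∀ v ∈ τ, S v m = m) → m = 0 := by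
      intro m h1
      by_contra h0
      obtain ⟨v, hv, hv'⟩ := hm m h0
      exact hv' (h1 v hv)
    refine ⟨fun _ => 0, fun _ _ _ _ => by simp, fun s hs => ?_⟩
    have h1 : N s τ + tc Xo p s τ = 0 := by
      refine hz _ fun v hv => ?_
      rw [map_add, hN.inv τ hτ hne s v hv, tc_X_apply, map_sum]
      congr 1
      refine Finset.sum_congr rfl fun i _ => ?_
      rw [map_smul, hpi _ (hs.cq hτ i) (by
        rw [Finset.card_insert_of_notMem (hs.notMem i), hcard]) _ v (Finset.mem_insert_of_mem hv)]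
    rw [h1]
    unfold cobd
    simp

/-- the end of the zigzag: a cochain which is closed -/
lemma zig_close (hN : Dat G S N) (h : Zst G S N 1)
    (hN0 : ∀ s : Fin (k + 2) → X, CT G s →
      tc (Io (Finset X → Ω → ℝ)) N s ∅ = tc Xo N s ∅) :
    ∃ p : (Fin k → X) → Finset X → Ω → ℝ, Alt p ∧
      (∀ s (v : X), S v (p s {v}) = p s {v}) ∧
      ∀ s : Fin (k + 2) → X, CT G s →
        tc (Io (Ω → ℝ)) (fun s => N s ∅ + tc Xo p s ∅) s = 0 := by
  obtain ⟨p, q, hp, hq, hpi, hqi, heq⟩ := h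
  refine ⟨p, hp, fun s v => hpi {v} ?_ (Finset.card_singleton v) s v (Finset.mem_singleton_self v),
    fun s hs => ?_⟩
  · intro a ha b hb hab
    rw [Finset.mem_singleton] at ha hb
    exact absurd (ha.trans hb.symm) hab
  · have hLT : LT G ∅ s := ⟨hs, fun i u hu => absurd hu (Finset.notMem_empty u)⟩
    have h0 : Cq G (∅ : Finset X) := fun a ha => absurd ha (Finset.notMem_empty a)
    have h1 : tc (Io (Ω → ℝ)) (fun s => N s ∅ + tc Xo p s ∅) s =
        tc (Io (Finset X → Ω → ℝ)) (fun s => N s + tc Xo p s) s ∅ := by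
      rw [tc_I_apply]
      rfl
    rw [h1, tc_add, tc_I_X]
    have h2 : tc Xo (tc (Io (Finset X → Ω → ℝ)) p) s ∅ = tc Xo N s ∅ := by
      have h3 : tc Xo (tc (Io (Finset X → Ω → ℝ)) p) s ∅ =
          tc Xo (fun s => N s + tc Xo q s) s ∅ := by
        rw [tc_X_apply, tc_X_apply]
        refine Finset.sum_congr rfl fun i _ => ?_
        congr 1
        exact heq _ (hLT.cq h0 i) (by simp) _ (hLT.sub i)
      rw [h3, tc_add, tc_X_X, add_zero]
    rw [Pi.add_apply, Pi.neg_apply, h2, hN0 s hs, add_neg_cancel]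

end Pool.Agent.K4H70.RT
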