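import Pool.Agent.K4H70.RT.Mj

/-!
Homology manifolds with boundary: definitions and first consequences.
-/

set_option autoImplicit false
set_option linter.unusedSectionVars false
set_option linter.unusedVariables false

open scoped Classical

namespace Pool.Agent.K4H70.RT

open Pool.Agent.Q134.SV
open Pool.Agent.K4H70.SV hiding Zst zig_step zig_down zig_start

variable {X : Type} [Fintype X]

/-- The link of the simplex `τ` in the flag complex of `G` is acyclic (all its reduced real homology is
zero). -/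
def Acy (G : SimpleGraph X) (τ : Finset X) : Prop :=
  ∀ (j : ℕ) (a : (Fin j → X) → ℝ), LCycle G τ a →
    ∃ b : (Fin (j + 1) → X) → ℝ, LChain G τ b ∧ ∀ v, a v = ∑ x, b (Fin.cons x v)

/-- The link of the simplex `τ` in the flag complex of `G` has the reduced real homology of the
sphere of dimension `m - 1` in degrees `≤ m - 1` (chains with `j` vertices have degree `j - 1`). -/
def Sph (G : SimpleGraph X) (τ : Finset X) (m : ℕ) : Prop :=
  (∀ j < m, ∀ a : (Fin j → X) → ℝ, LCycle G τ a →
    ∃ b : (Fin (j + 1) → X) → ℝ, LChain G τ b ∧ ∀ v, a v = ∑ x, b (Fin.cons x v)) ∧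
  ∃ a : (Fin m → X) → ℝ, LCycle G τ a ∧ a ≠ 0 ∧
    ∀ a' : (Fin m → X) → ℝ, LCycle G τ a' → ∃ c : ℝ, ∀ v, a' v = c * a v

/-- The flag complex of the finite graph `K` is a compact oriented real homology manifold of
dimension `n` with boundary. The boundary is the full subcomplex on the vertices in `B`, and `z` is a
fundamental chain: it is nonzero on each `n`-simplex, and its boundary is supported on the simplices of
`B`. The links of the simplices which are not in the boundary are homology spheres (`inner`), the links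
of the simplices in the boundary are acyclic (`outer`), and there are no `n`-cycles (`top`; this is
true if the manifold is connected with nonempty boundary). -/
structure ManifoldPair (n : ℕ) (K : SimpleGraph X) (B : Set X) (z : (Fin (n + 1) → X) → ℝ) :
    Prop where
  dim : K.CliqueFree (n + 2)
  fund : LChain K ∅ z
  nonzero : ∀ s : Fin (n + 1) → X, (∀ i j, i ≠ j → K.Adj (s i) (s j)) → z s ≠ 0
  boundary : ∀ y, ∑ x, z (Fin.cons x y) ≠ 0 → ∀ i, y i ∈ B
  inner : ∀ τ : Finset X, K.IsClique (τ : Set X) → (∃ x ∈ τ, x ∉ B) → Sph K τ (n + 1 - τ.card)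
  outer : ∀ τ : Finset X, K.IsClique (τ : Set X) → τ.Nonempty → (∀ x ∈ τ, x ∈ B) → Acy K τ
  top : ∀ a : (Fin (n + 1) → X) → ℝ, LCycle K ∅ a → a = 0

/-- The flag complex of the finite graph `K` is a compact oriented real homology manifold of dimension
`n` with boundary, and its boundary is the full subcomplex on the vertices `ι v`, which is a closed
real homology manifold of dimension `n - 1`: the links of its nonempty simplices in the boundary are
homology spheres (`outer'`). The boundary itself need not be a sphere, or connected. -/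
structure MPair (n : ℕ) {V : Type} [Fintype V] (K : SimpleGraph X) (ι : V → X)
    (z : (Fin (n + 1) → X) → ℝ) : Prop where
  inj : Function.Injective ι
  pair : ManifoldPair n K (Set.range ι) z
  dim' : (K.comap ι).CliqueFree (n + 1)
  outer' : ∀ τ : Finset V, (K.comap ι).IsClique (τ : Set V) → τ.Nonempty →
    Sph (K.comap ι) τ (n - τ.card)

variable {G : SimpleGraph X}

lemma Cq.isClique {τ : Finset X} (h : Cq G τ) : G.IsClique (τ : Set X) :=
  fun a ha b hb hab => h a ha b hb hab

lemma exact_of {τ : Finset X} {k : ℕ}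
    (h : ∀ a : (Fin (k + 1) → X) → ℝ, LCycle G τ a →
      ∃ b : (Fin (k + 2) → X) → ℝ, LChain G τ b ∧ ∀ v, a v = ∑ x, b (Fin.cons x v))
    {f : (Fin (k + 1) → X) → ℝ} (hf : Alt f)
    (hc : ∀ s : Fin (k + 2) → X, LT G τ s → cobd f s = 0) :
    ∃ g : (Fin k → X) → ℝ, Alt g ∧ ∀ s : Fin (k + 1) → X, LT G τ s → f s = cobd g s := by
  refine dual1 (A := LT G τ) (fun v i j h => LT.swap v i j h) hf fun a ha ha' ha0 => ?_
  obtain ⟨b, hb, hab⟩ := h a
    ⟨⟨ha, fun v hv => ha' v hv⟩, sum_update_of_cons ha ha0⟩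
  have h1 := sum_cobd (K := b) (fun v i j hij => hb.alt v i j hij) f
  have h2 : ∑ v : Fin (k + 2) → X, b v * cobd f v = 0 := by
    refine Finset.sum_eq_zero fun v _ => ?_
    by_cases h0 : b v = 0
    · rw [h0, zero_mul]
    · rw [hc v (hb.supp v h0), mul_zero]
  rw [h2] at h1
  have h3 : (((k + 1 : ℕ) : ℝ) + 1) ≠ 0 := by positivity
  have h4 := (mul_eq_zero.1 h1.symm).resolve_left h3
  rw [← h4]
  refine Finset.sum_congr rfl fun v _ => ?_
  rw [hab v, mul_comm]

lemma exact_top_of {τ : Finset X} {k : ℕ}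
    (h : ∃ a : (Fin (k + 1) → X) → ℝ, LCycle G τ a ∧ a ≠ 0 ∧
      ∀ a' : (Fin (k + 1) → X) → ℝ, LCycle G τ a' → ∃ c : ℝ, ∀ v, a' v = c * a v)
    {f ζ : (Fin (k + 1) → X) → ℝ} (hf : Alt f) (hζ : LCycle G τ ζ)
    (hζ0 : ζ ≠ 0) (hp : ∑ s, ζ s * f s = 0) :
    ∃ g : (Fin k → X) → ℝ, Alt g ∧ ∀ s : Fin (k + 1) → X, LT G τ s → f s = cobd g s := by
  refine dual1 (A := LT G τ) (fun v i j h => LT.swap v i j h) hf fun a ha ha' ha0 => ?_
  obtain ⟨a₀, _, _, h1⟩ := h
  obtain ⟨c, hc⟩ := h1 a ⟨⟨ha, fun v hv => ha' v hv⟩, sum_update_of_cons ha ha0⟩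
  obtain ⟨c', hc'⟩ := h1 ζ hζ
  have hc0 : c' ≠ 0 := by
    rintro rfl
    apply hζ0
    funext v
    rw [hc' v, zero_mul]; rfl
  have h2 : ∀ v, f v * a v = c / c' * (ζ v * f v) := by
    intro v
    rw [hc v, hc' v]
    field_simp
  rw [Finset.sum_congr rfl fun v _ => h2 v, ← Finset.mul_sum, hp, mul_zero]

/-- an alternating function supported on the simplices, as a list function -/
lemma ev_lchain {τ : Finset X} {j : ℕ} {a : (Fin j → X) → ℝ} (h : LChain G τ a) : Alt a :=
  fun v i k hik => h.alt v i k hik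

section

variable {n : ℕ} {B : Set X} {z : (Fin (n + 1) → X) → ℝ} (hM : ManifoldPair n G B z)

include hM

lemma ManifoldPair.alt : Alt z := fun v i j hij => hM.fund.alt v i j hij

lemma ManifoldPair.supp : ∀ v, z v ≠ 0 → ∀ i j, i ≠ j → G.Adj (v i) (v j) :=
  fun v hv => (hM.fund.supp v hv).1

lemma ManifoldPair.card {τ : Finset X} (h : Cq G τ) : τ.card ≤ n + 1 := by
  have := pw_card hM.dim (h.pairwise (List.Perm.refl _))
  rwa [Finset.length_toList] at this

lemma ManifoldPair.len {t : List X} (h : t.Pairwise G.Adj) : t.length ≤ n + 1 := pw_card hM.dim h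

/-- the fundamental chain gives cycles in the links of the inner simplices -/
lemma ManifoldPair.ev_cycle {t : List X} (ht : ∃ x ∈ t, x ∉ B) (k : ℕ) :
    LCycle G t.toFinset fun s : Fin k → X => ev z (t ++ List.ofFn s) := by
  have hsupp := hM.supp
  have halt : Alt fun s : Fin k → X => ev z (t ++ List.ofFn s) := hM.alt.ev_ofFn t k
  refine ⟨⟨fun v i j hij => halt v i j hij, fun s hs => ?_⟩, ?_⟩
  · have h1 := List.pairwise_append.1 (pw_ev hsupp hs)
    refine ⟨fun i j hij => ?_, fun i u hu => ?_⟩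
    · have h2 := h1.2.1
      rw [List.pairwise_ofFn] at h2
      rcases lt_or_gt_of_ne hij with h' | h'
      · exact h2 h'
      · exact (h2 h').symm
    · exact h1.2.2 u (List.mem_toFinset.1 hu) (s i) (List.mem_ofFn.2 ⟨i, rfl⟩)
  · cases k with
    | zero => intro v i; exact i.elim0
    | succ k =>
      refine sum_update_of_cons halt fun y => ?_
      have h1 : ∀ x : X, ev z (t ++ List.ofFn (Fin.cons x y : Fin (k + 1) → X)) =
          (-1 : ℝ) ^ t.length • ev (fun y => z (Fin.cons x y)) (t ++ List.ofFn y) := by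
        intro x
        rw [List.ofFn_cons, hM.alt.ev_move, ev_cons]
      rw [Finset.sum_congr rfl fun x _ => h1 x, ← Finset.smul_sum, ← ev_sum]
      by_contra h2
      obtain ⟨w, hw, hw'⟩ := ev_ne (right_ne_zero_of_smul h2)
      obtain ⟨x, hx, hxB⟩ := ht
      have hxw : x ∈ List.ofFn w := by
        rw [← hw]
        exact List.mem_append_left _ hx
      obtain ⟨i, hi⟩ := List.mem_ofFn.1 hxw
      exact hxB (hi ▸ hM.boundary w hw' i)

/-- every simplex can be extended to a simplex of top dimension -/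
lemma ManifoldPair.pure (hne : Nonempty X) : ∀ (m : ℕ) (t : List X), t.Pairwise G.Adj → t ≠ [] →
    t.length + m = n + 1 → ∃ l : List X, (t ++ l).Pairwise G.Adj ∧ (t ++ l).length = n + 1
  | 0, t, ht, _, hm => ⟨[], by rwa [List.append_nil], by rw [List.append_nil]; omega⟩
  | m + 1, t, ht, ht0, hm => by
    have hcq : Cq G t.toFinset := cq_of_pw ht
    have hcard : t.toFinset.card = t.length := List.toFinset_card_of_nodup (nodup_of_pw ht)
    have key : ∃ x, ∀ u ∈ t, G.Adj u x := by
      have h1 : LCycle G t.toFinset (fun _ : Fin 0 → X => (1 : ℝ)) :=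
        ⟨⟨fun v i => i.elim0, fun v _ => ⟨fun i => i.elim0, fun i => i.elim0⟩⟩, fun v i => i.elim0⟩
      have h2 : ∃ b : (Fin 1 → X) → ℝ, LChain G t.toFinset b ∧
          ∀ v : Fin 0 → X, (1 : ℝ) = ∑ x, b (Fin.cons x v) := by
        by_cases hB : ∃ x ∈ t.toFinset, x ∉ B
        · exact (hM.inner _ (Cq.isClique hcq) hB).1 0 (by omega) _ h1
        · push Not at hB
          refine hM.outer _ (Cq.isClique hcq) ?_ hB 0 _ h1
          rw [List.toFinset_nonempty_iff]
          exact ht0
      obtain ⟨b, hb, hb'⟩ := h2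
      have h3 : ∑ x, b (Fin.cons x Fin.elim0) ≠ 0 := by
        rw [← hb' Fin.elim0]; exact one_ne_zero
      obtain ⟨x, _, hx⟩ := Finset.exists_ne_zero_of_sum_ne_zero h3
      exact ⟨x, fun u hu => (hb.supp _ hx).2 0 u (List.mem_toFinset.2 hu)⟩
    obtain ⟨x, hx⟩ := key
    obtain ⟨l, hl, hl'⟩ := ManifoldPair.pure hne m (t ++ [x]) (by
      rw [List.pairwise_append]
      exact ⟨ht, List.pairwise_singleton _ _, fun u hu w hw => by
        rw [List.mem_singleton] at hw
        rw [hw]
        exact hx u hu⟩) (by simp) (by rw [List.length_append, List.length_singleton]; omega)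
    refine ⟨x :: l, ?_, ?_⟩
    · simpa using hl
    · simpa using hl'

lemma ManifoldPair.nz_ne {k l : ℕ} (hkl : l + k = n + 1) (hl : 1 ≤ l) {t : List X}
    (ht : t.Pairwise G.Adj) (htl : t.length = l) : Nz z k t ≠ 0 := by
  have h0 : t ≠ [] := by
    rintro rfl
    simp at htl
    omega
  obtain ⟨x, hx⟩ := List.exists_mem_of_ne_nil t h0
  obtain ⟨w, hw, hw'⟩ := hM.pure ⟨x⟩ k t ht h0 (by omega)
  rw [List.length_append] at hw'
  obtain ⟨s, rfl⟩ := list_ofFn_of_length (k := k) w (by omega)
  have h1 : ev z (t ++ List.ofFn s) ≠ 0 := by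
    obtain ⟨y, hy⟩ := list_ofFn_of_length (k := n + 1) (t ++ List.ofFn s) (by
      rw [List.length_append]; omega)
    rw [← hy, ev_ofFn]
    rw [← hy, List.pairwise_ofFn] at hw
    refine hM.nonzero y fun i j hij => ?_
    rcases lt_or_gt_of_ne hij with h' | h'
    · exact hw h'
    · exact (hw h').symm
  refine ne_of_gt ?_
  exact Finset.sum_pos' (fun _ _ => mul_self_nonneg _) ⟨s, Finset.mem_univ _,
    lt_of_le_of_ne (mul_self_nonneg _) (Ne.symm (mul_self_ne_zero.2 h1))⟩

end

end Pool.Agent.K4H70.RT
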