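import Pool.Agent.K4H70.RT.Def

/-!
Duality with coefficients.
-/

set_option autoImplicit false
set_option linter.unusedSectionVars false
set_option linter.unusedVariables false

open scoped Classical

namespace Pool.Agent.K4H70.RT

open Pool.Agent.Q134.SV
open Pool.Agent.K4H70.SV hiding Zst zig_step zig_down zig_start

variable {X : Type} [Fintype X] {Ω : Type} [Fintype Ω]

/-- the inner product -/
noncomputable def dt2 (a b : Ω → ℝ) : ℝ := ∑ o, a o * b o

lemma dt2_add (a b c : Ω → ℝ) : dt2 a (b + c) = dt2 a b + dt2 a c := by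
  unfold dt2
  rw [← Finset.sum_add_distrib]
  exact Finset.sum_congr rfl fun o _ => by rw [Pi.add_apply]; ring

lemma dt2_smul (r : ℝ) (a b : Ω → ℝ) : dt2 a (r • b) = r * dt2 a b := by
  unfold dt2
  rw [Finset.mul_sum]
  exact Finset.sum_congr rfl fun o _ => by rw [Pi.smul_apply, smul_eq_mul]; ring

lemma dt2_comm (a b : Ω → ℝ) : dt2 a b = dt2 b a := by
  unfold dt2
  exact Finset.sum_congr rfl fun o _ => mul_comm _ _

lemma dt2_zero (a : Ω → ℝ) : dt2 a 0 = 0 := by
  unfold dt2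
  simp

lemma dt2_sum {ι : Type} (s : Finset ι) (a : Ω → ℝ) (F : ι → Ω → ℝ) :
    dt2 a (∑ i ∈ s, F i) = ∑ i ∈ s, dt2 a (F i) := by
  induction s using Finset.induction_on with
  | empty => rw [Finset.sum_empty, Finset.sum_empty, dt2_zero]
  | insert i s hi ih => rw [Finset.sum_insert hi, Finset.sum_insert hi, dt2_add, ih]

lemma dt2_neg (a b : Ω → ℝ) : dt2 a (-b) = - dt2 a b := by
  have := dt2_smul (-1) a b
  rw [neg_one_smul, neg_one_mul] at this
  exact this

lemma dt2_self {a : Ω → ℝ} (h : dt2 a a = 0) : a = 0 := by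
  unfold dt2 at h
  have := (Finset.sum_eq_zero_iff_of_nonneg fun o _ => mul_self_nonneg _).1 h
  funext o
  exact mul_self_eq_zero.1 (this o (Finset.mem_univ o))

lemma dt2_self_nonneg (a : Ω → ℝ) : 0 ≤ dt2 a a :=
  Finset.sum_nonneg fun o _ => mul_self_nonneg _

/-- symmetric systems -/
def Sym (S : X → (Ω → ℝ) →ₗ[ℝ] (Ω → ℝ)) : Prop := ∀ v a b, dt2 (S v a) b = dt2 a (S v b)

variable {G : SimpleGraph X} {S : X → (Ω → ℝ) →ₗ[ℝ] (Ω → ℝ)}

lemma Sym.PL (hs : Sym S) {l : List X} {a b : Ω → ℝ} (hb : ∀ v ∈ l, S v b = b) :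
    dt2 (PL S 1 l a) b = dt2 a b := by
  induction l with
  | nil => rfl
  | cons v l ih =>
    have h1 : S v b = b := hb v List.mem_cons_self
    have h2 := ih fun w hw => hb w (List.mem_cons_of_mem _ hw)
    rw [PL_cons, Pr_apply, one_smul, dt2_comm, dt2_smul, dt2_add, dt2_comm b (S v _), hs, h1,
      dt2_comm b, h2]
    ring

lemma Sym.PF (hs : Sym S) (hS : Com G S) {τ : Finset X} (hτ : Cq G τ) (a : Ω → ℝ) :
    dt2 (PF S 1 τ a) (PF S 1 τ a) = dt2 a (PF S 1 τ a) := by
  conv_lhs => rw [PF_apply (m := a)]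
  have : dt2 (Pool.Agent.K4H70.SV.PL S 1 τ.toList a) (Pool.Agent.K4H70.SV.PF S 1 τ a) =
      dt2 a (Pool.Agent.K4H70.SV.PF S 1 τ a) := by
    refine hs.PL fun v hv => ?_
    rw [hS.S_PF (by norm_num) hτ (Finset.mem_toList.1 hv), one_smul]
  rw [← PF_apply] at this ⊢
  exact this

variable (G S) in
/-- the twisted chains on the inner simplices -/
def US (B : Set X) (l : ℕ) : Submodule ℝ ((Fin l → X) → Ω → ℝ) where
  carrier := {c | Alt c ∧ (∀ s, c s ≠ 0 → CT G s ∧ ∃ i, s i ∉ B) ∧ ∀ s i, S (s i) (c s) = c s}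
  add_mem' := by
    rintro a b ⟨h1, h2, h3⟩ ⟨h1', h2', h3'⟩
    refine ⟨h1.add' h1', fun s hs => ?_, fun s i => ?_⟩
    · by_cases h0 : a s = 0
      · refine h2' s fun h4 => hs ?_
        rw [Pi.add_apply, h0, h4, add_zero]
      · exact h2 s h0
    · rw [Pi.add_apply, map_add, h3, h3']
  zero_mem' := ⟨fun v i j _ => by simp, fun s hs => absurd rfl hs, fun s i => by simp⟩
  smul_mem' := by
    rintro r α ⟨h1, h2, h3⟩
    refine ⟨fun v i j hij => ?_, fun s hs => h2 s fun h0 => hs ?_, fun s i => ?_⟩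
    · rw [Pi.smul_apply, Pi.smul_apply, h1 v i j hij, smul_neg]
    · rw [Pi.smul_apply, h0, smul_zero]
    · rw [Pi.smul_apply, map_smul, h3]

lemma ct_cons {m : ℕ} {v : X} {s : Fin m → X} (h : CT G (Fin.cons v s : Fin (m + 1) → X)) :
    CT G s := by
  intro i j hij
  have := h i.succ j.succ fun e => hij (Fin.succ_injective _ e)
  rwa [Fin.cons_succ, Fin.cons_succ] at this

variable (G S) in
/-- the boundary -/
noncomputable def bdU (B : Set X) (l : ℕ) : US G S B (l + 1) →ₗ[ℝ] US G S B l where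
  toFun β := ⟨fun s => if ∃ i, s i ∉ B then ∑ v, (β : (Fin (l + 1) → X) → Ω → ℝ) (Fin.cons v s)
      else 0, by
    refine ⟨fun s i j hij => ?_, fun s hs => ?_, fun s i => ?_⟩
    · have h1 : (∃ k, (s ∘ Equiv.swap i j) k ∉ B) ↔ ∃ k, s k ∉ B := by
        constructor
        · rintro ⟨k, hk⟩; exact ⟨_, hk⟩
        · rintro ⟨k, hk⟩; exact ⟨Equiv.swap i j k, by simpa using hk⟩
      beta_reduce
      by_cases h : ∃ k, s k ∉ B
      · rw [if_pos (h1.2 h), if_pos h, ← Finset.sum_neg_distrib]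
        exact Finset.sum_congr rfl fun v _ => (β.2.1.cons v) s i j hij
      · rw [if_neg fun h' => h (h1.1 h'), if_neg h, neg_zero]
    · beta_reduce at hs
      by_cases h : ∃ k, s k ∉ B
      · rw [if_pos h] at hs
        obtain ⟨v, _, hv⟩ := Finset.exists_ne_zero_of_sum_ne_zero hs
        exact ⟨ct_cons (β.2.2.1 _ hv).1, h⟩
      · exact absurd (if_neg h) hs
    · beta_reduce
      by_cases h : ∃ k, s k ∉ B
      · rw [if_pos h, map_sum]
        refine Finset.sum_congr rfl fun v _ => ?_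
        have := β.2.2.2 (Fin.cons v s) i.succ
        rwa [Fin.cons_succ] at this
      · rw [if_neg h, map_zero]⟩
  map_add' β β' := by
    ext1
    funext s
    simp only [Submodule.coe_add, Pi.add_apply]
    split_ifs
    · rw [← Finset.sum_add_distrib]
    · simp
  map_smul' r β := by
    ext1
    funext s
    simp only [Submodule.coe_smul, Pi.smul_apply, RingHom.id_apply]
    split_ifs
    · rw [Finset.smul_sum]
    · simp

/-- the inner product of functions -/
noncomputable def ip {l : ℕ} (a b : (Fin l → X) → Ω → ℝ) : ℝ := ∑ s, dt2 (a s) (b s)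

lemma ip_self {l : ℕ} {a : (Fin l → X) → Ω → ℝ} (h : ip a a = 0) : a = 0 := by
  have := (Finset.sum_eq_zero_iff_of_nonneg fun s _ => dt2_self_nonneg _).1 h
  funext s
  exact dt2_self (this s (Finset.mem_univ s))

variable (G S) in
/-- Riesz -/
noncomputable def rz (B : Set X) (l : ℕ) : US G S B l →ₗ[ℝ] Module.Dual ℝ (US G S B l) where
  toFun a :=
    { toFun := fun b => ip (a : (Fin l → X) → Ω → ℝ) b
      map_add' := fun b b' => by
        unfold ip
        rw [← Finset.sum_add_distrib]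
        exact Finset.sum_congr rfl fun s _ => dt2_add _ _ _
      map_smul' := fun r b => by
        unfold ip
        rw [RingHom.id_apply, smul_eq_mul, Finset.mul_sum]
        exact Finset.sum_congr rfl fun s _ => dt2_smul _ _ _ }
  map_add' a a' := by
    ext b
    change ip _ _ = ip _ _ + ip _ _
    unfold ip
    rw [← Finset.sum_add_distrib]
    refine Finset.sum_congr rfl fun s _ => ?_
    have := dt2_add ((b : (Fin l → X) → Ω → ℝ) s) ((a : (Fin l → X) → Ω → ℝ) s)
      ((a' : (Fin l → X) → Ω → ℝ) s)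
    rw [dt2_comm, dt2_comm _ ((a : (Fin l → X) → Ω → ℝ) s),
      dt2_comm _ ((a' : (Fin l → X) → Ω → ℝ) s)] at this
    exact this
  map_smul' r a := by
    ext b
    change ip _ _ = r * ip _ _
    unfold ip
    rw [Finset.mul_sum]
    refine Finset.sum_congr rfl fun s _ => ?_
    have := dt2_smul r ((b : (Fin l → X) → Ω → ℝ) s) ((a : (Fin l → X) → Ω → ℝ) s)
    rw [dt2_comm, dt2_comm _ ((a : (Fin l → X) → Ω → ℝ) s)] at this
    exact this

lemma ip_comm {l : ℕ} (a b : (Fin l → X) → Ω → ℝ) : ip a b = ip b a :=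
  Finset.sum_congr rfl fun s _ => dt2_comm _ _

/-- duality: a chain is a boundary if it pairs to zero with all cocycles -/
theorem dualV (B : Set X) (l : ℕ) (c : US G S B l)
    (h : ∀ ω : US G S B l, (∀ β : US G S B (l + 1),
      ip (ω : (Fin l → X) → Ω → ℝ) (bdU G S B l β) = 0) → ip (ω : (Fin l → X) → Ω → ℝ) c = 0) :
    ∃ β : US G S B (l + 1), bdU G S B l β = c := by
  by_contra hc
  have hc' : c ∉ LinearMap.range (bdU G S B l) := fun ⟨β, hβ⟩ => hc ⟨β, hβ⟩
  obtain ⟨f, hf, hf'⟩ := Submodule.exists_le_ker_of_notMem hc'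
  have hinj : Function.Injective (rz G S B l) := by
    rw [← LinearMap.ker_eq_bot, LinearMap.ker_eq_bot']
    intro a ha
    ext1
    exact ip_self (by
      have := LinearMap.congr_fun ha a
      exact this)
  have hsurj : Function.Surjective (rz G S B l) :=
    (LinearMap.injective_iff_surjective_of_finrank_eq_finrank
      (Subspace.dual_finrank_eq (K := ℝ) (V := US G S B l)).symm).1 hinj
  obtain ⟨ω, hω⟩ := hsurj f
  apply hf
  have h1 := h ω fun β => by
    have h2 : f (bdU G S B l β) = 0 := hf' ⟨β, rfl⟩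
    rw [← hω] at h2
    exact h2
  rw [← hω]
  exact h1

/-- the cocycle condition -/
theorem closedV (hS : Com G S) (hs : Sym S) (B : Set X) (l : ℕ) (ω : US G S B l)
    (h : ∀ β : US G S B (l + 1), ip (ω : (Fin l → X) → Ω → ℝ) (bdU G S B l β) = 0) :
    ∀ σ : Fin (l + 1) → X, CT G σ → (∃ i, σ i ∉ B) →
      PF S 1 (Finset.univ.image σ) (tc (Io (Ω → ℝ)) (ω : (Fin l → X) → Ω → ℝ) σ) = 0 := by
  set γ : (Fin (l + 1) → X) → Ω → ℝ := fun σ => if CT G σ ∧ ∃ i, σ i ∉ B then
    PF S 1 (Finset.univ.image σ) (tc (Io (Ω → ℝ)) (ω : (Fin l → X) → Ω → ℝ) σ) else 0 with hγ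
  have hγa : Alt γ := by
    intro s i j hij
    have h1 : (∃ k, (s ∘ Equiv.swap i j) k ∉ B) ↔ ∃ k, s k ∉ B := by
      constructor
      · rintro ⟨k, hk⟩; exact ⟨_, hk⟩
      · rintro ⟨k, hk⟩; exact ⟨Equiv.swap i j k, by simpa using hk⟩
    simp only [hγ]
    by_cases h : CT G s ∧ ∃ k, s k ∉ B
    · rw [if_pos h, if_pos ⟨(ct_swap i j).2 h.1, h1.2 h.2⟩, image_swap, (ω.2.1.tc _) s i j hij,
        map_neg]
    · rw [if_neg h, if_neg fun h' => h ⟨(ct_swap i j).1 h'.1, h1.1 h'.2⟩, neg_zero]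
  have hγm : γ ∈ US G S B (l + 1) := by
    refine ⟨hγa, fun s hs => ?_, fun s i => ?_⟩
    · by_contra h0
      exact hs (if_neg h0)
    · simp only [hγ]
      split_ifs with h0
      · rw [hS.S_PF (by norm_num) (cq_image h0.1)
          (Finset.mem_image_of_mem s (Finset.mem_univ i)), one_smul]
      · simp
  have h1 := h ⟨γ, hγm⟩
  -- the pairing is the norm
  have h2 : ip (ω : (Fin l → X) → Ω → ℝ) (bdU G S B l ⟨γ, hγm⟩) =
      ∑ s : Fin l → X, ∑ v, dt2 ((ω : (Fin l → X) → Ω → ℝ) s) (γ (Fin.cons v s)) := by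
    refine Finset.sum_congr rfl fun s _ => ?_
    rw [← dt2_sum]
    by_cases h0 : (ω : (Fin l → X) → Ω → ℝ) s = 0
    · rw [h0, dt2_comm, dt2_zero, dt2_comm, dt2_zero]
    · have h3 := (ω.2.2.1 s h0).2
      congr 1
      exact if_pos h3
  have h3 : ∀ o : Ω, ∑ σ, γ σ o * (tc (Io (Ω → ℝ)) (ω : (Fin l → X) → Ω → ℝ) σ) o =
      ((l : ℝ) + 1) * ∑ v, ∑ s : Fin l → X, γ (Fin.cons v s) o *
        (ω : (Fin l → X) → Ω → ℝ) s o := by
    intro o
    have h4 := sum_alt (X := X) (fun _ => (LinearMap.id : ℝ →ₗ[ℝ] ℝ))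
      (K := fun σ => γ σ o) (fun v i j hij => by
        have := congrFun (hγa v i j hij) o
        simpa using this) (fun s => (ω : (Fin l → X) → Ω → ℝ) s o)
    simp only [smul_eq_mul, LinearMap.id_coe, id_eq] at h4
    rw [← h4]
    refine Finset.sum_congr rfl fun σ _ => ?_
    congr 1
    unfold tc
    rw [Finset.sum_apply]
    rfl
  have h4 : ∑ σ, dt2 (γ σ) (tc (Io (Ω → ℝ)) (ω : (Fin l → X) → Ω → ℝ) σ) = 0 := by
    unfold dt2
    rw [Finset.sum_comm, Finset.sum_congr rfl fun o _ => h3 o, ← Finset.mul_sum]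
    have h5 : ∑ o : Ω, ∑ v, ∑ s : Fin l → X, γ (Fin.cons v s) o *
        (ω : (Fin l → X) → Ω → ℝ) s o = 0 := by
      rw [← h1, h2, Finset.sum_comm]
      have h6 : ∀ v : X, ∑ o : Ω, ∑ s : Fin l → X, γ (Fin.cons v s) o *
          (ω : (Fin l → X) → Ω → ℝ) s o =
          ∑ s : Fin l → X, dt2 ((ω : (Fin l → X) → Ω → ℝ) s) (γ (Fin.cons v s)) := by
        intro v
        rw [Finset.sum_comm]
        refine Finset.sum_congr rfl fun s _ => ?_
        unfold dt2
        exact Finset.sum_congr rfl fun o _ => mul_comm _ _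
      rw [Finset.sum_congr rfl fun v _ => h6 v, Finset.sum_comm]
    rw [h5, mul_zero]
  have h5 : ∀ σ, dt2 (γ σ) (tc (Io (Ω → ℝ)) (ω : (Fin l → X) → Ω → ℝ) σ) =
      dt2 (γ σ) (γ σ) := by
    intro σ
    by_cases h0 : CT G σ ∧ ∃ i, σ i ∉ B
    · have h6 : γ σ = PF S 1 (Finset.univ.image σ)
          (tc (Io (Ω → ℝ)) (ω : (Fin l → X) → Ω → ℝ) σ) := if_pos h0
      rw [h6, hs.PF hS (cq_image h0.1), dt2_comm]
    · have h6 : γ σ = 0 := if_neg h0
      rw [h6, dt2_zero, dt2_comm, dt2_zero]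
  rw [Finset.sum_congr rfl fun σ _ => h5 σ] at h4
  intro σ hσ hσB
  have h6 := (Finset.sum_eq_zero_iff_of_nonneg fun s _ => dt2_self_nonneg _).1 h4 σ
    (Finset.mem_univ σ)
  have h7 := dt2_self h6
  rw [← h7]
  exact (if_pos ⟨hσ, hσB⟩).symm

end Pool.Agent.K4H70.RT
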