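import Pool.Agent.K4H70.RT.Key4

/-!
The Euler characteristic.
-/

set_option autoImplicit false
set_option linter.unusedSectionVars false
set_option linter.unusedVariables false

open scoped Classical

namespace Pool.Agent.K4H70.RT

open Pool.Agent.Q134.SV
open Pool.Agent.K4H70.SV hiding Zst zig_step zig_down zig_start
open Pool.Agent.W907.SG (chiW)

/-! ### Exact sequences -/

theorem euler_seq (E : ℕ → Type) [∀ k, AddCommGroup (E k)] [∀ k, Module ℝ (E k)]
    [∀ k, Module.Finite ℝ (E k)] (d : ∀ k, E k →ₗ[ℝ] E (k + 1)) (n : ℕ)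
    (h0 : ∀ α, d 0 α = 0 → α = 0)
    (hex : ∀ k, k + 1 ≤ n → ∀ α, d (k + 1) α = 0 → ∃ γ, d k γ = α)
    (hdd : ∀ k γ, d (k + 1) (d k γ) = 0) (htop : ∀ α, d n α = 0) :
    ∑ k ∈ Finset.range (n + 1), (-1 : ℤ) ^ k * (Module.finrank ℝ (E k) : ℤ) = 0 := by
  set r : ℕ → ℤ := fun k => (Module.finrank ℝ (LinearMap.range (d k)) : ℤ) with hr
  have e0 : (Module.finrank ℝ (E 0) : ℤ) = r 0 := by
    have h1 := LinearMap.finrank_range_add_finrank_ker (d 0)
    have h2 : LinearMap.ker (d 0) = ⊥ := by
      rw [LinearMap.ker_eq_bot']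
      exact h0
    rw [h2, finrank_bot, add_zero] at h1
    rw [hr]
    simp only
    rw [h1]
  have e1 : ∀ k, k + 1 ≤ n → (Module.finrank ℝ (E (k + 1)) : ℤ) = r (k + 1) + r k := by
    intro k hk
    have h1 := LinearMap.finrank_range_add_finrank_ker (d (k + 1))
    have h2 : LinearMap.ker (d (k + 1)) = LinearMap.range (d k) := by
      ext α
      rw [LinearMap.mem_ker, LinearMap.mem_range]
      constructor
      · exact hex k hk α
      · rintro ⟨γ, rfl⟩
        exact hdd k γ
    rw [h2] at h1
    rw [hr]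
    simp only
    rw [← h1]
    push_cast
    ring
  have e2 : ∀ m, m ≤ n → ∑ k ∈ Finset.range (m + 1),
      (-1 : ℤ) ^ k * (Module.finrank ℝ (E k) : ℤ) = (-1 : ℤ) ^ m * r m := by
    intro m
    induction m with
    | zero =>
      intro _
      rw [Finset.sum_range_one, e0]
    | succ m ih =>
      intro hm
      rw [Finset.sum_range_succ, ih (by omega), e1 m hm]
      ring
  rw [e2 n le_rfl]
  have e3 : r n = 0 := by
    rw [hr]
    simp only
    have : LinearMap.range (d n) = ⊥ := by
      rw [eq_bot_iff]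
      rintro _ ⟨α, rfl⟩
      rw [Submodule.mem_bot]
      exact htop α
    rw [this, finrank_bot]
    rfl
  rw [e3, mul_zero]

/-! ### Cochains with values in a system of subspaces -/

variable {X : Type} [Fintype X] {G : SimpleGraph X} {M : Type} [AddCommGroup M] [Module ℝ M]

variable (G) in
/-- the alternating cochains with values in a system of subspaces -/
def CC (N : Finset X → Submodule ℝ M) (k : ℕ) : Submodule ℝ ((Fin k → X) → M) where
  carrier := {α | Alt α ∧ (∀ s, α s ≠ 0 → CT G s) ∧ ∀ s, α s ∈ N (Finset.univ.image s)}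
  add_mem' := by
    rintro α β ⟨h1, h2, h3⟩ ⟨h1', h2', h3'⟩
    refine ⟨h1.add' h1', fun s hs => ?_, fun s => (N _).add_mem (h3 s) (h3' s)⟩
    by_cases h0 : α s = 0
    · refine h2' s fun h4 => hs ?_
      rw [Pi.add_apply, h0, h4, add_zero]
    · exact h2 s h0
  zero_mem' := ⟨fun v i j _ => by simp, fun s hs => absurd rfl hs, fun s => (N _).zero_mem⟩
  smul_mem' := by
    rintro r α ⟨h1, h2, h3⟩
    refine ⟨fun v i j hij => ?_, fun s hs => h2 s fun h0 => hs ?_, fun s => (N _).smul_mem r (h3 s)⟩
    · rw [Pi.smul_apply, Pi.smul_apply, h1 v i j hij, smul_neg]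
    · rw [Pi.smul_apply, h0, smul_zero]

variable {N : Finset X → Submodule ℝ M}

lemma image_en {k : ℕ} (T : Cs G k) : Finset.univ.image (en T) = T.1 := by
  ext v
  constructor
  · intro hv
    obtain ⟨i, _, rfl⟩ := Finset.mem_image.1 hv
    exact en_mem T i
  · intro hv
    obtain ⟨i, rfl⟩ := en_surj T hv
    exact Finset.mem_image_of_mem _ (Finset.mem_univ i)

variable (G N) in
/-- the restriction to the enumerations -/
noncomputable def resC (k : ℕ) : CC G N k →ₗ[ℝ] (∀ T : Cs G k, N T.1) where
  toFun α T := ⟨(α : (Fin k → X) → M) (en T), by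
    have := α.2.2.2 (en T)
    rwa [image_en] at this⟩
  map_add' _ _ := rfl
  map_smul' _ _ := rfl

lemma resC_inj (k : ℕ) : Function.Injective (resC G N k) := by
  rw [← LinearMap.ker_eq_bot, LinearMap.ker_eq_bot']
  intro α h
  ext1
  funext s
  by_cases hs : CT G s
  · obtain ⟨T, π, rfl⟩ := exists_perm hs
    rw [Alt.perm α.2.1 π]
    have h1 : (α : (Fin k → X) → M) (en T) = 0 := congrArg Subtype.val (congrFun h T)
    rw [h1, smul_zero]
    rfl
  · by_contra h0
    exact hs (α.2.2.1 s h0)

variable (G N) in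
/-- the extension from the enumerations -/
noncomputable def extC (k : ℕ) : (∀ T : Cs G k, N T.1) →ₗ[ℝ] CC G N k where
  toFun F := ⟨fun s => ∑ T : Cs G k, dt s (en T) • (F T : M), by
    refine ⟨fun v i j hij => ?_, fun s hs i j hij => ?_, fun s => ?_⟩
    · rw [← Finset.sum_neg_distrib]
      exact Finset.sum_congr rfl fun T _ => by rw [dt_swap _ _ hij, neg_smul]
    · obtain ⟨T, _, hT⟩ := Finset.exists_ne_zero_of_sum_ne_zero hs
      have h1 : dt s (en T) ≠ 0 := fun h0 => hT (by rw [h0, zero_smul])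
      exact T.2.1 _ (dt_mem h1 i) _ (dt_mem h1 j) fun e => hij (dt_inj h1 e)
    · refine Submodule.sum_mem _ fun T _ => ?_
      by_cases h0 : dt s (en T) = 0
      · rw [h0, zero_smul]
        exact Submodule.zero_mem _
      · have h1 : Finset.univ.image s = T.1 := by
          refine Finset.eq_of_subset_of_card_le (fun v hv => ?_) ?_
          · obtain ⟨i, _, rfl⟩ := Finset.mem_image.1 hv
            exact dt_mem h0 i
          · rw [T.2.2]
            have := (Finset.card_image_of_injective Finset.univ (dt_inj h0)).trans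
              (Finset.card_fin k)
            exact le_of_eq this.symm
        rw [h1]
        exact Submodule.smul_mem _ _ (F T).2⟩
  map_add' F F' := by
    ext1
    funext s
    simp only [Submodule.coe_add, Pi.add_apply, smul_add, Finset.sum_add_distrib]
  map_smul' r F := by
    ext1
    funext s
    simp only [Submodule.coe_smul, Pi.smul_apply, RingHom.id_apply, Finset.smul_sum]
    exact Finset.sum_congr rfl fun T _ => by rw [smul_comm]

lemma extC_inj (k : ℕ) : Function.Injective (extC G N k) := by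
  rw [← LinearMap.ker_eq_bot, LinearMap.ker_eq_bot']
  intro F h
  funext T
  ext1
  have h1 : ∑ T' : Cs G k, dt (en T) (en T') • (F T' : M) = 0 :=
    congrFun (congrArg Subtype.val h) (en T)
  rw [Finset.sum_eq_single T, dt_self (en_inj T), one_smul] at h1
  · exact h1
  · intro T' _ hne
    have : dt (en T) (en T') = 0 := by
      by_contra h0
      apply hne
      refine Subtype.ext (Finset.eq_of_subset_of_card_le ?_ (by rw [T.2.2, T'.2.2])).symm
      intro v hv
      obtain ⟨i, rfl⟩ := en_surj T hv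
      exact dt_mem h0 i
    rw [this, zero_smul]
  · intro h'; exact absurd (Finset.mem_univ _) h'

theorem finrank_CC [Module.Finite ℝ M] (k : ℕ) :
    Module.finrank ℝ (CC G N k) = ∑ T : Cs G k, Module.finrank ℝ (N T.1) := by
  have h1 := LinearMap.finrank_le_finrank_of_injective (resC_inj (G := G) (N := N) k)
  have h2 := LinearMap.finrank_le_finrank_of_injective (extC_inj (G := G) (N := N) k)
  rw [Module.finrank_pi_fintype] at h1 h2
  exact le_antisymm h1 h2

/-- the system is increasing -/
def Mono (G : SimpleGraph X) (N : Finset X → Submodule ℝ M) : Prop :=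
  ∀ T, Cq G T → ∀ v ∈ T, N (T.erase v) ≤ N T

lemma erase_image {k : ℕ} {s : Fin (k + 1) → X} (hs : CT G s) (i : Fin (k + 1)) :
    Finset.univ.image (s ∘ i.succAbove) = (Finset.univ.image s).erase (s i) := by
  rw [image_succAbove s i, Finset.erase_insert]
  intro h'
  obtain ⟨j, _, hj⟩ := Finset.mem_image.1 h'
  exact (hs _ _ (Fin.succAbove_ne i j)).ne hj

/-- the differential -/
noncomputable def dC (h : Mono G N) (k : ℕ) : CC G N k →ₗ[ℝ] CC G N (k + 1) where
  toFun α := ⟨fun s => if CT G s then tc (Io M) (α : (Fin k → X) → M) s else 0, by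
    refine ⟨fun v i j hij => ?_, fun s hs => ?_, fun s => ?_⟩
    · beta_reduce
      by_cases h0 : CT G v
      · rw [if_pos ((ct_swap i j).2 h0), if_pos h0]
        exact Alt.tc α.2.1 _ v i j hij
      · rw [if_neg fun h' => h0 ((ct_swap i j).1 h'), if_neg h0, neg_zero]
    · by_contra h0
      exact hs (if_neg h0)
    · beta_reduce
      split_ifs with h0
      · unfold tc
        refine Submodule.sum_mem _ fun i _ => Submodule.smul_mem _ _ ?_
        have h1 := α.2.2.2 (s ∘ i.succAbove)
        rw [erase_image h0] at h1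
        exact h _ (cq_image h0) (s i) (Finset.mem_image_of_mem s (Finset.mem_univ i)) h1
      · exact Submodule.zero_mem _⟩
  map_add' α β := by
    ext1
    funext s
    simp only [Submodule.coe_add, Pi.add_apply]
    split_ifs
    · exact tc_add _ (α : (Fin k → X) → M) β s
    · simp
  map_smul' r α := by
    ext1
    funext s
    simp only [Submodule.coe_smul, Pi.smul_apply, RingHom.id_apply]
    split_ifs
    · exact tc_smul _ r (α : (Fin k → X) → M) s
    · simp

lemma dC_apply (h : Mono G N) {k : ℕ} (α : CC G N k) {s : Fin (k + 1) → X} (hs : CT G s) :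
    (dC h k α : (Fin (k + 1) → X) → M) s = tc (Io M) (α : (Fin k → X) → M) s := if_pos hs

lemma dC_eq_zero (h : Mono G N) {k : ℕ} {α : CC G N k} (h0 : dC h k α = 0)
    {s : Fin (k + 1) → X} (hs : CT G s) : tc (Io M) (α : (Fin k → X) → M) s = 0 := by
  rw [← dC_apply h α hs, h0]
  rfl

lemma dC_dC (h : Mono G N) (k : ℕ) (α : CC G N k) : dC h (k + 1) (dC h k α) = 0 := by
  ext1
  funext s
  by_cases hs : CT G s
  · rw [dC_apply h _ hs]
    have h1 : tc (Io M) ((dC h k α : CC G N (k + 1)) : (Fin (k + 1) → X) → M) s =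
        tc (Io M) (tc (Io M) (α : (Fin k → X) → M)) s :=
      tc_congr _ fun i => dC_apply h α (hs.sub i)
    rw [h1]
    exact two_tc_zero (tc_tc _ _ _ s fun i j hij m => rfl)
  · exact if_neg hs

lemma CC_zero_of {k : ℕ} (hk : ∀ s : Fin k → X, ¬ CT G s) (α : CC G N k) : α = 0 := by
  ext1
  funext s
  by_contra h
  exact hk s (α.2.2.1 s h)

/-! ### The computation -/

variable {P V : Type} [Group P] [Fintype V] {K : SimpleGraph X} {ι : V → X}
  {g : X → X → P} {n : ℕ} {z : (Fin (n + 1) → X) → ℝ} {Bc : (Fin (n + 1) → V ⊕ V × V) → ℝ}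
  {Ω : Type} [Fintype Ω] {S : V → (Ω → ℝ) →ₗ[ℝ] (Ω → ℝ)}

/-- the kernels of the projections -/
noncomputable def KK (S : X → (Ω → ℝ) →ₗ[ℝ] (Ω → ℝ)) (T : Finset X) : Submodule ℝ (Ω → ℝ) :=
  LinearMap.ker (PF S (-1) T)

lemma KK_mono {S : X → (Ω → ℝ) →ₗ[ℝ] (Ω → ℝ)} (hS : Com K S) : Mono K (KK S) := by
  intro T hT v hv m hm
  unfold KK at hm ⊢
  rw [LinearMap.mem_ker] at hm ⊢
  have h1 := hS.PF_insert (-1) (Finset.notMem_erase v T) (by rwa [Finset.insert_erase hv]) m
  rw [Finset.insert_erase hv] at h1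
  rw [h1, hm, map_zero]

/-- the Euler characteristic of the flag complex of the finite graph `K` -/
noncomputable def eulerChar (K : SimpleGraph X) : ℚ :=
  ∑ T : Finset X, if K.IsClique (T : Set X) ∧ T.Nonempty then (-1 : ℚ) ^ (T.card + 1) else 0

lemma cq_iff {T : Finset X} : K.IsClique (T : Set X) ↔ Cq K T :=
  ⟨fun h a ha b hb hab => h ha hb hab, fun h a ha b hb hab => h a ha b hb hab⟩

lemma range_PF (hS : Com K (Sx ι S)) (hι : Function.Injective ι) (hS' : Clf (K.comap ι) S)
    {T : Finset V} (hT : Cq (K.comap ι) T) :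
    LinearMap.range (PF (Sx ι S) (-1) (T.image ι)) = NN S T := by
  ext m
  rw [LinearMap.mem_range]
  constructor
  · rintro ⟨w, rfl⟩ v hv
    rw [pf_image hι hS' (-1) hT, hS'.S_PF (by norm_num) hT hv, neg_smul, one_smul]
  · intro h
    refine ⟨m, ?_⟩
    rw [pf_image hι hS' (-1) hT]
    refine PF_of (by norm_num) fun v hv => ?_
    rw [h v hv, neg_smul, one_smul]

lemma model_sym {V : Type} [Fintype V] [LinearOrder V] [Fintype (V → Bool)] (G : SimpleGraph V)
    (v : V) (a b : (V → Bool) → ℝ) : dt2 (Sm G v a) b = dt2 a (Sm G v b) := by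
  unfold dt2
  simp only [Sm_apply]
  refine Finset.sum_bij' (fun A _ => tg v A) (fun A _ => tg v A) (fun _ _ => Finset.mem_univ _)
    (fun _ _ => Finset.mem_univ _) (fun A _ => tg_tg v A) (fun A _ => tg_tg v A) fun A _ => ?_
  have h4 : sgm G v (tg v A) = sgm G v A := sgm_tg_of_not (fun h => absurd h.1 (lt_irrefl v)) A
  rw [h4, tg_tg]
  ring

theorem rt_euler (hM : MPair n K ι z) (hg : Vo K ι g) (hac : FAcy (cov K g)) (hB : Alt Bc)
    (hB' : ∀ v, Bc v ≠ 0 → GT (K.comap ι) v)
    (hzB : ∀ y, ∑ x, Bc (Fin.cons x y) = zh (zT ι z) y) :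
    eulerChar K + chiW (K.comap ι) - 1 = 0 := by
  obtain ⟨S, hS, hsym, hdim⟩ : ∃ S : V → Mo V →ₗ[ℝ] Mo V, Clf (K.comap ι) S ∧ Sym S ∧
      ∀ T : Finset V, Cq (K.comap ι) T →
      2 ^ T.card * Module.finrank ℝ (NN S T) = 2 ^ Fintype.card V := by
    let lo : LinearOrder V := LinearOrder.lift' (Fintype.equivFin V) (Fintype.equivFin V).injective
    refine ⟨@Sm V _ lo (K.comap ι), @clf_model V _ lo (K.comap ι), ?_,
      fun T hT => @finrank_NN V _ lo (K.comap ι) T hT⟩
    intro v a b
    exact @model_sym V _ lo (@Pi.instFintype V (fun _ => Bool)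
      (fun a b => Classical.propDecidable (a = b)) _ fun _ => Bool.fintype) (K.comap ι) v a b
  have hcom := Sx_com hM.inj hS
  have hmono : Mono K (KK (Sx ι S)) := KK_mono hcom
  have hker : ∀ {k : ℕ} (α : CC K (KK (Sx ι S)) k) (s : Fin k → X),
      PF (Sx ι S) (-1) (Finset.univ.image s) ((α : (Fin k → X) → Mo V) s) = 0 := fun α s =>
    α.2.2.2 s
  have h1 := euler_seq (fun k => CC K (KK (Sx ι S)) (k + 1)) (fun k => dC hmono (k + 1)) n
    (fun α hα => by
      ext1
      funext s
      exact rt_inj hM hg hac hB hB' hzB hS (fun s hs => dC_eq_zero hmono hα hs)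
        (fun s _ => hker α s) s)
    (fun k _ α hα => by
      obtain ⟨χ, h2, h3, h4⟩ := rt_exact hM hg hac hB hB' hzB hS hsym α.2.1
        (fun s hs => dC_eq_zero hmono hα hs) (fun s _ => hker α s)
      refine ⟨⟨fun s => if CT K s then χ s else 0, ?_, fun s hs => ?_, fun s => ?_⟩, ?_⟩
      · intro s i j hij
        beta_reduce
        by_cases h0 : CT K s
        · rw [if_pos ((ct_swap i j).2 h0), if_pos h0]
          exact h2 s i j hij
        · rw [if_neg fun h' => h0 ((ct_swap i j).1 h'), if_neg h0, neg_zero]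
      · by_contra h0
        exact hs (if_neg h0)
      · beta_reduce
        split_ifs with h0
        · exact h4 s h0
        · exact Submodule.zero_mem _
      · ext1
        funext s
        by_cases hs : CT K s
        · rw [dC_apply hmono _ hs, h3 s hs]
          exact tc_congr _ fun i => if_pos (hs.sub i)
        · have h5 : (α : (Fin (k + 2) → X) → Mo V) s = 0 := by
            by_contra h0
            exact hs (α.2.2.1 s h0)
          rw [h5]
          exact if_neg hs)
    (fun k γ => dC_dC hmono (k + 1) γ)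
    (fun α => CC_zero_of (fun s hs => by
      have := lt_len hM.pair cq_empty (lt_empty hs)
      simp at this) _)
  set N := Fintype.card V with hN
  -- dimensions
  have h2 : ∀ k : ℕ, ∀ T : Cs K (k + 1), (Module.finrank ℝ (KK (Sx ι S) T.1) : ℚ) =
      2 ^ N * (1 - if (∀ x ∈ T.1, x ∈ Set.range ι) then (1 / 2 : ℚ) ^ T.1.card else 0) := by
    intro k T
    have hM2 : Module.finrank ℝ (Mo V) = 2 ^ N := by
      rw [Module.finrank_fintype_fun_eq_card, Fintype.card_fun, Fintype.card_bool]
    by_cases hT : ∀ x ∈ T.1, x ∈ Set.range ι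
    · rw [if_pos hT]
      obtain ⟨T₀, hT₀⟩ : ∃ T₀ : Finset V, T₀.image ι = T.1 := by
        refine ⟨Finset.univ.filter fun v => ι v ∈ T.1, ?_⟩
        ext x
        simp only [Finset.mem_image, Finset.mem_filter, Finset.mem_univ, true_and]
        constructor
        · rintro ⟨v, hv, rfl⟩; exact hv
        · intro hx
          obtain ⟨v, rfl⟩ := hT x hx
          exact ⟨v, hx, rfl⟩
      have hcq : Cq (K.comap ι) T₀ := by
        intro a ha b hb hab
        refine T.2.1 (ι a) ?_ (ι b) ?_ fun e => hab (hM.inj e)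
        · rw [← hT₀]; exact Finset.mem_image_of_mem ι ha
        · rw [← hT₀]; exact Finset.mem_image_of_mem ι hb
      have hcard : T₀.card = T.1.card := by
        rw [← hT₀, Finset.card_image_of_injective _ hM.inj]
      have h3 := LinearMap.finrank_range_add_finrank_ker (PF (Sx ι S) (-1) (T₀.image ι))
      rw [range_PF hcom hM.inj hS hcq, hM2, hT₀] at h3
      have h4 := hdim T₀ hcq
      rw [hcard] at h4
      have h5 : (Module.finrank ℝ (NN S T₀) : ℚ) + Module.finrank ℝ (KK (Sx ι S) T.1) = 2 ^ N := by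
        exact_mod_cast h3
      have h6 : (2 : ℚ) ^ T.1.card * (Module.finrank ℝ (NN S T₀) : ℚ) = 2 ^ N := by
        exact_mod_cast h4
      have h7 : (Module.finrank ℝ (NN S T₀) : ℚ) = 2 ^ N * (1 / 2) ^ T.1.card := by
        rw [← h6]
        rw [mul_comm, ← mul_assoc, ← mul_pow]
        norm_num
      rw [h7] at h5
      linarith
    · rw [if_neg hT, sub_zero, mul_one]
      have h3 : KK (Sx ι S) T.1 = ⊤ := by
        rw [eq_top_iff]
        intro m _
        unfold KK
        rw [LinearMap.mem_ker, ← image_en T]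
        refine pf_out hM.inj hS (en_ct T) ?_ m
        push Not at hT
        obtain ⟨x, hx, hx'⟩ := hT
        obtain ⟨i, rfl⟩ := en_surj T hx
        exact ⟨i, hx'⟩
      rw [h3, finrank_top, hM2]
      push_cast
      rfl
  have h3 : ∑ k ∈ Finset.range (n + 1), (-1 : ℚ) ^ k * ∑ T : Cs K (k + 1),
      (2 ^ N * (1 - if (∀ x ∈ T.1, x ∈ Set.range ι) then (1 / 2 : ℚ) ^ T.1.card else 0)) = 0 := by
    have h6 : ((∑ k ∈ Finset.range (n + 1), (-1 : ℤ) ^ k *
        (Module.finrank ℝ (CC K (KK (Sx ι S)) (k + 1)) : ℤ) : ℤ) : ℚ) = 0 := by rw [h1]; simp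
    push_cast at h6
    refine Eq.trans ?_ h6
    refine Finset.sum_congr rfl fun k _ => ?_
    rw [finrank_CC, Nat.cast_sum]
    congr 1
    exact Finset.sum_congr rfl fun T _ => (h2 k T).symm
  -- the sum over the cliques
  set f : Finset X → ℚ := fun T =>
    1 - if (∀ x ∈ T, x ∈ Set.range ι) then (1 / 2 : ℚ) ^ T.card else 0 with hf
  have h4 : ∀ k : ℕ, (-1 : ℚ) ^ k * ∑ T : Cs K (k + 1), (2 ^ N * f T.1) =
      2 ^ N * ∑ T ∈ (Finset.univ.filter fun T : Finset X => Cq K T ∧ T.Nonempty) with T.card - 1 = k,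
        (-1 : ℚ) ^ (T.card + 1) * f T := by
    intro k
    have h8 : ∑ T ∈ (Finset.univ.filter fun T : Finset X => Cq K T ∧ T.Nonempty) with
        T.card - 1 = k, (-1 : ℚ) ^ (T.card + 1) * f T =
        ∑ T : Cs K (k + 1), (-1 : ℚ) ^ k * f T.1 := by
      rw [Finset.sum_subtype (p := fun T : Finset X => Cq K T ∧ T.card = k + 1)
        (F := inferInstance)]
      · refine Finset.sum_congr rfl fun T _ => ?_
        rw [T.2.2, pow_succ, pow_succ]
        ring
      · intro T
        simp only [Finset.mem_filter, Finset.mem_univ, true_and]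
        constructor
        · rintro ⟨⟨h1, h2⟩, h3⟩
          have := Finset.card_pos.2 h2
          exact ⟨h1, by omega⟩
        · rintro ⟨h1, h2⟩
          exact ⟨⟨h1, Finset.card_pos.1 (by omega)⟩, by omega⟩
    rw [h8, Finset.mul_sum, Finset.mul_sum]
    refine Finset.sum_congr rfl fun T _ => ?_
    ring
  rw [Finset.sum_congr rfl fun k _ => h4 k, ← Finset.mul_sum,
    Finset.sum_fiberwise_of_maps_to (fun T hT => by
      rw [Finset.mem_range]
      have := hM.pair.card (Finset.mem_filter.1 hT).2.1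
      omega)] at h3
  have h5 := (mul_eq_zero.1 h3).resolve_left (by positivity)
  have h6 : ∑ T ∈ Finset.univ.filter (fun T : Finset X => Cq K T ∧ T.Nonempty),
      (-1 : ℚ) ^ (T.card + 1) * f T = eulerChar K - ∑ T ∈ Finset.univ.filter
        (fun T : Finset X => Cq K T ∧ T.Nonempty), (if (∀ x ∈ T, x ∈ Set.range ι) then
          (-1 : ℚ) ^ (T.card + 1) * (1 / 2 : ℚ) ^ T.card else 0) := by
    unfold eulerChar
    simp only [cq_iff]
    rw [← Finset.sum_filter, ← Finset.sum_sub_distrib]
    refine Finset.sum_congr rfl fun T _ => ?_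
    simp only [hf]
    split_ifs <;> ring
  have h7 : ∑ T ∈ Finset.univ.filter (fun T : Finset X => Cq K T ∧ T.Nonempty),
      (if (∀ x ∈ T, x ∈ Set.range ι) then (-1 : ℚ) ^ (T.card + 1) * (1 / 2 : ℚ) ^ T.card else 0) =
      1 - chiW (K.comap ι) := by
    rw [← Finset.sum_filter, Finset.filter_filter, Pool.Agent.Q134.SE.chiW_eq]
    have h8 : ∑ T : Finset V, Pool.Agent.Q134.SE.tm (K.comap ι) T =
        1 + ∑ T ∈ Finset.univ.filter (fun T : Finset V => Cq (K.comap ι) T ∧ T.Nonempty),
          (-1 / 2 : ℚ) ^ T.card := by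
      rw [← Finset.sum_erase_add _ _ (Finset.mem_univ (∅ : Finset V)), add_comm]
      congr 1
      · unfold Pool.Agent.Q134.SE.tm
        simp
      · symm
        refine Finset.sum_subset_zero_on_sdiff ?_ ?_ ?_
        · intro T hT
          simp only [Finset.mem_filter, Finset.mem_erase, Finset.mem_univ, and_true, true_and] at hT ⊢
          exact Finset.nonempty_iff_ne_empty.1 hT.2
        · intro T hT
          simp only [Finset.mem_sdiff, Finset.mem_filter, Finset.mem_erase, Finset.mem_univ,
            and_true, true_and] at hT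
          unfold Pool.Agent.Q134.SE.tm
          refine if_neg fun h => hT.2 ⟨cq_iff.1 h, Finset.nonempty_iff_ne_empty.2 hT.1⟩
        · intro T hT
          simp only [Finset.mem_filter, Finset.mem_univ, true_and] at hT
          unfold Pool.Agent.Q134.SE.tm
          rw [if_pos (cq_iff.2 hT.1)]
    rw [h8]
    have h9 : ∑ T ∈ Finset.univ.filter (fun T : Finset X => (Cq K T ∧ T.Nonempty) ∧
        ∀ x ∈ T, x ∈ Set.range ι), (-1 : ℚ) ^ (T.card + 1) * (1 / 2 : ℚ) ^ T.card =
        ∑ T ∈ Finset.univ.filter (fun T : Finset V => Cq (K.comap ι) T ∧ T.Nonempty),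
          (-1 : ℚ) ^ (T.card + 1) * (1 / 2 : ℚ) ^ T.card := by
      symm
      refine Finset.sum_bij (fun T _ => T.image ι) ?_ ?_ ?_ ?_
      · intro T hT
        simp only [Finset.mem_filter, Finset.mem_univ, true_and] at hT ⊢
        refine ⟨⟨fun a ha b hb hab => ?_, hT.2.image ι⟩, fun x hx => ?_⟩
        · obtain ⟨a', ha', rfl⟩ := Finset.mem_image.1 ha
          obtain ⟨b', hb', rfl⟩ := Finset.mem_image.1 hb
          exact hT.1 a' ha' b' hb' fun e => hab (by rw [e])
        · obtain ⟨a', ha', rfl⟩ := Finset.mem_image.1 hx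
          exact ⟨a', rfl⟩
      · intro T _ T' _ h
        exact Finset.image_injective hM.inj h
      · intro T hT
        simp only [Finset.mem_filter, Finset.mem_univ, true_and] at hT
        obtain ⟨⟨h1, h2⟩, h3⟩ := hT
        have h10 : (Finset.univ.filter fun v => ι v ∈ T).image ι = T := by
          ext x
          simp only [Finset.mem_image, Finset.mem_filter, Finset.mem_univ, true_and]
          constructor
          · rintro ⟨v, hv, rfl⟩; exact hv
          · intro hx
            obtain ⟨v, rfl⟩ := h3 x hx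
            exact ⟨v, hx, rfl⟩
        refine ⟨Finset.univ.filter fun v => ι v ∈ T, ?_, h10⟩
        simp only [Finset.mem_filter, Finset.mem_univ, true_and]
        refine ⟨fun a ha b hb hab => ?_, ?_⟩
        · simp only [Finset.mem_filter, Finset.mem_univ, true_and] at ha hb
          exact h1 _ ha _ hb fun e => hab (hM.inj e)
        · rw [← Finset.image_nonempty (f := ι), h10]
          exact h2
      · intro T _
        rw [Finset.card_image_of_injective _ hM.inj]
    rw [h9, ← sub_sub, sub_self, zero_sub, ← Finset.sum_neg_distrib]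
    refine Finset.sum_congr rfl fun T _ => ?_
    rw [pow_succ, mul_neg_one, neg_mul, ← mul_pow]
    congr 2
    norm_num
  rw [h6, h7] at h5
  linarith

end Pool.Agent.K4H70.RT
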