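import Pool.Agent.K4H70.RT.LC
import Pool.Agent.K4H70.SV.Alt2

/-!
Finite chains of infinite complexes.
-/

set_option autoImplicit false
set_option linter.unusedSectionVars false
set_option linter.unusedVariables false

open scoped Classical

namespace Pool.Agent.K4H70.RT

open Pool.Agent.Q134.SV
open Pool.Agent.K4H70.SV

/-- Finite alternating real chains of the flag complex of `G`, in degree `k - 1`. -/
structure FChain {Y : Type} (G : SimpleGraph Y) {k : ℕ} (a : (Fin k → Y) → ℝ) : Prop where
  alt : ∀ (v : Fin k → Y) (i j : Fin k), i ≠ j → a (v ∘ Equiv.swap i j) = - a v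
  supp : ∀ v : Fin k → Y, a v ≠ 0 → ∀ i j, i ≠ j → G.Adj (v i) (v j)
  fin : (Function.support a).Finite

/-- The flag complex of the graph `G` (in general infinite) is acyclic: its reduced real homology is
zero. Each finite chain `a` of degree `k - 1` which is a cycle is the boundary of a finite chain `b`
(`k = 0`: the degree `-1`, so the complex is not empty; the sums have finitely many nonzero terms). -/
def FAcy {Y : Type} (G : SimpleGraph Y) : Prop :=
  ∀ (k : ℕ) (a : (Fin k → Y) → ℝ), FChain G a →
    (∀ (v : Fin k → Y) (i : Fin k), ∑ᶠ x, a (Function.update v i x) = 0) →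
    ∃ b : (Fin (k + 1) → Y) → ℝ, FChain G b ∧ ∀ v, a v = ∑ᶠ x, b (Fin.cons x v)

variable {Y : Type} {G : SimpleGraph Y} {k : ℕ}

lemma FChain.sub {a b : (Fin k → Y) → ℝ} (ha : FChain G a) (hb : FChain G b) :
    FChain G fun v => a v - b v := by
  refine ⟨fun v i j hij => ?_, fun v hv => ?_, ?_⟩
  · rw [ha.alt v i j hij, hb.alt v i j hij]
    ring
  · by_cases h : a v = 0
    · exact hb.supp v fun h' => hv (by rw [h, h', sub_zero])
    · exact ha.supp v h
  · refine (ha.fin.union hb.fin).subset fun v hv => ?_
    by_cases h : a v = 0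
    · refine Or.inr fun h' => hv ?_
      simp only [h, h', sub_zero]
    · exact Or.inl h

lemma FChain.zero : FChain G fun _ : Fin k → Y => (0 : ℝ) :=
  ⟨fun v i j _ => by simp, fun v hv => absurd rfl hv, by simp [Function.support]⟩

lemma FChain.dL : ∀ (z : List Y) {F : List Y → (Fin k → Y) → ℝ},
    (∀ x, x.length + 1 = z.length → FChain G (F x)) → FChain G fun v => dL z fun x => F x v
  | [], F, _ => FChain.zero
  | x :: l, F, h => FChain.sub (h l rfl) (FChain.dL l fun x' hx' => h (x :: x') (by
      rw [List.length_cons, List.length_cons, hx']))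

lemma fin_cons {a : (Fin (k + 1) → Y) → ℝ} (ha : (Function.support a).Finite) (v : Fin k → Y) :
    (Function.support fun x => a (Fin.cons x v)).Finite := by
  have hinj : Function.Injective fun x : Y => (Fin.cons x v : Fin (k + 1) → Y) := by
    intro x x' h
    have := congrFun h 0
    simpa using this
  have := ha.preimage (f := fun x : Y => (Fin.cons x v : Fin (k + 1) → Y)) hinj.injOn
  exact this

lemma fin_fold {a : (Fin (k + 1) → Y) → ℝ} (ha : (Function.support a).Finite) :
    (Function.support fun v : Fin k → Y => ∑ᶠ x, a (Fin.cons x v)).Finite := by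
  refine (ha.image Fin.tail).subset fun v hv => ?_
  obtain ⟨x, hx⟩ := exists_ne_zero_of_finsum_mem_ne_zero (s := Set.univ)
    (f := fun x => a (Fin.cons x v)) (by rw [finsum_mem_univ]; exact hv)
  exact ⟨Fin.cons x v, hx.2, Fin.tail_cons _ _⟩

/-- Fubini -/
lemma fs_cons {a : (Fin (k + 1) → Y) → ℝ} (ha : (Function.support a).Finite) :
    ∑ᶠ v, a v = ∑ᶠ v : Fin k → Y, ∑ᶠ x, a (Fin.cons x v) := by
  have h1 : ∑ᶠ v, a v = ∑ᶠ p : (Fin k → Y) × Y, a (Fin.cons p.2 p.1) := by
    rw [← finsum_comp_equiv ((Equiv.prodComm _ _).trans (Fin.consEquiv fun _ : Fin (k + 1) => Y))]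
    rfl
  rw [h1, finsum_curry]
  have hinj : Function.Injective fun p : (Fin k → Y) × Y => (Fin.cons p.2 p.1 : Fin (k + 1) → Y) :=
    ((Equiv.prodComm _ _).trans (Fin.consEquiv fun _ : Fin (k + 1) => Y)).injective
  have := ha.preimage (f := fun p : (Fin k → Y) × Y => (Fin.cons p.2 p.1 : Fin (k + 1) → Y))
    hinj.injOn
  exact this

lemma dL_fs {Z : Type} {α : Type} : ∀ (z : List Z) {F : List Z → α → ℝ},
    (∀ x, x.length + 1 = z.length → (Function.support (F x)).Finite) →
    dL z (fun x => ∑ᶠ v, F x v) = ∑ᶠ v, dL z fun x => F x v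
  | [], F, _ => by simp [dL_nil]
  | x :: l, F, h => by
    have h1 : ∀ x', x'.length + 1 = l.length → (Function.support (F (x :: x'))).Finite :=
      fun x' hx' => h (x :: x') (by rw [List.length_cons, List.length_cons, hx'])
    rw [dL_cons, dL_fs l h1]
    simp only [dL_cons]
    rw [finsum_sub_distrib]
    · exact h l rfl
    · have : ∀ (l : List Z) (F : List Z → α → ℝ),
          (∀ x, x.length + 1 = l.length → (Function.support (F x)).Finite) →
          (Function.support fun v => dL l fun x => F x v).Finite := by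
        intro l
        induction l with
        | nil => intro F _; simp [dL_nil]
        | cons y l ih =>
          intro F hF
          refine ((hF l rfl).union (ih (fun x => F (y :: x)) fun x hx => hF (y :: x) (by
            rw [List.length_cons, List.length_cons, hx]))).subset fun v hv => ?_
          by_cases h0 : F l v = 0
          · refine Or.inr fun h' => hv ?_
            simp only [dL_cons]
            simp only at h'
            rw [h0, h', sub_zero]
          · exact Or.inl h0
      exact this l (fun x' => F (x :: x')) h1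

lemma fin_dL {Z : Type} {α : Type} (l : List Z) {F : List Z → α → ℝ}
    (h : ∀ x, x.length + 1 = l.length → (Function.support (F x)).Finite) :
    (Function.support fun v => dL l fun x => F x v).Finite := by
  induction l generalizing F with
  | nil => simp [dL_nil]
  | cons y l ih =>
    refine ((h l rfl).union (ih (F := fun x => F (y :: x)) fun x hx => h (y :: x) (by
      rw [List.length_cons, List.length_cons, hx]))).subset fun v hv => ?_
    by_cases h0 : F l v = 0
    · refine Or.inr fun h' => hv ?_
      simp only [dL_cons]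
      simp only at h'
      rw [h0, h', sub_zero]
    · exact Or.inl h0

lemma dL_ofFn {M : Type} [AddCommGroup M] [Module ℝ M] : ∀ {n : ℕ} (v : Fin (n + 1) → Y)
    (F : List Y → M), dL (List.ofFn v) F = tc (fun _ => (LinearMap.id : M →ₗ[ℝ] M))
      (fun s => F (List.ofFn s)) v
  | 0, v, F => by
    rw [tc_one]
    simp [dL_cons, dL_nil]
  | n + 1, v, F => by
    obtain ⟨x, g, rfl⟩ : ∃ x g, v = (Fin.cons x g : Fin (n + 2) → Y) :=
      ⟨v 0, Fin.tail v, (Fin.cons_self_tail v).symm⟩
    rw [List.ofFn_cons, dL_cons, dL_ofFn g, tc_cons]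
    simp only [LinearMap.id_coe, id_eq, List.ofFn_cons]

/-- integration by parts -/
theorem fs_dL {a : (Fin (k + 1) → Y) → ℝ} (ha : Alt a) (hf : (Function.support a).Finite)
    (Ψ : List Y → ℝ) : ∑ᶠ v, a v * dL (List.ofFn v) Ψ =
      ((k : ℝ) + 1) * ∑ᶠ v : Fin k → Y, (∑ᶠ x, a (Fin.cons x v)) * Ψ (List.ofFn v) := by
  have h0 : ∀ v, a v * dL (List.ofFn v) Ψ = ∑ i : Fin (k + 1),
      a (Fin.cons (v i) (v ∘ i.succAbove)) * Ψ (List.ofFn (v ∘ i.succAbove)) := by
    intro v
    rw [dL_ofFn]
    unfold tc
    rw [Finset.mul_sum]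
    refine Finset.sum_congr rfl fun i _ => ?_
    nth_rewrite 1 [ha.move v i]
    simp only [LinearMap.id_coe, id_eq, smul_eq_mul]
    have : ((-1 : ℝ) ^ (i : ℕ)) * ((-1 : ℝ) ^ (i : ℕ)) = 1 := by
      rw [← mul_pow]; simp
    linear_combination (a (Fin.cons (v i) (v ∘ i.succAbove)) *
      Ψ (List.ofFn (v ∘ i.succAbove))) * this
  have hfin : ∀ i : Fin (k + 1), (Function.support fun v : Fin (k + 1) → Y =>
      a (Fin.cons (v i) (v ∘ i.succAbove)) * Ψ (List.ofFn (v ∘ i.succAbove))).Finite := by
    intro i
    refine hf.subset fun v hv => ?_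
    rw [Function.mem_support] at hv ⊢
    rw [ha.move v i]
    exact smul_ne_zero (pow_ne_zero _ (by norm_num)) (left_ne_zero_of_mul hv)
  have h1 : ∀ i : Fin (k + 1), ∑ᶠ v : Fin (k + 1) → Y,
      a (Fin.cons (v i) (v ∘ i.succAbove)) * Ψ (List.ofFn (v ∘ i.succAbove)) =
      ∑ᶠ v : Fin k → Y, (∑ᶠ x, a (Fin.cons x v)) * Ψ (List.ofFn v) := by
    intro i
    rw [← finsum_comp_equiv (Fin.insertNthEquiv (fun _ : Fin (k + 1) => Y) i)]
    have e1 : ∀ p : Y × (Fin k → Y), (Fin.insertNthEquiv (fun _ : Fin (k + 1) => Y) i) p i = p.1 := by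
      intro p; simp
    have e2 : ∀ p : Y × (Fin k → Y),
        (Fin.insertNthEquiv (fun _ : Fin (k + 1) => Y) i) p ∘ i.succAbove = p.2 := by
      intro p
      funext k
      simp
    simp only [e1, e2]
    rw [← finsum_comp_equiv (Equiv.prodComm (Fin k → Y) Y), finsum_curry]
    · refine finsum_congr fun v => ?_
      rw [finsum_mul' _ _ (fin_cons hf v)]
      rfl
    · have hinj : Function.Injective fun p : (Fin k → Y) × Y =>
          (Fin.cons p.2 p.1 : Fin (k + 1) → Y) :=
        ((Equiv.prodComm _ _).trans (Fin.consEquiv fun _ : Fin (k + 1) => Y)).injective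
      have := hf.preimage (f := fun p : (Fin k → Y) × Y => (Fin.cons p.2 p.1 : Fin (k + 1) → Y))
        hinj.injOn
      refine this.subset fun p hp => ?_
      exact left_ne_zero_of_mul hp
  rw [finsum_congr h0, finsum_sum_comm _ _ fun i _ => hfin i, Finset.sum_congr rfl fun i _ => h1 i,
    Finset.sum_const, Finset.card_univ, Fintype.card_fin, nsmul_eq_mul]
  push_cast
  ring

end Pool.Agent.K4H70.RT
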