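import Pool.Agent.K4H70.RT.Volt

/-!
The group of the reflection group trick.
-/

set_option autoImplicit false
set_option linter.unusedSectionVars false
set_option linter.unusedVariables false

open scoped Classical

namespace Pool.Agent.K4H70.RT

open Pool.Agent.Q134.SV
open Pool.Agent.K4H70.SV hiding Zst zig_step zig_down zig_start
open Pool.Agent.W907.SG (W)

section

variable {Y Y' : Type} {G : SimpleGraph Y} {G' : SimpleGraph Y'}

lemma hom_ext {M : Type} [Monoid M] {f f' : W G →* M}
    (h : ∀ x, f (gen G x) = f' (gen G x)) : f = f' := by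
  ext w
  refine gen_induction G (p := fun w => f w = f' w) w (by rw [map_one, map_one]) ?_
  intro w x hw
  rw [map_mul, map_mul, h, hw]

/-- the homomorphism of right-angled Coxeter groups induced by a map of graphs -/
noncomputable def wmap (f : Y → Y') (hf : ∀ x y, G.Adj x y → G'.Adj (f x) (f y)) : W G →* W G' :=
  Pool.Agent.Q134.SV.lft G (fun x => gen G' (f x)) (fun _ => gen_sq _ _)
    fun x y h => gen_comm _ (hf x y h)

lemma wmap_gen (f : Y → Y') (hf : ∀ x y, G.Adj x y → G'.Adj (f x) (f y)) (x : Y) :
    wmap f hf (gen G x) = gen G' (f x) :=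
  Pool.Agent.Q134.SV.lft_gen _ _ _ _ _

lemma par_wmap (f : Y → Y') (hf : ∀ x y, G.Adj x y → G'.Adj (f x) (f y)) (w : W G) :
    par G' (wmap f hf w) = par G w := by
  have h : (par G').comp (wmap f hf) = par G := hom_ext fun x => by
    rw [MonoidHom.comp_apply, wmap_gen, par_gen, par_gen]
  rw [← h, MonoidHom.comp_apply]

end

variable {P X V : Type} [Group P] (K : SimpleGraph X) (ι : V → X) (g : X → X → P)

/-- the preimage of the boundary in the covering `cov K g` (the vertices `(p, ι v)`): the covering of
the boundary defined by the restriction of the voltages -/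
def bcov : SimpleGraph (P × V) := cov (K.comap ι) fun a b => g (ι a) (ι b)

/-- the translation by an element of the group of deck transformations, on the Coxeter group -/
noncomputable def tr (γ : P) : W (bcov K ι g) →* W (bcov K ι g) :=
  wmap (sh γ) fun y y' h => (cov_sh γ y y').2 h

lemma tr_gen (γ : P) (y : P × V) : tr K ι g γ (gen (bcov K ι g) y) = gen (bcov K ι g) (sh γ y) :=
  wmap_gen _ _ _

lemma tr_tr (γ δ : P) (w : W (bcov K ι g)) : tr K ι g γ (tr K ι g δ w) = tr K ι g (γ * δ) w := by
  have h : (tr K ι g γ).comp (tr K ι g δ) = tr K ι g (γ * δ) := hom_ext fun x => by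
    rw [MonoidHom.comp_apply, tr_gen, tr_gen, tr_gen, sh_sh]
  rw [← h, MonoidHom.comp_apply]

lemma tr_one (w : W (bcov K ι g)) : tr K ι g 1 w = w := by
  have h : tr K ι g 1 = MonoidHom.id _ := hom_ext fun x => by
    rw [tr_gen, MonoidHom.id_apply]
    congr 1
    exact Prod.ext (one_mul _) rfl
  rw [h, MonoidHom.id_apply]

lemma tr_inv_left (γ : P) :
    (tr K ι g γ⁻¹).comp (tr K ι g γ) = MonoidHom.id (W (bcov K ι g)) := by
  ext w
  rw [MonoidHom.comp_apply, tr_tr, inv_mul_cancel, tr_one, MonoidHom.id_apply]

lemma tr_inv_right (γ : P) :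
    (tr K ι g γ).comp (tr K ι g γ⁻¹) = MonoidHom.id (W (bcov K ι g)) := by
  ext w
  rw [MonoidHom.comp_apply, tr_tr, mul_inv_cancel, tr_one, MonoidHom.id_apply]

/-- the translation by an element of the group of deck transformations, as an automorphism of the
Coxeter group -/
noncomputable def trE (γ : P) : MulAut (W (bcov K ι g)) :=
  (tr K ι g γ).toMulEquiv (tr K ι g γ⁻¹) (tr_inv_left K ι g γ) (tr_inv_right K ι g γ)

lemma trE_mul (γ δ : P) : trE K ι g (γ * δ) = trE K ι g γ * trE K ι g δ := by
  ext w
  exact (tr_tr K ι g γ δ w).symm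

/-- the action of the group `P` of deck transformations on the right-angled Coxeter group of the
boundary of the covering: `γ` maps the generator of the vertex `(p, v)` to that of `(γ * p, v)` -/
noncomputable def act : P →* MulAut (W (bcov K ι g)) := MonoidHom.mk' (trE K ι g) (trE_mul K ι g)

lemma act_apply (γ : P) (w : W (bcov K ι g)) : act K ι g γ w = tr K ι g γ w := rfl

/-- the group of the reflection group trick: the semidirect product of the right-angled Coxeter group
of the boundary of the covering and the group `P` of deck transformations, which permutes its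
generators -/
def Gam : Type := SemidirectProduct (W (bcov K ι g)) P (act K ι g)

noncomputable instance instGroupGam : Group (Gam K ι g) :=
  @SemidirectProduct.instGroup (W (bcov K ι g)) P _ _ (act K ι g)

/-- the subgroup `H` preserves the orientation: the parity `par` of the first component of each
element is even (the reflections reverse the orientation, and `P` preserves it) -/
def Oriented (H : Subgroup (Gam K ι g)) : Prop :=
  ∀ h ∈ H, par (bcov K ι g) (SemidirectProduct.left h) = 1

/-- the homomorphism of Coxeter groups induced by the covering of the boundary -/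
noncomputable def prW : W (bcov K ι g) →* W (K.comap ι) :=
  wmap Prod.snd fun _ _ h => h.1

lemma prW_gen (y : P × V) : prW K ι g (gen (bcov K ι g) y) = gen (K.comap ι) y.2 :=
  wmap_gen _ _ _

lemma par_prW (w : W (bcov K ι g)) : par (K.comap ι) (prW K ι g w) = par (bcov K ι g) w :=
  par_wmap _ _ _

/-- the projection to the Coxeter group of the boundary -/
noncomputable def toW : Gam K ι g →* W (K.comap ι) :=
  SemidirectProduct.lift (prW K ι g) 1 fun γ => hom_ext fun y => by
    change prW K ι g (act K ι g γ (gen (bcov K ι g) y)) =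
      MulAut.conj 1 (prW K ι g (gen (bcov K ι g) y))
    rw [act_apply, tr_gen, prW_gen, prW_gen, map_one, MulAut.one_apply]
    rfl

/-- the elements of the Coxeter group in `Gam K ι g` -/
noncomputable def inW : W (bcov K ι g) →* Gam K ι g := SemidirectProduct.inl

/-- the elements of `P` in `Gam K ι g` -/
noncomputable def inP : P →* Gam K ι g := SemidirectProduct.inr

lemma toW_inW (w : W (bcov K ι g)) : toW K ι g (inW K ι g w) = prW K ι g w :=
  SemidirectProduct.lift_inl _ _ _ _

lemma toW_inP (γ : P) : toW K ι g (inP K ι g γ) = 1 :=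
  SemidirectProduct.lift_inr _ _ _ _

lemma eq_inW_mul_inP (x : Gam K ι g) : x = inW K ι g (SemidirectProduct.left x) *
    inP K ι g (SemidirectProduct.right x) :=
  (SemidirectProduct.inl_left_mul_inr_right x).symm

lemma inW_sh (γ : P) (y : P × V) : inW K ι g (gen (bcov K ι g) (sh γ y)) =
    inP K ι g γ * inW K ι g (gen (bcov K ι g) y) * (inP K ι g γ)⁻¹ := by
  have h : inW K ι g (act K ι g γ (gen (bcov K ι g) y)) =
      inP K ι g γ * inW K ι g (gen (bcov K ι g) y) * inP K ι g γ⁻¹ :=
    SemidirectProduct.inl_aut γ _
  rw [← map_inv, ← h, act_apply, tr_gen]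

lemma par_toW (x : Gam K ι g) :
    par (K.comap ι) (toW K ι g x) = par (bcov K ι g) (SemidirectProduct.left x) := by
  conv_lhs => rw [eq_inW_mul_inP K ι g x]
  rw [map_mul, toW_inW, toW_inP, mul_one, par_prW]

end Pool.Agent.K4H70.RT
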