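import Pool.Agent.K4H70.RT.Rk

/-!
The homotopy.
-/

set_option autoImplicit false
set_option linter.unusedSectionVars false
set_option linter.unusedVariables false

open scoped Classical

namespace Pool.Agent.K4H70.RT

open Pool.Agent.Q134.SV
open Pool.Agent.K4H70.SV

section

variable {Y : Type} {k : ℕ}

lemma tL_congr : ∀ {l : List Y} {w : Y} {F F' : List Y → ℝ},
    (∀ l', l'.length + 1 = l.length → F l' = F' l') → tL w l F = tL w l F'
  | [], w, F, F', _ => rfl
  | x :: l, w, F, F', h => by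
    rw [tL_cons, tL_cons, h l rfl, tL_congr fun l' h1 => h (x :: l') (by
        rw [List.length_cons, List.length_cons, h1])]

lemma fin_tL {α : Type} (w : Y) (l : List Y) {F : List Y → α → ℝ}
    (h : ∀ x, x.length + 1 = l.length → (Function.support (F x)).Finite) :
    (Function.support fun v => tL w l fun x => F x v).Finite := by
  induction l generalizing F with
  | nil => simp [tL_nil]
  | cons y l ih =>
    refine ((h l rfl).union (ih (F := fun x => F (y :: x)) fun x hx => h (y :: x) (by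
      rw [List.length_cons, List.length_cons, hx]))).subset fun v hv => ?_
    by_cases h0 : F l v = 0
    · refine Or.inr fun h' => hv ?_
      simp only [tL_cons]
      simp only at h'
      rw [h0, h']
      simp
    · exact Or.inl h0

lemma tL_fs {α : Type} (w : Y) : ∀ (z : List Y) {F : List Y → α → ℝ},
    (∀ x, x.length + 1 = z.length → (Function.support (F x)).Finite) →
    tL w z (fun x => ∑ᶠ v, F x v) = ∑ᶠ v, tL w z fun x => F x v
  | [], F, _ => by simp [tL_nil]
  | x :: l, F, h => by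
    have h1 : ∀ x', x'.length + 1 = l.length → (Function.support (F (x :: x'))).Finite :=
      fun x' hx' => h (x :: x') (by rw [List.length_cons, List.length_cons, hx'])
    rw [tL_cons, tL_fs w l h1]
    simp only [tL_cons]
    rw [finsum_sub_distrib]
    · by_cases hw : x = w
      · simp only [if_pos hw]
      · simp only [if_neg hw, finsum_zero]
    · refine (h l rfl).subset fun v hv => ?_
      rw [Function.mem_support] at hv ⊢
      intro h'
      apply hv
      rw [h']
      simp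
    · exact fin_tL w l h1

lemma fs_cons' {a : (Fin (k + 1) → Y) → ℝ} (ha : (Function.support a).Finite) :
    ∑ᶠ v, a v = ∑ᶠ x, ∑ᶠ v : Fin k → Y, a (Fin.cons x v) := by
  have h1 : ∑ᶠ v, a v = ∑ᶠ p : Y × (Fin k → Y), a (Fin.cons p.1 p.2) := by
    rw [← finsum_comp_equiv (Fin.consEquiv fun _ : Fin (k + 1) => Y)]
    rfl
  rw [h1, finsum_curry]
  have hinj : Function.Injective fun p : Y × (Fin k → Y) => (Fin.cons p.1 p.2 : Fin (k + 1) → Y) :=
    (Fin.consEquiv fun _ : Fin (k + 1) => Y).injective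
  exact ha.preimage (f := fun p : Y × (Fin k → Y) => (Fin.cons p.1 p.2 : Fin (k + 1) → Y))
    hinj.injOn

lemma mv_sum : ∀ (x : List Y) {Ψ : List Y → ℝ},
    (∀ p a b q, Ψ (p ++ a :: b :: q) = - Ψ (p ++ b :: a :: q)) →
    ∑ᶠ w, tL w x (fun x' => Ψ (w :: x')) = (x.length : ℝ) * Ψ x
  | [], Ψ, _ => by simp [tL_nil]
  | x :: l, Ψ, h => by
    have h1 : ∀ w, tL w (x :: l) (fun x' => Ψ (w :: x')) =
        (if x = w then Ψ (w :: l) else 0) - tL w l fun x' => Ψ (w :: x :: x') := fun w => rfl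
    have h2 : ∑ᶠ w, (if x = w then Ψ (w :: l) else 0) = Ψ (x :: l) := by
      rw [finsum_eq_single _ x fun w hw => if_neg fun e => hw e.symm, if_pos rfl]
    have h3 : ∀ w, tL w l (fun x' => Ψ (w :: x :: x')) = - tL w l (fun x' => Ψ (x :: w :: x')) := by
      intro w
      have := tL_map w (-LinearMap.id : ℝ →ₗ[ℝ] ℝ) l (fun x' => Ψ (x :: w :: x'))
      simp only [LinearMap.neg_apply, LinearMap.id_coe, id_eq] at this
      rw [← this]
      congr 1
      funext x'
      exact h [] w x x'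
    have h4 := mv_sum l (Ψ := fun l => Ψ (x :: l)) fun p a b q => h (x :: p) a b q
    rw [finsum_congr h1, finsum_sub_distrib, h2]
    · simp only [h3]
      rw [finsum_neg_distrib, h4, List.length_cons]
      push_cast
      ring
    · refine (Set.finite_singleton x).subset fun w hw => ?_
      by_contra h
      exact hw (if_neg fun e => h e.symm)
    · refine (List.finite_toSet l).subset fun w hw => ?_
      obtain ⟨l', _, h⟩ := tL_ne hw
      exact h.symm.subset List.mem_cons_self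

lemma dtl_fin (x : List Y) : (Function.support fun y : Fin k → Y => dtl (List.ofFn y) x).Finite := by
  have h1 : Function.Injective (List.ofFn : (Fin k → Y) → List Y) := List.ofFn_injective
  exact ((perm_finite x).preimage (f := (List.ofFn : (Fin k → Y) → List Y)) h1.injOn).subset
    fun v hv => dtl_perm hv

lemma dtl_sum : ∀ (k : ℕ) {x : List Y} (hx : x.length = k) {Ψ : List Y → ℝ},
    (∀ p a b q, Ψ (p ++ a :: b :: q) = - Ψ (p ++ b :: a :: q)) →
    ∑ᶠ y : Fin k → Y, dtl (List.ofFn y) x * Ψ (List.ofFn y) = (k.factorial : ℝ) * Ψ x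
  | 0, x, hx, Ψ, _ => by
    rw [List.length_eq_zero_iff] at hx
    subst hx
    rw [finsum_eq_single _ Fin.elim0 fun y hy => absurd (Subsingleton.elim _ _) hy]
    simp [dtl]
  | k + 1, x, hx, Ψ, h => by
    have hfin : (Function.support fun y : Fin (k + 1) → Y =>
        dtl (List.ofFn y) x * Ψ (List.ofFn y)).Finite :=
      (dtl_fin x).subset fun v hv => left_ne_zero_of_mul hv
    rw [fs_cons' hfin]
    have h1 : ∀ w, ∑ᶠ v : Fin k → Y, dtl (List.ofFn (Fin.cons w v : Fin (k + 1) → Y)) x *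
        Ψ (List.ofFn (Fin.cons w v : Fin (k + 1) → Y)) =
        (k.factorial : ℝ) * tL w x (fun x' => Ψ (w :: x')) := by
      intro w
      have h2 : ∀ v : Fin k → Y, dtl (List.ofFn (Fin.cons w v : Fin (k + 1) → Y)) x *
        Ψ (List.ofFn (Fin.cons w v : Fin (k + 1) → Y)) =
          tL w x fun x' => dtl (List.ofFn v) x' * Ψ (w :: List.ofFn v) := by
        intro v
        rw [List.ofFn_cons, dtl_cons]
        have := tL_map w ((LinearMap.id : ℝ →ₗ[ℝ] ℝ).smulRight (Ψ (w :: List.ofFn v))) x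
          (fun x' => dtl (List.ofFn v) x')
        simp only [LinearMap.smulRight_apply, LinearMap.id_coe, id_eq, smul_eq_mul] at this
        exact this.symm
      rw [finsum_congr h2, ← tL_fs w x (F := fun x' (v : Fin k → Y) =>
        dtl (List.ofFn v) x' * Ψ (w :: List.ofFn v)) fun x' hx' =>
          (dtl_fin x').subset fun v hv => left_ne_zero_of_mul hv]
      have h3 := tL_map w ((k.factorial : ℝ) • (LinearMap.id : ℝ →ₗ[ℝ] ℝ)) x (fun x' => Ψ (w :: x'))
      simp only [LinearMap.smul_apply, LinearMap.id_coe, id_eq, smul_eq_mul] at h3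
      rw [← h3]
      refine tL_congr fun x' hx' => ?_
      exact dtl_sum k (by omega) (Ψ := fun l => Ψ (w :: l)) fun p a b q => h (w :: p) a b q
    rw [finsum_congr h1, ← mul_finsum, mv_sum x h, hx, fac_succ']
    ring
where
  fac_succ' {k : ℕ} : ((k + 1).factorial : ℝ) = ((k + 1 : ℕ) : ℝ) * (k.factorial : ℝ) := by
    rw [Nat.factorial_succ]
    push_cast
    ring

end

variable {P X : Type} [Group P] {Gc : SimpleGraph (P × X)} {k : ℕ}

/-- the pairing with the chain map -/
noncomputable def rho {Y : Type} (R : ∀ k, List Y → (Fin k → Y) → ℝ) (Ψ : List Y → ℝ)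
    (x : List Y) : ℝ :=
  (1 / (x.length.factorial : ℝ)) *
    ∑ᶠ y : Fin x.length → Y, R x.length x y * Ψ (List.ofFn y)

lemma rho_eq {Y : Type} (R : ∀ k, List Y → (Fin k → Y) → ℝ) (Ψ : List Y → ℝ)
    {x : List Y} (hx : x.length = k) : rho R Ψ x =
      (1 / (k.factorial : ℝ)) * ∑ᶠ y : Fin k → Y, R k x y * Ψ (List.ofFn y) := by
  subst hx
  rfl

/-- the properties of the chain map -/
structure RP (Gc : SimpleGraph (P × X)) (R : ∀ k, List (P × X) → (Fin k → P × X) → ℝ) : Prop where
  lev : ∀ k, Lev Gc k (R k)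
  zero : R 0 = fun _ _ => 1
  bd : ∀ k x, x.length = k + 1 → ∀ v, ∑ᶠ w, R (k + 1) x (Fin.cons w v) =
        dL x fun x' => R k x' v

variable {R : ∀ k, List (P × X) → (Fin k → P × X) → ℝ} (hR : RP Gc R)

include hR

lemma RP.rho_nil (Ψ : List (P × X) → ℝ) : rho R Ψ [] = Ψ [] := by
  rw [rho_eq R Ψ (k := 0) rfl, hR.zero,
    finsum_eq_single _ Fin.elim0 fun y hy => absurd (Subsingleton.elim _ _) hy]
  simp

lemma RP.rho_sub (Ψ Ψ' : List (P × X) → ℝ) (x : List (P × X)) :
    rho R (fun l => Ψ l - Ψ' l) x = rho R Ψ x - rho R Ψ' x := by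
  rw [rho_eq R _ rfl, rho_eq R _ rfl, rho_eq R _ rfl, ← mul_sub, ← finsum_sub_distrib]
  · simp only [mul_sub]
  · exact ((hR.lev _).ch x rfl).fin.subset fun v hv => left_ne_zero_of_mul hv
  · exact ((hR.lev _).ch x rfl).fin.subset fun v hv => left_ne_zero_of_mul hv

lemma RP.rho_dL (Ψ : List (P × X) → ℝ) (x : List (P × X)) :
    rho R (fun l => dL l Ψ) x = dL x (rho R Ψ) := by
  cases x with
  | nil => rw [hR.rho_nil]; rfl
  | cons x₀ l =>
    have hx : (x₀ :: l).length = l.length + 1 := rfl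
    set x := x₀ :: l with hxd
    set k := l.length with hk
    rw [rho_eq R _ hx]
    have h1 := fs_dL (a := R (k + 1) x) (fun v i j hij => ((hR.lev _).ch x hx).alt v i j hij)
      ((hR.lev _).ch x hx).fin Ψ
    have h2 : ∀ v : Fin k → P × X, (∑ᶠ w, R (k + 1) x (Fin.cons w v)) * Ψ (List.ofFn v) =
        dL x (fun x' => R k x' v * Ψ (List.ofFn v)) := by
      intro v
      rw [hR.bd k x hx]
      have := dL_map ((LinearMap.id : ℝ →ₗ[ℝ] ℝ).smulRight (Ψ (List.ofFn v))) x
        (fun x' => R k x' v)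
      simp only [LinearMap.smulRight_apply, LinearMap.id_coe, id_eq, smul_eq_mul] at this
      exact this.symm
    rw [h1, finsum_congr h2, ← dL_fs x (F := fun x' (v : Fin k → P × X) =>
      R k x' v * Ψ (List.ofFn v)) fun x' hx' =>
        ((hR.lev _).ch x' (by omega)).fin.subset fun v hv => left_ne_zero_of_mul hv]
    have h3 := dL_map ((1 / (k.factorial : ℝ)) • (LinearMap.id : ℝ →ₗ[ℝ] ℝ)) x
      (fun x' => ∑ᶠ v : Fin k → P × X, R k x' v * Ψ (List.ofFn v))
    simp only [LinearMap.smul_apply, LinearMap.id_coe, id_eq, smul_eq_mul] at h3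
    have h4 : dL x (rho R Ψ) = dL x (fun x' => 1 / (k.factorial : ℝ) *
        ∑ᶠ v : Fin k → P × X, R k x' v * Ψ (List.ofFn v)) :=
      dL_congr fun x' hx' => rho_eq R Ψ (by omega)
    rw [h4, h3, Nat.factorial_succ]
    push_cast
    have h5 : (k.factorial : ℝ) ≠ 0 := by positivity
    have h6 : ((k : ℝ) + 1) ≠ 0 := by positivity
    field_simp

lemma RP.rho_map (Ψ : List (P × X) → ℝ) (γ : P) (x : List (P × X)) :
    rho R Ψ (x.map (sh γ)) = rho R (fun l => Ψ (l.map (sh γ))) x := by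
  rw [rho_eq R Ψ (k := x.length) (by simp), rho_eq R _ rfl]
  congr 1
  rw [← finsum_comp_equiv (Equiv.arrowCongr (Equiv.refl (Fin x.length)) (shE (X := X) γ))]
  refine finsum_congr fun y => ?_
  have e : (Equiv.arrowCongr (Equiv.refl (Fin x.length)) (shE (X := X) γ)) y = sh γ ∘ y := rfl
  rw [e, (hR.lev _).eqv γ x rfl y, ← List.map_ofFn]

omit hR in
/-- the homotopy -/
noncomputable def Hm {Y : Type} (R : ∀ k, List Y → (Fin k → Y) → ℝ) :
    ℕ → (List Y → ℝ) → List Y → ℝ
  | 0, _, _ => 0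
  | _ + 1, _, [] => 0
  | k + 1, Ψ, x :: l => rho R (fun l' => Ψ (x :: l')) (x :: l) - Ψ (x :: x :: l) -
      dL (x :: l) (Hm R k fun l' => Ψ (x :: l'))

lemma RP.Hm_sub : ∀ (k : ℕ) (Ψ Ψ' : List (P × X) → ℝ) (x : List (P × X)),
    Hm R k (fun l => Ψ l - Ψ' l) x = Hm R k Ψ x - Hm R k Ψ' x
  | 0, Ψ, Ψ', x => by simp [Hm]
  | k + 1, Ψ, Ψ', [] => by simp [Hm]
  | k + 1, Ψ, Ψ', x :: l => by
    simp only [Hm]
    rw [hR.rho_sub]
    have h1 : (Hm R k fun l' => Ψ (x :: l') - Ψ' (x :: l')) = fun y =>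
        Hm R k (fun l' => Ψ (x :: l')) y - Hm R k (fun l' => Ψ' (x :: l')) y := by
      funext y
      exact RP.Hm_sub k _ _ y
    rw [h1, dL_sub]
    ring

lemma RP.Hm_zero (k : ℕ) (x : List (P × X)) : Hm R k (fun _ => 0) x = 0 := by
  have := hR.Hm_sub k (fun _ => 0) (fun _ => 0) x
  simpa using this

lemma RP.Hm_map : ∀ (k : ℕ) (Ψ : List (P × X) → ℝ) (γ : P) (x : List (P × X)),
    Hm R k Ψ (x.map (sh γ)) = Hm R k (fun l => Ψ (l.map (sh γ))) x
  | 0, Ψ, γ, x => by simp [Hm]
  | k + 1, Ψ, γ, [] => by simp [Hm]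
  | k + 1, Ψ, γ, x :: l => by
    have h1 := hR.rho_map (fun l' => Ψ (sh γ x :: l')) γ (x :: l)
    have h2 := dL_lmap (sh γ) (x :: l) (Hm R k fun l' => Ψ (sh γ x :: l'))
    simp only [List.map_cons] at h1 h2
    simp only [List.map_cons, Hm]
    rw [h1, h2]
    congr 1
    refine dL_congr fun y _ => ?_
    exact RP.Hm_map k _ γ y

theorem RP.hom : ∀ (k : ℕ) (Ψ : List (P × X) → ℝ) (x : List (P × X)), x.length = k →
    Hm R k (fun l => dL l Ψ) x = rho R Ψ x - Ψ x - dL x (Hm R (k - 1) Ψ)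
  | 0, Ψ, x, hx => by
    rw [List.length_eq_zero_iff] at hx
    subst hx
    rw [hR.rho_nil]
    simp [Hm, dL_nil]
  | k + 1, Ψ, [], hx => by simp at hx
  | k + 1, Ψ, x :: l, hx => by
    have hl : l.length = k := by simpa using hx
    have h0 : Hm R (k + 1) (fun l => dL l Ψ) (x :: l) =
      rho R (fun l' => Ψ l' - dL l' fun l'' => Ψ (x :: l'')) (x :: l) -
        (Ψ (x :: l) - dL (x :: l) fun l'' => Ψ (x :: l'')) -
        dL (x :: l) (Hm R k fun l' => Ψ l' - dL l' fun l'' => Ψ (x :: l'')) := rfl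
    have h1 : dL (x :: l) (Hm R k fun l' => Ψ l' - dL l' fun l'' => Ψ (x :: l'')) =
        dL (x :: l) (Hm R k Ψ) - (dL (x :: l) (rho R fun l' => Ψ (x :: l')) -
          dL (x :: l) fun l' => Ψ (x :: l')) := by
      have h2 : dL (x :: l) (Hm R k fun l' => Ψ l' - dL l' fun l'' => Ψ (x :: l'')) =
          dL (x :: l) (fun y => Hm R k Ψ y - (rho R (fun l' => Ψ (x :: l')) y - Ψ (x :: y) -
            dL y (Hm R (k - 1) fun l' => Ψ (x :: l')))) := by
        refine dL_congr fun y hy => ?_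
        rw [hR.Hm_sub, RP.hom k (fun l' => Ψ (x :: l')) y (by
          rw [List.length_cons] at hy; omega)]
      rw [h2, dL_sub, dL_sub, dL_sub, dL_dL, sub_zero]
    rw [h0, h1, hR.rho_sub, hR.rho_dL]
    simp only [Nat.add_sub_cancel]
    ring

end Pool.Agent.K4H70.RT
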