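import Pool.Agent.K4H70.RT.Volt

/-!
The vanishing of the cup products.
-/

set_option autoImplicit false
set_option linter.unusedSectionVars false
set_option linter.unusedVariables false

open scoped Classical

namespace Pool.Agent.K4H70.RT

open Pool.Agent.Q134.SV
open Pool.Agent.K4H70.SV hiding Zst zig_step zig_down zig_start

variable {P X V : Type} [Group P] [Fintype X] [Fintype V] {K : SimpleGraph X} {ι : V → X}
  {g : X → X → P} {n : ℕ} {z : (Fin (n + 1) → X) → ℝ} {Bc : (Fin (n + 1) → V ⊕ V × V) → ℝ}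

variable (K ι g) in
/-- the lift of the label lists -/
noncomputable def lftT : List (V ⊕ V × V) → List (P × X) :=
  lft (ι ∘ lf) fun x y => GV K ι g (lf x) (lf y)

variable (g z Bc K ι) in
/-- the fundamental cycle -/
noncomputable def fc : (List (P × X) → ℝ) →ₗ[ℝ] ℝ where
  toFun Ψ := (1 / ((n + 1).factorial : ℝ)) * ∑ x : Fin (n + 1) → X,
      z x * Ψ (lft id g (List.ofFn x)) -
    ∑ μ : Fin (n + 1) → V ⊕ V × V, wt 0 0 (List.ofFn μ) * Bc μ * Ψ (lftT K ι g (List.ofFn μ))
  map_add' Ψ Ψ' := by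
    simp only [Pi.add_apply, mul_add, Finset.sum_add_distrib]
    ring
  map_smul' r Ψ := by
    simp only [Pi.smul_apply, smul_eq_mul, RingHom.id_apply, mul_sub, Finset.mul_sum]
    congr 1
    · exact Finset.sum_congr rfl fun x _ => by ring
    · exact Finset.sum_congr rfl fun x _ => by ring

lemma fc_apply (Ψ : List (P × X) → ℝ) : fc K ι g z Bc Ψ =
    (1 / ((n + 1).factorial : ℝ)) * ∑ x : Fin (n + 1) → X, z x * Ψ (lft id g (List.ofFn x)) -
    ∑ μ : Fin (n + 1) → V ⊕ V × V, wt 0 0 (List.ofFn μ) * Bc μ * Ψ (lftT K ι g (List.ofFn μ)) :=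
  rfl

lemma fc_loc {Ψ : List (P × X) → ℝ} (h : ∀ l, l.length = n + 1 → Ψ l = 0) :
    fc K ι g z Bc Ψ = 0 := by
  rw [fc_apply, Finset.sum_eq_zero, Finset.sum_eq_zero, mul_zero, sub_zero]
  · intro μ _
    rw [h _ (by rw [lftT, lft_length, List.length_ofFn]), mul_zero]
  · intro x _
    rw [h _ (by rw [lft_length, List.length_ofFn]), mul_zero]

/-- sums over tuples in the image -/
lemma sum_sub_tuple {m : ℕ} (hι : Function.Injective ι) (f : (Fin m → X) → ℝ)
    (h : ∀ y, (∃ i, y i ∉ Set.range ι) → f y = 0) : ∑ t : Fin m → V, f (ι ∘ t) = ∑ y, f y := by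
  have hinj : Function.Injective fun t : Fin m → V => ι ∘ t := by
    intro t t' e
    funext i
    exact hι (congrFun e i)
  rw [← Finset.sum_subset (Finset.subset_univ (Finset.univ.image fun t : Fin m → V => ι ∘ t)),
    Finset.sum_image fun a _ b _ hab => hinj hab]
  intro y _ hy
  refine h y ?_
  by_contra h'
  push Not at h'
  choose t ht using h'
  exact hy (Finset.mem_image.2 ⟨t, Finset.mem_univ _, funext ht⟩)

section

variable (hM : MPair n K ι z) (hg : Vo K ι g) (hB : Alt Bc)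
  (hB' : ∀ v, Bc v ≠ 0 → GT (K.comap ι) v) (hzB : ∀ y, ∑ x, Bc (Fin.cons x y) = zh (zT ι z) y)

include hM

lemma pwK {x : Fin (n + 1) → X} (hx : z x ≠ 0) : (List.ofFn x).Pairwise K.Adj := by
  rw [List.pairwise_ofFn]
  exact fun i j hij => hM.pair.supp x hx i j hij.ne

lemma pwT {t : Fin n → V} (ht : zT ι z t ≠ 0) : (List.ofFn t).Pairwise (K.comap ι).Adj := by
  rw [List.pairwise_ofFn]
  exact fun i j hij => hM.zT_supp t ht i j hij.ne

include hg hB hB' hzB

theorem fc_bd {Φ : List (P × X) → ℝ} (hΦ : Inv Φ) : fc K ι g z Bc (fun l => dL l Φ) = 0 := by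
  rw [fc_apply, sub_eq_zero]
  -- the first sum
  have h1 : (1 / ((n + 1).factorial : ℝ)) * ∑ x : Fin (n + 1) → X,
      z x * dL (lft id g (List.ofFn x)) Φ =
      (1 / (n.factorial : ℝ)) * ∑ t : Fin n → V, zT ι z t * Φ (lft id g ((List.ofFn t).map ι)) := by
    have h2 : ∀ x : Fin (n + 1) → X, z x * dL (lft id g (List.ofFn x)) Φ =
        z x • tc (fun _ => (LinearMap.id : ℝ →ₗ[ℝ] ℝ))
          (fun s => Φ (lft id g (List.ofFn s))) x := by
      intro x
      by_cases h0 : z x = 0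
      · rw [h0, zero_mul, zero_smul]
      · rw [← lft_dL hΦ (hg.lcoK (pwK hM h0)), dL_ofFn, smul_eq_mul]
    rw [Finset.sum_congr rfl fun x _ => h2 x, sum_alt _ hM.pair.alt, smul_eq_mul, ← mul_assoc]
    have h3 : 1 / ((n + 1).factorial : ℝ) * ((n : ℝ) + 1) = 1 / (n.factorial : ℝ) := by
      rw [Nat.factorial_succ]
      push_cast
      have h5 : (n.factorial : ℝ) ≠ 0 := by positivity
      have h6 : ((n : ℝ) + 1) ≠ 0 := by positivity
      field_simp
    rw [h3]
    congr 1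
    rw [Finset.sum_comm]
    simp only [LinearMap.id_coe, id_eq, smul_eq_mul]
    have h4 : ∀ y : Fin n → X, ∑ x, z (Fin.cons x y) * Φ (lft id g (List.ofFn y)) =
        (∑ x, z (Fin.cons x y)) * Φ (lft id g (List.ofFn y)) := fun y => by rw [Finset.sum_mul]
    rw [Finset.sum_congr rfl fun y _ => h4 y, ← sum_sub_tuple hM.inj
      (fun y => (∑ x, z (Fin.cons x y)) * Φ (lft id g (List.ofFn y)))]
    · refine Finset.sum_congr rfl fun t _ => ?_
      rw [List.map_ofFn]
      rfl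
    · rintro y ⟨i, hi⟩
      by_cases h5 : ∑ x, z (Fin.cons x y) = 0
      · simp only [h5, zero_mul]
      · exact absurd (hM.pair.boundary y h5 i) hi
  have h2 : ∑ μ : Fin (n + 1) → V ⊕ V × V, wt 0 0 (List.ofFn μ) * Bc μ *
      dL (lftT K ι g (List.ofFn μ)) Φ =
      (1 / (n.factorial : ℝ)) * ∑ t : Fin n → V, zT ι z t * Φ (lft id g ((List.ofFn t).map ι)) := by
    have h3 : ∀ μ : Fin (n + 1) → V ⊕ V × V, wt 0 0 (List.ofFn μ) * Bc μ *
        dL (lftT K ι g (List.ofFn μ)) Φ = (wt 0 0 (List.ofFn μ) * ev Bc (List.ofFn μ)) •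
          dL (List.ofFn μ) (fun l => Φ (lftT K ι g l)) := by
      intro μ
      rw [ev_ofFn]
      by_cases h0 : Bc μ = 0
      · rw [h0, mul_zero, zero_mul, zero_smul]
      · rw [smul_eq_mul]
        congr 1
        exact (lft_dL hΦ (hg.lcoT (gl_ofFn.2 (hB' μ h0)))).symm
    rw [Finset.sum_congr rfl fun μ _ => h3 μ,
      sum_wt n (wt 0 0) (ev Bc) (fun l => Φ (lftT K ι g l)) fun p x y q => hB.ev_swap' p x y q]
    simp only [iS_wt]
    have h4 : ∀ ν : Fin n → V ⊕ V × V, (∑ x, ev Bc (x :: List.ofFn ν) * wt 0 0 (List.ofFn ν)) •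
        Φ (lftT K ι g (List.ofFn ν)) =
        zh (zT ι z) ν • (wt 0 0 (List.ofFn ν) * Φ (lftT K ι g (List.ofFn ν))) := by
      intro ν
      rw [← hzB ν, smul_eq_mul, smul_eq_mul, ← mul_assoc]
      congr 1
      rw [Finset.sum_mul]
      refine Finset.sum_congr rfl fun x _ => ?_
      rw [← List.ofFn_cons, ev_ofFn]
    rw [Finset.sum_congr rfl fun ν _ => h4 ν, sum_zh (zT ι z)
      (fun ν => wt 0 0 (List.ofFn ν) * Φ (lftT K ι g (List.ofFn ν))), Finset.mul_sum]
    refine Finset.sum_congr rfl fun t _ => ?_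
    by_cases h0 : zT ι z t = 0
    · rw [h0, zero_smul, zero_mul, mul_zero]
    · have e : List.ofFn (Sum.inl ∘ t : Fin n → V ⊕ V × V) = (List.ofFn t).map Sum.inl := by
        rw [List.map_ofFn]
      rw [e, wt_map_inl, smul_eq_mul, lftT, lftT_inl (pwT hM h0), List.length_ofFn, zero_add]
      ring
  rw [h1, h2]

end

end Pool.Agent.K4H70.RT
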