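import Pool.Agent.K4H70.RT.Key

/-!
The vanishing of the cup products.
-/

set_option autoImplicit false
set_option linter.unusedSectionVars false
set_option linter.unusedVariables false

open scoped Classical

namespace Pool.Agent.K4H70.RT

open Pool.Agent.Q134.SV
open Pool.Agent.K4H70.SV hiding Zst zig_step zig_down zig_start

variable {P X V : Type} [Group P] [Fintype X] [Fintype V] {K : SimpleGraph X} {ι : V → X}
  {g : X → X → P} {n : ℕ} {z : (Fin (n + 1) → X) → ℝ} {Bc : (Fin (n + 1) → V ⊕ V × V) → ℝ}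
  {Ω : Type} [Fintype Ω] {S : V → (Ω → ℝ) →ₗ[ℝ] (Ω → ℝ)}
  {R : ∀ k, List (P × X) → (Fin k → P × X) → ℝ}

lemma pl_ofFn {T : SimpleGraph V} (hS : Clf T S) (r : ℝ) {m : ℕ} {t : Fin m → V} (ht : CT T t)
    (w : Ω → ℝ) : PL S r (List.ofFn t) w = PF S r (Finset.univ.image t) w := by
  rw [PF_apply]
  refine hS.PL_perm r ?_ ?_ w
  · rw [List.perm_ext_iff_of_nodup ?_ (Finset.nodup_toList _)]
    · intro v
      simp
    · rw [List.nodup_ofFn]
      exact ct_inj ht
  · rw [List.pairwise_ofFn]
    exact fun i j hij => ht i j hij.ne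

lemma ct_of_pw {T : SimpleGraph V} {m : ℕ} {t : Fin m → V} (h : (List.ofFn t).Pairwise T.Adj) :
    CT T t := by
  rw [List.pairwise_ofFn] at h
  intro i j hij
  rcases lt_or_gt_of_ne hij with h' | h'
  · exact h h'
  · exact (h h').symm

theorem cup_vanish (hM : MPair n K ι z) (hg : Vo K ι g) (hB : Alt Bc)
    (hB' : ∀ v, Bc v ≠ 0 → GT (K.comap ι) v) (hzB : ∀ y, ∑ x, Bc (Fin.cons x y) = zh (zT ι z) y)
    (hR : RP (cov K g) R) (hS : Clf (K.comap ι) S) {p k : ℕ} (hpk : p + k = n)
    {a : (Fin (p + 1) → X) → ℝ} (ha : Alt a)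
    (hac : ∀ s : Fin (p + 2) → X, CT K s → tc (fun _ => (LinearMap.id : ℝ →ₗ[ℝ] ℝ)) a s = 0)
    (ha0 : ∀ t : Fin (p + 1) → V, CT (K.comap ι) t → a (ι ∘ t) = 0)
    {φ : (Fin (k + 1) → X) → Ω → ℝ} (hφ : Alt φ)
    (hφc : ∀ s : Fin (k + 2) → X, CT K s → tc (Io (Ω → ℝ)) φ s = 0)
    (hφ0 : ∀ t : Fin (k + 1) → V, CT (K.comap ι) t →
      PF S (-1) (Finset.univ.image t) (φ (ι ∘ t)) = 0) (o : Ω) :
    ∑ x : Fin (n + 1) → X, z x * cup p (List.ofFn x) (ev a) (ev fun s => φ s o) = 0 := by
  have hcov : ∀ y y' : P × X, (cov K g).Adj y y' → K.Adj y.2 y'.2 := fun y y' h => h.1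
  have hgg : ∀ y y' : P × X, (cov K g).Adj y y' → y'.1 = y.1 * g y.2 y'.2 := fun y y' h => h.2.1
  have hφa : ∀ o, Alt fun s => φ s o := by
    intro o s i j hij
    have := congrFun (hφ s i j hij) o
    simpa using this
  have hφc' : ∀ (o : Ω) (s : Fin (k + 2) → X), CT K s →
      tc (fun _ => (LinearMap.id : ℝ →ₗ[ℝ] ℝ)) (fun s => φ s o) s = 0 := by
    intro o s hs
    have := congrFun (hφc s hs) o
    unfold tc at this ⊢
    rw [Finset.sum_apply] at this
    exact this
  set A := exto R a with hA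
  set F : Ω → List (P × X) → ℝ := fun o => exto R fun s => φ s o with hF
  have hAi : Inv A := exto_inv hR a
  have hFi : ∀ o, Inv (F o) := fun o => exto_inv hR _
  have hAd : ∀ x : List (P × X), x.length = p + 2 → dL x A = 0 := fun x hx =>
    exto_dL hR hcov hac hx
  have hFd : ∀ o, ∀ x : List (P × X), x.length = k + 2 → dL x (F o) = 0 := fun o x hx =>
    exto_dL hR hcov (hφc' o) hx
  have hAc : ∀ x : List (P × X), x.length = p + 1 → x.Pairwise (cov K g).Adj →
      A x = ev a (x.map Prod.snd) := fun x hx hc => exto_clq hR ha hx hc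
  have hFc : ∀ o, ∀ x : List (P × X), x.length = k + 1 → x.Pairwise (cov K g).Adj →
      F o x = ev (fun s => φ s o) (x.map Prod.snd) := fun o x hx hc => exto_clq hR (hφa o) hx hc
  have hΨ : Inv fun l : List (P × X) => cup p l A (F o) := by
    intro γ l
    simp only
    rw [cup_lmap]
    congr 1
    · funext l'
      exact hAi γ l'
    · funext l'
      exact hFi o γ l'
  have hd : ∀ l : List (P × X), l.length = n + 2 → dL l (fun l => cup p l A (F o)) = 0 := by
    intro l hl
    rw [leib p l A (F o) (by omega), cup_eq _ _ _ _ (by omega), cup_eq _ _ _ _ (by omega),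
      hAd _ (by rw [List.length_take]; omega), hFd o _ (by rw [List.length_drop]; omega)]
    simp
  have h0 := asph hR hcov hM.pair.top hgg (fc K ι g z Bc) (fun Ψ h => fc_loc h)
    (fun Φ hΦ => fc_bd hM hg hB hB' hzB hΦ) hΨ hd
  rw [fc_apply] at h0
  have h1 : ∑ μ : Fin (n + 1) → V ⊕ V × V, wt 0 0 (List.ofFn μ) * Bc μ *
      cup p (lftT K ι g (List.ofFn μ)) A (F o) = 0 := by
    have h2 := pair_zero (F := fun l => fun o => F o (lftT K ι g l))
      (A := fun l => A (lftT K ι g l)) hS hpk hB hB'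
      (zt := zT ι z) hM.zT_supp hzB
      (fun l hl hlen => by
        have := lft_dL (f := ι ∘ lf) hAi (hg.lcoT hl)
        refine this.trans (hAd _ ?_)
        rw [lft_length, hlen])
      (fun c hc hlen => by
        obtain ⟨t, rfl⟩ := list_ofFn_of_length (k := p + 1) c hlen
        rw [lftT, lftT_inl hc, hAc _ (by rw [lft_length]; simp) (hg.clqK (by
          rw [List.pairwise_map]; exact hc)), lft_snd, List.map_id, List.map_ofFn, ev_ofFn]
        exact ha0 t (ct_of_pw hc))
      (fun l hl hlen => by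
        funext o
        have h3 := dL_map (LinearMap.proj o : (Ω → ℝ) →ₗ[ℝ] ℝ) l
          (fun l => fun o => F o (lftT K ι g l))
        simp only [LinearMap.proj_apply] at h3
        rw [← h3]
        have := lft_dL (f := ι ∘ lf) (hFi o) (hg.lcoT hl)
        refine this.trans (hFd o _ ?_)
        rw [lft_length, hlen])
      (fun c hc hlen => by
        obtain ⟨t, rfl⟩ := list_ofFn_of_length (k := k + 1) c hlen
        have h3 : (fun o => F o (lftT K ι g ((List.ofFn t).map Sum.inl))) = φ (ι ∘ t) := by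
          funext o
          rw [lftT, lftT_inl hc, hFc o _ (by rw [lft_length]; simp) (hg.clqK (by
            rw [List.pairwise_map]; exact hc)), lft_snd, List.map_id, List.map_ofFn, ev_ofFn]
        rw [h3, pl_ofFn hS (-1) (ct_of_pw hc)]
        exact hφ0 t (ct_of_pw hc))
    have h3 := congrFun h2 o
    rw [Finset.sum_apply] at h3
    refine Eq.trans ?_ h3
    refine Finset.sum_congr rfl fun μ _ => ?_
    by_cases hz : Bc μ = 0
    · rw [hz]
      simp
    · have hl := gl_ofFn.2 (hB' μ hz)
      rw [Pi.smul_apply, smul_eq_mul]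
      congr 1
      rw [cup_eq p _ _ _ (by rw [lftT, lft_length, List.length_ofFn]; omega),
        cup_eq p _ _ _ (by rw [List.length_ofFn]; omega), Pi.smul_apply]
      simp only [smul_eq_mul]
      congr 1
      · rw [lftT, lft_take]
      · exact lft_drop (f := ι ∘ lf) (hFi o) (hg.lcoT hl) p
  have h2 : ∀ x : Fin (n + 1) → X, z x * cup p (lft id g (List.ofFn x)) A (F o) =
      z x * cup p (List.ofFn x) (ev a) (ev fun s => φ s o) := by
    intro x
    by_cases hz : z x = 0
    · rw [hz, zero_mul, zero_mul]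
    · congr 1
      have hpw := pwK hM hz
      rw [cup_eq p _ _ _ (by rw [lft_length, List.length_ofFn]; omega),
        cup_eq p _ _ _ (by rw [List.length_ofFn]; omega)]
      congr 1
      · rw [lft_take, hAc _ (by rw [lft_length, List.length_take, List.length_ofFn]; omega)
          (hg.clqK (hpw.sublist (List.take_sublist _ _))), lft_snd, List.map_id]
      · rw [lft_drop (hFi o) (hg.lcoK hpw), hFc o _ (by
          rw [lft_length, List.length_drop, List.length_ofFn]; omega)
          (hg.clqK (hpw.sublist (List.drop_sublist _ _))), lft_snd, List.map_id]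
  rw [h1, sub_zero, Finset.sum_congr rfl fun x _ => h2 x] at h0
  have h3 : (1 / ((n + 1).factorial : ℝ)) ≠ 0 := by positivity
  exact (mul_eq_zero.1 h0).resolve_left h3

end Pool.Agent.K4H70.RT
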