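import Pool.Agent.K4H70.RT.Key2
import Pool.Agent.K4H70.RT.Asm

/-!
The key property.
-/

set_option autoImplicit false
set_option linter.unusedSectionVars false
set_option linter.unusedVariables false

open scoped Classical

namespace Pool.Agent.K4H70.RT

open Pool.Agent.Q134.SV
open Pool.Agent.K4H70.SV hiding Zst zig_step zig_down zig_start

variable {P X V : Type} [Group P] [Fintype X] [Fintype V] {K : SimpleGraph X} {ι : V → X}
  {g : X → X → P} {n : ℕ} {z : (Fin (n + 1) → X) → ℝ} {Bc : (Fin (n + 1) → V ⊕ V × V) → ℝ}
  {Ω : Type} [Fintype Ω] {S : V → (Ω → ℝ) →ₗ[ℝ] (Ω → ℝ)}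
  {R : ∀ k, List (P × X) → (Fin k → P × X) → ℝ}

lemma sum_append {m : ℕ} : ∀ (l : ℕ) {N : ℕ} (h : l + m = N) (f : List X → ℝ),
    ∑ x : Fin N → X, f (List.ofFn x) =
      ∑ τ : Fin l → X, ∑ s : Fin m → X, f (List.ofFn τ ++ List.ofFn s)
  | 0, N, h, f => by
    obtain rfl : m = N := by omega
    simp
  | l + 1, N, h, f => by
    obtain ⟨N, rfl⟩ : ∃ N', N = N' + 1 := ⟨N - 1, by omega⟩
    rw [sum_ofFn_succ f, sum_ofFn_succ (fun t => ∑ s : Fin m → X, f (t ++ List.ofFn s))]
    refine Finset.sum_congr rfl fun x _ => ?_
    exact sum_append l (by omega) fun t => f (x :: t)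

lemma cup_append {p m : ℕ} (τ : Fin (p + 1) → X) (s : Fin m → X) (a : (Fin (p + 1) → X) → ℝ)
    (b : (Fin (m + 1) → X) → ℝ) :
    cup p (List.ofFn τ ++ List.ofFn s) (ev a) (ev b) =
      a τ * b (Fin.cons (τ (Fin.last p)) s) := by
  rw [cup_eq p _ _ _ (by simp)]
  have h1 : (List.ofFn τ ++ List.ofFn s).take (p + 1) = List.ofFn τ := by
    rw [List.take_append_of_le_length (by simp), List.take_of_length_le (by simp)]
  have h2 : (List.ofFn τ ++ List.ofFn s).drop p = τ (Fin.last p) :: List.ofFn s := by
    rw [List.drop_append_of_le_length (by simp), List.ofFn_succ', List.concat_eq_append,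
      List.drop_append_of_le_length (by simp), List.drop_of_length_le (by simp)]
    rfl
  rw [h1, h2, ← List.ofFn_cons, ev_ofFn, ev_ofFn, smul_eq_mul]

lemma sym_sum {p : ℕ} {Z a : (Fin (p + 1) → X) → ℝ} (hZ : Alt Z) (ha : Alt a) (f : X → ℝ)
    (i : Fin (p + 1)) : ∑ τ, Z τ * (a τ * f (τ i)) = ∑ τ, Z τ * (a τ * f (τ (Fin.last p))) := by
  by_cases hi : i = Fin.last p
  · rw [hi]
  · rw [← Equiv.sum_comp (Equiv.arrowCongr (Equiv.swap i (Fin.last p)) (Equiv.refl X))]
    refine Finset.sum_congr rfl fun τ _ => ?_
    have e : (Equiv.arrowCongr (Equiv.swap i (Fin.last p)) (Equiv.refl X)) τ =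
        τ ∘ Equiv.swap i (Fin.last p) := by
      funext k
      simp [Equiv.arrowCongr]
    rw [e, hZ _ _ _ hi, ha _ _ _ hi]
    simp only [Function.comp_apply, Equiv.swap_apply_left]
    ring

lemma id_com : Com K (fun _ : X => (LinearMap.id : (Ω → ℝ) →ₗ[ℝ] (Ω → ℝ))) :=
  ⟨fun _ _ => rfl, fun _ _ _ _ => rfl⟩

theorem key_gen (hM : MPair n K ι z) (hg : Vo K ι g) (hB : Alt Bc)
    (hB' : ∀ v, Bc v ≠ 0 → GT (K.comap ι) v) (hzB : ∀ y, ∑ x, Bc (Fin.cons x y) = zh (zT ι z) y)
    (hR : RP (cov K g) R) (hS : Clf (K.comap ι) S) (k : ℕ)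
    {φ : (Fin (k + 1) → X) → Ω → ℝ} (hφ : Alt φ)
    (hφc : ∀ s : Fin (k + 2) → X, CT K s → tc (Io (Ω → ℝ)) φ s = 0)
    (hφ0 : ∀ t : Fin (k + 1) → V, CT (K.comap ι) t →
      PF S (-1) (Finset.univ.image t) (φ (ι ∘ t)) = 0) :
    ∃ ζ : (Fin k → X) → Ω → ℝ, Alt ζ ∧ (∀ s, CT K s → φ s = tc (Io (Ω → ℝ)) ζ s) ∧
      (k = 0 → ζ = 0) := by
  cases k with
  | zero =>
    have hadj : ∀ u v, K.Adj u v → φ (fun _ => u) = φ fun _ => v := by
      intro u v huv
      have h1 := hφc (Fin.cons v (Fin.cons u Fin.elim0)) (by
        intro i j hij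
        fin_cases i <;> fin_cases j
        · exact absurd rfl hij
        · exact huv.symm
        · exact huv
        · exact absurd rfl hij)
      rw [tc_cons, tc_one] at h1
      have e1 : (Fin.cons u Fin.elim0 : Fin 1 → X) = fun _ => u := by
        funext i
        rw [Fin.eq_zero i]
        rfl
      have e2 : (Fin.cons v Fin.elim0 : Fin 1 → X) = fun _ => v := by
        funext i
        rw [Fin.eq_zero i]
        rfl
      rw [e1, e2] at h1
      exact sub_eq_zero.1 h1
    have hz : ∀ (o : Ω) (x : Fin (n + 1) → X), z x * φ (fun _ => x 0) o = 0 := by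
      intro o
      set a : (Fin (n + 1) → X) → ℝ := fun x => z x * φ (fun _ => x 0) o with ha
      have hcl : ∀ x i, z x ≠ 0 → φ (fun _ => x i) = φ fun _ => x 0 := by
        intro x i hx
        by_cases hi : i = 0
        · rw [hi]
        · exact hadj _ _ (hM.pair.supp x hx i 0 hi)
      have haa : Alt a := by
        intro x i j hij
        simp only [ha]
        rw [hM.pair.alt x i j hij]
        by_cases hx : z x = 0
        · rw [hx]; ring
        · rw [Function.comp_apply, hcl x _ hx]
          ring
      have h1 := cup_vanish hM hg hB hB' hzB hR hS (p := n) (k := 0) rfl haa (fun s hs => by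
        exfalso
        have := lt_len hM.pair cq_empty (lt_empty hs)
        simp at this) (fun t ht => by
        exfalso
        have h2 : (List.ofFn t).Pairwise (K.comap ι).Adj := by
          rw [List.pairwise_ofFn]
          exact fun i j hij => ht i j hij.ne
        have := hM.lenT h2
        simp at this) hφ hφc hφ0 o
      have h2 : ∀ x : Fin (n + 1) → X, z x * cup n (List.ofFn x) (ev a) (ev fun s => φ s o) =
          (z x * φ (fun _ => x 0) o) ^ 2 := by
        intro x
        by_cases hx : z x = 0
        · rw [hx]; ring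
        · have h3 := cup_append x (Fin.elim0 : Fin 0 → X) a (fun s => φ s o)
          rw [List.ofFn_zero, List.append_nil] at h3
          rw [h3]
          have e : (Fin.cons (x (Fin.last n)) Fin.elim0 : Fin 1 → X) = fun _ => x (Fin.last n) := by
            funext i
            rw [Fin.eq_zero i]
            rfl
          simp only [e]
          rw [hcl x _ hx, ha]
          ring
      rw [Finset.sum_congr rfl fun x _ => h2 x] at h1
      intro x
      have := (Finset.sum_eq_zero_iff_of_nonneg fun x _ => sq_nonneg _).1 h1 x (Finset.mem_univ x)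
      exact pow_eq_zero_iff (two_ne_zero) |>.1 this
    refine ⟨0, fun v i => i.elim0, fun s _ => ?_, fun _ => rfl⟩
    rw [tc_one]
    simp only [Pi.zero_apply, map_zero]
    funext o
    obtain ⟨l, hl, hl'⟩ := hM.pair.pure ⟨s 0⟩ n [s 0] (List.pairwise_singleton _ _) (by simp)
      (by simp; omega)
    obtain ⟨y, hy⟩ := list_ofFn_of_length (k := n + 1) ([s 0] ++ l) hl'
    have hy0 : y 0 = s 0 := by
      rw [List.ofFn_succ] at hy
      exact (List.cons.inj hy).1
    rw [← hy, List.pairwise_ofFn] at hl
    have h1 : z y ≠ 0 := hM.pair.nonzero y fun i j hij => by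
      rcases lt_or_gt_of_ne hij with h' | h'
      · exact hl h'
      · exact (hl h').symm
    have h2 := (mul_eq_zero.1 (hz o y)).resolve_left h1
    have e : (fun _ => y 0 : Fin 1 → X) = s := by
      funext i
      rw [Fin.eq_zero i, hy0]
    rw [e] at h2
    exact h2
  | succ k =>
    obtain ⟨χ, h1, h2, _⟩ := pd hM.pair (S := fun _ => LinearMap.id) id_com
      (fun _ _ _ => rfl) (J := fun _ => True) (fun _ _ _ => rfl) hφ hφc
      (fun s _ h => absurd trivial (h 0)) (by
        intro l hl ω hω
        cases l with
        | zero =>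
          refine Finset.sum_eq_zero fun τ _ => Finset.sum_eq_zero fun s _ => ?_
          have : (ω : (Fin 0 → X) → Ω → ℝ) τ = 0 := by
            by_contra h
            obtain ⟨i, _⟩ := (ω.2.2.1 τ h).2
            exact i.elim0
          rw [this, dt2_comm, dt2_zero, mul_zero]
        | succ p =>
          set w : (Fin (p + 1) → X) → Ω → ℝ := (ω : (Fin (p + 1) → X) → Ω → ℝ) with hw
          have hwa : Alt w := ω.2.1
          have h3 : ∀ (τ : Fin (p + 1) → X) (s : Fin (k + 1) → X),
              ev z (List.ofFn τ ++ List.ofFn s) *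
              dt2 (w τ) (Nj (fun _ => True) φ s (Finset.univ.image τ)) =
              ∑ o, cc (p + 1) (k + 1) * ∑ i, ev z (List.ofFn τ ++ List.ofFn s) *
                (w τ o * φ (Fin.cons (τ i) s) o) := by
            intro τ s
            by_cases h0 : w τ = 0
            · rw [h0, dt2_comm, dt2_zero, mul_zero]
              simp
            · have hct : CT K τ := (ω.2.2.1 τ h0).1
              have hinj := ct_inj hct
              have e1 : Nj (fun _ => True) φ s (Finset.univ.image τ) =
                  cc (p + 1) (k + 1) • ∑ i, φ (Fin.cons (τ i) s) := by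
                unfold Nj
                rw [if_pos ⟨fun _ _ => trivial, ⟨τ 0, Finset.mem_image_of_mem τ
                  (Finset.mem_univ _)⟩⟩, Finset.card_image_of_injective _ hinj,
                  Finset.sum_image fun i _ j _ h => hinj h, Finset.card_univ, Fintype.card_fin]
                congr 2
                unfold ej
                simp
              rw [e1]
              unfold dt2
              rw [Finset.mul_sum]
              refine Finset.sum_congr rfl fun o _ => ?_
              rw [Pi.smul_apply, Finset.sum_apply, smul_eq_mul, ← Finset.mul_sum, ← Finset.mul_sum]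
              ring
          have h4 : ∀ o, ∑ τ : Fin (p + 1) → X, ∑ s : Fin (k + 1) → X,
              (cc (p + 1) (k + 1) * ∑ i, ev z (List.ofFn τ ++ List.ofFn s) *
                (w τ o * φ (Fin.cons (τ i) s) o)) = 0 := by
            intro o
            have hwo : Alt fun τ => w τ o := by
              intro s i j hij
              have := congrFun (hwa s i j hij) o
              simpa using this
            rw [Finset.sum_comm]
            have h5 : ∀ s : Fin (k + 1) → X, ∑ τ : Fin (p + 1) → X, ∑ i,
                ev z (List.ofFn τ ++ List.ofFn s) * (w τ o * φ (Fin.cons (τ i) s) o) =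
                ((p + 1 : ℕ) : ℝ) * ∑ τ : Fin (p + 1) → X, ev z (List.ofFn τ ++ List.ofFn s) *
                  (w τ o * φ (Fin.cons (τ (Fin.last p)) s) o) := by
              intro s
              rw [Finset.sum_comm, Finset.sum_congr rfl fun i _ =>
                sym_sum (ev_pre hM.pair.alt (List.ofFn s)) hwo (fun v => φ (Fin.cons v s) o) i,
                Finset.sum_const, Finset.card_univ, Fintype.card_fin, nsmul_eq_mul]
            have h5' : ∀ s : Fin (k + 1) → X, ∑ τ : Fin (p + 1) → X, (cc (p + 1) (k + 1) * ∑ i,
                ev z (List.ofFn τ ++ List.ofFn s) * (w τ o * φ (Fin.cons (τ i) s) o)) =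
                (cc (p + 1) (k + 1) * ((p + 1 : ℕ) : ℝ)) * ∑ τ : Fin (p + 1) → X,
                  ev z (List.ofFn τ ++ List.ofFn s) *
                  (w τ o * φ (Fin.cons (τ (Fin.last p)) s) o) := by
              intro s
              rw [← Finset.mul_sum, h5 s, mul_assoc]
            rw [Finset.sum_congr rfl fun s _ => h5' s, ← Finset.mul_sum, Finset.sum_comm]
            have h6 : ∑ τ : Fin (p + 1) → X, ∑ s : Fin (k + 1) → X,
                ev z (List.ofFn τ ++ List.ofFn s) *
                  (w τ o * φ (Fin.cons (τ (Fin.last p)) s) o) =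
                ∑ x : Fin (n + 1) → X, z x * cup p (List.ofFn x) (ev fun τ => w τ o)
                  (ev fun s => φ s o) := by
              have := sum_append (X := X) (m := k + 1) (p + 1) hl (fun l =>
                ev z l * cup p l (ev fun τ => w τ o) (ev fun s => φ s o))
              simp only [ev_ofFn, cup_append] at this
              exact this.symm
            have h7 := cup_vanish hM hg hB hB' hzB hR hS (p := p) (k := k + 1) (by omega) hwo
              (fun s hs => ?_) (fun t ht => ?_) hφ hφc hφ0 o
            · rw [h6, h7, mul_zero]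
            · by_cases hsB : ∃ i, s i ∉ Set.range ι
              · have h8 := hω s hs hsB
                rw [PF_of (by norm_num) fun v _ => by rw [one_smul]; rfl] at h8
                have h9 := congrFun h8 o
                unfold tc at h9 ⊢
                rw [Finset.sum_apply] at h9
                exact h9
              · push Not at hsB
                unfold tc
                refine Finset.sum_eq_zero fun i _ => ?_
                have : w (s ∘ i.succAbove) = 0 := by
                  by_contra h
                  obtain ⟨j, hj⟩ := (ω.2.2.1 _ h).2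
                  exact hj (hsB _)
                simp only [this, Pi.zero_apply, map_zero, smul_zero]
            · have : w (ι ∘ t) = 0 := by
                by_contra h
                obtain ⟨j, hj⟩ := (ω.2.2.1 _ h).2
                exact hj ⟨t j, rfl⟩
              simp only [this, Pi.zero_apply]
          rw [Finset.sum_congr rfl fun τ _ => Finset.sum_congr rfl fun s _ => h3 τ s]
          have h8 : ∑ τ : Fin (p + 1) → X, ∑ s : Fin (k + 1) → X, ∑ o,
              cc (p + 1) (k + 1) * ∑ i, ev z (List.ofFn τ ++ List.ofFn s) *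
                (w τ o * φ (Fin.cons (τ i) s) o) = ∑ o, ∑ τ : Fin (p + 1) → X,
                ∑ s : Fin (k + 1) → X, (cc (p + 1) (k + 1) * ∑ i,
                ev z (List.ofFn τ ++ List.ofFn s) * (w τ o * φ (Fin.cons (τ i) s) o)) := by
            rw [Finset.sum_congr rfl fun τ _ => Finset.sum_comm, Finset.sum_comm]
          rw [h8]
          exact Finset.sum_eq_zero fun o _ => h4 o)
    exact ⟨χ, h1, h2, fun h => absurd h (by omega)⟩

end Pool.Agent.K4H70.RT
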