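import Pool.Agent.K4H70.RT.Key3

/-!
Exactness.
-/

set_option autoImplicit false
set_option linter.unusedSectionVars false
set_option linter.unusedVariables false

open scoped Classical

namespace Pool.Agent.K4H70.RT

open Pool.Agent.Q134.SV
open Pool.Agent.K4H70.SV hiding Zst zig_step zig_down zig_start

variable {P X V : Type} [Group P] [Fintype X] [Fintype V] {K : SimpleGraph X} {ι : V → X}
  {g : X → X → P} {n : ℕ} {z : (Fin (n + 1) → X) → ℝ} {Bc : (Fin (n + 1) → V ⊕ V × V) → ℝ}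
  {Ω : Type} [Fintype Ω] {S : V → (Ω → ℝ) →ₗ[ℝ] (Ω → ℝ)}

lemma PL_congr' {S S' : X → (Ω → ℝ) →ₗ[ℝ] (Ω → ℝ)} {r : ℝ} {l : List X}
    (h : ∀ v ∈ l, ∀ m, S v m = S' v m) (m : Ω → ℝ) : PL S r l m = PL S' r l m := by
  induction l with
  | nil => rfl
  | cons x l ih =>
    rw [PL_cons, PL_cons, ih fun v hv => h v (List.mem_cons_of_mem _ hv), Pr_apply, Pr_apply,
      h x List.mem_cons_self]

lemma exists_RP (hac : FAcy (cov K g)) :
    ∃ R : ∀ k, List (P × X) → (Fin k → P × X) → ℝ, RP (cov K g) R := by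
  obtain ⟨R, h1, h2, h3⟩ := exists_R cov_sh hac
  exact ⟨R, h1, h2, h3⟩

section

variable (hM : MPair n K ι z) (hg : Vo K ι g) (hac : FAcy (cov K g)) (hB : Alt Bc)
    (hB' : ∀ v, Bc v ≠ 0 → GT (K.comap ι) v) (hzB : ∀ y, ∑ x, Bc (Fin.cons x y) = zh (zT ι z) y)
    (hS : Clf (K.comap ι) S)

include hM hg hac hB hB' hzB hS

theorem keyP_pos : KeyP K (Set.range ι) (Sx ι S) := by
  obtain ⟨R, hR⟩ := exists_RP hac
  intro k φ hφ hc h0
  refine key_gen hM hg hB hB' hzB hR hS k hφ hc fun t ht => ?_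
  rw [← pf_in hM.inj hS (-1) ht]
  exact h0 _ (fun i j hij => ht i j hij) fun i => ⟨t i, rfl⟩

theorem keyP_neg : KeyP K (Set.range ι) (fun v => - Sx ι S v) := by
  obtain ⟨R, hR⟩ := exists_RP hac
  intro k φ hφ hc h0
  refine key_gen hM hg hB hB' hzB hR hS.neg' k hφ hc fun t ht => ?_
  rw [← pf_in hM.inj hS.neg' (-1) ht, ← h0 (ι ∘ t) (fun i j hij => ht i j hij) fun i => ⟨t i, rfl⟩,
    PF_apply, PF_apply]
  refine PL_congr' (fun v hv m => ?_) _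
  rw [Finset.mem_toList] at hv
  obtain ⟨i, _, rfl⟩ := Finset.mem_image.1 hv
  simp only [Function.comp_apply]
  rw [Sx_in hM.inj, Sx_in hM.inj]

/-- exactness -/
theorem rt_exact (hs : Sym S) {k : ℕ}
    {φ : (Fin (k + 2) → X) → Ω → ℝ} (hφ : Alt φ)
    (hc : ∀ s : Fin (k + 3) → X, CT K s → tc (Io (Ω → ℝ)) φ s = 0)
    (h0 : ∀ s, CT K s → PF (Sx ι S) (-1) (Finset.univ.image s) (φ s) = 0) :
    ∃ χ : (Fin (k + 1) → X) → Ω → ℝ, Alt χ ∧
      (∀ s : Fin (k + 2) → X, CT K s → φ s = tc (Io (Ω → ℝ)) χ s) ∧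
      ∀ s, CT K s → PF (Sx ι S) (-1) (Finset.univ.image s) (χ s) = 0 :=
  exact_all hM hS hs hB hB' hzB (keyP_pos hM hg hac hB hB' hzB hS)
    (keyP_neg hM hg hac hB hB' hzB hS) hφ hc h0

/-- injectivity in the bottom degree -/
theorem rt_inj {φ : (Fin 1 → X) → Ω → ℝ}
    (hc : ∀ s : Fin 2 → X, CT K s → tc (Io (Ω → ℝ)) φ s = 0)
    (h0 : ∀ s, CT K s → PF (Sx ι S) (-1) (Finset.univ.image s) (φ s) = 0) (s : Fin 1 → X) :
    φ s = 0 := inj_all hM (keyP_pos hM hg hac hB hB' hzB hS) hc h0 s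

end

end Pool.Agent.K4H70.RT
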