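import Mathlib

/-!
Cochains as functions of lists.
-/

set_option autoImplicit false
set_option linter.unusedSectionVars false
set_option linter.unusedVariables false

open scoped Classical

namespace Pool.Agent.K4H70.RT

variable {Y Z M N : Type} [AddCommGroup M] [Module ℝ M] [AddCommGroup N] [Module ℝ N]

/-- the coboundary of a function of lists -/
def dL : List Y → (List Y → M) → M
  | [], _ => 0
  | x :: l, F => F l - dL l fun l' => F (x :: l')

lemma dL_nil (F : List Y → M) : dL [] F = 0 := rfl

lemma dL_cons (x : Y) (l : List Y) (F : List Y → M) :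
    dL (x :: l) F = F l - dL l fun l' => F (x :: l') := rfl

lemma dL_congr' : ∀ (l : List Y) {F F' : List Y → M},
    (∀ l', l'.Sublist l → l'.length + 1 = l.length → F l' = F' l') → dL l F = dL l F'
  | [], F, F', _ => rfl
  | x :: l, F, F', h => by
    rw [dL_cons, dL_cons, h l (List.sublist_cons_self x l) rfl,
      dL_congr' l fun l' h1 h2 => h (x :: l') (h1.cons_cons x) (by
        rw [List.length_cons, List.length_cons, h2])]

lemma dL_congr {l : List Y} {F F' : List Y → M} (h : ∀ l', l'.length + 1 = l.length → F l' = F' l') :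
    dL l F = dL l F' := dL_congr' l fun l' _ h' => h l' h'

lemma dL_sub : ∀ (l : List Y) (F F' : List Y → M),
    dL l (fun l => F l - F' l) = dL l F - dL l F'
  | [], F, F' => by simp [dL_nil]
  | x :: l, F, F' => by
    rw [dL_cons, dL_cons, dL_cons, dL_sub l]
    abel

lemma dL_add : ∀ (l : List Y) (F F' : List Y → M),
    dL l (fun l => F l + F' l) = dL l F + dL l F'
  | [], F, F' => by simp [dL_nil]
  | x :: l, F, F' => by
    rw [dL_cons, dL_cons, dL_cons, dL_add l]
    abel

lemma dL_map (A : M →ₗ[ℝ] N) : ∀ (l : List Y) (F : List Y → M),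
    dL l (fun l => A (F l)) = A (dL l F)
  | [], F => by rw [dL_nil, dL_nil, map_zero]
  | x :: l, F => by
    rw [dL_cons, dL_cons, dL_map A l, map_sub]

lemma dL_zero (l : List Y) : dL l (fun _ => (0 : M)) = 0 := by
  have := dL_map (0 : M →ₗ[ℝ] M) l (fun _ => (0 : M))
  simpa using this

lemma dL_zero_of {l : List Y} {F : List Y → M} (h : ∀ l', l'.length + 1 = l.length → F l' = 0) :
    dL l F = 0 := by
  rw [dL_congr (F' := fun _ => 0) h, dL_zero]

lemma dL_sum {ι : Type} (s : Finset ι) (F : ι → List Y → M) (l : List Y) :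
    dL l (fun l => ∑ i ∈ s, F i l) = ∑ i ∈ s, dL l (F i) := by
  induction s using Finset.induction_on with
  | empty => simp [dL_zero]
  | insert a s ha ih =>
    rw [Finset.sum_insert ha, ← ih, ← dL_add]
    refine dL_congr fun l' _ => ?_
    rw [Finset.sum_insert ha]

lemma dL_dL : ∀ (l : List Y) (F : List Y → M), dL l (fun l' => dL l' F) = 0
  | [], F => rfl
  | x :: l, F => by
    rw [dL_cons]
    have h : dL l (fun l' => dL (x :: l') F) = dL l F := by
      have h1 : dL l (fun l' => dL (x :: l') F) =
          dL l (fun l' => F l' - dL l' fun l'' => F (x :: l'')) := rfl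
      rw [h1, dL_sub, dL_dL l, sub_zero]
    rw [h, sub_self]

lemma dL_lmap (f : Z → Y) : ∀ (l : List Z) (F : List Y → M),
    dL (l.map f) F = dL l (fun l' => F (l'.map f))
  | [], F => rfl
  | x :: l, F => by
    rw [List.map_cons, dL_cons, dL_cons, dL_lmap f l]
    rfl

/-- the cup product -/
def cup : ℕ → List Y → (List Y → ℝ) → (List Y → M) → M
  | _, [], _, _ => 0
  | 0, x :: l, A, F => A [x] • F (x :: l)
  | p + 1, x :: l, A, F => cup p l (fun l' => A (x :: l')) F

lemma cup_eq : ∀ (p : ℕ) (l : List Y) (A : List Y → ℝ) (F : List Y → M), p + 1 ≤ l.length →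
    cup p l A F = A (l.take (p + 1)) • F (l.drop p)
  | _, [], A, F, h => by simp at h
  | 0, x :: l, A, F, _ => by
    simp [cup]
  | p + 1, x :: l, A, F, h => by
    simp only [cup]
    rw [cup_eq p l _ F (by simpa using h)]
    simp

lemma cup_sub_left : ∀ (p : ℕ) (l : List Y) (A A' : List Y → ℝ) (F : List Y → M),
    cup p l (fun l => A l - A' l) F = cup p l A F - cup p l A' F
  | _, [], A, A', F => by simp [cup]
  | 0, x :: l, A, A', F => by simp [cup, sub_smul]
  | p + 1, x :: l, A, A', F => by
    simp only [cup]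
    rw [cup_sub_left p l]

/-- the Leibniz rule -/
theorem leib : ∀ (p : ℕ) (l : List Y) (A : List Y → ℝ) (F : List Y → M), p + 2 ≤ l.length →
    dL l (fun l' => cup p l' A F) =
      cup (p + 1) l (fun l' => dL l' A) F + (-1 : ℝ) ^ p • cup p l A (fun l' => dL l' F)
  | _, [], A, F, h => by simp at h
  | _, [x], A, F, h => by simp at h
  | 0, x :: y :: l, A, F, _ => by
    have h1 : dL (y :: l) (fun l' => cup 0 (x :: l') A F) =
        A [x] • dL (y :: l) (fun l' => F (x :: l')) := by
      exact dL_map (A [x] • (LinearMap.id : M →ₗ[ℝ] M)) (y :: l) (fun l' => F (x :: l'))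
    rw [dL_cons, h1]
    simp only [cup, dL_cons, dL_nil, pow_zero, one_smul, sub_zero, smul_sub, sub_smul]
    abel
  | p + 1, x :: y :: l, A, F, h => by
    rw [dL_cons]
    have h1 : dL (y :: l) (fun l' => cup (p + 1) (x :: l') A F) =
        dL (y :: l) (fun l' => cup p l' (fun l'' => A (x :: l'')) F) := rfl
    rw [h1, leib p (y :: l) _ F (by simpa using h)]
    have h2 : cup (p + 1 + 1) (x :: y :: l) (fun l' => dL l' A) F =
        cup (p + 1) (y :: l) (fun l' => A l' - dL l' fun l'' => A (x :: l'')) F := rfl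
    have h3 : cup (p + 1) (x :: y :: l) A (fun l' => dL l' F) =
        cup p (y :: l) (fun l' => A (x :: l')) (fun l' => dL l' F) := rfl
    rw [h2, h3, cup_sub_left, pow_succ, mul_neg_one, neg_smul]
    abel

lemma cup_lmap (f : Z → Y) : ∀ (p : ℕ) (l : List Z) (A : List Y → ℝ) (F : List Y → M),
    cup p (l.map f) A F = cup p l (fun l' => A (l'.map f)) (fun l' => F (l'.map f))
  | _, [], A, F => by simp [cup]
  | 0, x :: l, A, F => by simp [cup]
  | p + 1, x :: l, A, F => by
    rw [List.map_cons]
    simp only [cup]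
    rw [cup_lmap f p l]
    rfl

/-- the part of the coboundary which removes the entry `w` -/
noncomputable def tL (w : Y) : List Y → (List Y → M) → M
  | [], _ => 0
  | x :: l, F => (if x = w then F l else 0) - tL w l fun l' => F (x :: l')

lemma tL_nil (w : Y) (F : List Y → M) : tL w [] F = 0 := rfl

lemma tL_cons (w : Y) (x : Y) (l : List Y) (F : List Y → M) :
    tL w (x :: l) F = (if x = w then F l else 0) - tL w l fun l' => F (x :: l') := rfl

lemma tL_sub (w : Y) : ∀ (l : List Y) (F F' : List Y → M),
    tL w l (fun l => F l - F' l) = tL w l F - tL w l F'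
  | [], F, F' => by simp [tL_nil]
  | x :: l, F, F' => by
    rw [tL_cons, tL_cons, tL_cons, tL_sub w l]
    split_ifs <;> abel

lemma tL_map (w : Y) (A : M →ₗ[ℝ] N) : ∀ (l : List Y) (F : List Y → M),
    tL w l (fun l => A (F l)) = A (tL w l F)
  | [], F => by rw [tL_nil, tL_nil, map_zero]
  | x :: l, F => by
    rw [tL_cons, tL_cons, tL_map w A l, map_sub]
    split_ifs <;> simp

lemma tL_ite (w : Y) (P : Prop) (l : List Y) (F : List Y → M) :
    tL w l (fun l' => if P then F l' else 0) = if P then tL w l F else 0 := by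
  split_ifs
  · rfl
  · have := tL_map w (0 : M →ₗ[ℝ] M) l (fun _ => (0 : M))
    simpa using this

lemma tL_anti (w w' : Y) : ∀ (l : List Y) (F : List Y → M),
    tL w l (fun l' => tL w' l' F) = - tL w' l (fun l' => tL w l' F)
  | [], F => by simp [tL_nil]
  | x :: l, F => by
    rw [tL_cons, tL_cons]
    have h1 : ∀ a b : Y, tL a l (fun l' => tL b (x :: l') F) =
        (if x = b then tL a l F else 0) - tL a l (fun l' => tL b l' fun l'' => F (x :: l'')) := by
      intro a b
      have : tL a l (fun l' => tL b (x :: l') F) =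
        tL a l (fun l' => (if x = b then F l' else 0) - tL b l' fun l'' => F (x :: l'')) := rfl
      rw [this, tL_sub, tL_ite]
    rw [h1, h1, tL_anti w w' l]
    abel

lemma tL_ne {w : Y} : ∀ {l : List Y} {F : List Y → M}, tL w l F ≠ 0 →
    ∃ l', F l' ≠ 0 ∧ l.Perm (w :: l')
  | [], F, h => absurd rfl h
  | x :: l, F, h => by
    rw [tL_cons] at h
    by_cases h1 : (if x = w then F l else 0) = 0
    · rw [h1, zero_sub, neg_ne_zero] at h
      obtain ⟨l', h2, h3⟩ := tL_ne h
      exact ⟨x :: l', h2, (h3.cons x).trans (List.Perm.swap w x l')⟩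
    · by_cases hx : x = w
      · rw [if_pos hx] at h1
        exact ⟨l, h1, by rw [hx]⟩
      · rw [if_neg hx] at h1
        exact absurd rfl h1

lemma tL_lmap (f : Z → Y) (hf : Function.Injective f) (w : Z) :
    ∀ (l : List Z) (F : List Y → M),
      tL (f w) (l.map f) F = tL w l (fun l' => F (l'.map f))
  | [], F => rfl
  | x :: l, F => by
    rw [List.map_cons, tL_cons, tL_cons, tL_lmap f hf w l]
    simp only [hf.eq_iff]
    rfl

/-- the determinant of two lists -/
noncomputable def dtl : List Y → List Y → ℝ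
  | [], x => if x = [] then 1 else 0
  | w :: v, x => tL w x fun x' => dtl v x'

lemma dtl_cons (w : Y) (v x : List Y) : dtl (w :: v) x = tL w x fun x' => dtl v x' := rfl

lemma dtl_perm : ∀ {y x : List Y}, dtl y x ≠ 0 → y.Perm x
  | [], x, h => by
    unfold dtl at h
    split_ifs at h with h0
    · rw [h0]
    · exact absurd rfl h
  | w :: v, x, h => by
    rw [dtl_cons] at h
    obtain ⟨x', h1, h2⟩ := tL_ne h
    exact ((dtl_perm h1).cons w).trans h2.symm

lemma dtl_lmap (f : Z → Y) (hf : Function.Injective f) : ∀ (y x : List Z),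
    dtl (y.map f) (x.map f) = dtl y x
  | [], x => by simp [dtl]
  | w :: v, x => by
    rw [List.map_cons, dtl_cons, dtl_cons, tL_lmap f hf]
    congr 1
    funext x'
    exact dtl_lmap f hf v x'

lemma dtl_swap : ∀ (p : List Y) (a b : Y) (q x : List Y),
    dtl (p ++ a :: b :: q) x = - dtl (p ++ b :: a :: q) x
  | [], a, b, q, x => by
    simp only [List.nil_append]
    rw [dtl_cons, dtl_cons]
    exact tL_anti a b x fun x' => dtl q x'
  | w :: p, a, b, q, x => by
    rw [List.cons_append, List.cons_append, dtl_cons, dtl_cons]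
    have := tL_map w (-LinearMap.id : ℝ →ₗ[ℝ] ℝ) x (fun x' => dtl (p ++ b :: a :: q) x')
    simp only [LinearMap.neg_apply, LinearMap.id_coe, id_eq] at this
    rw [← this]
    congr 1
    funext x'
    exact dtl_swap p a b q x'

end Pool.Agent.K4H70.RT
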