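import Pool.Agent.K4H70.RT.Pd

/-!
Lifting twisted cocycles to constant cocycles.
-/

set_option autoImplicit false
set_option linter.unusedSectionVars false
set_option linter.unusedVariables false

open scoped Classical

namespace Pool.Agent.K4H70.RT

open Pool.Agent.Q134.SV
open Pool.Agent.K4H70.SV hiding Zst zig_step zig_down zig_start

lemma pr_neg {X M : Type} [AddCommGroup M] [Module ℝ M] (S : X → M →ₗ[ℝ] M) (r : ℝ) (v : X)
    (m : M) : Pr (fun v => - S v) (-r) v m = Pr S r v m := by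
  rw [Pr_apply, Pr_apply, LinearMap.neg_apply, smul_neg, neg_smul, neg_neg]

lemma pl_neg {X M : Type} [AddCommGroup M] [Module ℝ M] (S : X → M →ₗ[ℝ] M) (r : ℝ) (l : List X)
    (m : M) : PL (fun v => - S v) (-r) l m = PL S r l m := by
  induction l with
  | nil => rfl
  | cons v l ih => rw [PL_cons, PL_cons, ih, pr_neg]

lemma pf_neg {X M : Type} [AddCommGroup M] [Module ℝ M] (S : X → M →ₗ[ℝ] M) (r : ℝ) (τ : Finset X)
    (m : M) : PF (fun v => - S v) (-r) τ m = PF S r τ m := by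
  rw [PF_apply, PF_apply, pl_neg]

lemma tc_pr_eq {X M : Type} [Fintype X] [AddCommGroup M] [Module ℝ M] {G : SimpleGraph X}
    {S : X → M →ₗ[ℝ] M} (hS : Com G S) {r : ℝ} (hr : r * r = 1) {l : ℕ} {ω : (Fin l → X) → M}
    (hω : ∀ s i, S (s i) (ω s) = r • ω s) {σ : Fin (l + 1) → X} (hσ : CT G σ) :
    PF S r (Finset.univ.image σ) (tc (Io M) ω σ) = tc (Pr S r) ω σ := by
  unfold tc
  rw [map_sum]
  refine Finset.sum_congr rfl fun i _ => ?_
  rw [map_smul]
  congr 1
  have hni : σ i ∉ Finset.univ.image (σ ∘ i.succAbove) := by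
    intro h'
    obtain ⟨j, _, hj⟩ := Finset.mem_image.1 h'
    exact (hσ _ _ (Fin.succAbove_ne i j)).ne hj
  have e := image_succAbove σ i
  rw [e, hS.PF_insert r hni (by rw [← e]; exact cq_image hσ)]
  congr 1
  refine PF_of hr fun v hv => ?_
  obtain ⟨j, _, rfl⟩ := Finset.mem_image.1 hv
  exact hω _ _

variable {X : Type} [Fintype X] {Ω : Type} [Fintype Ω] {G : SimpleGraph X} {n : ℕ} {B : Set X}
  {z : (Fin (n + 1) → X) → ℝ}

/-- twisted cocycles on the inner simplices are projections of constant cocycles -/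
theorem lift_cocycle (hM : ManifoldPair n G B z) {S : X → (Ω → ℝ) →ₗ[ℝ] (Ω → ℝ)} (hS : Com G S)
    (hSI : ∀ v, v ∉ B → ∀ m, S v m = m) {k : ℕ} (ω : US G S B (k + 1))
    (hω : ∀ σ : Fin (k + 2) → X, CT G σ → (∃ i, σ i ∉ B) →
      PF S 1 (Finset.univ.image σ) (tc (Io (Ω → ℝ)) (ω : (Fin (k + 1) → X) → Ω → ℝ) σ) = 0) :
    ∃ χ : (Fin (k + 1) → X) → Ω → ℝ, Alt χ ∧
      (∀ s : Fin (k + 2) → X, CT G s → tc (Io (Ω → ℝ)) χ s = 0) ∧
      ∀ s, CT G s → PF S 1 (Finset.univ.image s) (χ s) = (ω : (Fin (k + 1) → X) → Ω → ℝ) s := by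
  have hS' := hS.neg
  have hc : ∀ s : Fin (k + 2) → X, CT G s →
      tc (Pr (fun v => - S v) (-1)) (ω : (Fin (k + 1) → X) → Ω → ℝ) s = 0 := by
    intro s hs
    have h1 : tc (Pr (fun v => - S v) (-1)) (ω : (Fin (k + 1) → X) → Ω → ℝ) s =
        tc (Pr S 1) (ω : (Fin (k + 1) → X) → Ω → ℝ) s := by
      unfold tc
      refine Finset.sum_congr rfl fun i _ => ?_
      rw [pr_neg]
    rw [h1]
    by_cases hB : ∃ i, s i ∉ B
    · rw [← tc_pr_eq hS (by norm_num) (fun s i => by rw [one_smul]; exact ω.2.2.2 s i) hs]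
      exact hω s hs hB
    · push Not at hB
      unfold tc
      refine Finset.sum_eq_zero fun i _ => ?_
      have h2 : (ω : (Fin (k + 1) → X) → Ω → ℝ) (s ∘ i.succAbove) = 0 := by
        by_contra h3
        obtain ⟨j, hj⟩ := (ω.2.2.1 _ h3).2
        exact hj (hB _)
      rw [h2, map_zero, smul_zero]
  have hN := dat_mm hS' ω.2.1 hc
  have htop : Zst G (fun v => - S v) (mm (fun v => - S v) (ω : (Fin (k + 1) → X) → Ω → ℝ))
      (n + 1 + 1) := zig_top fun τ hτ => hM.card hτ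
  have h1 := zig_run hS' hN (by omega) htop fun b hb1 hb τ hτ hcard hm f hf hfc => by
    refine exact_of (hM.outer τ (Cq.isClique hτ) (Finset.card_pos.1 (by omega)) ?_ (k + 1)) hf hfc
    intro x hx
    by_contra hxB
    obtain ⟨m, hm0, hm⟩ := hm
    have h2 := hm x hx
    rw [LinearMap.neg_apply, hSI x hxB] at h2
    apply hm0
    have h3 : (2 : ℝ) • m = 0 := by
      rw [two_smul]
      nth_rewrite 1 [← h2]
      exact neg_add_cancel m
    exact (smul_eq_zero.1 h3).resolve_left two_ne_zero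
  obtain ⟨χ, h2, h3, h4⟩ := mm_close hS' ω.2.1 hc (fun s i => by
    rw [LinearMap.neg_apply, ω.2.2.2 s i]) h1
  refine ⟨χ, h2, h3, fun s hs => ?_⟩
  rw [← pf_neg]
  exact h4 s hs

end Pool.Agent.K4H70.RT
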