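import Pool.Agent.K4H70.RT.Tr3
import Pool.Agent.K4H70.RT.EulR
import Pool.Agent.K4H70.RT.Grp

/-!
Gromov's question for the manifolds of the reflection group trick.
-/

set_option autoImplicit false
set_option linter.unusedSectionVars false
set_option linter.unusedVariables false

open scoped Classical

namespace Pool.Agent.K4H70.RT

open Pool.Agent.Q134.SV
open Pool.Agent.K4H70.SV hiding Zst zig_step zig_down zig_start
open Pool.Agent.W907.SG (W chiW)

variable {P X V : Type} [Group P] [Fintype X] [Fintype V] {K : SimpleGraph X}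
  {ι : V → X} {g : X → X → P} {n : ℕ} {z : (Fin (n + 1) → X) → ℝ}

/-- if the fundamental cycle of the boundary pairs trivially with all bounded cocycles of the Coxeter
group, then the Euler characteristic vanishes -/
theorem euler_of_pair (hM : MPair n K ι z) (hg : Vo K ι g) (hac : FAcy (cov K g)) (hn : 1 ≤ n)
    (h : ∀ c, Good (K.comap ι) n c → pair (gen (K.comap ι)) (zT ι z) c = 0) :
    eulerChar K + chiW (K.comap ι) - 1 = 0 := by
  obtain ⟨m, rfl⟩ : ∃ m, n = m + 1 := ⟨n - 1, by omega⟩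
  have hcyc : IsCyc (m + 1) (K.comap ι) (zT ι z) :=
    ⟨hM.zT_cycle.alt, fun v hv => (hM.zT_cycle.supp v hv).1, hM.zT_cycle.cyc⟩
  have h1 : ∀ a : (Fin (m + 1) → V ⊕ V × V) → ℝ, Alt a →
      (∀ v, GT (K.comap ι) v → cobd a v = 0) → ∑ v, zh (zT ι z) v * a v = 0 := by
    intro a ha hc
    have h2 := sum_zh (zT ι z) a
    simp only [smul_eq_mul] at h2
    rw [h2]
    by_contra h3
    obtain ⟨c, hc', hne⟩ := exists_good_of_labels hcyc ha hc h3
    exact hne (h c hc')
  obtain ⟨B, hB, hB', hzB⟩ := dual2 (A := GT (K.comap ι)) (fun v i j h => (GT.swap i j).2 h)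
    (zh_alt hM.zT_alt) h1
  exact rt_euler hM hg hac hB hB' hzB

/-- **Main theorem** -/
theorem main_theorem (hM : MPair n K ι z) (hg : Vo K ι g) (hac : FAcy (cov K g)) (hn : 1 ≤ n)
    (H : Subgroup (Gam K ι g)) (hH : H.index ≠ 0) (hε : Oriented K ι g H)
    (hz : ZeroSV n H) : eulerChar K + chiW (K.comap ι) - 1 = 0 := by
  refine euler_of_pair hM hg hac hn fun c hc => ?_
  refine pair_zero_of_zeroSV hM hg hn (pp := inP K ι g)
    (sg := fun y => inW K ι g (gen (bcov K ι g) y)) (inW_sh K ι g) ?_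
    (θ := toW K ι g) ?_ (toW_inP K ι g) H hH ?_ hz hc
  · intro y y' hy hy'
    rw [← map_mul, ← map_mul, gen_comm]
    refine ⟨hy, hy', ?_⟩
    beta_reduce
    rw [hy', hg.inv _ _ hy, mul_assoc, mul_inv_cancel, mul_one]
  · intro y
    rw [toW_inW, prW_gen]
  · intro h hh
    rw [MonoidHom.mem_ker, MonoidHom.comp_apply, par_toW]
    exact hε h hh

end Pool.Agent.K4H70.RT
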