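import Pool.Agent.K4H70.RT.Zg

/-!
The data of a constant cocycle.
-/

set_option autoImplicit false
set_option linter.unusedSectionVars false
set_option linter.unusedVariables false

open scoped Classical

namespace Pool.Agent.K4H70.RT

open Pool.Agent.Q134.SV
open Pool.Agent.K4H70.SV hiding Zst zig_step zig_down zig_start

/-- the weights -/
noncomputable def cc (b e : ℕ) : ℝ := (((b - 1).factorial * e.factorial : ℕ) : ℝ) / ((b + e).factorial : ℕ)

lemma cc_one (b e : ℕ) : cc (b + 1) e = cc (b + 2) e * (((e + 1 : ℕ) : ℝ) / ((b + 1 : ℕ) : ℝ) + 1) := by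
  unfold cc
  have e1 : b + 2 + e = (b + 1 + e) + 1 := by ring
  have e2 : b + 2 - 1 = b + 1 := rfl
  have e3 : b + 1 - 1 = b := rfl
  rw [e1, e2, e3, Nat.factorial_succ (b + 1 + e), Nat.factorial_succ b]
  have h1 : ((b + 1 + e).factorial : ℝ) ≠ 0 := by positivity
  have h2 : ((b + 1 + e + 1 : ℕ) : ℝ) ≠ 0 := by positivity
  have h3 : ((b + 1 : ℕ) : ℝ) ≠ 0 := by positivity
  push_cast at h2 h3 ⊢
  field_simp
  ring

lemma cc_two (b e : ℕ) : cc (b + 1) (e + 1) = cc (b + 2) e * (((e + 1 : ℕ) : ℝ) / ((b + 1 : ℕ) : ℝ)) := by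
  unfold cc
  have e1 : b + 2 + e = (b + 1 + e) + 1 := by ring
  have e1' : b + 1 + (e + 1) = (b + 1 + e) + 1 := by ring
  have e2 : b + 2 - 1 = b + 1 := rfl
  have e3 : b + 1 - 1 = b := rfl
  rw [e1, e1', e2, e3, Nat.factorial_succ (b + 1 + e), Nat.factorial_succ b, Nat.factorial_succ e]
  have h1 : ((b + 1 + e).factorial : ℝ) ≠ 0 := by positivity
  have h2 : ((b + 1 + e + 1 : ℕ) : ℝ) ≠ 0 := by positivity
  have h3 : ((b + 1 : ℕ) : ℝ) ≠ 0 := by positivity
  push_cast at h2 h3 ⊢
  field_simp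

lemma cc_start (e : ℕ) : ((e + 1 : ℕ) : ℝ) * cc 1 e = 1 := by
  unfold cc
  have e1 : 1 + e = e + 1 := by ring
  rw [e1, Nat.factorial_succ e]
  have h1 : (e.factorial : ℝ) ≠ 0 := by positivity
  have h2 : ((e + 1 : ℕ) : ℝ) ≠ 0 := by positivity
  push_cast at h2 ⊢
  simp only [Nat.sub_self, Nat.factorial_zero, Nat.cast_one, one_mul]
  field_simp

lemma cc_pos (b e : ℕ) : 0 < cc b e := by
  unfold cc
  positivity

variable {X : Type} {Ω : Type} {G : SimpleGraph X}

/-- the number of entries in `J` -/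
noncomputable def ej (J : X → Prop) {m : ℕ} (s : Fin m → X) : ℕ :=
  (Finset.univ.filter fun i => J (s i)).card

lemma ej_swap (J : X → Prop) {m : ℕ} (s : Fin m → X) (i j : Fin m) :
    ej J (s ∘ Equiv.swap i j) = ej J s := by
  unfold ej
  refine Finset.card_bij (fun a _ => Equiv.swap i j a) ?_ ?_ ?_
  · intro a ha
    simpa using ha
  · intro a _ b _ h
    exact (Equiv.swap i j).injective h
  · intro b hb
    refine ⟨Equiv.swap i j b, ?_, by simp⟩
    simpa using hb

lemma ej_sub (J : X → Prop) {m : ℕ} (s : Fin (m + 1) → X) (i : Fin (m + 1)) :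
    ej J s = ej J (s ∘ i.succAbove) + if J (s i) then 1 else 0 := by
  unfold ej
  rw [Finset.card_filter, Finset.card_filter, Fin.sum_univ_succAbove _ i, add_comm]
  rfl

/-- the data of a constant cocycle -/
noncomputable def Nj (J : X → Prop) {k : ℕ} (φ : (Fin (k + 1) → X) → Ω → ℝ) (s : Fin k → X)
    (τ : Finset X) : Ω → ℝ :=
  if (∀ v ∈ τ, J v) ∧ τ.Nonempty then cc τ.card (ej J s) • ∑ v ∈ τ, φ (Fin.cons v s) else 0

variable {J : X → Prop} {k : ℕ} {φ : (Fin (k + 2) → X) → Ω → ℝ}

lemma nj_alt (hφ : Alt φ) : Alt (Nj J φ) := by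
  intro s i j hij
  funext τ
  unfold Nj
  rw [Pi.neg_apply, ej_swap]
  split_ifs with h
  · rw [← smul_neg, ← Finset.sum_neg_distrib]
    congr 1
    exact Finset.sum_congr rfl fun v _ => (hφ.cons v) s i j hij
  · simp

lemma nj_ix [Fintype X] (hφ : Alt φ)
    (hc : ∀ s : Fin (k + 3) → X, CT G s → tc (Io (Ω → ℝ)) φ s = 0)
    (h0 : ∀ s, CT G s → (∀ i, ¬ J (s i)) → φ s = 0)
    {τ : Finset X} (hτ : Cq G τ) (hne : τ.Nonempty) {s : Fin (k + 2) → X} (hs : LT G τ s) :
    tc (Io (Finset X → Ω → ℝ)) (Nj J φ) s τ = tc Xo (Nj J φ) s τ := by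
  rw [tc_I_apply, tc_X_apply]
  by_cases hJ : ∀ v ∈ τ, J v
  · obtain ⟨b, hb⟩ : ∃ b, τ.card = b + 1 := ⟨τ.card - 1, by
      have := Finset.card_pos.2 hne; omega⟩
    -- the sums
    set a : Fin (k + 2) → Ω → ℝ := fun i =>
      (-1 : ℝ) ^ (i : ℕ) • ∑ v ∈ τ, φ (Fin.cons v (s ∘ i.succAbove)) with ha
    have hsum : ∑ i, a i = ((b + 1 : ℕ) : ℝ) • φ s := by
      have h1 : ∀ v ∈ τ, ∑ i : Fin (k + 2), (-1 : ℝ) ^ (i : ℕ) •
          φ (Fin.cons v (s ∘ i.succAbove)) = φ s := by
        intro v hv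
        have hcl : CT G (Fin.cons v s : Fin (k + 3) → X) := by
          intro i j hij
          rcases Fin.eq_zero_or_eq_succ i with rfl | ⟨i, rfl⟩
          · rcases Fin.eq_zero_or_eq_succ j with rfl | ⟨j, rfl⟩
            · exact absurd rfl hij
            · rw [Fin.cons_zero, Fin.cons_succ]; exact hs.2 j v hv
          · rcases Fin.eq_zero_or_eq_succ j with rfl | ⟨j, rfl⟩
            · rw [Fin.cons_zero, Fin.cons_succ]; exact (hs.2 i v hv).symm
            · rw [Fin.cons_succ, Fin.cons_succ]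
              exact hs.1 i j fun e => hij (by rw [e])
        have h2 := hc _ hcl
        rw [tc_cons, sub_eq_zero] at h2
        exact h2.symm
      simp only [ha, Finset.smul_sum]
      rw [Finset.sum_comm, Finset.sum_congr rfl h1, Finset.sum_const, hb,
        ← Nat.cast_smul_eq_nsmul ℝ]
    have hmove : ∀ i : Fin (k + 2), (-1 : ℝ) ^ (i : ℕ) • φ (Fin.cons (s i) (s ∘ i.succAbove)) = φ s :=
      fun i => (hφ.move s i).symm
    have hL : ∀ i : Fin (k + 2), (-1 : ℝ) ^ (i : ℕ) • (Nj J φ (s ∘ i.succAbove) τ) =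
        cc (b + 1) (ej J (s ∘ i.succAbove)) • a i := by
      intro i
      unfold Nj
      rw [if_pos ⟨hJ, hne⟩, hb, ha, smul_comm]
    have hR : ∀ i : Fin (k + 2), (-1 : ℝ) ^ (i : ℕ) •
        (Nj J φ (s ∘ i.succAbove) (insert (s i) τ)) =
        if J (s i) then cc (b + 2) (ej J (s ∘ i.succAbove)) • (φ s + a i) else 0 := by
      intro i
      unfold Nj
      by_cases hi : J (s i)
      · rw [if_pos ⟨fun v hv => by
          rcases Finset.mem_insert.1 hv with rfl | hv
          · exact hi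
          · exact hJ v hv, Finset.insert_nonempty _ _⟩, if_pos hi,
          Finset.card_insert_of_notMem (hs.notMem i), hb, Finset.sum_insert (hs.notMem i),
          smul_comm, smul_add, hmove i]
      · rw [if_neg fun h => hi (h.1 _ (Finset.mem_insert_self _ _)), if_neg hi, smul_zero]
    have hLs : tc (Io (Ω → ℝ)) (fun s => Nj J φ s τ) s =
        ∑ i : Fin (k + 2), (-1 : ℝ) ^ (i : ℕ) • (Nj J φ (s ∘ i.succAbove) τ) := rfl
    rw [hLs, Finset.sum_congr rfl fun i _ => hL i, Finset.sum_congr rfl fun i _ => hR i]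
    rcases Nat.eq_zero_or_pos (ej J s) with he | he
    · have hno : ∀ i, ¬ J (s i) := by
        intro i hi
        have := ej_sub J s i
        rw [if_pos hi] at this
        omega
      have h1 : φ s = 0 := h0 s hs.1 hno
      have h2 : ∀ i : Fin (k + 2), ej J (s ∘ i.succAbove) = 0 := by
        intro i
        have := ej_sub J s i
        omega
      simp only [h2, hno, if_false, Finset.sum_const_zero]
      rw [← Finset.smul_sum, hsum, h1, smul_zero, smul_zero]
    · obtain ⟨e, he⟩ : ∃ e, ej J s = e + 1 := ⟨ej J s - 1, by omega⟩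
      have hJi : ∀ i, J (s i) → ej J (s ∘ i.succAbove) = e := by
        intro i hi
        have := ej_sub J s i
        rw [if_pos hi] at this
        omega
      have hJn : ∀ i, ¬ J (s i) → ej J (s ∘ i.succAbove) = e + 1 := by
        intro i hi
        have := ej_sub J s i
        rw [if_neg hi] at this
        omega
      have h1 : ∀ i : Fin (k + 2), cc (b + 1) (ej J (s ∘ i.succAbove)) • a i =
          (if J (s i) then cc (b + 2) e • a i else 0) +
            (cc (b + 2) e * (((e + 1 : ℕ) : ℝ) / ((b + 1 : ℕ) : ℝ))) • a i := by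
        intro i
        by_cases hi : J (s i)
        · rw [hJi i hi, if_pos hi, cc_one, ← add_smul]
          congr 1
          ring
        · rw [hJn i hi, if_neg hi, cc_two, zero_add]
      have h2 : ∀ i : Fin (k + 2), (if J (s i) then
          cc (b + 2) (ej J (s ∘ i.succAbove)) • (φ s + a i) else 0) =
          (if J (s i) then cc (b + 2) e • a i else 0) +
            (if J (s i) then (1 : ℝ) else 0) • cc (b + 2) e • φ s := by
        intro i
        by_cases hi : J (s i)
        · rw [if_pos hi, if_pos hi, if_pos hi, hJi i hi, smul_add, one_smul, add_comm]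
        · rw [if_neg hi, if_neg hi, if_neg hi, zero_smul, zero_add]
      rw [Finset.sum_congr rfl fun i _ => h1 i, Finset.sum_congr rfl fun i _ => h2 i,
        Finset.sum_add_distrib, Finset.sum_add_distrib, ← Finset.smul_sum, hsum, ← Finset.sum_smul]
      congr 1
      have h3 : ∑ i : Fin (k + 2), (if J (s i) then (1 : ℝ) else 0) = ((e + 1 : ℕ) : ℝ) := by
        rw [← he]
        unfold ej
        rw [Finset.card_filter]
        push_cast
        rfl
      rw [h3, smul_smul, smul_smul]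
      congr 1
      have h4 : ((b + 1 : ℕ) : ℝ) ≠ 0 := by positivity
      field_simp
  · have h1 : ∀ s : Fin (k + 1) → X, Nj J φ s τ = 0 := fun s => if_neg fun h => hJ h.1
    have h2 : ∀ (s : Fin (k + 1) → X) v, Nj J φ s (insert v τ) = 0 := fun s v => if_neg fun h =>
      hJ fun w hw => h.1 w (Finset.mem_insert_of_mem hw)
    simp only [h1, h2, smul_zero, Finset.sum_const_zero]
    unfold tc
    simp

lemma nj_dat [Fintype X] {S : X → (Ω → ℝ) →ₗ[ℝ] (Ω → ℝ)} (hSJ : ∀ v, J v → ∀ m, S v m = m)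
    (hφ : Alt φ) (hc : ∀ s : Fin (k + 3) → X, CT G s → tc (Io (Ω → ℝ)) φ s = 0)
    (h0 : ∀ s, CT G s → (∀ i, ¬ J (s i)) → φ s = 0) : Dat G S (Nj J φ) := by
  refine ⟨nj_alt hφ, ?_, fun τ hτ hne s hs => nj_ix hφ hc h0 hτ hne hs⟩
  intro τ _ _ s v hv
  unfold Nj
  split_ifs with h
  · exact hSJ v (h.1 v hv) _
  · simp

lemma nj_empty [Fintype X] (hφ : Alt φ) (h0 : ∀ s, CT G s → (∀ i, ¬ J (s i)) → φ s = 0)
    {s : Fin (k + 2) → X} (hs : CT G s) : tc Xo (Nj J φ) s ∅ = φ s := by
  rw [tc_X_apply]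
  have hR : ∀ i : Fin (k + 2), (-1 : ℝ) ^ (i : ℕ) •
      (Nj J φ (s ∘ i.succAbove) (insert (s i) ∅)) =
      if J (s i) then cc 1 (ej J (s ∘ i.succAbove)) • φ s else 0 := by
    intro i
    unfold Nj
    by_cases hi : J (s i)
    · rw [if_pos ⟨fun v hv => by
        rcases Finset.mem_insert.1 hv with rfl | hv
        · exact hi
        · exact absurd hv (Finset.notMem_empty v), Finset.insert_nonempty _ _⟩, if_pos hi]
      have : (insert (s i) ∅ : Finset X) = {s i} := rfl
      rw [this, Finset.card_singleton, Finset.sum_singleton, smul_comm, ← hφ.move s i]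
    · rw [if_neg fun h => hi (h.1 _ (Finset.mem_insert_self _ _)), if_neg hi, smul_zero]
  rw [Finset.sum_congr rfl fun i _ => hR i]
  rcases Nat.eq_zero_or_pos (ej J s) with he | he
  · have hno : ∀ i, ¬ J (s i) := by
      intro i hi
      have := ej_sub J s i
      rw [if_pos hi] at this
      omega
    simp only [hno, if_false, Finset.sum_const_zero]
    exact (h0 s hs hno).symm
  · obtain ⟨e, he⟩ : ∃ e, ej J s = e + 1 := ⟨ej J s - 1, by omega⟩
    have h2 : ∀ i : Fin (k + 2), (if J (s i) then cc 1 (ej J (s ∘ i.succAbove)) • φ s else 0) =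
          (if J (s i) then (1 : ℝ) else 0) • cc 1 e • φ s := by
      intro i
      by_cases hi : J (s i)
      · have := ej_sub J s i
        rw [if_pos hi] at this
        have h5 : ej J (s ∘ i.succAbove) = e := by omega
        rw [if_pos hi, if_pos hi, h5, one_smul]
      · rw [if_neg hi, if_neg hi, zero_smul]
    have h3 : ∑ i : Fin (k + 2), (if J (s i) then (1 : ℝ) else 0) = ((e + 1 : ℕ) : ℝ) := by
      rw [← he]
      unfold ej
      rw [Finset.card_filter]
      push_cast
      rfl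
    rw [Finset.sum_congr rfl fun i _ => h2 i, ← Finset.sum_smul, h3, smul_smul, cc_start, one_smul]

end Pool.Agent.K4H70.RT
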