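import Pool.Agent.K4H70.RT.Dv

/-!
Poincare duality.
-/

set_option autoImplicit false
set_option linter.unusedSectionVars false
set_option linter.unusedVariables false

open scoped Classical

namespace Pool.Agent.K4H70.RT

open Pool.Agent.Q134.SV
open Pool.Agent.K4H70.SV hiding Zst zig_step zig_down zig_start

lemma ev_rot {X M : Type} [AddCommGroup M] [Module ℝ M] {n : ℕ} {z : (Fin n → X) → M} (h : Alt z)
    (a b : List X) : ev z (a ++ b) = (-1 : ℝ) ^ (a.length * b.length) • ev z (b ++ a) := by
  induction b generalizing n with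
  | nil => simp
  | cons x b ih =>
    cases n with
    | zero =>
      cases a <;> simp [ev]
    | succ n =>
      rw [h.ev_move, ev_cons, ih (h.cons x), List.cons_append, ev_cons, smul_smul,
        List.length_cons, ← pow_add]
      congr 2
      ring

lemma ev_pre {X M : Type} [AddCommGroup M] [Module ℝ M] {n l : ℕ} {z : (Fin n → X) → M} (h : Alt z)
    (w : List X) : Alt fun τ : Fin l → X => ev z (List.ofFn τ ++ w) := by
  intro v i j hij
  simp only
  rw [ev_rot h, ev_rot h (List.ofFn v)]
  have := h.ev_ofFn w l v i j hij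
  simp only at this
  rw [this]
  simp

variable {X : Type} [Fintype X] {Ω : Type} [Fintype Ω] {G : SimpleGraph X} {n : ℕ} {B : Set X}
  {z : (Fin (n + 1) → X) → ℝ}

lemma image_of_ofFn {l : ℕ} {t : Fin l → X} {τ : Finset X} (h : List.ofFn t = τ.toList) :
    Finset.univ.image t = τ := by
  ext x
  rw [← Finset.mem_toList (s := τ), ← h, List.mem_ofFn]
  simp

lemma ct_of_ofFn {l : ℕ} {t : Fin l → X} {τ : Finset X} (hτ : Cq G τ)
    (h : List.ofFn t = τ.toList) : CT G t := by
  have h1 := hτ.pairwise (List.Perm.refl τ.toList)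
  rw [← h, List.pairwise_ofFn] at h1
  intro i j hij
  rcases lt_or_gt_of_ne hij with h' | h'
  · exact h1 h'
  · exact (h1 h').symm

/-- the rows of the zigzag are exact -/
lemma ManifoldPair.rows (hM : ManifoldPair n G B z) {k b : ℕ} (hb1 : 1 ≤ b)
    (hb : b + (k + 1) < n + 1) {τ : Finset X} (hτ : Cq G τ) (hcard : τ.card = b)
    {f : (Fin (k + 1) → X) → ℝ} (hf : Alt f)
    (hc : ∀ s : Fin (k + 2) → X, LT G τ s → cobd f s = 0) :
    ∃ g : (Fin k → X) → ℝ, Alt g ∧ ∀ s : Fin (k + 1) → X, LT G τ s → f s = cobd g s := by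
  by_cases hI : ∃ x ∈ τ, x ∉ B
  · exact exact_of ((hM.inner τ (Cq.isClique hτ) hI).1 (k + 1) (by omega)) hf hc
  · push Not at hI
    exact exact_of (hM.outer τ (Cq.isClique hτ) (Finset.card_pos.1 (by omega)) hI (k + 1)) hf hc

lemma lt_len (hM : ManifoldPair n G B z) {m : ℕ} {τ : Finset X} (hτ : Cq G τ) {s : Fin m → X}
    (h : LT G τ s) : τ.card + m ≤ n + 1 := by
  have h1 : (τ.toList ++ List.ofFn s).Pairwise G.Adj := by
    rw [List.pairwise_append]
    refine ⟨hτ.pairwise (List.Perm.refl _), ?_, ?_⟩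
    · rw [List.pairwise_ofFn]
      exact fun i j hij => h.1 i j hij.ne
    · intro a ha b hb
      obtain ⟨i, rfl⟩ := List.mem_ofFn.1 hb
      exact h.2 i a (Finset.mem_toList.1 ha)
  have := hM.len h1
  rw [List.length_append, Finset.length_toList, List.length_ofFn] at this
  exact this

/-- Poincare duality: a cocycle which pairs to zero with all cocycles of the dual complex is a
coboundary -/
theorem pd (hM : ManifoldPair n G B z) {S : X → (Ω → ℝ) →ₗ[ℝ] (Ω → ℝ)} (hS : Com G S)
    (hs : Sym S) {J : X → Prop} (hSJ : ∀ v, J v → ∀ m, S v m = m) {k : ℕ}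
    {φ : (Fin (k + 2) → X) → Ω → ℝ} (hφ : Alt φ)
    (hc : ∀ s : Fin (k + 3) → X, CT G s → tc (Io (Ω → ℝ)) φ s = 0)
    (h0 : ∀ s, CT G s → (∀ i, ¬ J (s i)) → φ s = 0)
    (hpair : ∀ l, l + (k + 1) = n + 1 → ∀ ω : US G S B l,
      (∀ σ : Fin (l + 1) → X, CT G σ → (∃ i, σ i ∉ B) →
        PF S 1 (Finset.univ.image σ) (tc (Io (Ω → ℝ)) (ω : (Fin l → X) → Ω → ℝ) σ) = 0) →
      ∑ τ : Fin l → X, ∑ s : Fin (k + 1) → X, ev z (List.ofFn τ ++ List.ofFn s) *
        dt2 ((ω : (Fin l → X) → Ω → ℝ) τ) (Nj J φ s (Finset.univ.image τ)) = 0) :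
    ∃ χ : (Fin (k + 1) → X) → Ω → ℝ, Alt χ ∧
      (∀ s : Fin (k + 2) → X, CT G s → φ s = tc (Io (Ω → ℝ)) χ s) ∧
      ∀ s, CT G s → PF S (-1) (Finset.univ.image s) (χ s) = 0 := by
  by_cases hkn : n ≤ k
  · refine ⟨fun _ => 0, fun _ _ _ _ => by simp, fun s hs' => ?_, fun s _ => by simp⟩
    exfalso
    have := lt_len hM cq_empty (lt_empty hs')
    simp at this
    omega
  · push Not at hkn
    obtain ⟨l, hl⟩ : ∃ l, l + (k + 1) = n + 1 := ⟨n - k, by omega⟩
    have hl1 : 1 ≤ l := by omega
    have hN := nj_dat (G := G) hSJ hφ hc h0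
    have hz := hM.alt
    -- the cap product
    set c : (Fin l → X) → Ω → ℝ := fun τ => if CT G τ ∧ ∃ i, τ i ∉ B then
      ∑ s : Fin (k + 1) → X, ev z (List.ofFn τ ++ List.ofFn s) •
        Nj J φ s (Finset.univ.image τ) else 0 with hcdef
    have hcU : c ∈ US G S B l := by
      refine ⟨fun s i j hij => ?_, fun s hs' => ?_, fun s i => ?_⟩
      · have h1 : (∃ k, (s ∘ Equiv.swap i j) k ∉ B) ↔ ∃ k, s k ∉ B := by
          constructor
          · rintro ⟨k, hk⟩; exact ⟨_, hk⟩
          · rintro ⟨k, hk⟩; exact ⟨Equiv.swap i j k, by simpa using hk⟩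
        simp only [hcdef]
        by_cases h : CT G s ∧ ∃ k, s k ∉ B
        · rw [if_pos h, if_pos ⟨(ct_swap i j).2 h.1, h1.2 h.2⟩, image_swap,
            ← Finset.sum_neg_distrib]
          refine Finset.sum_congr rfl fun s' _ => ?_
          have := ev_pre hz (List.ofFn s') s i j hij
          simp only at this
          rw [this, neg_smul]
        · rw [if_neg h, if_neg fun h' => h ⟨(ct_swap i j).1 h'.1, h1.1 h'.2⟩, neg_zero]
      · by_contra h1
        exact hs' (if_neg h1)
      · simp only [hcdef]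
        split_ifs with h
        · rw [map_sum]
          refine Finset.sum_congr rfl fun s' _ => ?_
          rw [map_smul, hN.inv _ (cq_image h.1) ⟨s i, Finset.mem_image_of_mem s
            (Finset.mem_univ i)⟩ _ _ (Finset.mem_image_of_mem s (Finset.mem_univ i))]
        · simp
    obtain ⟨β, hβ⟩ := dualV B l ⟨c, hcU⟩ fun ω hω => by
      have h1 := hpair l hl ω (closedV hS hs B l ω hω)
      rw [← h1]
      refine Finset.sum_congr rfl fun τ _ => ?_
      by_cases h2 : (ω : (Fin l → X) → Ω → ℝ) τ = 0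
      · rw [h2, dt2_comm, dt2_zero]
        symm
        refine Finset.sum_eq_zero fun s _ => ?_
        rw [dt2_comm, dt2_zero, mul_zero]
      · have h3 := ω.2.2.1 τ h2
        have h4 : (c τ) = ∑ s : Fin (k + 1) → X, ev z (List.ofFn τ ++ List.ofFn s) •
          Nj J φ s (Finset.univ.image τ) := if_pos h3
        change dt2 _ (c τ) = _
        rw [h4, dt2_sum]
        exact Finset.sum_congr rfl fun s _ => dt2_smul _ _ _
    set β' : List X → Ω → ℝ := fun t => ev (β : (Fin (l + 1) → X) → Ω → ℝ) t with hβ'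
    have hst : Zst G S (Nj J φ) l := by
      refine zig_start hS hz hM.supp hN hl hl1 ?_ (β := β') ?_ ?_ ?_ (fun τ => ∃ x ∈ τ, x ∉ B) ?_ ?_
      · intro t ht htl
        exact hM.nz_ne (k := k) (l := l + 1) (by omega) (by omega) ht htl
      · intro p x y q
        exact β.2.1.ev_swap' p x y q
      · intro t v hv
        by_cases h1 : β' t = 0
        · rw [h1, map_zero]
        · obtain ⟨y, rfl, hy⟩ := ev_ne h1
          obtain ⟨i, rfl⟩ := List.mem_ofFn.1 hv
          simp only [hβ']
          rw [ev_ofFn]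
          exact β.2.2.2 y i
      · intro t ht
        by_contra h1
        obtain ⟨y, rfl, hy⟩ := ev_ne h1
        apply ht
        rw [List.pairwise_ofFn]
        exact fun i j hij => (β.2.2.1 y hy).1 i j hij.ne
      · intro τ hτ hcard f hf hp
        by_cases hI : ∃ x ∈ τ, x ∉ B
        · have h1 := (hM.inner τ (Cq.isClique hτ) hI).2
          have h2 : n + 1 - τ.card = k + 1 := by omega
          rw [h2] at h1
          obtain ⟨x, hx, hxB⟩ := hI
          have h3 := hM.ev_cycle (t := τ.toList) ⟨x, Finset.mem_toList.2 hx, hxB⟩ (k + 1)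
          rw [Finset.toList_toFinset] at h3
          refine exact_top_of h1 hf h3 ?_ (hp ⟨x, hx, hxB⟩)
          intro h4
          refine hM.nz_ne (k := k + 1) (l := l) hl hl1 (hτ.pairwise (List.Perm.refl _))
            (by rw [Finset.length_toList, hcard]) ?_
          unfold Nz
          refine Finset.sum_eq_zero fun s _ => ?_
          have := congrFun h4 s
          simp only [Pi.zero_apply] at this
          rw [this, mul_zero]
        · push Not at hI
          refine exact_of (hM.outer τ (Cq.isClique hτ) (Finset.card_pos.1 (by omega)) hI (k + 1))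
            hf fun s hs' => ?_
          exfalso
          have := lt_len hM hτ hs'
          omega
      · intro τ hτ hcard hI
        obtain ⟨t, ht⟩ := list_ofFn_of_length (k := l) τ.toList (by
          rw [Finset.length_toList, hcard])
        have hct := ct_of_ofFn hτ ht
        have him := image_of_ofFn ht
        have hint : ∃ i, t i ∉ B := by
          obtain ⟨x, hx, hxB⟩ := hI
          rw [← Finset.mem_toList, ← ht, List.mem_ofFn] at hx
          obtain ⟨i, rfl⟩ := hx
          exact ⟨i, hxB⟩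
        have h1 := congrFun (congrArg Subtype.val hβ) t
        have h2 : (bdU G S B l β : (Fin l → X) → Ω → ℝ) t =
            ∑ v, (β : (Fin (l + 1) → X) → Ω → ℝ) (Fin.cons v t) := if_pos hint
        have h3 : c t = ∑ s : Fin (k + 1) → X, ev z (List.ofFn t ++ List.ofFn s) •
          Nj J φ s (Finset.univ.image t) := if_pos ⟨hct, hint⟩
        rw [← ht]
        have h4 : ∀ v : X, β' (v :: List.ofFn t) =
            (β : (Fin (l + 1) → X) → Ω → ℝ) (Fin.cons v t) := by
          intro v
          simp only [hβ']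
          rw [← List.ofFn_cons, ev_ofFn]
        rw [Finset.sum_congr rfl fun v _ => h4 v, ← h2, h1]
        change _ = c t
        rw [h3, him]
    have h1 := zig_run hS hN hl1 hst fun b hb1 hb τ hτ hcard _ f hf hfc =>
      hM.rows hb1 (by omega) hτ hcard hf hfc
    obtain ⟨p, hp, hpi, hcl⟩ := zig_close2 h1
    refine ⟨fun s => - tc Xo p s ∅, ?_, fun s hs' => ?_, fun s hs' => ?_⟩
    · intro v i j hij
      have h2 : Alt (tc Xo p) := hp.tc _
      simp only
      rw [h2 v i j hij, Pi.neg_apply]
    · rw [← nj_empty hφ h0 hs', hcl s hs']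
      unfold tc
      simp
    · rw [map_neg, tc_X_apply, map_sum, neg_eq_zero]
      refine Finset.sum_eq_zero fun i _ => ?_
      rw [map_smul, hS.PF_zero (by norm_num) (cq_image hs') (v := s i)
        (Finset.mem_image_of_mem s (Finset.mem_univ i)), smul_zero]
      rw [neg_neg, one_smul]
      exact hpi _ _

end Pool.Agent.K4H70.RT
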