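import Pool.Agent.K4H70.RT.LC
import Pool.Agent.K4H70.SV.Cap

/-!
The prism operator on the pair labels.
-/

set_option autoImplicit false
set_option linter.unusedSectionVars false
set_option linter.unusedVariables false

open scoped Classical

namespace Pool.Agent.K4H70.RT

open Pool.Agent.Q134.SV
open Pool.Agent.K4H70.SV

variable {V M : Type} [AddCommGroup M] [Module ℝ M] {G : SimpleGraph V} {S : V → M →ₗ[ℝ] M}

variable (S) in
/-- the operators -/
noncomputable def Ae (p : V × V) (ε : Bool) : M →ₗ[ℝ] M :=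
  To S (Sum.inr p) ε ∘ₗ Pr S (-1) (cv (Sum.inr p) ε)

lemma Ae_apply (p : V × V) (ε : Bool) (m : M) :
    Ae S p ε m = To S (Sum.inr p) ε (Pr S (-1) (cv (Sum.inr p) ε) m) := rfl

/-- the vertex of a pair -/
def cw (p : V × V) (ε : Bool) : V := cv (Sum.inr p) ε

lemma cw_false (p : V × V) : cw p false = p.1 := rfl
lemma cw_true (p : V × V) : cw p true = p.2 := rfl

lemma Ae_sum (hS : Clf G S) {p : V × V} (hp : Va G (Sum.inr p)) (m : M) :
    ∑ ε : Bool, Ae S p ε m = m := hS.ident' hp m

variable (S) in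
/-- the prism operator -/
noncomputable def Hp : List (V × V) → (List (V ⊕ V × V) → M) → M
  | [], _ => 0
  | p :: l, F => ∑ ε : Bool, Ae S p ε (F (Sum.inl (cw p ε) :: Sum.inr p :: l.map Sum.inr) -
      Hp l fun l' => F (Sum.inl (cw p ε) :: l'))

variable (S) in
/-- the end of the homotopy -/
noncomputable def Tp : List (V × V) → (List (V ⊕ V × V) → M) → M
  | [], F => F []
  | p :: l, F => ∑ ε : Bool, Ae S p ε (Tp l fun l' => F (Sum.inl (cw p ε) :: l'))

lemma Hp_sub : ∀ (l : List (V × V)) (F F' : List (V ⊕ V × V) → M),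
    Hp S l (fun l => F l - F' l) = Hp S l F - Hp S l F'
  | [], F, F' => by simp [Hp]
  | p :: l, F, F' => by
    simp only [Hp]
    rw [← Finset.sum_sub_distrib]
    refine Finset.sum_congr rfl fun ε _ => ?_
    rw [Hp_sub l, ← map_sub]
    congr 1
    abel

theorem Hp_dL (hS : Clf G S) : ∀ (l : List (V × V)) (F : List (V ⊕ V × V) → M),
    (∀ p ∈ l, Va G (Sum.inr p)) →
    Hp S l (fun l' => dL l' F) = F (l.map Sum.inr) - Tp S l F - dL l (fun l' => Hp S l' F)
  | [], F, _ => by
    simp [Hp, Tp, dL_nil]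
  | p :: l, F, h => by
    have hl : ∀ p ∈ l, Va G (Sum.inr p) := fun q hq => h q (List.mem_cons_of_mem _ hq)
    have hp := h p List.mem_cons_self
    have h1 : ∀ ε : Bool, dL (Sum.inl (cw p ε) :: Sum.inr p :: l.map Sum.inr) F -
        Hp S l (fun l' => dL (Sum.inl (cw p ε) :: l') F) =
        F (Sum.inr p :: l.map Sum.inr) +
          dL (l.map Sum.inr) (fun l' => F (Sum.inl (cw p ε) :: Sum.inr p :: l')) -
          Hp S l F - Tp S l (fun l' => F (Sum.inl (cw p ε) :: l')) -
          dL l (fun l' => Hp S l' fun l'' => F (Sum.inl (cw p ε) :: l'')) := by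
      intro ε
      have h2 : (fun l' => dL (Sum.inl (cw p ε) :: l') F) =
          fun l' => F l' - dL l' fun l'' => F (Sum.inl (cw p ε) :: l'') := rfl
      rw [h2, Hp_sub, Hp_dL hS l _ hl, dL_cons, dL_cons]
      abel
    have h3 : dL (p :: l) (fun l' => Hp S l' F) = Hp S l F - ∑ ε : Bool, Ae S p ε
        (dL (l.map Sum.inr) (fun l' => F (Sum.inl (cw p ε) :: Sum.inr p :: l')) -
          dL l (fun l' => Hp S l' fun l'' => F (Sum.inl (cw p ε) :: l''))) := by
      rw [dL_cons]
      congr 1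
      have h4 : (fun l' => Hp S (p :: l') F) = fun l' => ∑ ε : Bool, Ae S p ε
          (F (Sum.inl (cw p ε) :: Sum.inr p :: l'.map Sum.inr) -
            Hp S l' fun l'' => F (Sum.inl (cw p ε) :: l'')) := rfl
      rw [h4, dL_sum]
      refine Finset.sum_congr rfl fun ε _ => ?_
      rw [dL_map, dL_sub, dL_lmap]
    have h5 : Hp S (p :: l) (fun l' => dL l' F) = ∑ ε : Bool, Ae S p ε
        (dL (Sum.inl (cw p ε) :: Sum.inr p :: l.map Sum.inr) F -
        Hp S l (fun l' => dL (Sum.inl (cw p ε) :: l') F)) := rfl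
    have h6 : Tp S (p :: l) F = ∑ ε : Bool, Ae S p ε
      (Tp S l fun l' => F (Sum.inl (cw p ε) :: l')) := rfl
    rw [h5, h3, h6, List.map_cons]
    simp only [h1, map_sub, map_add, Finset.sum_sub_distrib, Finset.sum_add_distrib, Ae_sum hS hp]
    abel

lemma adj_cw {u : V} {p : V × V} (h : G.Adj u p.1 ∧ G.Adj u p.2) (ε : Bool) : G.Adj u (cw p ε) := by
  cases ε
  · exact h.1
  · exact h.2

/-- the prefix condition -/
def Pre (G : SimpleGraph V) (u : List V) (l : List (V × V)) : Prop :=
  u.Pairwise G.Adj ∧ (∀ a ∈ u, ∀ p ∈ l, G.Adj a p.1 ∧ G.Adj a p.2) ∧ Gli G (l.map Sum.inr)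

lemma Pre.step {u : List V} {p : V × V} {l : List (V × V)} (h : Pre G u (p :: l)) (ε : Bool) :
    Pre G (u ++ [cw p ε]) l := by
  obtain ⟨h1, h2, h3, h4⟩ := h
  rw [List.map_cons, List.pairwise_cons] at h4
  refine ⟨?_, fun a ha q hq => ?_, fun x hx => h3 x (List.mem_cons_of_mem _ hx), h4.2⟩
  · rw [List.pairwise_append]
    refine ⟨h1, List.pairwise_singleton _ _, fun a ha b hb => ?_⟩
    rw [List.mem_singleton] at hb
    rw [hb]
    exact adj_cw (h2 a ha p List.mem_cons_self) ε
  · rcases List.mem_append.1 ha with ha | ha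
    · exact h2 a ha q (List.mem_cons_of_mem _ hq)
    · rw [List.mem_singleton] at ha
      rw [ha]
      have := h4.1 (Sum.inr q) (List.mem_map_of_mem hq)
      obtain ⟨a1, a2, a3, a4⟩ := this
      cases ε
      · exact ⟨a1, a2⟩
      · exact ⟨a3, a4⟩

lemma Pre.gli {u : List V} {p : V × V} {l : List (V × V)} (h : Pre G u (p :: l)) (ε : Bool) :
    Gli G (u.map Sum.inl ++ Sum.inl (cw p ε) :: Sum.inr p :: l.map Sum.inr) := by
  obtain ⟨h1, h2, h3⟩ := h
  refine ⟨fun x hx => ?_, ?_⟩
  · rcases List.mem_append.1 hx with hx | hx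
    · obtain ⟨v, _, rfl⟩ := List.mem_map.1 hx
      trivial
    · rcases List.mem_cons.1 hx with rfl | hx
      · trivial
      · exact h3.1 x hx
  · rw [List.pairwise_append, List.pairwise_cons]
    refine ⟨?_, ⟨?_, ?_⟩, ?_⟩
    · rw [List.pairwise_map]
      exact h1
    · intro x hx
      rcases List.mem_cons.1 hx with rfl | hx
      · cases ε
        · exact Or.inl rfl
        · exact Or.inr (Or.inl rfl)
      · obtain ⟨q, hq, rfl⟩ := List.mem_map.1 hx
        have := (List.pairwise_cons.1 h3.2).1 (Sum.inr q) (List.mem_map_of_mem hq)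
        obtain ⟨a1, a2, a3, a4⟩ := this
        cases ε
        · exact Or.inr (Or.inr ⟨a1, a2⟩)
        · exact Or.inr (Or.inr ⟨a3, a4⟩)
    · exact h3.2
    · intro x hx y hy
      obtain ⟨a, ha, rfl⟩ := List.mem_map.1 hx
      rcases List.mem_cons.1 hy with rfl | hy
      · exact adj_cw (h2 a ha p List.mem_cons_self) ε
      · have : ∃ q ∈ p :: l, y = Sum.inr q := by
          rcases List.mem_cons.1 hy with rfl | hy
          · exact ⟨p, List.mem_cons_self, rfl⟩
          · obtain ⟨q, hq, rfl⟩ := List.mem_map.1 hy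
            exact ⟨q, List.mem_cons_of_mem _ hq, rfl⟩
        obtain ⟨q, hq, rfl⟩ := this
        exact Or.inr (Or.inr (h2 a ha q hq))

lemma Hp_zero_of : ∀ (l : List (V × V)) (u : List V) (F : List (V ⊕ V × V) → M), Pre G u l →
    (∀ l', Gli G l' → l'.length = u.length + l.length + 1 → F l' = 0) →
    Hp S l (fun l' => F (u.map Sum.inl ++ l')) = 0
  | [], u, F, _, _ => rfl
  | p :: l, u, F, h, h0 => by
    have e : Hp S (p :: l) (fun l' => F (u.map Sum.inl ++ l')) = ∑ ε : Bool, Ae S p ε
        (F (u.map Sum.inl ++ Sum.inl (cw p ε) :: Sum.inr p :: l.map Sum.inr) -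
      Hp S l fun l' => F (u.map Sum.inl ++ Sum.inl (cw p ε) :: l')) := rfl
    rw [e]
    refine Finset.sum_eq_zero fun ε _ => ?_
    have h1 := Hp_zero_of l (u ++ [cw p ε]) F (h.step ε) fun l' hl' hl => h0 l' hl' (by
      rw [hl]; simp; omega)
    have e2 : (fun l' => F ((u ++ [cw p ε]).map Sum.inl ++ l')) =
        fun l' => F (u.map Sum.inl ++ Sum.inl (cw p ε) :: l') := by
      funext l'
      simp
    rw [e2] at h1
    rw [h1, h0 _ (h.gli ε) (by simp; omega), sub_zero, map_zero]

lemma PL_snoc (r : ℝ) (u : List V) (v : V) (m : M) :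
    PL S r (u ++ [v]) m = PL S r u (Pr S r v m) := by
  induction u with
  | nil => rfl
  | cons x u ih => rw [List.cons_append, PL_cons, PL_cons, ih]

lemma PL_zero' (r : ℝ) (u : List V) : PL S r u (0 : M) = 0 := by
  induction u with
  | nil => rfl
  | cons x u ih => rw [PL_cons, ih, map_zero]

lemma PL_sum' {ι : Type} (r : ℝ) (u : List V) (s : Finset ι) (f : ι → M) :
    PL S r u (∑ i ∈ s, f i) = ∑ i ∈ s, PL S r u (f i) := by
  induction u with
  | nil => rfl
  | cons x u ih =>
    rw [PL_cons, ih, map_sum]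
    rfl

lemma Tp_zero_of (hS : Clf G S) : ∀ (l : List (V × V)) (u : List V) (F : List (V ⊕ V × V) → M),
    Pre G u l → (∀ c : List V, c.Pairwise G.Adj → c.length = u.length + l.length →
      PL S (-1) c (F (c.map Sum.inl)) = 0) →
    PL S (-1) u (Tp S l (fun l' => F (u.map Sum.inl ++ l'))) = 0
  | [], u, F, h, h0 => by
    have := h0 u h.1 (by simp)
    simpa [Tp] using this
  | p :: l, u, F, h, h0 => by
    have e : Tp S (p :: l) (fun l' => F (u.map Sum.inl ++ l')) = ∑ ε : Bool, Ae S p ε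
        (Tp S l fun l' => F (u.map Sum.inl ++ Sum.inl (cw p ε) :: l')) := rfl
    rw [e, PL_sum']
    refine Finset.sum_eq_zero fun ε _ => ?_
    have h1 := Tp_zero_of hS l (u ++ [cw p ε]) F (h.step ε) fun c hc hcl => h0 c hc (by
      rw [hcl]; simp; omega)
    have e2 : (fun l' => F ((u ++ [cw p ε]).map Sum.inl ++ l')) =
        fun l' => F (u.map Sum.inl ++ Sum.inl (cw p ε) :: l') := by
      funext l'
      simp
    rw [e2, PL_snoc] at h1
    rw [Ae_apply, PL_comm_of]
    · have e3 : cv (Sum.inr p) ε = cw p ε := rfl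
      rw [e3, h1, map_zero]
    · intro a ha m
      exact hS.To_S (fun q hq => by
        cases hq
        exact h.2.1 a ha p List.mem_cons_self) ε m

/-- cocycles with vanishing projections are exact on the lists of pairs -/
theorem pairs_exact (hS : Clf G S) {k : ℕ} {F : List (V ⊕ V × V) → M}
    (hF : ∀ l, Gli G l → l.length = k + 1 → dL l F = 0)
    (h0 : ∀ c : List V, c.Pairwise G.Adj → c.length = k → PL S (-1) c (F (c.map Sum.inl)) = 0)
    {l : List (V × V)} (hl : Gli G (l.map Sum.inr)) (hlk : l.length = k) :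
    F (l.map Sum.inr) = dL l fun l' => Hp S l' F := by
  have hpre : Pre G ([] : List V) l := ⟨List.Pairwise.nil, fun a ha => absurd ha (by simp), hl⟩
  have h1 := Hp_zero_of l [] (S := S) (fun l' => dL l' F) hpre fun l' h1 h2 => hF l' h1 (by
    rw [h2]; simp; omega)
  have h2 := Tp_zero_of hS l [] F hpre fun c hc hcl => h0 c hc (by rw [hcl]; simp; omega)
  have h3 := Hp_dL hS l F fun p hp => hl.1 _ (List.mem_map_of_mem hp)
  simp only [List.map_nil, List.nil_append] at h1 h2
  rw [h1] at h3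
  have h4 : Tp S l F = 0 := h2
  rw [h4, sub_zero] at h3
  exact sub_eq_zero.1 h3.symm

end Pool.Agent.K4H70.RT
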