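import Pool.Agent.K4H70.RT.Lift

/-!
Relative cocycles.
-/

set_option autoImplicit false
set_option linter.unusedSectionVars false
set_option linter.unusedVariables false

open scoped Classical

namespace Pool.Agent.K4H70.RT

open Pool.Agent.Q134.SV
open Pool.Agent.K4H70.SV hiding Zst zig_step zig_down zig_start

variable {X : Type} [Fintype X] {Ω : Type} [Fintype Ω] {G : SimpleGraph X} {n : ℕ} {B : Set X}
  {z : (Fin (n + 1) → X) → ℝ}

variable (G B) in
/-- the key property: cocycles with vanishing projections on the boundary are coboundaries -/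
def KeyP (S : X → (Ω → ℝ) →ₗ[ℝ] (Ω → ℝ)) : Prop :=
  ∀ (k : ℕ) (φ : (Fin (k + 1) → X) → Ω → ℝ), Alt φ →
    (∀ s : Fin (k + 2) → X, CT G s → tc (Io (Ω → ℝ)) φ s = 0) →
    (∀ s, CT G s → (∀ i, s i ∈ B) → PF S (-1) (Finset.univ.image s) (φ s) = 0) →
    ∃ ζ : (Fin k → X) → Ω → ℝ, Alt ζ ∧ (∀ s, CT G s → φ s = tc (Io (Ω → ℝ)) ζ s) ∧
      (k = 0 → ζ = 0)

/-- the cap product of a relative cocycle is a cycle -/
lemma cap_cycle (hM : ManifoldPair n G B z) {k : ℕ} {φ : (Fin (k + 2) → X) → Ω → ℝ} (hφ : Alt φ)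
    (hc : ∀ s : Fin (k + 3) → X, CT G s → tc (Io (Ω → ℝ)) φ s = 0)
    (h0 : ∀ s, CT G s → (∀ i, s i ∈ B) → φ s = 0) {l : ℕ} (hl : 1 ≤ l) (y : Fin l → X) :
    ∑ x, ∑ s : Fin (k + 1) → X, ev z (List.ofFn (Fin.cons x y : Fin (l + 1) → X) ++ List.ofFn s) •
      Nj (fun x => x ∉ B) φ s (insert x (Finset.univ.image y)) = 0 := by
  have hz := hM.alt
  set J : X → Prop := fun x => x ∉ B with hJ
  have h0' : ∀ s : Fin (k + 2) → X, CT G s → (∀ i, ¬ J (s i)) → φ s = 0 := by
    intro s hs h
    refine h0 s hs fun i => ?_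
    have := h i
    simp only [hJ, not_not] at this
    exact this
  by_cases hy : CT G y ∧ ∀ i, y i ∉ B
  · have hcq := cq_image hy.1
    set τ := Finset.univ.image y with hτ
    have hne : τ.Nonempty := ⟨y ⟨0, hl⟩, Finset.mem_image_of_mem y (Finset.mem_univ _)⟩
    set K : (Fin (k + 2) → X) → ℝ := fun s => ev z (List.ofFn y ++ List.ofFn s) with hK
    have hKa : Alt K := hz.ev_ofFn _ _
    have hKs : ∀ s, K s ≠ 0 → LT G τ s := by
      intro s hs
      have h1 := List.pairwise_append.1 (pw_ev hM.supp hs)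
      refine ⟨fun i j hij => ?_, fun i u hu => ?_⟩
      · have h2 := h1.2.1
        rw [List.pairwise_ofFn] at h2
        rcases lt_or_gt_of_ne hij with h' | h'
        · exact h2 h'
        · exact (h2 h').symm
      · rw [hτ] at hu
        obtain ⟨j, _, rfl⟩ := Finset.mem_image.1 hu
        exact h1.2.2 _ (List.mem_ofFn.2 ⟨j, rfl⟩) (s i) (List.mem_ofFn.2 ⟨i, rfl⟩)
    have hKc : ∀ s : Fin (k + 1) → X, ∑ x, K (Fin.cons x s) = 0 := by
      have h1 := hM.ev_cycle (t := List.ofFn y) ⟨y ⟨0, hl⟩, List.mem_ofFn.2 ⟨_, rfl⟩, hy.2 _⟩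
        (k + 2)
      exact cons_of_update h1.cyc
    have h1 := congrFun (sum_alt Xo hKa (Nj J φ)) τ
    have h2 := congrFun (sum_alt (Io (Finset X → Ω → ℝ)) hKa (Nj J φ)) τ
    rw [Finset.sum_apply] at h1 h2
    have h3 : ∑ s, (K s • tc Xo (Nj J φ) s) τ =
        ∑ s, (K s • tc (Io (Finset X → Ω → ℝ)) (Nj J φ) s) τ := by
      refine Finset.sum_congr rfl fun s _ => ?_
      by_cases h4 : K s = 0
      · rw [h4, zero_smul, zero_smul]
      · rw [Pi.smul_apply, Pi.smul_apply, nj_ix hφ hc h0' hcq hne (hKs s h4)]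
    rw [h1, h2] at h3
    have h5 : (∑ x : X, ∑ s : Fin (k + 1) → X,
        K (Fin.cons x s) • (Io (Finset X → Ω → ℝ)) x (Nj J φ s)) τ = 0 := by
      rw [Finset.sum_comm, Finset.sum_apply]
      refine Finset.sum_eq_zero fun s _ => ?_
      have : ∑ x, K (Fin.cons x s) • (Io (Finset X → Ω → ℝ)) x (Nj J φ s) =
          (∑ x, K (Fin.cons x s)) • Nj J φ s := by
        rw [Finset.sum_smul]
        rfl
      rw [this, hKc, zero_smul]
      rfl
    rw [Pi.smul_apply, Pi.smul_apply, h5, smul_zero] at h3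
    have h6 : ((k + 1 : ℕ) : ℝ) + 1 ≠ 0 := by positivity
    have h7 := (smul_eq_zero.1 h3).resolve_left h6
    rw [Finset.sum_apply] at h7
    have h8 : ∑ x, ∑ s : Fin (k + 1) → X,
        ev z (List.ofFn (Fin.cons x y : Fin (l + 1) → X) ++ List.ofFn s) •
        Nj J φ s (insert x τ) = (-1 : ℝ) ^ l • ∑ x : X, (∑ s : Fin (k + 1) → X,
        K (Fin.cons x s) • Xo x (Nj J φ s)) τ := by
      rw [Finset.smul_sum]
      refine Finset.sum_congr rfl fun x _ => ?_
      rw [Finset.sum_apply, Finset.smul_sum]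
      refine Finset.sum_congr rfl fun s _ => ?_
      have h9 : K (Fin.cons x s) = (-1 : ℝ) ^ l *
          ev z (List.ofFn (Fin.cons x y : Fin (l + 1) → X) ++ List.ofFn s) := by
        simp only [hK]
        rw [List.ofFn_cons, hz.ev_move, List.length_ofFn, List.ofFn_cons]
        rfl
      rw [h9, Pi.smul_apply, smul_smul, ← mul_assoc, ← mul_pow]
      simp only [neg_mul_neg, mul_one, one_pow, one_mul]
      rfl
    rw [h8, h7, smul_zero]
  · refine Finset.sum_eq_zero fun x _ => Finset.sum_eq_zero fun s _ => ?_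
    by_cases h1 : ev z (List.ofFn (Fin.cons x y : Fin (l + 1) → X) ++ List.ofFn s) = 0
    · rw [h1, zero_smul]
    · have h2 := (List.pairwise_append.1 (pw_ev hM.supp h1)).1
      rw [List.ofFn_cons, List.pairwise_cons, List.pairwise_ofFn] at h2
      have h3 : CT G y := by
        intro i j hij
        rcases lt_or_gt_of_ne hij with h' | h'
        · exact h2.2 h'
        · exact (h2.2 h').symm
      have h4 : ¬ ∀ i, y i ∉ B := fun h => hy ⟨h3, h⟩
      push Not at h4
      obtain ⟨i, hi⟩ := h4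
      have h5 : Nj J φ s (insert x (Finset.univ.image y)) = 0 := by
        refine if_neg fun h => ?_
        exact h.1 (y i) (Finset.mem_insert_of_mem
          (Finset.mem_image_of_mem y (Finset.mem_univ i))) hi
      rw [h5, smul_zero]

/-- relative cocycles are coboundaries of cochains with vanishing projections on the boundary -/
theorem rel_exact (hM : ManifoldPair n G B z) {S : X → (Ω → ℝ) →ₗ[ℝ] (Ω → ℝ)} (hS : Com G S)
    (hs : Sym S) (hSI : ∀ v, v ∉ B → ∀ m, S v m = m) (hkey : KeyP G B (fun v => - S v)) {k : ℕ}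
    {φ : (Fin (k + 2) → X) → Ω → ℝ} (hφ : Alt φ)
    (hc : ∀ s : Fin (k + 3) → X, CT G s → tc (Io (Ω → ℝ)) φ s = 0)
    (h0 : ∀ s, CT G s → (∀ i, s i ∈ B) → φ s = 0) :
    ∃ χ : (Fin (k + 1) → X) → Ω → ℝ, Alt χ ∧
      (∀ s : Fin (k + 2) → X, CT G s → φ s = tc (Io (Ω → ℝ)) χ s) ∧
      ∀ s, CT G s → PF S (-1) (Finset.univ.image s) (χ s) = 0 := by
  refine pd hM hS hs (J := fun x => x ∉ B) hSI hφ hc (fun s hs' h => h0 s hs' fun i => by
    have := h i
    rw [not_not] at this
    exact this) ?_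
  intro l hl ω hω
  cases l with
  | zero =>
    refine Finset.sum_eq_zero fun τ _ => Finset.sum_eq_zero fun s _ => ?_
    have : (ω : (Fin 0 → X) → Ω → ℝ) τ = 0 := by
      by_contra h
      obtain ⟨i, _⟩ := (ω.2.2.1 τ h).2
      exact i.elim0
    rw [this, dt2_comm, dt2_zero, mul_zero]
  | succ l =>
    obtain ⟨ω', hω'a, hω'c, hω'p⟩ := lift_cocycle hM hS hSI ω hω
    obtain ⟨ζ, hζa, hζ, hζ0⟩ := hkey l ω' hω'a hω'c fun s hs' hB => by
      rw [pf_neg, hω'p s hs']
      by_contra h
      obtain ⟨i, hi⟩ := (ω.2.2.1 s h).2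
      exact hi (hB i)
    -- the chain
    set C : (Fin (l + 1) → X) → Ω → ℝ := fun τ => ∑ s : Fin (k + 1) → X,
      ev z (List.ofFn τ ++ List.ofFn s) • Nj (fun x => x ∉ B) φ s (Finset.univ.image τ) with hC
    have hCa : Alt C := by
      intro v i j hij
      simp only [hC]
      rw [image_swap, ← Finset.sum_neg_distrib]
      refine Finset.sum_congr rfl fun s _ => ?_
      have := ev_pre hM.alt (List.ofFn s) v i j hij
      simp only at this
      rw [this, neg_smul]
    have h1 : ∑ τ : Fin (l + 1) → X, ∑ s : Fin (k + 1) → X, ev z (List.ofFn τ ++ List.ofFn s) *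
        dt2 ((ω : (Fin (l + 1) → X) → Ω → ℝ) τ) (Nj (fun x => x ∉ B) φ s
          (Finset.univ.image τ)) = ∑ τ, dt2 (tc (Io (Ω → ℝ)) ζ τ) (C τ) := by
      refine Finset.sum_congr rfl fun τ _ => ?_
      simp only [hC]
      rw [dt2_sum]
      refine Finset.sum_congr rfl fun s _ => ?_
      rw [dt2_smul]
      by_cases h2 : ev z (List.ofFn τ ++ List.ofFn s) = 0
      · rw [h2, zero_mul, zero_mul]
      · by_cases h3 : ∀ i, τ i ∉ B
        · have h4 := (List.pairwise_append.1 (pw_ev hM.supp h2)).1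
          rw [List.pairwise_ofFn] at h4
          have h5 : CT G τ := by
            intro i j hij
            rcases lt_or_gt_of_ne hij with h' | h'
            · exact h4 h'
            · exact (h4 h').symm
          have h6 : (ω : (Fin (l + 1) → X) → Ω → ℝ) τ = ω' τ := by
            rw [← hω'p τ h5]
            refine PF_of (by norm_num) fun v hv => ?_
            obtain ⟨i, _, rfl⟩ := Finset.mem_image.1 hv
            rw [hSI _ (h3 i), one_smul]
          rw [h6, hζ τ h5]
        · push Not at h3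
          obtain ⟨i, hi⟩ := h3
          have h5 : Nj (fun x => x ∉ B) φ s (Finset.univ.image τ) = 0 := by
            refine if_neg fun h => ?_
            exact h.1 (τ i) (Finset.mem_image_of_mem τ (Finset.mem_univ i)) hi
          rw [h5, dt2_zero, dt2_zero]
    rw [h1]
    cases l with
    | zero =>
      refine Finset.sum_eq_zero fun τ _ => ?_
      rw [hζ0 rfl, tc_one]
      simp only [Pi.zero_apply, map_zero]
      rw [dt2_comm, dt2_zero]
    | succ l =>
      have h2 : ∀ o : Ω, ∑ τ, C τ o * (tc (Io (Ω → ℝ)) ζ τ) o =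
          (((l + 1 : ℕ) : ℝ) + 1) * ∑ y, (∑ x, C (Fin.cons x y) o) * ζ y o := by
        intro o
        have h4 := sum_alt (X := X) (fun _ => (LinearMap.id : ℝ →ₗ[ℝ] ℝ))
          (K := fun σ => C σ o) (fun v i j hij => by
            have := congrFun (hCa v i j hij) o
            simpa using this) (fun s => ζ s o)
        simp only [smul_eq_mul, LinearMap.id_coe, id_eq] at h4
        have h5 : ∑ τ, C τ o * (tc (Io (Ω → ℝ)) ζ τ) o =
            ∑ τ, C τ o * tc (fun _ => (LinearMap.id : ℝ →ₗ[ℝ] ℝ)) (fun s => ζ s o) τ := by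
          refine Finset.sum_congr rfl fun τ _ => ?_
          congr 1
          unfold tc
          rw [Finset.sum_apply]
          rfl
        rw [h5, h4, Finset.sum_comm]
        congr 1
        exact Finset.sum_congr rfl fun y _ => by rw [Finset.sum_mul]
      have h3 : ∀ y : Fin (l + 1) → X, ∑ x, C (Fin.cons x y) = 0 := by
        intro y
        rw [← cap_cycle hM hφ hc h0 (l := l + 1) (by omega) y]
        refine Finset.sum_congr rfl fun x _ => ?_
        simp only [hC]
        refine Finset.sum_congr rfl fun s _ => ?_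
        congr 2
        ext v
        simp only [Finset.mem_image, Finset.mem_univ, true_and, Finset.mem_insert]
        constructor
        · rintro ⟨i, rfl⟩
          rcases Fin.eq_zero_or_eq_succ i with rfl | ⟨i, rfl⟩
          · exact Or.inl rfl
          · exact Or.inr ⟨i, rfl⟩
        · rintro (rfl | ⟨i, rfl⟩)
          · exact ⟨0, rfl⟩
          · exact ⟨i.succ, rfl⟩
      unfold dt2
      rw [Finset.sum_comm]
      refine Finset.sum_eq_zero fun o _ => ?_
      have h4 := h2 o
      have h5 : ∀ y : Fin (l + 1) → X, ∑ x, C (Fin.cons x y) o = 0 := by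
        intro y
        have := congrFun (h3 y) o
        rwa [Finset.sum_apply] at this
      simp only [h5, zero_mul, Finset.sum_const_zero, mul_zero] at h4
      rw [← h4]
      exact Finset.sum_congr rfl fun τ _ => mul_comm _ _

end Pool.Agent.K4H70.RT
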