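import Pool.Agent.K4H70.RT.Fch

/-!
The equivariant chain map from the tuples to the finite chains of an acyclic complex.
-/

set_option autoImplicit false
set_option linter.unusedSectionVars false
set_option linter.unusedVariables false

open scoped Classical

namespace Pool.Agent.K4H70.RT

open Pool.Agent.Q134.SV
open Pool.Agent.K4H70.SV

variable {Y : Type} {G : SimpleGraph Y} {k : ℕ}

lemma alt_of_swap : ∀ (k : ℕ) {c : List Y → ℝ},
    (∀ p x y q, c (p ++ x :: y :: q) = - c (p ++ y :: x :: q)) →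
    Alt fun s : Fin k → Y => c (List.ofFn s)
  | 0, c, _ => fun _ i => i.elim0
  | 1, c, _ => fun _ i j hij => absurd (Subsingleton.elim i j) hij
  | k + 2, c, h => by
    refine alt_of ?_ ?_
    · intro v i j hij
      obtain ⟨x, g, rfl⟩ : ∃ x g, v = (Fin.cons x g : Fin (k + 2) → Y) :=
        ⟨v 0, Fin.tail v, (Fin.cons_self_tail v).symm⟩
      rw [cons_swap, List.ofFn_cons, List.ofFn_cons]
      exact alt_of_swap (k + 1) (c := fun l => c (x :: l)) (fun p a b q => h (x :: p) a b q) g i j hij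
    · intro v
      obtain ⟨x, g, rfl⟩ : ∃ x g, v = (Fin.cons x g : Fin (k + 2) → Y) :=
        ⟨v 0, Fin.tail v, (Fin.cons_self_tail v).symm⟩
      obtain ⟨y, w, rfl⟩ : ∃ y w, g = (Fin.cons y w : Fin (k + 1) → Y) :=
        ⟨g 0, Fin.tail g, (Fin.cons_self_tail g).symm⟩
      rw [cons_cons_swap]
      simp only [List.ofFn_cons]
      exact h [] y x (List.ofFn w)

lemma perm_finite (x : List Y) : {y : List Y | y.Perm x}.Finite := by
  refine (List.finite_toSet x.permutations).subset fun y hy => ?_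
  exact List.mem_permutations.2 hy

lemma ofFn_pw {y : Fin k → Y} (h : (List.ofFn y).Pairwise G.Adj) : ∀ i j, i ≠ j → G.Adj (y i) (y j) := by
  rw [List.pairwise_ofFn] at h
  intro i j hij
  rcases lt_or_gt_of_ne hij with h' | h'
  · exact h h'
  · exact (h h').symm

lemma dtl_chain {x : List Y} (hx : x.Pairwise G.Adj) :
    FChain G fun y : Fin k → Y => dtl (List.ofFn y) x := by
  refine ⟨fun v i j hij => alt_of_swap k (c := fun l => dtl l x)
    (fun p a b q => dtl_swap p a b q x) v i j hij, fun v hv => ?_, ?_⟩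
  · refine ofFn_pw ?_
    exact ((dtl_perm hv).symm.pairwise_iff fun h => h.symm).1 hx
  · have h1 : Function.Injective (List.ofFn : (Fin k → Y) → List Y) := List.ofFn_injective
    refine ((perm_finite x).preimage (f := (List.ofFn : (Fin k → Y) → List Y)) h1.injOn).subset
      fun v hv => ?_
    exact dtl_perm hv

lemma fs_tL : ∀ (x : List Y) (F : List Y → ℝ), ∑ᶠ w, tL w x F = dL x F
  | [], F => by simp [tL_nil, dL_nil]
  | x :: l, F => by
    rw [dL_cons, ← fs_tL l]
    have h1 : ∑ᶠ w, (if x = w then F l else 0) = F l := by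
      rw [finsum_eq_single _ x fun w hw => if_neg fun e => hw e.symm, if_pos rfl]
    have h2 : ∀ w, tL w (x :: l) F = (if x = w then F l else 0) - tL w l fun l' => F (x :: l') :=
      fun w => rfl
    rw [finsum_congr h2, finsum_sub_distrib, h1]
    · refine (Set.finite_singleton x).subset fun w hw => ?_
      by_contra h
      exact hw (if_neg fun e => h e.symm)
    · refine (List.finite_toSet l).subset fun w hw => ?_
      obtain ⟨l', _, h⟩ := tL_ne hw
      exact h.symm.subset List.mem_cons_self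

lemma dtl_bd (x : List Y) (v : Fin k → Y) :
    ∑ᶠ w, dtl (List.ofFn (Fin.cons w v : Fin (k + 1) → Y)) x = dL x fun x' => dtl (List.ofFn v) x' := by
  rw [← fs_tL]
  refine finsum_congr fun w => ?_
  rw [List.ofFn_cons, dtl_cons]

variable {P X : Type} [Group P]

/-- the translations -/
def sh (γ : P) (y : P × X) : P × X := (γ * y.1, y.2)

lemma sh_sh (γ δ : P) (y : P × X) : sh γ (sh δ y) = sh (γ * δ) y := by
  simp [sh, mul_assoc]

lemma sh_inj (γ : P) : Function.Injective (sh γ : P × X → P × X) := by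
  intro y y' h
  have h1 := congrArg (sh γ⁻¹) h
  simpa [sh_sh, sh] using h1

/-- the translation as an equivalence -/
def shE (γ : P) : P × X ≃ P × X where
  toFun := sh γ
  invFun := sh γ⁻¹
  left_inv y := by simp [sh]
  right_inv y := by simp [sh]

/-- the group coordinate of the first entry -/
noncomputable def hd : List (P × X) → P
  | [] => 1
  | y :: _ => y.1

lemma hd_map (γ : P) {x : List (P × X)} (hx : x ≠ []) : hd (x.map (sh γ)) = γ * hd x := by
  cases x with
  | nil => exact absurd rfl hx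
  | cons y x => rfl

/-- a level of the chain map -/
structure Lev (Gc : SimpleGraph (P × X)) (k : ℕ) (R : List (P × X) → (Fin k → P × X) → ℝ) :
    Prop where
  ch : ∀ x, x.length = k → FChain Gc (R x)
  eqv : ∀ γ x, x.length = k → ∀ y, R (x.map (sh γ)) (sh γ ∘ y) = R x y
  clq : ∀ x, x.length = k → x.Pairwise Gc.Adj → ∀ y, R x y = dtl (List.ofFn y) x
  cyc : ∀ z, z.length = k + 1 → ∀ (v : Fin k → P × X) (i : Fin k),
    ∑ᶠ w, dL z (fun x => R x (Function.update v i w)) = 0

/-- the translations preserve the adjacency -/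
def ShI (Gc : SimpleGraph (P × X)) : Prop := ∀ γ y y', Gc.Adj (sh γ y) (sh γ y') ↔ Gc.Adj y y'

lemma ShI.chain {Gc : SimpleGraph (P × X)} (h : ShI Gc) (γ : P) {a : (Fin k → P × X) → ℝ}
    (ha : FChain Gc a) : FChain Gc fun y => a (sh γ ∘ y) := by
  refine ⟨fun v i j hij => ha.alt (sh γ ∘ v) i j hij, fun v hv i j hij =>
    (h γ _ _).1 (ha.supp _ hv i j hij), ?_⟩
  have hinj : Function.Injective fun y : Fin k → P × X => sh γ ∘ y :=
    fun y y' e => funext fun i => sh_inj γ (congrFun e i)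
  exact ha.fin.preimage (f := fun y : Fin k → P × X => sh γ ∘ y) hinj.injOn

lemma sub_pw {Gc : SimpleGraph (P × X)} {z x : List (P × X)} (h : z.Pairwise Gc.Adj)
    (hx : x.Sublist z) : x.Pairwise Gc.Adj := h.sublist hx

theorem exists_step {Gc : SimpleGraph (P × X)} (hsh : ShI Gc) (hac : FAcy Gc) (k : ℕ)
    {R : List (P × X) → (Fin k → P × X) → ℝ} (hR : Lev Gc k R) :
    ∃ R' : List (P × X) → (Fin (k + 1) → P × X) → ℝ, Lev Gc (k + 1) R' ∧
      ∀ x, x.length = k + 1 → ∀ v, ∑ᶠ w, R' x (Fin.cons w v) = dL x fun x' => R x' v := by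
  have h1 : ∀ z : List (P × X), ∃ b : (Fin (k + 1) → P × X) → ℝ, z.length = k + 1 →
      (FChain Gc b ∧ (∀ v, ∑ᶠ w, b (Fin.cons w v) = dL z fun x => R x v) ∧
        (z.Pairwise Gc.Adj → ∀ y, b y = dtl (List.ofFn y) z)) := by
    intro z
    by_cases hz : z.length = k + 1
    · by_cases hc : z.Pairwise Gc.Adj
      · refine ⟨fun y => dtl (List.ofFn y) z, fun _ => ⟨dtl_chain hc, fun v => ?_, fun _ _ => rfl⟩⟩
        rw [dtl_bd]
        refine dL_congr' z fun x hx hxl => ?_
        rw [hR.clq x (by omega) (sub_pw hc hx)]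
      · obtain ⟨b, hb, hb'⟩ := hac k (fun v => dL z fun x => R x v)
          (FChain.dL z fun x hx => hR.ch x (by omega)) (fun v i => hR.cyc z hz v i)
        exact ⟨b, fun _ => ⟨hb, fun v => (hb' v).symm, fun h => absurd h hc⟩⟩
    · exact ⟨fun _ => 0, fun h => absurd h hz⟩
  choose b hb using h1
  have hlen : ∀ (γ : P) (x : List (P × X)), (x.map (sh γ)).length = x.length := fun γ x => by simp
  set R' : List (P × X) → (Fin (k + 1) → P × X) → ℝ := fun x y =>
    b (x.map (sh (hd x)⁻¹)) (sh (hd x)⁻¹ ∘ y) with hR'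
  have hbd : ∀ x, x.length = k + 1 → ∀ v, ∑ᶠ w, R' x (Fin.cons w v) = dL x fun x' => R x' v := by
    intro x hx v
    simp only [hR']
    have h2 : ∀ w : P × X, (sh (hd x)⁻¹ ∘ (Fin.cons w v : Fin (k + 1) → P × X)) =
        Fin.cons (sh (hd x)⁻¹ w) (sh (hd x)⁻¹ ∘ v) := by
      intro w
      funext i
      refine Fin.cases ?_ (fun i => ?_) i <;> simp
    simp only [h2]
    have h3 : ∑ᶠ w : P × X, b (x.map (sh (hd x)⁻¹)) (Fin.cons (sh (hd x)⁻¹ w) (sh (hd x)⁻¹ ∘ v)) =
        ∑ᶠ w : P × X, b (x.map (sh (hd x)⁻¹)) (Fin.cons w (sh (hd x)⁻¹ ∘ v)) :=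
      finsum_comp_equiv (shE (hd x)⁻¹)
        (f := fun w => b (x.map (sh (hd x)⁻¹)) (Fin.cons w (sh (hd x)⁻¹ ∘ v)))
    rw [h3, (hb _ ((hlen _ _).trans hx)).2.1, dL_lmap]
    refine dL_congr fun x' hx' => ?_
    rw [hR.eqv _ _ (by omega)]
  refine ⟨R', ⟨fun x hx => ?_, fun γ x hx y => ?_, fun x hx hc y => ?_, fun z hz v i => ?_⟩, hbd⟩
  · exact hsh.chain _ (hb _ ((hlen _ _).trans hx)).1
  · have hne : x ≠ [] := by
      rintro rfl
      simp at hx
    simp only [hR']
    rw [hd_map γ hne, List.map_map]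
    have e : sh (γ * hd x)⁻¹ ∘ sh γ = (sh (hd x)⁻¹ : P × X → P × X) := by
      funext y
      rw [Function.comp_apply, sh_sh]
      congr 1
      group
    rw [e, ← Function.comp_assoc, e]
  · simp only [hR']
    rw [(hb _ ((hlen _ _).trans hx)).2.2, ← List.map_ofFn, dtl_lmap _ (sh_inj _)]
    rw [List.pairwise_map]
    exact hc.imp fun h => (hsh _ _ _).2 h
  · have hch : ∀ x, x.length + 1 = z.length → FChain Gc (R' x) := fun x hx =>
      hsh.chain _ (hb _ ((hlen _ _).trans (by omega))).1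
    have hal := (FChain.dL z hch).alt
    have h3 : ∀ w, dL z (fun x => R' x (Function.update v i w)) = (-1 : ℝ) ^ (i : ℕ) *
        dL z (fun x => R' x (Fin.cons w (v ∘ i.succAbove))) := by
      intro w
      have := Alt.move (F := fun y => dL z fun x => R' x y) (fun v i j hij => hal v i j hij)
        (Function.update v i w) i
      simp only [smul_eq_mul] at this
      rw [this]
      congr 2
      funext x
      congr 1
      congr 1
      · simp
      · funext j
        simp [Fin.succAbove_ne]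
    rw [finsum_congr h3, ← mul_finsum]
    have h4 : ∑ᶠ w, dL z (fun x => R' x (Fin.cons w (v ∘ i.succAbove))) =
        dL z (fun x => ∑ᶠ w, R' x (Fin.cons w (v ∘ i.succAbove))) :=
      (dL_fs z (F := fun x w => R' x (Fin.cons w (v ∘ i.succAbove)))
        fun x hx => fin_cons (hch x hx).fin _).symm
    rw [h4, dL_congr (F' := fun x => dL x fun x' => R x' (v ∘ i.succAbove)) fun x hx =>
      hbd x (by omega) _, dL_dL, mul_zero]

lemma lev_zero (Gc : SimpleGraph (P × X)) : Lev Gc 0 (fun _ _ => 1) := by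
  refine ⟨fun x _ => ⟨fun v i => i.elim0, fun v _ i => i.elim0, Set.toFinite _⟩, fun _ _ _ _ => rfl,
    fun x hx _ y => ?_, fun z _ v i => i.elim0⟩
  rw [List.length_eq_zero_iff] at hx
  rw [hx, List.ofFn_zero]
  simp [dtl]

/-- the chain map -/
theorem exists_R {Gc : SimpleGraph (P × X)} (hsh : ShI Gc) (hac : FAcy Gc) :
    ∃ R : ∀ k, List (P × X) → (Fin k → P × X) → ℝ, (∀ k, Lev Gc k (R k)) ∧ R 0 = (fun _ _ => 1) ∧
      ∀ k x, x.length = k + 1 → ∀ v, ∑ᶠ w, R (k + 1) x (Fin.cons w v) =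
        dL x fun x' => R k x' v := by
  let RS : ∀ k, {R : List (P × X) → (Fin k → P × X) → ℝ // Lev Gc k R} := fun k =>
    Nat.rec ⟨fun _ _ => 1, lev_zero Gc⟩ (fun k R => ⟨(exists_step hsh hac k R.2).choose,
      (exists_step hsh hac k R.2).choose_spec.1⟩) k
  exact ⟨fun k => (RS k).1, fun k => (RS k).2, rfl,
    fun k => (exists_step hsh hac k (RS k).2).choose_spec.2⟩

end Pool.Agent.K4H70.RT
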