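import Pool.Agent.K4H70.RT.Wt

/-!
Iterated prisms.
-/

set_option autoImplicit false
set_option linter.unusedSectionVars false
set_option linter.unusedVariables false

open scoped Classical

namespace Pool.Agent.K4H70.RT

variable {Γ Λ Y V : Type} [Group Γ] [Group Λ]

/-- the dual of the prism operator of a translation -/
def Ps (s : Γ) : List Γ → (List Γ → ℝ) → ℝ
  | [], _ => 0
  | y :: l, B => B (y :: (s * y) :: l.map (s * ·)) - Ps s l fun l' => B (y :: l')

lemma Ps_nil (s : Γ) (B : List Γ → ℝ) : Ps s [] B = 0 := rfl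

lemma Ps_cons (s y : Γ) (l : List Γ) (B : List Γ → ℝ) : Ps s (y :: l) B =
    B (y :: (s * y) :: l.map (s * ·)) - Ps s l fun l' => B (y :: l') := rfl

lemma Ps_sub (s : Γ) : ∀ (l : List Γ) (B B' : List Γ → ℝ),
    Ps s l (fun l => B l - B' l) = Ps s l B - Ps s l B'
  | [], B, B' => by simp [Ps]
  | y :: l, B, B' => by
    rw [Ps_cons, Ps_cons, Ps_cons, Ps_sub s l]
    ring

lemma Ps_mul_left (s : Γ) (r : ℝ) : ∀ (l : List Γ) (B : List Γ → ℝ),
    Ps s l (fun l => r * B l) = r * Ps s l B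
  | [], B => by simp [Ps]
  | y :: l, B => by
    rw [Ps_cons, Ps_cons, Ps_mul_left s r l]
    ring

lemma Ps_zero (s : Γ) (l : List Γ) : Ps s l (fun _ => 0) = 0 := by
  have := Ps_mul_left s 0 l (fun _ => 0)
  simpa using this

theorem Ps_dL (s : Γ) : ∀ (l : List Γ) (B : List Γ → ℝ),
    Ps s l (fun l' => dL l' B) = B (l.map (s * ·)) - B l - dL l (fun l' => Ps s l' B)
  | [], B => by simp [Ps, dL_nil]
  | y :: l, B => by
    have h1 : Ps s (y :: l) (fun l' => dL l' B) = dL (y :: (s * y) :: l.map (s * ·)) B -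
        Ps s l (fun l' => B l' - dL l' fun l'' => B (y :: l'')) := rfl
    have h2 : dL l (fun l' => Ps s (y :: l') B) =
        dL (l.map (s * ·)) (fun l' => B (y :: (s * y) :: l')) -
          dL l (fun l' => Ps s l' fun l'' => B (y :: l'')) := by
      have e : (fun l' => Ps s (y :: l') B) = fun l' => B (y :: (s * y) :: l'.map (s * ·)) -
        Ps s l' fun l'' => B (y :: l'') := rfl
      rw [e, dL_sub, dL_lmap]
    rw [h1, Ps_sub, Ps_dL s l, dL_cons, dL_cons, dL_cons, h2, List.map_cons]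
    ring

lemma Ps_conj (t s : Γ) : ∀ (l : List Γ) (B : List Γ → ℝ),
    Ps (t * s * t⁻¹) (l.map (t * ·)) B = Ps s l (fun l' => B (l'.map (t * ·)))
  | [], B => rfl
  | y :: l, B => by
    rw [List.map_cons, Ps_cons, Ps_cons, Ps_conj t s l]
    have e1 : t * s * t⁻¹ * (t * y) = t * (s * y) := by group
    have e2 : (l.map (t * ·)).map (t * s * t⁻¹ * ·) = (l.map (s * ·)).map (t * ·) := by
      rw [List.map_map, List.map_map]
      refine List.map_congr_left fun z _ => ?_
      simp only [Function.comp_apply]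
      group
    rw [e1, e2]
    rfl

lemma Ps_comm {t s : Γ} (h : t * s = s * t) (l : List Γ) (B : List Γ → ℝ) :
    Ps s (l.map (t * ·)) B = Ps s l (fun l' => B (l'.map (t * ·))) := by
  rw [← Ps_conj]
  congr 1
  rw [h, mul_inv_cancel_right]

lemma Ps_deg (s : Γ) : ∀ (p : List Γ) {C : List Γ → ℝ} (hC : ∀ p y q, C (p ++ y :: y :: q) = 0)
    (y : Γ) (q : List Γ), Ps s (p ++ y :: y :: q) C = 0
  | [], C, hC, y, q => by
    rw [List.nil_append, Ps_cons, Ps_cons, List.map_cons]
    have h1 : C (y :: (s * y) :: (s * y) :: q.map (s * ·)) = 0 := hC [y] (s * y) _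
    have h2 : C (y :: y :: (s * y) :: q.map (s * ·)) = 0 := hC [] y _
    have h3 : (fun l' => C (y :: y :: l')) = fun _ => 0 := funext fun l' => hC [] y l'
    rw [h1, h2, h3, Ps_zero]
    ring
  | a :: p, C, hC, y, q => by
    rw [List.cons_append, Ps_cons, Ps_deg s p (fun p y q => hC (a :: p) y q)]
    have : C (a :: (s * a) :: (p ++ y :: y :: q).map (s * ·)) = 0 := by
      rw [List.map_append]
      exact hC (a :: (s * a) :: p.map (s * ·)) (s * y) (q.map (s * ·))
    rw [this, sub_zero]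

lemma Ps_hom (θ : Γ →* Λ) (s : Γ) : ∀ (l : List Γ) (C : List Λ → ℝ),
    Ps s l (fun l' => C (l'.map θ)) = Ps (θ s) (l.map θ) C
  | [], C => rfl
  | y :: l, C => by
    rw [List.map_cons, Ps_cons, Ps_cons, ← Ps_hom θ s l]
    congr 1
    congr 1
    simp only [List.map_cons, map_mul, List.map_map]
    congr 2
    refine List.map_congr_left fun z _ => ?_
    simp

/-! ### The iterated prisms -/

variable (sg pt : Y → Γ)

/-- iterated prisms over the remaining points -/
def EE : ℕ → List Y → (List Γ → ℝ) → ℝ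
  | 0, l, B => B (l.map pt)
  | _ + 1, [], _ => 0
  | k + 1, y :: l, B => EE k l fun l' => Ps (sg y) l' B

/-- iterated prisms over the last of the first points and the remaining ones -/
def EF : ℕ → List Y → (List Γ → ℝ) → ℝ
  | 0, [], _ => 0
  | 0, y :: l, C => Ps (sg y) (pt y :: l.map pt) C
  | _ + 1, [], _ => 0
  | k + 1, y :: l, C => EF k l fun l' => Ps (sg y) l' C

variable {sg pt}

lemma EF_sub : ∀ (k : ℕ) (l : List Y) (C C' : List Γ → ℝ),
    EF sg pt k l (fun l => C l - C' l) = EF sg pt k l C - EF sg pt k l C'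
  | 0, [], C, C' => by simp [EF]
  | 0, y :: l, C, C' => by simp only [EF]; rw [Ps_sub]
  | k + 1, [], C, C' => by simp [EF]
  | k + 1, y :: l, C, C' => by
    simp only [EF, Ps_sub]
    exact EF_sub k l _ _

lemma EF_mul : ∀ (k : ℕ) (r : ℝ) (l : List Y) (C : List Γ → ℝ),
    EF sg pt k l (fun l => r * C l) = r * EF sg pt k l C
  | 0, r, [], C => by simp [EF]
  | 0, r, y :: l, C => by simp only [EF]; rw [Ps_mul_left]
  | k + 1, r, [], C => by simp [EF]
  | k + 1, r, y :: l, C => by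
    simp only [EF, Ps_mul_left]
    exact EF_mul k r l _

/-- sums over the erasures -/
def er : List Y → (ℕ → List Y → ℝ) → ℝ
  | [], _ => 0
  | y :: l, Z => Z 0 l + er l fun j l' => Z (j + 1) (y :: l')

lemma er_neg : ∀ (l : List Y) (Z : ℕ → List Y → ℝ), er l (fun j l' => - Z j l') = - er l Z
  | [], Z => by simp [er]
  | y :: l, Z => by
    simp only [er]
    rw [er_neg l]
    ring

lemma er_dL : ∀ (l : List Y) (F : List Y → ℝ), er l (fun j l' => (-1 : ℝ) ^ j * F l') = dL l F
  | [], F => rfl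
  | y :: l, F => by
    rw [dL_cons, ← er_dL l]
    simp only [er, pow_zero, one_mul]
    have : (fun (j : ℕ) (l' : List Y) => (-1 : ℝ) ^ (j + 1) * F (y :: l')) =
        fun j l' => - ((-1 : ℝ) ^ j * F (y :: l')) := by
      funext j l'
      ring
    rw [this, er_neg]
    ring

variable (sg pt) in
/-- the remainder -/
noncomputable def RZ : ℕ → (List Γ → ℝ) → ℕ → List Y → ℝ
  | 0, _, 0, _ => 0
  | 0, _, _ + 1, [] => 0
  | 0, B, j + 1, y :: l' => (-1 : ℝ) ^ j * Ps (sg y) (pt y :: l'.map pt) B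
  | k + 1, B, 0, l => - (2 * EF sg pt k l B)
  | _ + 1, _, _ + 1, [] => 0
  | k + 1, B, j + 1, y :: l' => - RZ k (fun l => Ps (sg y) l B) j l'

theorem EF_dL : ∀ (k : ℕ) (l : List Y) (B : List Γ → ℝ), k + 1 ≤ l.length →
    (∀ y ∈ l, ∀ l', B (l'.map (sg y * ·)) = - B l') →
    (l.Pairwise fun y y' => sg y * sg y' = sg y' * sg y) →
    EF sg pt k l (fun l' => dL l' B) =
      (-1 : ℝ) ^ (k + 1) * (2 * EE sg pt k l B + EE sg pt (k + 1) l B) + er l (RZ sg pt k B)
  | 0, [], B, h, _, _ => by simp at h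
  | 0, y :: l, B, h, hB, hc => by
    have h1 : (fun (j : ℕ) (l' : List Y) => RZ sg pt 0 B (j + 1) (y :: l')) =
        fun j l' => (-1 : ℝ) ^ j * (fun l' : List Y => Ps (sg y) (pt y :: l'.map pt) B) l' := rfl
    have h2 : RZ sg pt 0 B 0 l = 0 := by simp [RZ]
    simp only [EF, EE, er]
    rw [h1, er_dL, h2, Ps_dL, hB y List.mem_cons_self, dL_cons, dL_lmap, List.map_cons]
    ring
  | k + 1, [], B, h, _, _ => by simp at h
  | k + 1, y :: l, B, h, hB, hc => by
    rw [List.pairwise_cons] at hc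
    have h1 : ∀ l', Ps (sg y) l' (fun l'' => dL l'' B) =
        (-2 : ℝ) * B l' - dL l' (fun l'' => Ps (sg y) l'' B) := by
      intro l'
      rw [Ps_dL, hB y List.mem_cons_self]
      ring
    have h2 : (fun (j : ℕ) (l' : List Y) => RZ sg pt (k + 1) B (j + 1) (y :: l')) =
        fun j l' => - RZ sg pt k (fun l => Ps (sg y) l B) j l' := by
      funext j l'
      simp [RZ]
    have h3 : RZ sg pt (k + 1) B 0 l = - (2 * EF sg pt k l B) := by simp [RZ]
    have h4 := EF_dL k l (fun l => Ps (sg y) l B) (by simpa using h) (fun y' hy' l' => by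
      rw [Ps_comm (hc.1 y' hy').symm]
      have : (fun l'' => B (l''.map (sg y' * ·))) = fun l'' => (-1 : ℝ) * B l'' := by
        funext l''
        rw [hB y' (List.mem_cons_of_mem _ hy')]
        ring
      rw [this, Ps_mul_left]
      ring) hc.2
    simp only [EF, EE, er]
    rw [h2, er_neg, h3]
    simp only [h1]
    rw [EF_sub, EF_mul, h4]
    ring

/-! ### Equivariance -/

section

variable {P : Type} [Group P] {σ : P → Y → Y} {pp : P → Γ}
  (hpt : ∀ γ y, pt (σ γ y) = pp γ * pt y) (hsg : ∀ γ y, sg (σ γ y) = pp γ * sg y * (pp γ)⁻¹)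

include hpt hsg

lemma map_pt (γ : P) (l : List Y) : (l.map (σ γ)).map pt = (l.map pt).map (pp γ * ·) := by
  rw [List.map_map, List.map_map]
  exact List.map_congr_left fun y _ => hpt γ y

lemma EF_map : ∀ (k : ℕ) (γ : P) (l : List Y) (C : List Γ → ℝ),
    EF sg pt k (l.map (σ γ)) C = EF sg pt k l (fun l' => C (l'.map (pp γ * ·)))
  | 0, γ, [], C => by simp [EF]
  | 0, γ, y :: l, C => by
    simp only [EF, List.map_cons]
    have e : pt (σ γ y) :: (l.map (σ γ)).map pt = (pt y :: l.map pt).map (pp γ * ·) := by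
      rw [List.map_cons, hpt, map_pt hpt hsg]
    rw [e, hsg, Ps_conj]
  | k + 1, γ, [], C => by simp [EF]
  | k + 1, γ, y :: l, C => by
    simp only [EF, List.map_cons]
    rw [EF_map k γ l]
    simp only [hsg, Ps_conj]

lemma RZ_map : ∀ (k : ℕ) (γ : P) (j : ℕ) (l : List Y) (B : List Γ → ℝ),
    RZ sg pt k B j (l.map (σ γ)) = RZ sg pt k (fun l' => B (l'.map (pp γ * ·))) j l
  | 0, γ, 0, l, B => by simp [RZ]
  | 0, γ, j + 1, [], B => by simp [RZ]
  | 0, γ, j + 1, y :: l, B => by
    simp only [RZ, List.map_cons]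
    have e : pt (σ γ y) :: (l.map (σ γ)).map pt = (pt y :: l.map pt).map (pp γ * ·) := by
      rw [List.map_cons, hpt, map_pt hpt hsg]
    rw [e, hsg, Ps_conj]
  | k + 1, γ, 0, l, B => by
    simp only [RZ]
    rw [EF_map hpt hsg]
  | k + 1, γ, j + 1, [], B => by simp [RZ]
  | k + 1, γ, j + 1, y :: l, B => by
    simp only [RZ, List.map_cons]
    rw [RZ_map k γ j l]
    simp only [hsg, Ps_conj]

end

lemma EF_hom (θ : Γ →* Λ) : ∀ (k : ℕ) (l : List Y) (C : List Λ → ℝ),
    EF sg pt k l (fun l' => C (l'.map θ)) = EF (θ ∘ sg) (θ ∘ pt) k l C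
  | 0, [], C => rfl
  | 0, y :: l, C => by
    simp only [EF]
    rw [Ps_hom, List.map_cons, List.map_map]
    rfl
  | k + 1, [], C => rfl
  | k + 1, y :: l, C => by
    simp only [EF, Ps_hom]
    exact EF_hom θ k l fun l' => Ps (θ (sg y)) l' C

lemma EF_deg {a : Γ} : ∀ (k : ℕ) (l : List Y) {C : List Γ → ℝ}
    (hC : ∀ p y q, C (p ++ y :: y :: q) = 0), k + 2 ≤ l.length → (∀ y, pt y = a) →
    EF sg pt k l C = 0
  | 0, [], C, hC, h, _ => by simp at h
  | 0, [y], C, hC, h, _ => by simp at h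
  | 0, y :: y' :: l, C, hC, h, hpt => by
    simp only [EF, List.map_cons]
    rw [hpt, hpt]
    exact Ps_deg (sg y) [] hC _ _
  | k + 1, [], C, hC, h, _ => by simp at h
  | k + 1, y :: l, C, hC, h, hpt => by
    simp only [EF]
    exact EF_deg k l (fun p y' q => Ps_deg _ p hC y' q) (by simpa using h) hpt

end Pool.Agent.K4H70.RT
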