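import Pool.Agent.K4H70.RT.Prism

/-!
The weights of the label lists, and the vanishing of a pairing.
-/

set_option autoImplicit false
set_option linter.unusedSectionVars false
set_option linter.unusedVariables false

open scoped Classical

namespace Pool.Agent.K4H70.RT

open Pool.Agent.Q134.SV
open Pool.Agent.K4H70.SV

variable {L V M : Type} [AddCommGroup M] [Module ℝ M]

/-- the sum over all insertions -/
def iS (x : L) : List L → (List L → ℝ) → ℝ
  | [], W => W [x]
  | y :: l, W => W (x :: y :: l) + iS x l fun l' => W (y :: l')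

lemma sum_ofFn_succ [Fintype L] {m : ℕ} (f : List L → M) :
    ∑ s : Fin (m + 1) → L, f (List.ofFn s) = ∑ x, ∑ s : Fin m → L, f (x :: List.ofFn s) := by
  rw [← Equiv.sum_comp (Fin.consEquiv fun _ : Fin (m + 1) => L), Fintype.sum_prod_type]
  refine Finset.sum_congr rfl fun x _ => Finset.sum_congr rfl fun s _ => ?_
  congr 1
  change List.ofFn (Fin.cons x s : Fin (m + 1) → L) = _
  rw [List.ofFn_cons]

/-- integration by parts with weights -/
theorem sum_wt [Fintype L] : ∀ (m : ℕ) (W B : List L → ℝ) (g : List L → M),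
    (∀ p x y q, B (p ++ x :: y :: q) = - B (p ++ y :: x :: q)) →
    ∑ s : Fin (m + 1) → L, (W (List.ofFn s) * B (List.ofFn s)) • dL (List.ofFn s) g =
      ∑ s : Fin m → L, (∑ x, B (x :: List.ofFn s) * iS x (List.ofFn s) W) • g (List.ofFn s)
  | 0, W, B, g, hB => by
    rw [sum_ofFn_succ (fun l => (W l * B l) • dL l g)]
    simp only [Finset.univ_unique, Finset.sum_singleton, List.ofFn_zero, dL_cons, dL_nil, sub_zero,
      iS]
    rw [Finset.sum_smul]
    exact Finset.sum_congr rfl fun x _ => by rw [mul_comm]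
  | m + 1, W, B, g, hB => by
    rw [sum_ofFn_succ (fun l => (W l * B l) • dL l g),
      sum_ofFn_succ (fun l => (∑ x, B (x :: l) * iS x l W) • g l)]
    have h2 : ∀ y, ∑ s : Fin (m + 1) → L, (W (y :: List.ofFn s) * B (y :: List.ofFn s)) •
        dL (y :: List.ofFn s) g = (∑ s : Fin (m + 1) → L,
          (W (y :: List.ofFn s) * B (y :: List.ofFn s)) • g (List.ofFn s)) -
        ∑ s : Fin m → L, (∑ x, B (y :: x :: List.ofFn s) *
          iS x (List.ofFn s) fun l => W (y :: l)) • g (y :: List.ofFn s) := by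
      intro y
      rw [← sum_wt m (fun l => W (y :: l)) (fun l => B (y :: l)) (fun l => g (y :: l))
        fun p a b q => hB (y :: p) a b q, ← Finset.sum_sub_distrib]
      exact Finset.sum_congr rfl fun s _ => by rw [dL_cons, smul_sub]
    have h3 : ∀ y, ∑ s : Fin m → L, (∑ x, B (x :: y :: List.ofFn s) *
          iS x (y :: List.ofFn s) W) • g (y :: List.ofFn s) =
        (∑ s : Fin m → L, (∑ x, W (x :: y :: List.ofFn s) * B (x :: y :: List.ofFn s)) •
          g (y :: List.ofFn s)) -
        ∑ s : Fin m → L, (∑ x, B (y :: x :: List.ofFn s) *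
          iS x (List.ofFn s) fun l => W (y :: l)) • g (y :: List.ofFn s) := by
      intro y
      rw [← Finset.sum_sub_distrib]
      refine Finset.sum_congr rfl fun s _ => ?_
      rw [← sub_smul, ← Finset.sum_sub_distrib]
      congr 1
      refine Finset.sum_congr rfl fun x _ => ?_
      have h4 := hB [] x y (List.ofFn s)
      simp only [List.nil_append] at h4
      have h5 : B (y :: x :: List.ofFn s) = - B (x :: y :: List.ofFn s) := by rw [h4, neg_neg]
      rw [h5]
      simp only [iS]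
      ring
    rw [Finset.sum_congr rfl fun y _ => h2 y, Finset.sum_congr rfl fun y _ => h3 y,
      Finset.sum_sub_distrib, Finset.sum_sub_distrib]
    congr 1
    rw [← sum_ofFn_succ (fun l => (∑ x, W (x :: l) * B (x :: l)) • g l), Finset.sum_comm]
    exact Finset.sum_congr rfl fun s _ => by rw [Finset.sum_smul]

/-- the weights -/
noncomputable def wt : ℕ → ℕ → List (V ⊕ V × V) → ℝ
  | i, j, [] => 1 / ((i.factorial : ℝ) * (j.factorial : ℝ))
  | i, j, Sum.inl _ :: l => if j = 0 then wt (i + 1) 0 l else 0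
  | i, j, Sum.inr _ :: l => wt i (j + 1) l

lemma wt_nil (i j : ℕ) : wt i j ([] : List (V ⊕ V × V)) =
    1 / ((i.factorial : ℝ) * (j.factorial : ℝ)) := rfl

lemma wt_inl (i j : ℕ) (v : V) (l : List (V ⊕ V × V)) :
    wt i j (Sum.inl v :: l) = if j = 0 then wt (i + 1) 0 l else 0 := rfl

lemma wt_inl0 (i : ℕ) (v : V) (l : List (V ⊕ V × V)) :
    wt i 0 (Sum.inl v :: l) = wt (i + 1) 0 l := rfl

lemma wt_inl1 (i j : ℕ) (v : V) (l : List (V ⊕ V × V)) :
    wt i (j + 1) (Sum.inl v :: l) = 0 := rfl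

lemma wt_inr (i j : ℕ) (p : V × V) (l : List (V ⊕ V × V)) :
    wt i j (Sum.inr p :: l) = wt i (j + 1) l := rfl

lemma fac_succ (i : ℕ) : ((i + 1).factorial : ℝ) = (i + 1 : ℝ) * (i.factorial : ℝ) := by
  rw [Nat.factorial_succ]
  push_cast
  ring

lemma wt_shift : ∀ (l : List (V ⊕ V × V)) (i j : ℕ),
    wt i (j + 1) l = (i + 1 : ℝ) * wt (i + 1) (j + 1) l
  | [], i, j => by
    rw [wt_nil, wt_nil, fac_succ i]
    have h1 : (i.factorial : ℝ) ≠ 0 := by positivity
    have h2 : ((j + 1).factorial : ℝ) ≠ 0 := by positivity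
    have h3 : (i + 1 : ℝ) ≠ 0 := by positivity
    field_simp
  | Sum.inl v :: l, i, j => by rw [wt_inl1, wt_inl1, mul_zero]
  | Sum.inr p :: l, i, j => by rw [wt_inr, wt_inr, wt_shift l]

lemma iS_zero {x : L} : ∀ (l : List L), iS x l (fun _ => 0) = 0
  | [] => rfl
  | y :: l => by simp [iS, iS_zero l]

lemma iS_inl1 (v : V) : ∀ (l : List (V ⊕ V × V)) (i j : ℕ), iS (Sum.inl v) l (wt i (j + 1)) = 0
  | [], i, j => rfl
  | Sum.inl u :: l, i, j => by
    simp only [iS, wt_inl1]
    rw [iS_zero, add_zero]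
  | Sum.inr p :: l, i, j => by
    simp only [iS, wt_inl1, wt_inr, zero_add]
    exact iS_inl1 v l i (j + 1)

lemma iS_inl (v : V) : ∀ (l : List (V ⊕ V × V)) (i : ℕ),
    iS (Sum.inl v) l (wt i 0) = wt i 0 l - (i : ℝ) * wt (i + 1) 0 l
  | [], i => by
    simp only [iS, wt_inl0, wt_nil]
    rw [fac_succ i]
    have h1 : (i.factorial : ℝ) ≠ 0 := by positivity
    have h3 : (i + 1 : ℝ) ≠ 0 := by positivity
    simp
    field_simp
    ring
  | Sum.inl u :: l, i => by
    simp only [iS, wt_inl0]
    have := iS_inl v l (i + 1)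
    push_cast at this
    have e : (fun l' => wt (i + 1) 0 l') = (wt (i + 1) 0 : List (V ⊕ V × V) → ℝ) := rfl
    rw [this]
    ring
  | Sum.inr p :: l, i => by
    simp only [iS, wt_inl0, wt_inr]
    have := iS_inl1 v l i 0
    rw [zero_add] at this ⊢
    rw [this, wt_shift l i 0, add_zero]
    ring

lemma iS_inr (p : V × V) : ∀ (l : List (V ⊕ V × V)) (i j : ℕ),
    iS (Sum.inr p) l (wt i j) = wt i j l - (j : ℝ) * wt i (j + 1) l
  | [], i, j => by
    simp only [iS, wt_inr, wt_nil]
    rw [fac_succ j]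
    have h1 : (i.factorial : ℝ) ≠ 0 := by positivity
    have h2 : (j.factorial : ℝ) ≠ 0 := by positivity
    have h3 : (j + 1 : ℝ) ≠ 0 := by positivity
    field_simp
    ring
  | Sum.inl u :: l, i, j => by
    rcases Nat.eq_zero_or_pos j with rfl | hj
    · simp only [iS, wt_inr, wt_inl0, wt_inl1]
      rw [iS_inr p l]
      simp
    · obtain ⟨j, rfl⟩ : ∃ k, j = k + 1 := ⟨j - 1, by omega⟩
      simp only [iS, wt_inr, wt_inl1, iS_zero]
      ring
  | Sum.inr q :: l, i, j => by
    simp only [iS, wt_inr]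
    rw [iS_inr p l]
    push_cast
    ring

lemma iS_wt (x : V ⊕ V × V) (l : List (V ⊕ V × V)) : iS x l (wt 0 0) = wt 0 0 l := by
  rcases x with v | p
  · rw [iS_inl]; simp
  · rw [iS_inr]; simp

lemma wt_map_inl : ∀ (l : List V) (i : ℕ),
    wt i 0 (l.map Sum.inl) = 1 / (((i + l.length).factorial : ℕ) : ℝ)
  | [], i => by simp [wt_nil]
  | v :: l, i => by
    have e : i + 1 + l.length = i + (v :: l).length := by rw [List.length_cons]; omega
    rw [List.map_cons, wt_inl0, wt_map_inl l, e]

lemma wt_ne1 : ∀ {l : List (V ⊕ V × V)} {i j : ℕ}, wt i (j + 1) l ≠ 0 →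
    ∃ q : List (V × V), l = q.map Sum.inr
  | [], i, j, _ => ⟨[], rfl⟩
  | Sum.inl v :: l, i, j, h => absurd rfl h
  | Sum.inr p :: l, i, j, h => by
    obtain ⟨q, hq⟩ := wt_ne1 (l := l) (i := i) (j := j + 1) h
    exact ⟨p :: q, by rw [List.map_cons, hq]⟩

lemma wt_ne : ∀ {l : List (V ⊕ V × V)} {i : ℕ}, wt i 0 l ≠ 0 →
    ∃ (u : List V) (q : List (V × V)), l = u.map Sum.inl ++ q.map Sum.inr
  | [], i, _ => ⟨[], [], rfl⟩
  | Sum.inl v :: l, i, h => by
    obtain ⟨u, q, hq⟩ := wt_ne (l := l) (i := i + 1) h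
    exact ⟨v :: u, q, by rw [List.map_cons, List.cons_append, hq]⟩
  | Sum.inr p :: l, i, h => by
    obtain ⟨q, hq⟩ := wt_ne1 (l := l) (i := i) (j := 0) h
    exact ⟨[], p :: q, by rw [List.map_cons, hq]; rfl⟩

/-! ### The pairing -/

variable {G : SimpleGraph V} {S : V → M →ₗ[ℝ] M}

variable (S) in
/-- the primitive on the lists of pairs -/
noncomputable def psi (F : List (V ⊕ V × V) → M) (l : List (V ⊕ V × V)) : M :=
  if h : ∃ q : List (V × V), l = q.map Sum.inr then Hp S h.choose F else 0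

lemma psi_map (F : List (V ⊕ V × V) → M) (q : List (V × V)) :
    psi S F (q.map Sum.inr) = Hp S q F := by
  unfold psi
  have h : ∃ q' : List (V × V), q.map Sum.inr = (q'.map Sum.inr : List (V ⊕ V × V)) := ⟨q, rfl⟩
  rw [dif_pos h]
  have e : q = h.choose := (List.map_injective_iff.2 Sum.inr_injective) h.choose_spec
  rw [← e]

lemma dL_psi (F : List (V ⊕ V × V) → M) (q : List (V × V)) :
    dL (q.map Sum.inr) (psi S F) = dL q fun q' => Hp S q' F := by
  rw [dL_lmap]
  congr 1
  funext q'
  exact psi_map F q'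

lemma Gli.sub {l l' : List (V ⊕ V × V)} (h : Gli G l) (hs : l'.Sublist l) : Gli G l' :=
  ⟨fun x hx => h.1 x (hs.subset hx), h.2.sublist hs⟩

lemma gli_inl {c : List V} (h : Gli G (c.map Sum.inl)) : c.Pairwise G.Adj := by
  have := h.2
  rw [List.pairwise_map] at this
  exact this

lemma take_drop_cases {l : List (V ⊕ V × V)} {p : ℕ} (hl : p + 1 ≤ l.length)
    {u : List V} {q : List (V × V)} (h : l = u.map Sum.inl ++ q.map Sum.inr) :
    (∃ c : List V, l.take (p + 1) = c.map Sum.inl ∧ c.length = p + 1) ∨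
      ∃ q' : List (V × V), l.drop p = q'.map Sum.inr := by
  subst h
  by_cases hu : p + 1 ≤ u.length
  · refine Or.inl ⟨u.take (p + 1), ?_, ?_⟩
    · rw [List.take_append_of_le_length (by simpa using hu), List.map_take]
    · rw [List.length_take]; omega
  · refine Or.inr ⟨q.drop (p - u.length), ?_⟩
    rw [List.drop_append, List.drop_eq_nil_of_le (by simp; omega), List.nil_append, List.map_drop]
    simp

variable [Fintype V]

/-- the pairing with the chain of labels vanishes -/
theorem pair_zero (hS : Clf G S) {n p k : ℕ} (hpk : p + k = n)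
    {Bc : (Fin (n + 1) → V ⊕ V × V) → ℝ} (hB : Alt Bc) (hB' : ∀ v, Bc v ≠ 0 → GT G v)
    {zt : (Fin n → V) → ℝ} (hzt : ∀ v, zt v ≠ 0 → ∀ i j, i ≠ j → G.Adj (v i) (v j))
    (hzB : ∀ y, ∑ x, Bc (Fin.cons x y) = zh zt y)
    {A : List (V ⊕ V × V) → ℝ} {F : List (V ⊕ V × V) → M}
    (hA : ∀ l, Gli G l → l.length = p + 2 → dL l A = 0)
    (hA0 : ∀ c : List V, c.Pairwise G.Adj → c.length = p + 1 → A (c.map Sum.inl) = 0)
    (hF : ∀ l, Gli G l → l.length = k + 2 → dL l F = 0)
    (hF0 : ∀ c : List V, c.Pairwise G.Adj → c.length = k + 1 →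
      PL S (-1) c (F (c.map Sum.inl)) = 0) :
    ∑ μ : Fin (n + 1) → V ⊕ V × V, (wt 0 0 (List.ofFn μ) * Bc μ) • cup p (List.ofFn μ) A F = 0 := by
  have key : ∀ l, Gli G l → l.length = n + 1 → wt 0 0 l ≠ 0 →
      cup p l A F = cup p l A (fun l' => dL l' (psi S F)) := by
    intro l hl hlen hw
    obtain ⟨u, q, huq⟩ := wt_ne hw
    rw [cup_eq p l A _ (by omega), cup_eq p l A _ (by omega)]
    rcases take_drop_cases (p := p) (by omega) huq with ⟨c, hc, hcl⟩ | ⟨q', hq'⟩
    · have h1 : A (l.take (p + 1)) = 0 := by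
        rw [hc]
        refine hA0 c (gli_inl (G := G) ?_) hcl
        rw [← hc]
        exact Gli.sub hl (List.take_sublist _ _)
      rw [h1, zero_smul, zero_smul]
    · congr 1
      rw [hq', dL_psi]
      refine pairs_exact (k := k + 1) hS hF hF0 ?_ ?_
      · rw [← hq']
        exact Gli.sub hl (List.drop_sublist _ _)
      · have := congrArg List.length hq'
        rw [List.length_drop, List.length_map] at this
        omega
  have key2 : ∀ μ : Fin (n + 1) → V ⊕ V × V, (wt 0 0 (List.ofFn μ) * Bc μ) •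
      cup p (List.ofFn μ) A F = (wt 0 0 (List.ofFn μ) * Bc μ) •
      cup p (List.ofFn μ) A (fun l' => dL l' (psi S F)) := by
    intro μ
    by_cases h1 : wt 0 0 (List.ofFn μ) = 0
    · rw [h1, zero_mul, zero_smul, zero_smul]
    · by_cases h2 : Bc μ = 0
      · rw [h2, mul_zero, zero_smul, zero_smul]
      · rw [key _ (gl_ofFn.2 (hB' μ h2)) (by simp) h1]
  rw [Finset.sum_congr rfl fun μ _ => key2 μ]
  cases k with
  | zero =>
    refine Finset.sum_eq_zero fun μ _ => ?_
    by_cases h1 : wt 0 0 (List.ofFn μ) = 0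
    · rw [h1, zero_mul, zero_smul]
    by_cases h2 : Bc μ = 0
    · rw [h2, mul_zero, zero_smul]
    have hl := gl_ofFn.2 (hB' μ h2)
    obtain ⟨u, q, huq⟩ := wt_ne h1
    rw [cup_eq p _ A _ (by simp; omega)]
    rcases take_drop_cases (p := p) (by simp; omega) huq with ⟨c, hc, hcl⟩ | ⟨q', hq'⟩
    · have h3 : A ((List.ofFn μ).take (p + 1)) = 0 := by
        rw [hc]
        refine hA0 c (gli_inl (G := G) ?_) hcl
        rw [← hc]
        exact Gli.sub hl (List.take_sublist _ _)
      rw [h3, zero_smul, smul_zero]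
    · have h3 : q'.length = 1 := by
        have := congrArg List.length hq'
        rw [List.length_drop, List.length_map, List.length_ofFn] at this
        omega
      obtain ⟨a, rfl⟩ := List.length_eq_one_iff.1 h3
      rw [hq', dL_psi]
      have : dL [a] (fun q' => Hp S q' F) = 0 := by
        rw [dL_cons, dL_nil, sub_zero]
        rfl
      rw [this, smul_zero, smul_zero]
  | succ k =>
    have key3 : ∀ μ : Fin (n + 1) → V ⊕ V × V, (wt 0 0 (List.ofFn μ) * Bc μ) •
        cup p (List.ofFn μ) A (fun l' => dL l' (psi S F)) =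
        (-1 : ℝ) ^ p • ((wt 0 0 (List.ofFn μ) * ev Bc (List.ofFn μ)) •
          dL (List.ofFn μ) (fun l => cup p l A (psi S F))) := by
      intro μ
      rw [ev_ofFn]
      by_cases h2 : Bc μ = 0
      · rw [h2, mul_zero, zero_smul, zero_smul, smul_zero]
      · have hl := gl_ofFn.2 (hB' μ h2)
        rw [leib p _ A (psi S F) (by simp; omega)]
        have h3 : cup (p + 1) (List.ofFn μ) (fun l' => dL l' A) (psi S F) = 0 := by
          rw [cup_eq (p + 1) _ _ _ (by simp; omega), hA _ (Gli.sub hl (List.take_sublist _ _))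
            (by rw [List.length_take, List.length_ofFn]; omega), zero_smul]
        rw [h3, zero_add, smul_comm, smul_smul ((-1 : ℝ) ^ p), ← mul_pow]
        simp
    rw [Finset.sum_congr rfl fun μ _ => key3 μ, ← Finset.smul_sum,
      sum_wt n (wt 0 0) (ev Bc) (fun l => cup p l A (psi S F)) fun p x y q => hB.ev_swap' p x y q]
    simp only [iS_wt]
    rw [Finset.sum_eq_zero, smul_zero]
    intro ν _
    have h4 : ∑ x, ev Bc (x :: List.ofFn ν) * wt 0 0 (List.ofFn ν) =
        zh zt ν * wt 0 0 (List.ofFn ν) := by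
      rw [← hzB ν, Finset.sum_mul]
      refine Finset.sum_congr rfl fun x _ => ?_
      rw [← List.ofFn_cons, ev_ofFn]
    rw [h4]
    by_cases h5 : zh zt ν = 0
    · rw [h5, zero_mul, zero_smul]
    · have h6 : ∀ i, (ν i).isLeft := by
        by_contra h7
        exact h5 (if_neg h7)
      have h7 : ν = Sum.inl ∘ (lf ∘ ν) := by
        funext i
        have := h6 i
        rcases hi : ν i with v | q
        · simp [hi, lf]
        · rw [hi] at this
          simp at this
      have h8 : zt (lf ∘ ν) ≠ 0 := by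
        rw [h7, zh_inl] at h5
        exact h5
      have h9 : List.ofFn ν = (List.ofFn (lf ∘ ν)).map Sum.inl := by
        rw [List.map_ofFn, ← h7]
      have h10 : (List.ofFn (lf ∘ ν)).Pairwise G.Adj := by
        rw [List.pairwise_ofFn]
        exact fun i j hij => hzt _ h8 i j hij.ne
      rw [cup_eq p _ A _ (by simp; omega), h9, ← List.map_take,
        hA0 _ (h10.sublist (List.take_sublist _ _)) (by
          rw [List.length_take, List.length_ofFn]; omega), zero_smul, smul_zero]

end Pool.Agent.K4H70.RT
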