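import Pool.Agent.K4H70.RT.Asph
import Pool.Agent.K4H70.RT.Wt
import Pool.Agent.K4H70.RT.Bdy

/-!
Voltages and the fundamental cycle.
-/

set_option autoImplicit false
set_option linter.unusedSectionVars false
set_option linter.unusedVariables false

open scoped Classical

namespace Pool.Agent.K4H70.RT

open Pool.Agent.Q134.SV
open Pool.Agent.K4H70.SV hiding Zst zig_step zig_down zig_start

variable {P X V Z : Type} [Group P] {K : SimpleGraph X} {ι : V → X} {g : X → X → P}

variable (K ι g) in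
/-- `g` are voltages on the edges of the graph `K` with values in the group `P` which define a covering
`cov K g` of the flag complex of `K`: the product of the voltages of an edge and the inverse edge is 1
(`inv`), and so is the product of the voltages of the edges of a triangle (`tri`). Moreover (`fine`) the
closed paths with four edges in the boundary (the full subgraph on the vertices `ι v`) lift to closed
paths of the covering. -/
structure Vo : Prop where
  inv : ∀ u v, K.Adj u v → g v u = (g u v)⁻¹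
  tri : ∀ u v w, K.Adj u v → K.Adj v w → K.Adj u w → g u v * g v w = g u w
  fine : ∀ a b c d : V, K.Adj (ι a) (ι b) → K.Adj (ι b) (ι c) → K.Adj (ι c) (ι d) →
    K.Adj (ι d) (ι a) → g (ι a) (ι b) * g (ι b) (ι c) * g (ι c) (ι d) * g (ι d) (ι a) = 1

variable (K g) in
/-- The covering of the graph `K` defined by the voltages `g`: the vertices are the pairs `(p, x)`, and
there is an edge from `(p, x)` to `(p * g x y, y)` for each edge `xy` of `K`. The group `P` acts on it
by left multiplication on the first component. -/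
def cov : SimpleGraph (P × X) where
  Adj p q := K.Adj p.2 q.2 ∧ q.1 = p.1 * g p.2 q.2 ∧ p.1 = q.1 * g q.2 p.2
  symm := ⟨fun _ _ h => ⟨h.1.symm, h.2.2, h.2.1⟩⟩
  loopless := ⟨fun _ h => h.1.ne rfl⟩

lemma cov_sh : ShI (cov K g) := by
  intro γ y y'
  simp only [cov, sh]
  constructor
  · rintro ⟨h1, h2, h3⟩
    rw [mul_assoc, mul_right_inj] at h2 h3
    exact ⟨h1, h2, h3⟩
  · rintro ⟨h1, h2, h3⟩
    refine ⟨h1, ?_, ?_⟩
    · rw [mul_assoc, ← h2]
    · rw [mul_assoc, ← h3]

variable (K ι g) in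
/-- the voltage of paths of length two -/
noncomputable def GV (a b : V) : P :=
  if a = b then 1 else if K.Adj (ι a) (ι b) then g (ι a) (ι b) else
    if h : ∃ w, K.Adj (ι a) (ι w) ∧ K.Adj (ι w) (ι b) then
      g (ι a) (ι h.choose) * g (ι h.choose) (ι b) else 1

lemma GV_self (a : V) : GV K ι g a a = 1 := if_pos rfl

lemma GV_adj {a b : V} (h : (K.comap ι).Adj a b) : GV K ι g a b = g (ι a) (ι b) := by
  have h' : K.Adj (ι a) (ι b) := h
  unfold GV
  rw [if_neg (fun e => h'.ne (by rw [e])), if_pos h']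

variable (hg : Vo K ι g)

include hg

lemma Vo.GV_two {a b c : V} (hne : a ≠ b) (hab : ¬ (K.comap ι).Adj a b)
    (hac : (K.comap ι).Adj a c) (hcb : (K.comap ι).Adj c b) :
    GV K ι g a b = g (ι a) (ι c) * g (ι c) (ι b) := by
  replace hab : ¬ K.Adj (ι a) (ι b) := hab
  replace hac : K.Adj (ι a) (ι c) := hac
  replace hcb : K.Adj (ι c) (ι b) := hcb
  unfold GV
  have h : ∃ w, K.Adj (ι a) (ι w) ∧ K.Adj (ι w) (ι b) := ⟨c, hac, hcb⟩
  rw [if_neg hne, if_neg hab, dif_pos h]
  obtain ⟨h1, h2⟩ := h.choose_spec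
  have h3 := hg.fine a h.choose b c h1 h2 hcb.symm hac.symm
  rw [hg.inv _ _ hcb, hg.inv _ _ hac, mul_assoc, ← mul_inv_rev, mul_inv_eq_one] at h3
  exact h3

omit hg in
/-- the cases for adjacent labels -/
lemma la_cases {G : SimpleGraph V} {x y : V ⊕ V × V} (hx : Va G x) (hy : Va G y) (h : LA G x y) :
    lf x = lf y ∨ G.Adj (lf x) (lf y) ∨ (lf x ≠ lf y ∧ ¬ G.Adj (lf x) (lf y) ∧
      ∀ z, LA G x z → LA G y z → G.Adj (lf x) (lf z) ∧ G.Adj (lf y) (lf z)) := by
  have key : ∀ (p : V × V), Va G (Sum.inr p) → ∀ z, LA G (Sum.inl p.2) z → LA G (Sum.inr p) z →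
      G.Adj p.2 (lf z) ∧ G.Adj p.1 (lf z) := by
    intro p hp z h1 h2
    rcases z with u | q
    · rcases h2 with h3 | h3 | ⟨h3, h4⟩
      · exfalso
        subst h3
        exact hp.2 (SimpleGraph.Adj.symm h1)
      · exfalso
        subst h3
        exact (SimpleGraph.Adj.ne h1) rfl
      · exact ⟨h4.symm, h3.symm⟩
    · exact ⟨h2.2.2.1, h2.1⟩
  rcases x with u | p <;> rcases y with w | q
  · exact Or.inr (Or.inl h)
  · rcases h with h | h | ⟨h, h'⟩
    · exact Or.inl h
    · refine Or.inr (Or.inr ?_)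
      subst h
      exact ⟨fun e => hy.1 e.symm, fun e => hy.2 (SimpleGraph.Adj.symm e), fun z h1 h2 => key q hy z h1 h2⟩
    · exact Or.inr (Or.inl h)
  · rcases h with h | h | ⟨h, h'⟩
    · exact Or.inl h.symm
    · refine Or.inr (Or.inr ?_)
      subst h
      exact ⟨hx.1, hx.2, fun z h1 h2 => (key p hx z h2 h1).symm⟩
    · exact Or.inr (Or.inl h.symm)
  · exact Or.inr (Or.inl h.1)

lemma Vo.gcoc {x y z : V ⊕ V × V} (hx : Va (K.comap ι) x) (hy : Va (K.comap ι) y)
    (hz : Va (K.comap ι) z) (hxy : LA (K.comap ι) x y) (hyz : LA (K.comap ι) y z)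
    (hxz : LA (K.comap ι) x z) :
    GV K ι g (lf x) (lf y) * GV K ι g (lf y) (lf z) = GV K ι g (lf x) (lf z) := by
  rcases la_cases hx hy hxy with h1 | h1 | ⟨h1, h1', h1''⟩
  · rw [h1, GV_self, one_mul]
  · rcases la_cases hy hz hyz with h2 | h2 | ⟨h2, h2', h2''⟩
    · rw [h2, GV_self, mul_one]
    · rcases la_cases hx hz hxz with h3 | h3 | ⟨h3, h3', h3''⟩
      · rw [← h3, GV_self, GV_adj h1, GV_adj h1.symm, hg.inv _ _ h1, mul_inv_cancel]
      · rw [GV_adj h1, GV_adj h2, GV_adj h3]
        exact hg.tri _ _ _ h1 h2 h3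
      · rw [GV_adj h1, GV_adj h2, hg.GV_two h3 h3' h1 h2]
    · obtain ⟨h3, h4⟩ := h2'' x (la_symm hxy) (la_symm hxz)
      rw [GV_adj h1, hg.GV_two h2 h2' h3 h4.symm, GV_adj h4.symm, hg.inv _ _ h1, mul_inv_cancel_left]
  · obtain ⟨h3, h4⟩ := h1'' z hxz hyz
    rw [hg.GV_two h1 h1' h3 h4.symm, GV_adj h4, GV_adj h3, hg.inv _ _ h4, inv_mul_cancel_right]

omit hg

/-- the lift of a list -/
def lft (f : Z → X) (h : Z → Z → P) : List Z → List (P × X)
  | [] => []
  | x :: l => (1, f x) :: l.map fun y => (h x y, f y)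

lemma lft_snd (f : Z → X) (h : Z → Z → P) (l : List Z) : (lft f h l).map Prod.snd = l.map f := by
  cases l with
  | nil => rfl
  | cons x l =>
    simp only [lft, List.map_cons, List.map_map]
    rfl

lemma lft_length (f : Z → X) (h : Z → Z → P) (l : List Z) : (lft f h l).length = l.length := by
  cases l with
  | nil => rfl
  | cons x l => simp [lft]

lemma lft_take (f : Z → X) (h : Z → Z → P) (l : List Z) (p : ℕ) :
    (lft f h l).take (p + 1) = lft f h (l.take (p + 1)) := by
  cases l with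
  | nil => rfl
  | cons x l => simp [lft, List.map_take]

lemma lft_tail {f : Z → X} {h : Z → Z → P} {Φ : List (P × X) → ℝ} (hΦ : Inv Φ) (x : Z) :
    ∀ (l : List Z), (∀ y l', l = y :: l' → ∀ z ∈ l', h x y * h y z = h x z) →
      Φ (l.map fun y => (h x y, f y)) = Φ (lft f h l)
  | [], _ => rfl
  | y :: l, hl => by
    rw [← hΦ (h x y) (lft f h (y :: l))]
    congr 1
    simp only [lft, List.map_cons, List.map_map]
    congr 1
    · simp [sh]
    · refine List.map_congr_left fun z hz => ?_
      simp only [Function.comp_apply, sh]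
      rw [hl y l rfl z hz]

/-- the cocycle condition along a list -/
def Lco (h : Z → Z → P) (l : List Z) : Prop :=
  ∀ x y l', (x :: y :: l').Sublist l → ∀ z ∈ l', h x y * h y z = h x z

lemma Lco.sub {h : Z → Z → P} {l l' : List Z} (hl : Lco h l) (hs : l'.Sublist l) : Lco h l' :=
  fun x y l'' h1 z hz => hl x y l'' (h1.trans hs) z hz

lemma lft_dL {f : Z → X} {h : Z → Z → P} {Φ : List (P × X) → ℝ} (hΦ : Inv Φ) {l : List Z}
    (hl : Lco h l) : dL l (fun l' => Φ (lft f h l')) = dL (lft f h l) Φ := by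
  cases l with
  | nil => rfl
  | cons x l =>
    have h1 : lft f h (x :: l) = (1, f x) :: l.map fun y => (h x y, f y) := rfl
    rw [h1, dL_cons, dL_cons, dL_lmap]
    congr 1
    refine (lft_tail hΦ x l fun y l' e z hz => ?_).symm
    subst e
    exact hl x y l' (List.Sublist.refl _) z hz

lemma lft_drop {f : Z → X} {h : Z → Z → P} {Φ : List (P × X) → ℝ} (hΦ : Inv Φ) {l : List Z}
    (hl : Lco h l) (p : ℕ) : Φ ((lft f h l).drop p) = Φ (lft f h (l.drop p)) := by
  cases p with
  | zero => rfl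
  | succ p =>
    cases l with
    | nil => rfl
    | cons x l =>
      simp only [lft, List.drop_succ_cons]
      rw [← List.map_drop]
      refine lft_tail hΦ x _ fun y l' e z hz => ?_
      refine hl x y l' ?_ z hz
      rw [← e]
      exact List.Sublist.cons_cons x (List.drop_sublist _ _)

include hg

lemma Vo.lcoK {l : List X} (hl : l.Pairwise K.Adj) : Lco g l := by
  intro x y l' hs z hz
  have h1 := hl.sublist hs
  rw [List.pairwise_cons, List.pairwise_cons] at h1
  exact hg.tri x y z (h1.1 y List.mem_cons_self) (h1.2.1 z hz) (h1.1 z (List.mem_cons_of_mem _ hz))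

lemma Vo.lcoT {l : List (V ⊕ V × V)} (hl : Gli (K.comap ι) l) :
    Lco (fun x y => GV K ι g (lf x) (lf y)) l := by
  intro x y l' hs z hz
  have h1 := hl.2.sublist hs
  have h2 : ∀ w ∈ x :: y :: l', Va (K.comap ι) w := fun w hw => hl.1 w (hs.subset hw)
  rw [List.pairwise_cons, List.pairwise_cons] at h1
  exact hg.gcoc (h2 x List.mem_cons_self) (h2 y (List.mem_cons_of_mem _ List.mem_cons_self))
    (h2 z (List.mem_cons_of_mem _ (List.mem_cons_of_mem _ hz))) (h1.1 y List.mem_cons_self)
    (h1.2.1 z hz) (h1.1 z (List.mem_cons_of_mem _ hz))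

lemma Vo.clqK {l : List X} (hl : l.Pairwise K.Adj) : (lft id g l).Pairwise (cov K g).Adj := by
  cases l with
  | nil => exact List.Pairwise.nil
  | cons x l =>
    rw [List.pairwise_cons] at hl
    simp only [lft, List.pairwise_cons, List.pairwise_map]
    refine ⟨fun y hy => ?_, ?_⟩
    · obtain ⟨z, hz, rfl⟩ := List.mem_map.1 hy
      have h1 := hl.1 z hz
      refine ⟨h1, by simp, ?_⟩
      simp only [id_eq]
      rw [hg.inv _ _ h1, mul_inv_cancel]
    · refine hl.2.imp_of_mem fun {a b} ha hb hab => ⟨hab, ?_, ?_⟩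
      · exact (hg.tri x a b (hl.1 a ha) hab (hl.1 b hb)).symm
      · exact (hg.tri x b a (hl.1 b hb) hab.symm (hl.1 a ha)).symm

omit hg

lemma lftT_inl {c : List V} (hc : c.Pairwise (K.comap ι).Adj) :
    lft (ι ∘ lf) (fun x y => GV K ι g (lf x) (lf y)) (c.map Sum.inl) = lft id g (c.map ι) := by
  cases c with
  | nil => rfl
  | cons x c =>
    rw [List.pairwise_cons] at hc
    simp only [lft, List.map_cons, List.map_map]
    congr 1
    refine List.map_congr_left fun y hy => ?_
    simp only [Function.comp_apply, id_eq]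
    rw [show (lf (Sum.inl x : V ⊕ V × V)) = x from rfl, show (lf (Sum.inl y : V ⊕ V × V)) = y from rfl,
      GV_adj (hc.1 y hy)]

end Pool.Agent.K4H70.RT
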