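import Pool.Agent.K4H70.RT.Tr
import Pool.Agent.K4H70.RT.Volt

/-!
The staircases, and sums over the cycle.
-/

set_option autoImplicit false
set_option linter.unusedSectionVars false
set_option linter.unusedVariables false

open scoped Classical

namespace Pool.Agent.K4H70.RT

open Pool.Agent.Q134.SV
open Pool.Agent.K4H70.SV hiding Zst zig_step zig_down zig_start

variable {Γ Y V : Type} [Group Γ]

/-- iterated prisms over the unit -/
def Qk (gn : V → Γ) : List V → (List Γ → ℝ) → ℝ
  | [], C => C [1]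
  | x :: l, C => Qk gn l fun l' => Ps (gn x) l' C

/-- the list of the partial products -/
def ppl (gn : V → Γ) : List V → List Γ
  | [] => [1]
  | x :: l => 1 :: (ppl gn l).map (gn x * ·)

variable {gn : V → Γ}

lemma Qk_sub : ∀ (l : List V) (C C' : List Γ → ℝ),
    Qk gn l (fun l => C l - C' l) = Qk gn l C - Qk gn l C'
  | [], C, C' => rfl
  | y :: l, C, C' => by
    simp only [Qk, Ps_sub]
    exact Qk_sub l _ _

/-- removal of one entry -/
def mvs : List V → (V → List V → ℝ) → ℝ
  | [], _ => 0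
  | x :: l, R => R x l - mvs l fun t l' => R t (x :: l')

lemma mvs_congr : ∀ {l : List V} {R R' : V → List V → ℝ},
    (∀ t ∈ l, ∀ l', l'.Sublist l → R t l' = R' t l') → mvs l R = mvs l R'
  | [], R, R', _ => rfl
  | x :: l, R, R', h => by
    simp only [mvs]
    rw [h x List.mem_cons_self l (List.sublist_cons_self x l),
      mvs_congr fun t ht l' hl' => h t (List.mem_cons_of_mem _ ht) (x :: l') (hl'.cons_cons x)]

lemma mvs_sub : ∀ (l : List V) (R R' : V → List V → ℝ),
    mvs l (fun t l' => R t l' - R' t l') = mvs l R - mvs l R'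
  | [], R, R' => by simp [mvs]
  | x :: l, R, R' => by
    simp only [mvs]
    rw [mvs_sub l]
    ring

theorem Qk_mvs : ∀ (l : List V) (C : List Γ → ℝ), l ≠ [] →
    (l.Pairwise fun x y => gn x * gn y = gn y * gn x) →
    Qk gn l C = mvs l fun t l' => Qk gn l' fun l'' => C (1 :: l''.map (gn t * ·))
  | [], C, h, _ => absurd rfl h
  | [x], C, _, _ => by
    simp [Qk, mvs, Ps]
  | x :: y :: l, C, _, hc => by
    rw [List.pairwise_cons] at hc
    set l0 := y :: l with hl0
    have h1 : Qk gn (x :: l0) C = Qk gn l0 fun l' => Ps (gn x) l' C := rfl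
    rw [h1, Qk_mvs l0 _ (by rw [hl0]; simp) hc.2]
    have h2 : ∀ (t : V) (l' : List V), (Qk gn l' fun l'' => Ps (gn x) (1 :: l''.map (gn t * ·)) C) =
        (Qk gn l' fun l'' => C (1 :: (gn x * 1) :: (l''.map (gn t * ·)).map (gn x * ·))) -
          Qk gn l' fun l'' => Ps (gn x) (l''.map (gn t * ·)) fun l3 => C (1 :: l3) := by
      intro t l'
      rw [← Qk_sub]
      rfl
    simp only [h2]
    rw [mvs_sub]
    have h3 : mvs (x :: l0) (fun t l' => Qk gn l' fun l'' => C (1 :: l''.map (gn t * ·))) =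
        (Qk gn l0 fun l'' => C (1 :: l''.map (gn x * ·))) -
          mvs l0 (fun t l' => Qk gn (x :: l') fun l'' => C (1 :: l''.map (gn t * ·))) := rfl
    rw [h3, Qk_mvs l0 (fun l'' => C (1 :: l''.map (gn x * ·))) (by rw [hl0]; simp) hc.2]
    congr 1
    refine mvs_congr fun t ht l' _ => ?_
    simp only [Qk]
    congr 1
    funext l''
    exact Ps_comm (hc.1 t ht).symm l'' (fun l3 => C (1 :: l3))

lemma sum_mvs [Fintype V] : ∀ (m : ℕ) (Z : List V → ℝ) (R : V → List V → ℝ),
    (∀ p x y q, Z (p ++ x :: y :: q) = - Z (p ++ y :: x :: q)) →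
    ∑ s : Fin (m + 1) → V, Z (List.ofFn s) * mvs (List.ofFn s) R =
      ((m + 1 : ℕ) : ℝ) * ∑ v, ∑ s : Fin m → V, Z (v :: List.ofFn s) * R v (List.ofFn s)
  | 0, Z, R, hZ => by
    rw [sum_ofFn_succ (fun l => Z l * mvs l R)]
    simp [mvs]
  | m + 1, Z, R, hZ => by
    rw [sum_ofFn_succ (fun l => Z l * mvs l R)]
    have h1 : ∀ x, ∑ s : Fin (m + 1) → V, Z (x :: List.ofFn s) * mvs (x :: List.ofFn s) R =
        (∑ s : Fin (m + 1) → V, Z (x :: List.ofFn s) * R x (List.ofFn s)) -
        ((m + 1 : ℕ) : ℝ) * ∑ v, ∑ s : Fin m → V, Z (x :: v :: List.ofFn s) *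
          R v (x :: List.ofFn s) := by
      intro x
      rw [← sum_mvs m (fun l => Z (x :: l)) (fun t l' => R t (x :: l'))
        fun p a b q => hZ (x :: p) a b q, ← Finset.sum_sub_distrib]
      refine Finset.sum_congr rfl fun s _ => ?_
      simp only [mvs]
      ring
    rw [Finset.sum_congr rfl fun x _ => h1 x, Finset.sum_sub_distrib, ← Finset.mul_sum]
    have h2 : ∑ x, ∑ v, ∑ s : Fin m → V, Z (x :: v :: List.ofFn s) * R v (x :: List.ofFn s) =
        - ∑ v, ∑ s : Fin (m + 1) → V, Z (v :: List.ofFn s) * R v (List.ofFn s) := by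
      rw [Finset.sum_comm, ← Finset.sum_neg_distrib]
      refine Finset.sum_congr rfl fun v _ => ?_
      rw [sum_ofFn_succ (fun l => Z (v :: l) * R v l), ← Finset.sum_neg_distrib]
      refine Finset.sum_congr rfl fun x _ => ?_
      rw [← Finset.sum_neg_distrib]
      refine Finset.sum_congr rfl fun s _ => ?_
      have := hZ [] x v (List.ofFn s)
      simp only [List.nil_append] at this
      rw [this]
      ring
    rw [h2]
    push_cast
    ring

theorem sum_Qk [Fintype V] : ∀ (n : ℕ) (Z : List V → ℝ) (C : List Γ → ℝ),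
    (∀ p x y q, Z (p ++ x :: y :: q) = - Z (p ++ y :: x :: q)) →
    (∀ l, Z l ≠ 0 → l.Pairwise fun x y => gn x * gn y = gn y * gn x) →
    ∑ s : Fin n → V, Z (List.ofFn s) * Qk gn (List.ofFn s) C =
      (n.factorial : ℝ) * ∑ s : Fin n → V, Z (List.ofFn s) * C (ppl gn (List.ofFn s))
  | 0, Z, C, _, _ => by simp [Qk, ppl]
  | n + 1, Z, C, hZ, hc => by
    have h1 : ∀ s : Fin (n + 1) → V, Z (List.ofFn s) * Qk gn (List.ofFn s) C =
        Z (List.ofFn s) * mvs (List.ofFn s) fun t l' => Qk gn l' fun l'' =>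
          C (1 :: l''.map (gn t * ·)) := by
      intro s
      by_cases h0 : Z (List.ofFn s) = 0
      · rw [h0, zero_mul, zero_mul]
      · rw [Qk_mvs _ C (by simp) (hc _ h0)]
    rw [Finset.sum_congr rfl fun s _ => h1 s, sum_mvs n Z _ hZ]
    have h2 : ∀ v, ∑ s : Fin n → V, Z (v :: List.ofFn s) * (Qk gn (List.ofFn s) fun l'' =>
          C (1 :: l''.map (gn v * ·))) = (n.factorial : ℝ) * ∑ s : Fin n → V,
            Z (v :: List.ofFn s) * C (ppl gn (v :: List.ofFn s)) := fun v =>
      sum_Qk n (fun l => Z (v :: l)) (fun l'' => C (1 :: l''.map (gn v * ·)))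
        (fun p a b q => hZ (v :: p) a b q) fun l hl => (List.pairwise_cons.1 (hc _ hl)).2
    rw [Finset.sum_congr rfl fun v _ => h2 v, ← Finset.mul_sum,
      sum_ofFn_succ (fun l => Z l * C (ppl gn l)), Nat.factorial_succ]
    push_cast
    ring

lemma ppl_ofFn : ∀ {n : ℕ} (s : Fin n → V),
    ppl gn (List.ofFn s) = List.ofFn (Fin.partialProd (gn ∘ s))
  | 0, s => by
    simp [ppl]
  | n + 1, s => by
    rw [List.ofFn_succ, ppl, ppl_ofFn, List.map_ofFn]
    conv_rhs => rw [List.ofFn_succ, Fin.partialProd_zero]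
    congr 1
    congr 1
    funext i
    simp only [Function.comp_apply]
    rw [Fin.partialProd_succ']
    rfl

lemma EF_Qk : ∀ (k : ℕ) (l : List Y) (f : Y → V) (C : List Γ → ℝ), l.length = k + 1 →
    EF (gn ∘ f) (fun _ => (1 : Γ)) k l C = Qk gn (l.map f) C
  | 0, l, f, C, h => by
    obtain ⟨y, rfl⟩ := List.length_eq_one_iff.1 h
    rfl
  | k + 1, [], f, C, h => by simp at h
  | k + 1, y :: l, f, C, h => by
    simp only [EF, List.map_cons, Qk, Function.comp_apply]
    exact EF_Qk k l f _ (by simpa using h)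

/-! ### Vanishing of the remainders -/

lemma sum_er [Fintype V] : ∀ (m : ℕ) (Z : List V → ℝ) (R : ℕ → List V → ℝ),
    (∀ p x y q, Z (p ++ x :: y :: q) = - Z (p ++ y :: x :: q)) →
    (∀ l, ∑ v, Z (v :: l) = 0) → ∑ s : Fin m → V, Z (List.ofFn s) * er (List.ofFn s) R = 0
  | 0, Z, R, hZ, h0 => by simp [er]
  | m + 1, Z, R, hZ, h0 => by
    rw [sum_ofFn_succ (fun l => Z l * er l R)]
    simp only [er, mul_add, Finset.sum_add_distrib]
    rw [Finset.sum_comm]
    have h1 : ∀ s : Fin m → V, ∑ x, Z (x :: List.ofFn s) * R 0 (List.ofFn s) = 0 := by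
      intro s
      rw [← Finset.sum_mul, h0, zero_mul]
    rw [Finset.sum_eq_zero fun s _ => h1 s, zero_add]
    refine Finset.sum_eq_zero fun x _ => ?_
    refine sum_er m (fun l => Z (x :: l)) (fun j l' => R (j + 1) (x :: l'))
      (fun p a b q => hZ (x :: p) a b q) fun l => ?_
    have h2 : ∀ v, Z (x :: v :: l) = - Z (v :: x :: l) := fun v => hZ [] x v l
    rw [Finset.sum_congr rfl fun v _ => h2 v, Finset.sum_neg_distrib, h0, neg_zero]

lemma er_map {Z : Type} (f : Z → Y) : ∀ (l : List Z) (R : ℕ → List Y → ℝ),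
    er (l.map f) R = er l fun j l' => R j (l'.map f)
  | [], R => rfl
  | z :: l, R => by
    simp only [List.map_cons, er]
    rw [er_map f l]

lemma lft_er {P X Z : Type} [Group P] {f : Z → X} {h : Z → Z → P} {R : ℕ → List (P × X) → ℝ}
    (hR : ∀ j, Inv (R j)) {l : List Z} (hl : Lco h l) :
    er (lft f h l) R = er l fun j l' => R j (lft f h l') := by
  cases l with
  | nil => rfl
  | cons x l =>
    have h1 : lft f h (x :: l) = (1, f x) :: l.map fun y => (h x y, f y) := rfl
    rw [h1]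
    simp only [er]
    rw [er_map]
    congr 1
    refine lft_tail (hR 0) x l fun y l' e z hz => ?_
    subst e
    exact hl x y l' (List.Sublist.refl _) z hz

end Pool.Agent.K4H70.RT
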