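import Pool.Agent.K4H70.RT.Tr2
import Pool.Agent.K4H70.RT.Key

/-!
The transfer to the Coxeter group.
-/

set_option autoImplicit false
set_option linter.unusedSectionVars false
set_option linter.unusedVariables false

open scoped Classical

namespace Pool.Agent.K4H70.RT

open Pool.Agent.Q134.SV
open Pool.Agent.K4H70.SV hiding Zst zig_step zig_down zig_start
open Pool.Agent.W907.SG (W)

variable {P X V Γ : Type} [Group P] [Group Γ] [Fintype X] [Fintype V] {K : SimpleGraph X}
  {ι : V → X} {g : X → X → P} {n : ℕ} {z : (Fin (n + 1) → X) → ℝ}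

lemma EE_top {Y : Type} {sg pt : Y → Γ} : ∀ (k : ℕ) (l : List Y) (B : List Γ → ℝ),
    l.length = k + 1 → EE sg pt (k + 1) l B = 0
  | 0, l, B, h => by
    obtain ⟨y, rfl⟩ := List.length_eq_one_iff.1 h
    rfl
  | k + 1, [], B, h => by simp at h
  | k + 1, y :: l, B, h => by
    simp only [EE]
    exact EE_top k l _ (by simpa using h)

lemma ev_len {Y : Type} {m : ℕ} (c : (Fin m → Y) → ℝ) {l : List Y} (h : l.length ≠ m) :
    ev c l = 0 := by
  by_contra h0
  obtain ⟨y, rfl, _⟩ := ev_ne h0
  exact h (by simp)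

/-- the boundary of the fundamental chain -/
lemma bd_K (hM : MPair n K ι z) (hg : Vo K ι g) {Φ : List (P × X) → ℝ} (hΦ : Inv Φ) :
    ∑ x : Fin (n + 1) → X, z x * dL (lft id g (List.ofFn x)) Φ =
      ((n : ℝ) + 1) * ∑ t : Fin n → V, zT ι z t * Φ (lft id g ((List.ofFn t).map ι)) := by
  have h2 : ∀ x : Fin (n + 1) → X, z x * dL (lft id g (List.ofFn x)) Φ =
      z x • tc (fun _ => (LinearMap.id : ℝ →ₗ[ℝ] ℝ))
        (fun s => Φ (lft id g (List.ofFn s))) x := by
    intro x
    by_cases h0 : z x = 0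
    · rw [h0, zero_mul, zero_smul]
    · rw [← lft_dL hΦ (hg.lcoK (pwK hM h0)), dL_ofFn, smul_eq_mul]
  rw [Finset.sum_congr rfl fun x _ => h2 x, sum_alt _ hM.pair.alt, smul_eq_mul]
  congr 1
  rw [Finset.sum_comm]
  simp only [LinearMap.id_coe, id_eq, smul_eq_mul]
  have h4 : ∀ y : Fin n → X, ∑ x, z (Fin.cons x y) * Φ (lft id g (List.ofFn y)) =
      (∑ x, z (Fin.cons x y)) * Φ (lft id g (List.ofFn y)) := fun y => by rw [Finset.sum_mul]
  rw [Finset.sum_congr rfl fun y _ => h4 y, ← sum_sub_tuple hM.inj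
    (fun y => (∑ x, z (Fin.cons x y)) * Φ (lft id g (List.ofFn y)))]
  · refine Finset.sum_congr rfl fun t _ => ?_
    rw [List.map_ofFn]
    rfl
  · rintro y ⟨i, hi⟩
    by_cases h5 : ∑ x, z (Fin.cons x y) = 0
    · simp only [h5, zero_mul]
    · exact absurd (hM.pair.boundary y h5 i) hi

/-- lifts of lists of the boundary -/
def lftV (ι : V → X) (g : X → X → P) : List V → List (P × V) := lft id fun a b => g (ι a) (ι b)

lemma lftV_map (l : List V) : (lftV ι g l).map (fun y => (y.1, ι y.2)) = lft id g (l.map ι) := by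
  cases l with
  | nil => rfl
  | cons x l =>
    simp only [lftV, lft, List.map_cons, List.map_map]
    rfl

lemma zT_sum_cons (hM : MPair n K ι z) (l : List V) : ∑ v, ev (zT ι z) (v :: l) = 0 := by
  by_cases hl : l.length + 1 = n
  · obtain ⟨m, rfl⟩ : ∃ m, n = m + 1 := ⟨l.length, hl.symm⟩
    obtain ⟨y, rfl⟩ := list_ofFn_of_length (k := m) l (by omega)
    have h1 := cons_of_update hM.zT_cycle.cyc y
    rw [← h1]
    refine Finset.sum_congr rfl fun v _ => ?_
    rw [← List.ofFn_cons, ev_ofFn]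
  · exact Finset.sum_eq_zero fun v _ => ev_len _ (by rw [List.length_cons]; exact hl)

theorem pair_zero_of_zeroSV (hM : MPair n K ι z) (hg : Vo K ι g) (hn : 1 ≤ n) {pp : P →* Γ}
    {sg : P × V → Γ} (hsg : ∀ γ y, sg (sh γ y) = pp γ * sg y * (pp γ)⁻¹)
    (hcomm : ∀ y y' : P × V, K.Adj (ι y.2) (ι y'.2) → y'.1 = y.1 * g (ι y.2) (ι y'.2) →
      sg y * sg y' = sg y' * sg y)
    {θ : Γ →* W (K.comap ι)} (hθs : ∀ y, θ (sg y) = gen (K.comap ι) y.2) (hθp : ∀ γ, θ (pp γ) = 1)
    (H : Subgroup Γ) (hH : H.index ≠ 0) (hε : H ≤ ((par (K.comap ι)).comp θ).ker)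
    (hz : ZeroSV n H) {c : (Fin (n + 1) → W (K.comap ι)) → ℝ} (hc : Good (K.comap ι) n c) :
    pair (gen (K.comap ι)) (zT ι z) c = 0 := by
  obtain ⟨Cb, hC⟩ := hc.bdd
  set ε : Γ →* ℤˣ := (par (K.comap ι)).comp θ with hεd
  have hεH : ∀ h : H, ε h = 1 := fun h => MonoidHom.mem_ker.1 (hε h.2)
  set c' : (Fin (n + 1) → Γ) → ℝ := fun s => c (θ ∘ s) with hc'
  have hc'e : ∀ (w : Γ) s, c' (fun i => w * s i) = ((ε w : ℤ) : ℝ) * c' s := by
    intro w s
    have := equiv_of_gen _ hc.gen (θ w) (θ ∘ s)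
    have e : θ ∘ (fun i => w * s i) = fun i => θ w * (θ ∘ s) i := by
      funext i
      simp
    simp only [hc', e]
    exact this
  have hc'd : ∀ s : Fin (n + 2) → Γ, cobd c' s = 0 := fun s => hc.coc (θ ∘ s)
  obtain ⟨b, hb, hbc⟩ := hz (fun s => c' fun i => (s i : Γ))
    (fun h s => by
      have := hc'e (h : Γ) (fun i => (s i : Γ))
      rw [hεH] at this
      simpa using this)
    (fun s => hc'd fun i => (s i : Γ)) ⟨Cb, fun s => hC _⟩
  obtain ⟨b', hb', hbc'⟩ := transfer ε H hH hε c' hc'e hc'd b hb hbc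
  set B : List Γ → ℝ := ev b' with hB
  set C : List Γ → ℝ := fun l => ev c (l.map θ) with hCd
  have hBC : (fun l => dL l B) = C := by
    funext l
    by_cases hl : l.length = n + 1
    · obtain ⟨v, rfl⟩ := list_ofFn_of_length (k := n + 1) l hl
      have h1 := hbc' v
      simp only [hCd, List.map_ofFn, ev_ofFn]
      rw [dL_ofFn]
      simp only [hB, ev_ofFn]
      exact h1
    · simp only [hCd]
      rw [ev_len c (by simpa using hl)]
      exact dL_zero_of fun l' hl' => ev_len _ (by omega)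
  have hBe : ∀ (w : Γ) (l : List Γ), B (l.map (w * ·)) = ((ε w : ℤ) : ℝ) * B l := by
    intro w l
    by_cases hl : l.length = n
    · obtain ⟨v, rfl⟩ := list_ofFn_of_length (k := n) l hl
      simp only [hB, List.map_ofFn, ev_ofFn]
      exact hb' w v
    · simp only [hB]
      rw [ev_len _ (by simpa using hl), ev_len _ hl, mul_zero]
  have hBs : ∀ (y : P × V) (l : List Γ), B (l.map (sg y * ·)) = - B l := by
    intro y l
    rw [hBe]
    have : ε (sg y) = -1 := by
      rw [hεd, MonoidHom.comp_apply, hθs, par_gen]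
    rw [this]
    simp
  have hBp : ∀ (γ : P) (l : List Γ), B (l.map (pp γ * ·)) = B l := by
    intro γ l
    rw [hBe]
    have : ε (pp γ) = 1 := by
      rw [hεd, MonoidHom.comp_apply, hθp, map_one]
    rw [this]
    simp
  set pt : P × V → Γ := fun y => pp y.1 with hpt
  have hpt' : ∀ γ y, pt (sh γ y) = pp γ * pt y := by
    intro γ y
    simp only [hpt, sh, map_mul]
  have hdeg : ∀ p y q, (ev c) (p ++ y :: y :: q) = 0 := by
    intro p y q
    by_contra h0
    obtain ⟨s, hs, hs'⟩ := ev_ne h0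
    apply hs'
    have hlen : (p ++ y :: y :: q).length = n + 1 := by rw [hs]; simp
    rw [List.length_append, List.length_cons, List.length_cons] at hlen
    have hp : p.length < n := by omega
    refine hc.nrm s ⟨p.length, hp⟩ ?_
    have e1 : s (Fin.castSucc ⟨p.length, hp⟩) = (List.ofFn s)[p.length]'(by simp; omega) := by
      rw [List.getElem_ofFn]; rfl
    have e2 : s (Fin.succ ⟨p.length, hp⟩) = (List.ofFn s)[p.length + 1]'(by simp; omega) := by
      rw [List.getElem_ofFn]; rfl
    rw [e1, e2]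
    simp only [← hs]
    rw [List.getElem_append_right (le_refl _), List.getElem_append_right (by omega)]
    simp
  -- the sums
  set Sm : (List (P × V) → ℝ) → ℝ := fun E => ∑ x : Fin n → V, ev (zT ι z) (List.ofFn x) *
    E (lftV ι g (List.ofFn x)) with hSm
  have hZa : ∀ p x y q, ev (zT ι z) (p ++ x :: y :: q) = - ev (zT ι z) (p ++ y :: x :: q) :=
    fun p x y q => Alt.ev_swap' hM.zT_alt p x y q
  have hpw : ∀ l : List V, ev (zT ι z) l ≠ 0 → l.Pairwise (K.comap ι).Adj := by
    intro l hl
    obtain ⟨t, rfl, ht⟩ := ev_ne hl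
    exact pwT hM ht
  have hlcc : ∀ l : List V, l.Pairwise (K.comap ι).Adj → Lco (fun a b => g (ι a) (ι b)) l := by
    intro l hl x y l' hs w hw
    have h1 := hl.sublist hs
    rw [List.pairwise_cons, List.pairwise_cons] at h1
    exact hg.tri _ _ _ (h1.1 y List.mem_cons_self) (h1.2.1 w hw) (h1.1 w (List.mem_cons_of_mem _ hw))
  have hlc : ∀ l : List V, l.Pairwise (K.comap ι).Adj →
      (lftV ι g l).Pairwise fun y y' => sg y * sg y' = sg y' * sg y := by
    intro l hl
    have h1 := hg.clqK (l := l.map ι) (by rw [List.pairwise_map]; exact hl)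
    rw [← lftV_map, List.pairwise_map] at h1
    exact h1.imp fun {y y'} h => hcomm y y' h.1 h.2.1
  have hrec : ∀ k, k + 1 ≤ n → Sm (fun l => EF sg pt k l C) =
      (-1 : ℝ) ^ (k + 1) * (2 * Sm (fun l => EE sg pt k l B) + Sm (fun l => EE sg pt (k + 1) l B)) := by
    intro k hk
    have h1 : ∀ x : Fin n → V, ev (zT ι z) (List.ofFn x) *
        EF sg pt k (lftV ι g (List.ofFn x)) C = (-1 : ℝ) ^ (k + 1) *
        (2 * (ev (zT ι z) (List.ofFn x) * EE sg pt k (lftV ι g (List.ofFn x)) B) +
          ev (zT ι z) (List.ofFn x) * EE sg pt (k + 1) (lftV ι g (List.ofFn x)) B) +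
        ev (zT ι z) (List.ofFn x) * er (List.ofFn x)
          (fun j l' => RZ sg pt k B j (lftV ι g l')) := by
      intro x
      by_cases h0 : ev (zT ι z) (List.ofFn x) = 0
      · rw [h0]; ring
      · have h2 := EF_dL (sg := sg) (pt := pt) k (lftV ι g (List.ofFn x)) B (by
          rw [lftV, lft_length, List.length_ofFn]; exact hk) (fun y _ l' => hBs y l')
          (hlc _ (hpw _ h0))
        rw [hBC] at h2
        have h3 : er (lftV ι g (List.ofFn x)) (RZ sg pt k B) = er (List.ofFn x)
          (fun j l' => RZ sg pt k B j (lftV ι g l')) := by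
          refine lft_er (fun j γ l => ?_) (hlcc _ (hpw _ h0))
          rw [RZ_map (σ := sh) (pp := pp) hpt' hsg]
          simp only [hBp]
        rw [h2, h3]
        ring
    simp only [hSm]
    rw [Finset.sum_congr rfl fun x _ => h1 x, Finset.sum_add_distrib,
      sum_er n (ev (zT ι z)) _ hZa (zT_sum_cons hM), add_zero, ← Finset.mul_sum,
      Finset.sum_add_distrib, ← Finset.mul_sum]
  have hEF : ∀ k (l : List (P × V)), EF sg pt k l C =
      EF (gen (K.comap ι) ∘ Prod.snd) (fun _ => (1 : W (K.comap ι))) k l (ev c) := by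
    intro k l
    simp only [hCd]
    rw [EF_hom θ k l (ev c)]
    congr 1
    · funext y
      exact hθs y
    · funext y
      exact hθp y.1
  have hlow : ∀ k, k + 2 ≤ n → Sm (fun l => EF sg pt k l C) = 0 := by
    intro k hk
    refine Finset.sum_eq_zero fun x _ => ?_
    beta_reduce
    rw [hEF, EF_deg k _ hdeg (by rw [lftV, lft_length, List.length_ofFn]; exact hk) fun _ => rfl,
      mul_zero]
  -- the bottom
  have h0 : Sm (fun l => EE sg pt 0 l B) = 0 := by
    have h1 := bd_K hM hg (Φ := fun l => B (l.map fun y => pp y.1)) (fun γ l => by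
      beta_reduce
      rw [← hBp γ (l.map fun y => pp y.1), List.map_map, List.map_map]
      congr 1
      refine List.map_congr_left fun y _ => ?_
      simp [sh])
    have h2 : ∑ x : Fin (n + 1) → X, z x * dL (lft id g (List.ofFn x))
        (fun l => B (l.map fun y => pp y.1)) = 0 := by
      refine Finset.sum_eq_zero fun x _ => ?_
      rw [← dL_lmap, congrFun hBC]
      simp only [hCd]
      have h3 : ((lft id g (List.ofFn x)).map fun y => pp y.1).map θ =
          [] ++ 1 :: 1 :: List.replicate (n - 1) 1 := by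
        rw [List.map_map]
        have e : ((θ : Γ → W (K.comap ι)) ∘ fun y : P × X => pp y.1) = Function.const _ 1 := by
          funext y
          exact hθp y.1
        rw [e, List.map_const, lft_length, List.length_ofFn]
        have : n + 1 = (n - 1) + 2 := by omega
        rw [this, List.replicate_succ, List.replicate_succ]
        rfl
      rw [h3, hdeg, mul_zero]
    rw [h2] at h1
    have h3 : ((n : ℝ) + 1) ≠ 0 := by positivity
    have h4 := (mul_eq_zero.1 h1.symm).resolve_left h3
    rw [← h4]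
    refine Finset.sum_congr rfl fun t _ => ?_
    rw [ev_ofFn, ← lftV_map]
    simp only [EE, List.map_map]
    rfl
  have hall : ∀ k, k + 1 ≤ n → Sm (fun l => EE sg pt k l B) = 0 := by
    intro k
    induction k with
    | zero => intro _; exact h0
    | succ k ih =>
      intro hk
      have h1 := hrec k (by omega)
      rw [hlow k (by omega), ih (by omega), mul_zero, zero_add] at h1
      exact (mul_eq_zero.1 h1.symm).resolve_left (pow_ne_zero _ (by norm_num))
  obtain ⟨m, rfl⟩ : ∃ m, n = m + 1 := ⟨n - 1, by omega⟩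
  have h1 := hrec m le_rfl
  rw [hall m le_rfl] at h1
  have h2 : Sm (fun l => EE sg pt (m + 1) l B) = 0 := by
    refine Finset.sum_eq_zero fun x _ => ?_
    beta_reduce
    rw [EE_top m _ _ (by rw [lftV, lft_length, List.length_ofFn]), mul_zero]
  rw [h2, mul_zero, add_zero, mul_zero] at h1
  have h3 : Sm (fun l => EF sg pt m l C) = ∑ x : Fin (m + 1) → V, ev (zT ι z) (List.ofFn x) *
      Qk (gen (K.comap ι)) (List.ofFn x) (ev c) := by
    refine Finset.sum_congr rfl fun x _ => ?_
    beta_reduce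
    rw [hEF, EF_Qk m _ _ _ (by rw [lftV, lft_length, List.length_ofFn]), lftV, lft_snd, List.map_id]
  rw [h3, sum_Qk (m + 1) _ _ hZa fun l hl => (hpw l hl).imp fun {a b} h => gen_comm _ h] at h1
  have h4 : (((m + 1).factorial : ℕ) : ℝ) ≠ 0 := by positivity
  have h5 := (mul_eq_zero.1 h1).resolve_left h4
  rw [← h5]
  unfold pair
  refine Finset.sum_congr rfl fun x _ => ?_
  rw [ppl_ofFn, ev_ofFn, ev_ofFn]

end Pool.Agent.K4H70.RT
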