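import Pool.Agent.K4H70.RT.Com

/-!
The zigzag: start and end.
-/

set_option autoImplicit false
set_option linter.unusedSectionVars false
set_option linter.unusedVariables false

open scoped Classical

namespace Pool.Agent.K4H70.RT

open Pool.Agent.Q134.SV
open Pool.Agent.K4H70.SV hiding Zst zig_step zig_down zig_start

variable {X : Type} [Fintype X] {Ω : Type} {G : SimpleGraph X}
  {S : X → (Ω → ℝ) →ₗ[ℝ] (Ω → ℝ)} {k : ℕ} {N : (Fin (k + 1) → X) → Finset X → Ω → ℝ}

lemma lt_empty {m : ℕ} {s : Fin m → X} (hs : CT G s) : LT G ∅ s :=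
  ⟨hs, fun _ u hu => absurd hu (Finset.notMem_empty u)⟩

lemma cq_empty : Cq G (∅ : Finset X) := fun a ha => absurd ha (Finset.notMem_empty a)

lemma cq_single (v : X) : Cq G ({v} : Finset X) := by
  intro a ha b hb hab
  rw [Finset.mem_singleton] at ha hb
  exact absurd (ha.trans hb.symm) hab

/-- the end of the zigzag, second form -/
lemma zig_close2 (h : Zst G S N 1) :
    ∃ p : (Fin k → X) → Finset X → Ω → ℝ, Alt p ∧
      (∀ s (v : X), S v (p s {v}) = p s {v}) ∧
      ∀ s : Fin (k + 2) → X, CT G s →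
        tc Xo N s ∅ = - tc (Io (Ω → ℝ)) (fun s => tc Xo p s ∅) s := by
  obtain ⟨p, q, hp, hq, hpi, hqi, heq⟩ := h
  refine ⟨p, hp, fun s v => hpi {v} (cq_single v) (Finset.card_singleton v) s v
    (Finset.mem_singleton_self v), fun s hs => ?_⟩
  have h1 : tc (Io (Ω → ℝ)) (fun s => tc Xo p s ∅) s =
      tc (Io (Finset X → Ω → ℝ)) (tc Xo p) s ∅ := by
    rw [tc_I_apply]
  rw [h1, tc_I_X, Pi.neg_apply, neg_neg]
  have h3 : tc Xo (tc (Io (Finset X → Ω → ℝ)) p) s ∅ =
      tc Xo (fun s => N s + tc Xo q s) s ∅ := by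
    rw [tc_X_apply, tc_X_apply]
    refine Finset.sum_congr rfl fun i _ => ?_
    congr 1
    exact heq _ ((lt_empty hs).cq cq_empty i) (by simp) _ ((lt_empty hs).sub i)
  rw [h3, tc_add, tc_X_X, add_zero]

/-- the starting cochain -/
noncomputable def stq {m : ℕ} (z : (Fin m → X) → ℝ) (β : List X → Ω → ℝ) (k : ℕ)
    (s : Fin k → X) (t : List X) : Ω → ℝ :=
  ((Nz z k t)⁻¹ * ev z (t ++ List.ofFn s)) • β t

lemma stq_perm {m : ℕ} {z : (Fin m → X) → ℝ} (hz : Alt z) {β : List X → Ω → ℝ}
    (hβ : ∀ p x y q, β (p ++ x :: y :: q) = - β (p ++ y :: x :: q)) {s : Fin k → X}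
    {t t' : List X} (ht : t.Perm t') : stq z β k s t = stq z β k s t' := by
  refine sym_of_swap' (fun p x y q => ?_) ht
  have h1 : ∀ l : List X, ev z ((p ++ x :: y :: q) ++ l) = - ev z ((p ++ y :: x :: q) ++ l) := by
    intro l
    have := hz.ev_swap' p x y (q ++ l)
    simpa using this
  unfold stq Nz
  simp only [h1, neg_mul_neg]
  rw [hβ, mul_neg, neg_smul, smul_neg, neg_neg]

/-- the start of the zigzag -/
theorem zig_start (hS : Com G S) {m l : ℕ} {z : (Fin m → X) → ℝ} (hz : Alt z)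
    (hz' : ∀ v, z v ≠ 0 → ∀ i j, i ≠ j → G.Adj (v i) (v j)) (hN : Dat G S N)
    (hl : l + (k + 1) = m) (hl1 : 1 ≤ l)
    (hnz : ∀ t : List X, t.Pairwise G.Adj → t.length = l + 1 → Nz z k t ≠ 0)
    {β : List X → Ω → ℝ} (hβ : ∀ p x y q, β (p ++ x :: y :: q) = - β (p ++ y :: x :: q))
    (hβi : ∀ t, ∀ v ∈ t, S v (β t) = β t) (hβ0 : ∀ t, ¬ t.Pairwise G.Adj → β t = 0)
    (I : Finset X → Prop)
    (hex : ∀ τ, Cq G τ → τ.card = l → ∀ f : (Fin (k + 1) → X) → ℝ, Alt f →
      (I τ → ∑ s : Fin (k + 1) → X, ev z (τ.toList ++ List.ofFn s) * f s = 0) →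
      ∃ g : (Fin k → X) → ℝ, Alt g ∧ ∀ s : Fin (k + 1) → X, LT G τ s → f s = cobd g s)
    (heq : ∀ τ, Cq G τ → τ.card = l → I τ →
      ∑ s : Fin (k + 1) → X, ev z (τ.toList ++ List.ofFn s) • N s τ = ∑ v, β (v :: τ.toList)) :
    Zst G S N l := by
  set cst : ℝ := - (-1 : ℝ) ^ l / ((k : ℝ) + 1) with hcst
  have hk1 : ((k : ℝ) + 1) ≠ 0 := by positivity
  set q : (Fin k → X) → Finset X → Ω → ℝ := fun s τ => cst • stq z β k s τ.toList with hq
  have hqa : Alt q := by
    intro v i j hij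
    funext τ
    have := (hz.ev_ofFn τ.toList k) v i j hij
    simp only at this
    simp only [hq, Pi.neg_apply]
    unfold stq
    rw [this, mul_neg, neg_smul, smul_neg]
  have hqi : ∀ τ, Cq G τ → τ.card = l + 1 → ∀ s, ∀ v ∈ τ, S v (q s τ) = q s τ := by
    intro τ _ _ s v hv
    simp only [hq]
    unfold stq
    rw [map_smul, map_smul, hβi _ v (Finset.mem_toList.2 hv)]
  refine zig_step hS hl1 hN hqa hqi fun τ hτ hcard ω => ?_
  have hpw : τ.toList.Pairwise G.Adj := hτ.pairwise (List.Perm.refl _)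
  have hlen : τ.toList.length = l := by rw [Finset.length_toList, hcard]
  refine hex τ hτ hcard _ ?_ fun hI => ?_
  · intro v i j hij
    have h2 : Alt (tc Xo q) := hqa.tc _
    simp only
    rw [hN.alt v i j hij, h2 v i j hij]
    simp only [Pi.neg_apply, Pi.add_apply]
    ring
  · -- the pairing
    have hζa : Alt fun s : Fin (k + 1) → X => ev z (τ.toList ++ List.ofFn s) :=
      hz.ev_ofFn _ _
    have h1 := heq τ hτ hcard hI
    have h2 := sum_alt Xo hζa q
    have h3 := congrFun h2 τ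
    have h4 : ∀ v : X, ∑ s : Fin k → X, ev z (τ.toList ++ List.ofFn (Fin.cons v s)) •
        (Xo v (q s)) τ = (cst * (-1 : ℝ) ^ l) • β (v :: τ.toList) := by
      intro v
      by_cases hv : (v :: τ.toList).Pairwise G.Adj
      · have hvT : v ∉ τ := by
          intro h'
          exact ((List.pairwise_cons.1 hv).1 v (Finset.mem_toList.2 h')).ne rfl
        have h5 : ∀ s : Fin k → X, (Xo v (q s)) τ = cst • stq z β k s (v :: τ.toList) := by
          intro s
          change q s (insert v τ) = _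
          simp only [hq]
          rw [stq_perm hz hβ (Finset.toList_insert hvT)]
        have h6 : ∀ s : Fin k → X, ev z (τ.toList ++ List.ofFn (Fin.cons v s)) =
            (-1 : ℝ) ^ l * ev z ((v :: τ.toList) ++ List.ofFn s) := by
          intro s
          rw [List.ofFn_cons, hz.ev_move, hlen]
          rfl
        simp only [h5, h6]
        unfold stq
        have h7 : ∀ s : Fin k → X, ((-1 : ℝ) ^ l * ev z ((v :: τ.toList) ++ List.ofFn s)) •
            cst • ((Nz z k (v :: τ.toList))⁻¹ * ev z ((v :: τ.toList) ++ List.ofFn s)) •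
            β (v :: τ.toList) = (ev z ((v :: τ.toList) ++ List.ofFn s) *
            ev z ((v :: τ.toList) ++ List.ofFn s)) • ((cst * (-1 : ℝ) ^ l *
            (Nz z k (v :: τ.toList))⁻¹) • β (v :: τ.toList)) := by
          intro s
          rw [smul_smul, smul_smul, smul_smul]
          congr 1
          ring
        rw [Finset.sum_congr rfl fun s _ => h7 s, ← Finset.sum_smul, smul_smul]
        congr 1
        have h8 : Nz z k (v :: τ.toList) ≠ 0 := hnz _ hv (by rw [List.length_cons, hlen])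
        have h9 : ∑ s : Fin k → X, ev z ((v :: τ.toList) ++ List.ofFn s) *
            ev z ((v :: τ.toList) ++ List.ofFn s) = Nz z k (v :: τ.toList) := rfl
        rw [h9]
        field_simp
      · have h5 : ∀ s : Fin k → X, ev z (τ.toList ++ List.ofFn (Fin.cons v s)) = 0 := by
          intro s
          by_contra h0
          apply hv
          have h6 := pw_ev hz' h0
          rw [List.ofFn_cons, List.pairwise_append] at h6
          exact List.pairwise_cons.2 ⟨fun u hu => (h6.2.2 u hu v List.mem_cons_self).symm, hpw⟩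
        simp only [h5, zero_smul, Finset.sum_const_zero, hβ0 _ hv, smul_zero]
    have h10 : ∑ s : Fin (k + 1) → X, ev z (τ.toList ++ List.ofFn s) •
        (N s τ + tc Xo q s τ) = 0 := by
      simp only [smul_add, Finset.sum_add_distrib]
      have h12 : ∑ s : Fin (k + 1) → X, ev z (τ.toList ++ List.ofFn s) • tc Xo q s τ =
          - ∑ v, β (v :: τ.toList) := by
        have h13 : ∑ s : Fin (k + 1) → X, ev z (τ.toList ++ List.ofFn s) • tc Xo q s τ =
            (∑ s : Fin (k + 1) → X, ev z (τ.toList ++ List.ofFn s) • tc Xo q s) τ := by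
          rw [Finset.sum_apply]
          rfl
        rw [h13, h3, Pi.smul_apply, Finset.sum_apply]
        have h14 : ∀ v : X, (∑ s : Fin k → X, ev z (τ.toList ++ List.ofFn (Fin.cons v s)) •
            Xo v (q s)) τ = (cst * (-1 : ℝ) ^ l) • β (v :: τ.toList) := by
          intro v
          rw [← h4 v, Finset.sum_apply]
          rfl
        rw [Finset.sum_congr rfl fun v _ => h14 v, ← Finset.smul_sum, smul_smul]
        have h15 : ((k : ℝ) + 1) * (cst * (-1 : ℝ) ^ l) = -1 := by
          have h16 : (-1 : ℝ) ^ l * (-1 : ℝ) ^ l = 1 := by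
            rw [← mul_pow]; simp
          rw [hcst]
          field_simp
          linarith
        rw [h15, neg_smul, one_smul]
      rw [h1, h12, add_neg_cancel]
    have h17 := congrFun h10 ω
    rw [Finset.sum_apply] at h17
    exact h17

/-- the zigzag down to level one -/
theorem zig_run (hS : Com G S) (hN : Dat G S N) {l : ℕ} (hl1 : 1 ≤ l) (h : Zst G S N l)
    (hex : ∀ b, 1 ≤ b → b < l → ∀ τ, Cq G τ → τ.card = b →
      (∃ m : Ω → ℝ, m ≠ 0 ∧ ∀ v ∈ τ, S v m = m) →
      ∀ f : (Fin (k + 1) → X) → ℝ, Alt f → (∀ s : Fin (k + 2) → X, LT G τ s → cobd f s = 0) →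
      ∃ g : (Fin k → X) → ℝ, Alt g ∧ ∀ s : Fin (k + 1) → X, LT G τ s → f s = cobd g s) :
    Zst G S N 1 := by
  have key : ∀ j b : ℕ, 1 ≤ b → b + j = l → Zst G S N b := by
    intro j
    induction j with
    | zero =>
      intro b _ hb
      rw [add_zero] at hb
      rwa [hb]
    | succ j ih =>
      intro b hb1 hb
      exact zig_down hS hN hb1 (hex b hb1 (by omega)) (ih (b + 1) (by omega) (by omega))
  exact key (l - 1) 1 le_rfl (by omega)

/-- the top-level start without obstruction -/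
lemma zig_top {b : ℕ} (hb : ∀ τ, Cq G τ → τ.card ≤ b) : Zst G S N (b + 1) :=
  ⟨fun _ => 0, fun _ => 0, fun _ _ _ _ => by simp, fun _ _ _ _ => by simp,
    fun τ hτ hc => absurd (hb τ hτ) (by omega), fun τ hτ hc => absurd (hb τ hτ) (by omega),
    fun τ hτ hc => absurd (hb τ hτ) (by omega)⟩

section mm

variable (hS : Com G S) {α : (Fin (k + 1) → X) → Ω → ℝ} (hα : Alt α)

include hS in
lemma com_tc_mm (hc : ∀ s : Fin (k + 2) → X, CT G s → tc (Pr S (-1)) α s = 0) {τ : Finset X}
    (hτ : Cq G τ) {s : Fin (k + 2) → X} (hs : LT G τ s) :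
    tc (Io (Finset X → Ω → ℝ)) (mm S α) s τ = tc Xo (mm S α) s τ := by
  rw [tc_I_apply, tc_X_apply]
  have h1 : tc (Io (Ω → ℝ)) (fun s => mm S α s τ) s = PF S 1 τ (tc (Io (Ω → ℝ)) α s) :=
    tc_comm (Io (Ω → ℝ)) (PF S 1 τ) α s fun _ _ => rfl
  have h2 : tc (Io (Ω → ℝ)) α s =
      ∑ i : Fin (k + 2), (-1 : ℝ) ^ (i : ℕ) • Pr S 1 (s i) (α (s ∘ i.succAbove)) := by
    have h3 := hc s hs.1
    unfold tc at h3 ⊢
    rw [← add_zero (∑ i : Fin (k + 2), (-1 : ℝ) ^ (i : ℕ) • Pr S 1 (s i) (α (s ∘ i.succAbove))),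
      ← h3, ← Finset.sum_add_distrib]
    refine Finset.sum_congr rfl fun i _ => ?_
    rw [← smul_add, Pr_add]
    rfl
  rw [h1, h2, map_sum]
  refine Finset.sum_congr rfl fun i _ => ?_
  rw [map_smul, PF_comm_of]
  · unfold mm
    rw [hS.PF_insert 1 (hs.notMem i) (hs.cq hτ i)]
  · intro v hv m
    exact hS.S_Pr_comm (hs.2 i v hv) 1 m

include hS hα in
lemma dat_mm (hc : ∀ s : Fin (k + 2) → X, CT G s → tc (Pr S (-1)) α s = 0) :
    Dat G S (mm S α) := by
  refine ⟨?_, ?_, ?_⟩
  · intro v i j hij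
    funext τ
    unfold mm
    rw [hα v i j hij, map_neg]
    rfl
  · intro τ hτ _ s v hv
    unfold mm
    rw [hS.S_PF (by norm_num) hτ hv, one_smul]
  · intro τ hτ _ s hs
    exact com_tc_mm hS hc hτ hs

include hS hα in
/-- the result of the zigzag for twisted cocycles: they are projections of constant cocycles -/
theorem mm_close (hc : ∀ s : Fin (k + 2) → X, CT G s → tc (Pr S (-1)) α s = 0)
    (hαn : ∀ s i, S (s i) (α s) = - α s)
    (h : Zst G S (mm S α) 1) :
    ∃ χ : (Fin (k + 1) → X) → Ω → ℝ, Alt χ ∧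
      (∀ s : Fin (k + 2) → X, CT G s → tc (Io (Ω → ℝ)) χ s = 0) ∧
      ∀ s, CT G s → PF S (-1) (Finset.univ.image s) (χ s) = α s := by
  obtain ⟨p, hp, hpi, hcl⟩ := zig_close (dat_mm hS hα hc) h fun s hs =>
    com_tc_mm hS hc cq_empty (lt_empty hs)
  refine ⟨fun s => mm S α s ∅ + tc Xo p s ∅, ?_, hcl, fun s hs => ?_⟩
  · have h1 : Alt (tc Xo p) := hp.tc _
    intro v i j hij
    simp only
    rw [(dat_mm hS hα hc).alt v i j hij, h1 v i j hij]
    simp only [Pi.neg_apply]
    abel
  · rw [map_add]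
    have hC := cq_image hs
    have h1 : PF S (-1) (Finset.univ.image s) (mm S α s ∅) = α s := by
      unfold mm
      rw [PF_empty]
      refine PF_of (by norm_num) fun v hv => ?_
      obtain ⟨i, _, rfl⟩ := Finset.mem_image.1 hv
      rw [hαn, neg_smul, one_smul]
    have h2 : PF S (-1) (Finset.univ.image s) (tc Xo p s ∅) = 0 := by
      rw [tc_X_apply, map_sum]
      refine Finset.sum_eq_zero fun i _ => ?_
      rw [map_smul, hS.PF_zero (by norm_num) hC (v := s i)
        (Finset.mem_image_of_mem s (Finset.mem_univ i)), smul_zero]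
      rw [neg_neg, one_smul]
      exact hpi _ _
    rw [h1, h2, add_zero]

end mm

end Pool.Agent.K4H70.RT
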